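import Pool.Agent.W_4b1b5d_h78.Top
import Pool.Agent.W_4b1b5d_h3.Contra

set_option autoImplicit false

namespace Pool.W4b1b5d.E

open Pool.W4b1b5d.H3 Polynomial

/-- `w^(M-1) R_Y(1/w)`. -/
noncomputable def QW (I : ID) (M : ℕ) (h : ℝ) (x : V2) : ℂ[X] :=
  ∑ t ∈ Finset.range (2 * M + 1), C (((M : ℂ) - t) * Bt I h ((M : ℤ) - t) x) * X ^ t

/-- `w^(M-1) dd R(1/w)`. -/
noncomputable def NW (I : ID) (M : ℕ) (h : ℝ) (x : V2) : ℂ[X] :=
  ∑ t ∈ Finset.range (2 * M), C (dd I.al (Bt I h ((M : ℤ) - 1 - t)) x) * X ^ t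

theorem PropW_dvd_iff (P : ℂ[X]) (t : ℂ) (m : ℕ) :
    (X - C t) ^ m ∣ P ↔ (m : ℕ∞) ≤ analyticOrderAt (fun z => P.eval z) t := by
  have hP : ∀ Q : ℂ[X], AnalyticAt ℂ (fun z => Q.eval z) t := fun Q =>
    AnalyticOnNhd.eval_polynomial Q t (Set.mem_univ t)
  constructor
  · rintro ⟨G, hG⟩
    rw [natCast_le_analyticOrderAt (hP P)]
    refine ⟨fun z => G.eval z, hP G, Filter.Eventually.of_forall fun z => ?_⟩
    rw [hG, eval_mul, eval_pow, eval_sub, eval_X, eval_C, smul_eq_mul]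
  · intro h
    by_cases h0 : P = 0
    · rw [h0]
      exact dvd_zero _
    obtain ⟨G, hG, hnd⟩ := Polynomial.exists_eq_pow_rootMultiplicity_mul_and_not_dvd P h0 t
    have h1 : analyticOrderAt (fun z => P.eval z) t = (P.rootMultiplicity t : ℕ∞) := by
      rw [(hP P).analyticOrderAt_eq_natCast]
      refine ⟨fun z => G.eval z, hP G, ?_, Filter.Eventually.of_forall fun z => ?_⟩
      · intro h2
        exact hnd (Polynomial.dvd_iff_isRoot.mpr h2)
      · conv_lhs => rw [hG]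
        rw [eval_mul, eval_pow, eval_sub, eval_X, eval_C, smul_eq_mul]
    rw [h1] at h
    have h2 : m ≤ P.rootMultiplicity t := by exact_mod_cast h
    exact (pow_dvd_pow _ h2).trans (Polynomial.pow_rootMultiplicity_dvd P t)

theorem PropW_iter (d : ℕ) (u : ℕ → ℂ) (i : ℕ) : ∀ (k : ℕ) {p : ℂ}, p ≠ 0 →
    iteratedDeriv i (fun q => Lk d u k q) p = Lk d u (k + i) p := by
  induction i with
  | zero =>
    intro k p hp
    rw [iteratedDeriv_zero]
    rfl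
  | succ i ih =>
    intro k p hp
    rw [iteratedDeriv_succ]
    have h1 : iteratedDeriv i (fun q => Lk d u k q) =ᶠ[nhds p] fun q => Lk d u (k + i) q := by
      filter_upwards [isOpen_ne.mem_nhds hp] with q hq using ih k hq
    rw [h1.deriv_eq, (Lk_hasDerivAt d u (k + i) hp).deriv]
    rfl

theorem PropW_analytic (d : ℕ) (u : ℕ → ℂ) (k : ℕ) {p : ℂ} (hp : p ≠ 0) :
    AnalyticAt ℂ (fun q => Lk d u k q) p := by
  have h1 : DifferentiableOn ℂ (fun q => Lk d u k q) {q | q ≠ 0} := fun q hq =>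
    (Lk_hasDerivAt d u k hq).differentiableAt.differentiableWithinAt
  exact h1.analyticAt (isOpen_ne.mem_nhds hp)

theorem PropW_even_sum (n : ℕ) (g : ℕ → ℂ) (hg : ∀ j, Odd j → g j = 0) :
    ∑ j ∈ Finset.range (2 * n + 1), g j = ∑ t ∈ Finset.range (n + 1), g (2 * (n - t)) := by
  have h1 : ∑ j ∈ Finset.range (2 * n + 1), g j = ∑ t ∈ Finset.range (n + 1), g (2 * t) := by
    induction n with
    | zero => simp
    | succ n ih =>
      rw [show 2 * (n + 1) + 1 = 2 * n + 1 + 1 + 1 by ring, Finset.sum_range_succ,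
        Finset.sum_range_succ, ih, Finset.sum_range_succ _ (n + 1), hg (2 * n + 1) ⟨n, rfl⟩,
        add_zero]
      rfl
  rw [h1, ← Finset.sum_range_reflect]
  refine Finset.sum_congr rfl fun t ht => ?_
  rfl

theorem PropW_F (I : ID) (N : ℕ) (hN : I.n = 2 * N) (M' : ℕ) (h : ℝ) (x : V2) (c : ℕ → ℂ)
    (hc : ∀ j : ℕ, c j = I.beta h ((j : ℤ) - ((2 * (M' + 1) : ℕ) : ℤ)) x) (p : ℂ) (hp : p ≠ 0) :
    Lk (2 * (M' + 1)) c 1 p =
      2 * p ^ (2 * M' + 1) * (QW I (M' + 1) h x).eval ((p ^ 2)⁻¹) := by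
  unfold Lk QW
  rw [PropW_even_sum, eval_finsetSum, Finset.mul_sum]
  · refine Finset.sum_congr rfl fun t ht => ?_
    rw [Finset.mem_range] at ht
    rw [eval_mul, eval_C, eval_pow, eval_X, hc, Build_fall_one]
    have e1 : ((2 * (2 * (M' + 1) - t) : ℕ) : ℤ) - ((2 * (M' + 1) : ℕ) : ℤ) =
        2 * (((M' + 1 : ℕ) : ℤ) - t) := by omega
    rw [e1]
    have e2 : (2 * (((M' + 1 : ℕ) : ℤ) - t) - ((1 : ℕ) : ℤ)) =
        ((2 * M' + 1 : ℕ) : ℤ) - ((2 * t : ℕ) : ℤ) := by push_cast; ring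
    rw [e2, zpow_sub₀ hp, zpow_natCast, zpow_natCast]
    unfold Bt
    rw [inv_pow, ← pow_mul, div_eq_mul_inv]
    push_cast
    ring
  · intro j hj
    have h1 : c j = 0 := by
      rw [hc]
      apply I.beta_par
      obtain ⟨k, hk⟩ := hj
      refine ⟨(k : ℤ) - (M' + 1) + N, ?_⟩
      rw [hN, hk]
      push_cast
      ring
    rw [h1, zero_mul, zero_mul]

theorem PropW_G (I : ID) (N : ℕ) (hN : I.n = 2 * N) (M' : ℕ) (h : ℝ) (x : V2) (c : ℕ → ℂ)
    (hc : ∀ j : ℕ, c j = dd I.al (I.beta h ((j : ℤ) - ((2 * (M' + 1) : ℕ) : ℤ))) x)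
    (hz : dd I.al (Bt I h ((M' + 1 : ℕ) : ℤ)) x = 0) (p : ℂ) (hp : p ≠ 0) :
    Lk (2 * (M' + 1)) c 0 p =
      p ^ (2 * M') * (NW I (M' + 1) h x).eval ((p ^ 2)⁻¹) := by
  unfold Lk NW
  rw [PropW_even_sum, Finset.sum_range_succ', eval_finsetSum, Finset.mul_sum]
  · have e0 : c (2 * (2 * (M' + 1) - 0)) = 0 := by
      rw [hc, ← hz]
      unfold Bt
      congr 2
      omega
    rw [e0, zero_mul, zero_mul, add_zero]
    refine Finset.sum_congr rfl fun t ht => ?_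
    rw [Finset.mem_range] at ht
    rw [eval_mul, eval_C, eval_pow, eval_X, hc, Build_fall_zero]
    have e1 : ((2 * (2 * (M' + 1) - (t + 1)) : ℕ) : ℤ) - ((2 * (M' + 1) : ℕ) : ℤ) =
        2 * (((M' + 1 : ℕ) : ℤ) - 1 - t) := by omega
    rw [e1]
    have e2 : (2 * (((M' + 1 : ℕ) : ℤ) - 1 - t) - ((0 : ℕ) : ℤ)) =
        ((2 * M' : ℕ) : ℤ) - ((2 * t : ℕ) : ℤ) := by push_cast; ring
    rw [e2, zpow_sub₀ hp, zpow_natCast, zpow_natCast, inv_pow, ← pow_mul, div_eq_mul_inv]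
    unfold Bt
    push_cast
    ring
  · intro j hj
    have h1 : c j = 0 := by
      rw [hc]
      refine Build_dd_zero I.al (fun y => ?_) x
      apply I.beta_par
      obtain ⟨k, hk⟩ := hj
      refine ⟨(k : ℤ) - (M' + 1) + N, ?_⟩
      rw [hN, hk]
      push_cast
      ring
    rw [h1, zero_mul, zero_mul]

theorem PropW_comp (P : ℂ[X]) (p0 : ℂ) (hp0 : p0 ≠ 0) :
    analyticOrderAt ((fun z => P.eval z) ∘ fun p : ℂ => (p ^ 2)⁻¹) p0 =
      analyticOrderAt (fun z => P.eval z) ((p0 ^ 2)⁻¹) := by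
  have h2 : p0 ^ 2 ≠ 0 := pow_ne_zero 2 hp0
  have hg : AnalyticAt ℂ (fun p : ℂ => (p ^ 2)⁻¹) p0 := (analyticAt_id.pow 2).inv h2
  have hd : HasDerivAt (fun p : ℂ => (p ^ 2)⁻¹) (-(((2 : ℕ) : ℂ) * p0 ^ (2 - 1)) / (p0 ^ 2) ^ 2) p0 :=
    (hasDerivAt_pow 2 p0).inv h2
  refine analyticOrderAt_comp_of_deriv_ne_zero hg ?_
  rw [hd.deriv]
  refine div_ne_zero (neg_ne_zero.mpr (mul_ne_zero ?_ (pow_ne_zero _ hp0))) (pow_ne_zero _ h2)
  norm_num

/-- TASK PropW.  The Proposition (`LD` `prop2`) for `Y = 1/w`, `Y = p^2`.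

Proof.  By `build` (with `s0 = 2 M`) there is `D : LD` with `D.al = I.al`, `D.l = ell h`,
`D.c j = beta h (j - D.d)` and all `beta h s = 0` for `s > D.d`; so `D.d = 2 M` (`D.c (2 D.d) = D.a ≠ 0`,
`htop`, `hbig`; `beta` of odd index vanishes, `I.beta_par`).  Let `p0^2 = 1 / w`, so
`|D.l x| < ‖p0‖^2`.
`R(p) = ∑_s beta_s p^s = ∑_k Bt k p^(2k)`.  Let `F(p) = R_p(p)`; for `p ≠ 0`:
`F(p) = 2 p R_Y(p^2) = 2 p^(2M-1) QW(1/p^2)`.  If `QW = (X - C w)^m G` then near `p0`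
`F(p) = (1/p^2 - w)^m * (smooth)`, and `1/p^2 - w = - w (p - p0)(p + p0) / p^2`; so the Laurent
polynomial `F` vanishes to order `≥ m` at `p0`, i.e. `D.R i x p0 = 0` for `1 ≤ i ≤ m` (for instance:
the polynomial `p^(2d) F(p) ∈ ℂ[p]` is divisible by `(p - p0)^m`; and the derivatives
`D.R i`, `1 ≤ i ≤ m`, are the derivatives of `F` of order `< m`, `Lk` is the derivative of a Laurent
polynomial, see `LkDer`).  By `prop2` `D.R1 i x p0 = 0` for all `i < m`, so `dd R(p)` vanishes to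
order `≥ m` at `p0`; it is even in `p`, so also at `-p0`; `dd R(p) = p^(2M-2) NW(1/p^2)`
(`dd (Bt M) = 0`), so `NW(1/p^2)`, hence `NW(w')` vanishes to order `≥ m` at `w' = w` (the map
`p ↦ 1/p^2` is a local biholomorphism; or with polynomials: `(p^2 - p0^2)^m` divides
`p^(2 deg) NW(1/p^2)`, a polynomial in `p^2`). -/
theorem propW (I : ID) (N : ℕ) (hN : I.n = 2 * N) (M : ℕ) (hM : 1 ≤ M) (h : ℝ) (a : ℂ)
    (ha : a ≠ 0) (htop : ∀ x, Bt I h M x = a)
    (hbig : ∀ (k : ℤ) (x : V2), (M : ℤ) < k → Bt I h k x = 0) (x : V2) (w : ℂ) (hw0 : w ≠ 0)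
    (hw : |I.ell h x| * ‖w‖ < 1) (m : ℕ) (hQ : (X - C w) ^ m ∣ QW I M h x) :
    (X - C w) ^ m ∣ NW I M h x := by
  obtain ⟨M', rfl⟩ : ∃ M', M = M' + 1 := ⟨M - 1, by omega⟩
  obtain ⟨p0, hp0⟩ : ∃ p0 : ℂ, p0 ^ 2 = w⁻¹ := IsAlgClosed.exists_pow_nat_eq w⁻¹ (by norm_num)
  have hp00 : p0 ≠ 0 := by
    rintro rfl
    rw [zero_pow two_ne_zero] at hp0
    exact inv_ne_zero hw0 hp0.symm
  have hwp : (p0 ^ 2)⁻¹ = w := by rw [hp0, inv_inv]
  have hne : I.beta h (2 * ((M' + 1 : ℕ) : ℤ)) x ≠ 0 := by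
    have h1 := htop x
    unfold Bt at h1
    rw [h1]
    exact ha
  obtain ⟨D, hDal, hDl, hDc, hDbig⟩ := build I h x (2 * ((M' + 1 : ℕ) : ℤ)) (by omega) hne
  have hDd : D.d = 2 * (M' + 1) := by
    have h1 : ¬ D.d < 2 * (M' + 1) := fun hlt =>
      hne (hDbig _ (by push_cast; omega) x)
    have h2 : ¬ 2 * (M' + 1) < D.d := by
      intro hlt
      have h3 := D.top x
      rw [hDc] at h3
      have e1 : ((2 * D.d : ℕ) : ℤ) - (D.d : ℤ) = D.d := by push_cast; ring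
      rw [e1] at h3
      apply D.ha
      rw [← h3]
      rcases Nat.even_or_odd D.d with he | ho
      · obtain ⟨k, hk⟩ := he
        have h4 := hbig (k : ℤ) x (by push_cast; omega)
        unfold Bt at h4
        rw [← h4]
        congr 1
        omega
      · apply I.beta_par
        obtain ⟨k, hk⟩ := ho
        refine ⟨(k : ℤ) + N, ?_⟩
        rw [hN, hk]
        push_cast
        ring
    omega
  have hc : ∀ j : ℕ, D.c j x = I.beta h ((j : ℤ) - ((2 * (M' + 1) : ℕ) : ℤ)) x := by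
    intro j
    rw [hDc, hDd]
  have hc1 : ∀ j : ℕ, dd D.al (D.c j) x =
      dd I.al (I.beta h ((j : ℤ) - ((2 * (M' + 1) : ℕ) : ℤ))) x := by
    intro j
    rw [hDal]
    congr 1
    funext y
    rw [hDc, hDd]
  have hz : dd I.al (Bt I h ((M' + 1 : ℕ) : ℤ)) x = 0 := by
    have h1 : Bt I h ((M' + 1 : ℕ) : ℤ) = fun _ => a := funext htop
    rw [h1]
    unfold dd
    refine Finset.sum_eq_zero fun i _ => ?_
    rw [fderiv_const_apply]
    simp
  have hlt : |D.l x| < ‖p0‖ ^ 2 := by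
    rw [hDl, ← norm_pow, hp0, norm_inv]
    have hwn : 0 < ‖w‖ := norm_pos_iff.mpr hw0
    rw [← one_div]
    exact (lt_div_iff₀ hwn).mpr hw
  have hordQ : (m : ℕ∞) ≤ analyticOrderAt (fun z => (QW I (M' + 1) h x).eval z) w :=
    (PropW_dvd_iff _ _ _).mp hQ
  have hPA : ∀ Q : ℂ[X], AnalyticAt ℂ ((fun z => Q.eval z) ∘ fun p : ℂ => (p ^ 2)⁻¹) p0 := by
    intro Q
    have h2 : p0 ^ 2 ≠ 0 := pow_ne_zero 2 hp00
    exact AnalyticAt.comp (AnalyticOnNhd.eval_polynomial Q _ (Set.mem_univ _))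
      ((analyticAt_id.pow 2).inv h2)
  have hpow : ∀ k : ℕ, AnalyticAt ℂ (fun q : ℂ => q ^ k) p0 := fun k => analyticAt_id.pow k
  have hF : (fun q => Lk D.d (fun j => D.c j x) 1 q) =ᶠ[nhds p0]
      (fun q : ℂ => 2 * q ^ (2 * M' + 1)) *
        ((fun z => (QW I (M' + 1) h x).eval z) ∘ fun p : ℂ => (p ^ 2)⁻¹) := by
    filter_upwards [isOpen_ne.mem_nhds hp00] with q hq
    rw [hDd]
    exact PropW_F I N hN M' h x _ hc q hq
  have hFord : (m : ℕ∞) ≤ analyticOrderAt (fun q => Lk D.d (fun j => D.c j x) 1 q) p0 := by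
    have h2p : AnalyticAt ℂ (fun q : ℂ => 2 * q ^ (2 * M' + 1)) p0 :=
      analyticAt_const.mul (hpow _)
    rw [analyticOrderAt_congr hF, analyticOrderAt_mul h2p (hPA _),
      PropW_comp _ _ hp00, hwp]
    exact hordQ.trans le_add_self
  have hRi : ∀ i, 1 ≤ i → i ≤ m → D.R i x p0 = 0 := by
    intro i h1 h2
    have h3 := (natCast_le_analyticOrderAt_iff_iteratedDeriv_eq_zero
      (PropW_analytic D.d (fun j => D.c j x) 1 hp00)).mp hFord (i - 1) (by omega)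
    rw [PropW_iter _ _ _ _ hp00, show 1 + (i - 1) = i by omega] at h3
    exact h3
  have hR1 := prop2 D x p0 hlt m hRi
  have hGord : (m : ℕ∞) ≤
      analyticOrderAt (fun q => Lk D.d (fun j => dd D.al (D.c j) x) 0 q) p0 := by
    refine (natCast_le_analyticOrderAt_iff_iteratedDeriv_eq_zero
      (PropW_analytic D.d (fun j => dd D.al (D.c j) x) 0 hp00)).mpr fun i hi => ?_
    rw [PropW_iter _ _ _ _ hp00, zero_add]
    exact hR1 i hi
  have hG : (fun q => Lk D.d (fun j => dd D.al (D.c j) x) 0 q) =ᶠ[nhds p0]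
      (fun q : ℂ => q ^ (2 * M')) *
        ((fun z => (NW I (M' + 1) h x).eval z) ∘ fun p : ℂ => (p ^ 2)⁻¹) := by
    filter_upwards [isOpen_ne.mem_nhds hp00] with q hq
    rw [hDd]
    exact PropW_G I N hN M' h x _ hc1 hz q hq
  have h0 : analyticOrderAt (fun q : ℂ => q ^ (2 * M')) p0 = 0 := by
    rw [analyticOrderAt_eq_zero]
    exact Or.inr (pow_ne_zero _ hp00)
  rw [analyticOrderAt_congr hG, analyticOrderAt_mul (hpow _) (hPA _), h0, zero_add,
    PropW_comp _ _ hp00, hwp] at hGord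
  exact (PropW_dvd_iff _ _ _).mpr hGord

end Pool.W4b1b5d.E
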