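import Mathlib

set_option autoImplicit false

namespace Pool.W4b1b5d.E

open PowerSeries

section

variable {S : Type*} [CommRing S]

/-- Coefficientwise application of a map. -/
noncomputable def cmap (δ : S → S) (f : PowerSeries S) : PowerSeries S :=
  PowerSeries.mk fun n => δ (PowerSeries.coeff n f)

/-- The Euler operator `w d/dw`. -/
noncomputable def eul (f : PowerSeries S) : PowerSeries S :=
  PowerSeries.mk fun n => (n : S) * PowerSeries.coeff n f

theorem coeff_cmap (δ : S → S) (f : PowerSeries S) (n : ℕ) :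
    PowerSeries.coeff n (cmap δ f) = δ (PowerSeries.coeff n f) := by
  unfold cmap
  rw [PowerSeries.coeff_mk]

theorem coeff_eul (f : PowerSeries S) (n : ℕ) :
    PowerSeries.coeff n (eul f) = (n : S) * PowerSeries.coeff n f := by
  unfold eul
  rw [PowerSeries.coeff_mk]

end

variable {S : Type*} [CommRing S] [Algebra ℂ S]

/-- The transport operator on `Y^K f(1/Y)`:
`LK K f = d2 f + w (l d1 f + 2 u (K f - w f'))`. -/
noncomputable def LK (d1 d2 : Derivation ℂ S S) (l u : S) (K : ℕ) (f : PowerSeries S) :
    PowerSeries S :=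
  cmap d2 f + PowerSeries.X * (PowerSeries.C l * cmap d1 f
    + PowerSeries.C (2 * u) * ((K : PowerSeries S) * f - eul f))

/-- TASK AlgS (1).  Leibniz rule for coefficientwise derivations (`PowerSeries.coeff_mul`,
`Derivation.leibniz`). -/
theorem cmap_mul (d : Derivation ℂ S S) (f g : PowerSeries S) :
    cmap d (f * g) = cmap d f * g + f * cmap d g := by
  ext n
  rw [coeff_cmap, map_add, PowerSeries.coeff_mul, PowerSeries.coeff_mul, PowerSeries.coeff_mul,
    map_sum, ← Finset.sum_add_distrib]
  apply Finset.sum_congr rfl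
  intro p _
  rw [Derivation.leibniz, coeff_cmap, coeff_cmap, smul_eq_mul, smul_eq_mul]
  ring

/-- TASK AlgS (2).  The Euler operator is a derivation. -/
theorem eul_mul (f g : PowerSeries S) : eul (f * g) = eul f * g + f * eul g := by
  ext n
  rw [coeff_eul, map_add, PowerSeries.coeff_mul, PowerSeries.coeff_mul, PowerSeries.coeff_mul,
    Finset.mul_sum, ← Finset.sum_add_distrib]
  apply Finset.sum_congr rfl
  intro p hp
  have hp' : p.1 + p.2 = n := Finset.HasAntidiagonal.mem_antidiagonal.mp hp
  rw [coeff_eul, coeff_eul, ← hp']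
  push_cast
  ring

/-- TASK AlgS (3).  Leibniz rule for `LK`. -/
theorem LK_mul (d1 d2 : Derivation ℂ S S) (l u : S) (K K' : ℕ) (f g : PowerSeries S) :
    LK d1 d2 l u (K + K') (f * g) = LK d1 d2 l u K f * g + f * LK d1 d2 l u K' g := by
  unfold LK
  rw [cmap_mul, cmap_mul, eul_mul]
  push_cast
  ring

/-- TASK AlgS (4).  Powers: `LK (p*M) (r^p) = p r^(p-1) LK M r`. -/
theorem LK_pow (d1 d2 : Derivation ℂ S S) (l u : S) (M p : ℕ) (r : PowerSeries S) :
    LK d1 d2 l u (p * M) (r ^ p) = (p : PowerSeries S) * r ^ (p - 1) * LK d1 d2 l u M r := by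
  have h0 : LK d1 d2 l u 0 (1 : PowerSeries S) = 0 := by
    have h := LK_mul d1 d2 l u 0 0 (1 : PowerSeries S) 1
    simp only [add_zero, mul_one, one_mul] at h
    exact left_eq_add.mp h
  induction p with
  | zero => simpa using h0
  | succ k ih =>
    have e1 : (k + 1) * M = k * M + M := by ring
    rw [e1, pow_succ, LK_mul, ih]
    rcases k with _ | m
    · simp
    · simp only [Nat.add_sub_cancel]
      push_cast
      ring

/-- TASK AlgS (5).  `LK N (c w^i q^(N-i)) = c (N-i) w^i q^(N-i-1) LK 1 q` for a constant `c`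
(`w^i` has weight `i` and `LK i (w^i) = 0` because `i w^i - eul (w^i) = 0`). -/
theorem LK_term (d1 d2 : Derivation ℂ S S) (l u : S) (N i : ℕ) (hi : i ≤ N) (c : ℂ)
    (q : PowerSeries S) :
    LK d1 d2 l u N (PowerSeries.C (algebraMap ℂ S c) * PowerSeries.X ^ i * q ^ (N - i))
      = PowerSeries.C (algebraMap ℂ S c) * PowerSeries.X ^ i
          * (((N - i : ℕ) : PowerSeries S) * q ^ (N - i - 1) * LK d1 d2 l u 1 q) := by
  have hC : LK d1 d2 l u 0 (PowerSeries.C (algebraMap ℂ S c)) = 0 := by
    have hd : ∀ d : Derivation ℂ S S,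
        cmap d (PowerSeries.C (algebraMap ℂ S c)) = 0 := by
      intro d
      ext n
      rw [coeff_cmap, PowerSeries.coeff_C]
      split_ifs <;> simp
    have he : eul (PowerSeries.C (algebraMap ℂ S c)) = 0 := by
      ext n
      rw [coeff_eul, PowerSeries.coeff_C]
      split_ifs with h
      · simp [h]
      · simp
    unfold LK
    rw [hd, hd, he]
    simp
  have hX : LK d1 d2 l u i ((PowerSeries.X : PowerSeries S) ^ i) = 0 := by
    have hd : ∀ d : Derivation ℂ S S,
        cmap d ((PowerSeries.X : PowerSeries S) ^ i) = 0 := by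
      intro d
      ext n
      rw [coeff_cmap, PowerSeries.coeff_X_pow]
      split_ifs <;> simp
    have he : eul ((PowerSeries.X : PowerSeries S) ^ i)
        = (i : PowerSeries S) * (PowerSeries.X : PowerSeries S) ^ i := by
      ext n
      have e1 : (i : PowerSeries S) = PowerSeries.C (i : S) := by simp
      rw [coeff_eul, e1, PowerSeries.coeff_C_mul, PowerSeries.coeff_X_pow]
      split_ifs with h
      · rw [h]
      · simp
    unfold LK
    rw [hd, hd, he]
    simp
  have hN : N = (0 + i) + (N - i) * 1 := by omega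
  conv_lhs => rw [hN]
  have e2 : (0 + i) + (N - i) * 1 - i = N - i := by omega
  rw [e2, LK_mul, LK_mul, hC, hX, LK_pow]
  ring

end Pool.W4b1b5d.E
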