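import Pool.Agent.W_4b1b5d_h78.Sm
import Pool.Agent.W_4b1b5d_h78.AlgS
import Pool.Agent.W_4b1b5d_h3.BetaT
import Pool.Agent.W_4b1b5d_h3.Build

set_option autoImplicit false

namespace Pool.W4b1b5d.E

open Pool.W4b1b5d.H3

theorem Top_poly (I : ID) (M : ℕ) : ∃ pa : Polynomial ℂ, ∀ h : ℝ, Bt I h M 0 = pa.eval (h : ℂ) := by
  refine ⟨∑ b ∈ Finset.range (I.n + 1), Polynomial.C (I.f (2 * (M : ℤ) + b) b 0) *
    (Polynomial.C ((I.mu 0 : ℂ)⁻¹) * (Polynomial.X - Polynomial.C (I.U 0 : ℂ))) ^ b, ?_⟩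
  intro h
  rw [Polynomial.eval_finsetSum]
  unfold Bt ID.beta
  refine Finset.sum_congr rfl fun b _ => ?_
  simp only [Polynomial.eval_mul, Polynomial.eval_pow, Polynomial.eval_C, Polynomial.eval_sub,
    Polynomial.eval_X]
  congr 2
  unfold ID.ell
  push_cast
  rw [div_eq_mul_inv, mul_comm]

theorem Top_trans (I : ID) (h : ℝ) (k : ℤ) (x : V2) :
    dd (cj I.al) (Bt I h k) x + (I.ell h x : ℂ) * dd I.al (Bt I h (k + 1)) x
      + 2 * ((k : ℂ) + 1) * ddr I.al (I.ell h) x * Bt I h (k + 1) x = 0 := by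
  have h1 := I.beta_trans h (2 * k + 1) x
  have e1 : 2 * k + 1 - 1 = 2 * k := by ring
  have e2 : 2 * k + 1 + 1 = 2 * (k + 1) := by ring
  rw [e1, e2] at h1
  have e3 : (((2 * k + 1 : ℤ) : ℂ)) + 1 = 2 * ((k : ℂ) + 1) := by
    push_cast
    ring
  rw [e3] at h1
  exact h1

/-- TASK Top (1).  The top coefficient.

Proof.  Let `M` be the largest `k` (`1 ≤ k ≤ N`) such that `Bt I h k x ≠ 0` for some `h`, `x`; it
exists by `hF` and `I.beta_big`, `I.beta_par` (so `s = 2 k`).  For every `h` the function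
`Bt I h M` satisfies `dd (cj al) = 0`: `I.beta_trans h (2 M + 1) x`, where
`I.beta h (2M+2) = 0` identically, so also its `dd` is `0`.  By `liou` it is constant in `x`.  At a
fixed `x0` it is a polynomial in `h` (definition of `beta`, `ell h x0 = (h - U x0)/mu x0`), not zero
because it is not zero for some `h` (constancy in `x`). -/
theorem top_exists (I : ID) (N : ℕ) (hN : I.n = 2 * N)
    (hF : ∃ (h : ℝ) (s : ℤ) (x : V2), 1 ≤ s ∧ I.beta h s x ≠ 0) :
    ∃ (M : ℕ) (pa : Polynomial ℂ), 1 ≤ M ∧ M ≤ N ∧ pa ≠ 0 ∧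
      (∀ (h : ℝ) (x : V2), Bt I h M x = pa.eval (h : ℂ)) ∧
      (∀ (k : ℤ) (h : ℝ) (x : V2), (M : ℤ) < k → Bt I h k x = 0) := by
  classical
  obtain ⟨h0, s, x0, hs, hne⟩ := hF
  have hev : Even s := by
    by_contra hcon
    rw [Int.not_even_iff_odd] at hcon
    apply hne
    apply I.beta_par
    rw [hN]
    push_cast
    exact hcon.add_even (even_two_mul _)
  have hle : s ≤ I.n := by
    by_contra hcon
    apply hne
    apply I.beta_big
    rw [abs_of_nonneg (by omega)]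
    omega
  obtain ⟨t, ht⟩ := hev
  obtain ⟨k, hk⟩ : ∃ k : ℕ, t = k := ⟨t.toNat, by omega⟩
  have hs2 : s = 2 * (k : ℤ) := by omega
  set P : ℕ → Prop := fun k => 1 ≤ k ∧ ∃ (h : ℝ) (x : V2), Bt I h k x ≠ 0 with hP
  have hkP : P k := ⟨by omega, h0, x0, by unfold Bt; rw [← hs2]; exact hne⟩
  have hkN : k ≤ N := by omega
  set M : ℕ := Nat.findGreatest P N with hM
  have hMP : P M := Nat.findGreatest_spec hkN hkP
  have hMN : M ≤ N := Nat.findGreatest_le N
  have hbig : ∀ (k : ℤ) (h : ℝ) (x : V2), (M : ℤ) < k → Bt I h k x = 0 := by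
    intro k h x hk
    obtain ⟨m, rfl⟩ : ∃ m : ℕ, k = m := ⟨k.toNat, by omega⟩
    rcases Nat.lt_or_ge N m with h1 | h1
    · apply I.beta_big
      rw [abs_of_nonneg (by omega), hN]
      push_cast
      omega
    · by_contra hcon
      have hPm : P m := ⟨by omega, h, x, hcon⟩
      have hlt : M < m := by exact_mod_cast hk
      exact Nat.findGreatest_is_greatest hlt h1 hPm
  have hconst : ∀ (h : ℝ) (x : V2), Bt I h M x = Bt I h M 0 := by
    intro h x
    have hdb : ∀ y, dd (cj I.al) (Bt I h M) y = 0 := by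
      intro y
      have h1 := Top_trans I h M y
      have hz : ∀ z, Bt I h ((M : ℤ) + 1) z = 0 := fun z => hbig _ h z (by omega)
      rw [Build_dd_zero I.al hz y, hz y, mul_zero, mul_zero, add_zero, add_zero] at h1
      exact h1
    obtain ⟨c, hc⟩ := liou I.al I.hal (Bt I h M) (Bt_smooth I h M) (Bt_per I h M) hdb
    rw [hc x, hc 0]
  obtain ⟨pa, hpa⟩ := Top_poly I M
  refine ⟨M, pa, hMP.1, hMN, ?_, ?_, hbig⟩
  · rintro rfl
    obtain ⟨h1, x1, hx1⟩ := hMP.2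
    apply hx1
    rw [hconst h1 x1, hpa h1, Polynomial.eval_zero]
  · intro h x
    rw [hconst h x, hpa h]

/-- TASK Top (2).  The symmetry `beta_{-2k} = l^{2k} conj beta_{2k}` (`ID.beta_conj`). -/
theorem Bt_neg (I : ID) (h : ℝ) (k : ℕ) (x : V2) :
    Bt I h (-(k : ℤ)) x = (I.ell h x : ℂ) ^ (2 * k) * (starRingEnd ℂ) (Bt I h k x) := by
  have h1 := I.beta_conj h (2 * k) x
  unfold Bt
  have e1 : 2 * (-(k : ℤ)) = -((2 * k : ℕ) : ℤ) := by
    push_cast
    ring
  have e2 : 2 * (k : ℤ) = ((2 * k : ℕ) : ℤ) := by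
    push_cast
    ring
  rw [e1, e2]
  exact h1

/-- TASK Top (3).  The transport equation for `Bt` (`ID.beta_trans` with `s = 2 k + 1`). -/
theorem Bt_trans (I : ID) (h : ℝ) (k : ℤ) (x : V2) :
    dd (cj I.al) (Bt I h k) x + (I.ell h x : ℂ) * dd I.al (Bt I h (k + 1)) x
      + 2 * ((k : ℂ) + 1) * ddr I.al (I.ell h) x * Bt I h (k + 1) x = 0 := by
  exact Top_trans I h k x

/-- TASK Top (4).  The power series `r = ∑ Bt (M - i) w^i` over `Sm` satisfies `LK M r = 0`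
(coefficient of `w^i`: `Bt_trans` with `k = M - i`; for `i = 0` use that `Bt (M+1) = 0`).
`r = PowerSeries.mk fun i => BS I h (M - i)`. -/
theorem rs_LK (I : ID) (M : ℕ) (h : ℝ) (hbig : ∀ (x : V2), Bt I h ((M : ℤ) + 1) x = 0) :
    LK (ddS I.al) (ddS (cj I.al)) (lS I h) (uS I h) M
      (PowerSeries.mk fun i => BS I h ((M : ℤ) - i)) = 0 := by
  ext1 n
  unfold LK
  rw [map_add, map_zero, coeff_cmap, PowerSeries.coeff_mk]
  rcases n with _ | m
  · rw [PowerSeries.coeff_zero_X_mul, add_zero]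
    refine Sm_ext fun x => ?_
    rw [ddS_apply]
    show dd (cj I.al) (Bt I h ((M : ℤ) - ((0 : ℕ) : ℤ))) x = 0
    have e0 : (M : ℤ) - ((0 : ℕ) : ℤ) = M := by simp
    rw [e0]
    have h1 := Top_trans I h M x
    rw [Build_dd_zero I.al hbig x, hbig x, mul_zero, mul_zero, add_zero, add_zero] at h1
    exact h1
  · rw [PowerSeries.coeff_succ_X_mul, map_add, PowerSeries.coeff_C_mul, PowerSeries.coeff_C_mul,
      map_sub, coeff_cmap, coeff_eul, PowerSeries.coeff_mk]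
    have e1 : ((M : ℕ) : PowerSeries Sm) = PowerSeries.C ((M : ℕ) : Sm) := by simp
    rw [e1, PowerSeries.coeff_C_mul, PowerSeries.coeff_mk]
    refine Sm_ext fun x => ?_
    show dd (cj I.al) (Bt I h ((M : ℤ) - ((m + 1 : ℕ) : ℤ))) x
      + ((I.ell h x : ℂ) * dd I.al (Bt I h ((M : ℤ) - m)) x
        + 2 * ddr I.al (I.ell h) x * ((M : ℂ) * Bt I h ((M : ℤ) - m) x
          - (m : ℂ) * Bt I h ((M : ℤ) - m) x)) = 0
    have h1 := Top_trans I h ((M : ℤ) - ((m + 1 : ℕ) : ℤ)) x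
    have e2 : (M : ℤ) - ((m + 1 : ℕ) : ℤ) + 1 = (M : ℤ) - m := by
      push_cast
      ring
    rw [e2] at h1
    push_cast at h1 ⊢
    linear_combination h1

end Pool.W4b1b5d.E
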