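import Pool.Agent.W_4b1b5d_h3.DefsI

set_option autoImplicit false

namespace Pool.W4b1b5d.E

open Pool.W4b1b5d.H3

/-- The coefficient of `Y^k`, `Y = P^2`, of `F` on the energy level `h`. -/
noncomputable def Bt (I : ID) (h : ℝ) (k : ℤ) (x : V2) : ℂ := I.beta h (2 * k) x

/-- Smooth periodic coefficients, polynomial in `h` of degree at most `m`. -/
def HP (m : ℕ) (f : ℝ → V2 → ℂ) : Prop :=
  ∃ c : ℕ → V2 → ℂ, (∀ k, ContDiff ℝ (⊤ : ℕ∞) (c k)) ∧ (∀ k, Per (c k)) ∧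
    ∀ h x, f h x = ∑ k ∈ Finset.range (m + 1), c k x * (h : ℂ) ^ k

/-- The universal series `ζ = Y + b 0 + b 1 / Y + ...` (a solution of the transport equation with
coefficients polynomial in `h`) and `A = dd ζ / ζ_Y = ∑ A j Y^(-j)`, which is also
`dd R / R_Y`: this is the field `rel` (coefficient of `Y^m`). -/
structure Uni (I : ID) where
  b : ℕ → ℝ → V2 → ℂ
  A : ℕ → ℝ → V2 → ℂ
  bHP : ∀ j, HP (j + 1) (b j)
  AHP : ∀ j, HP (j + 1) (A j)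
  db0 : ∀ h x, dd (cj I.al) (b 0 h) x = -2 * ddr I.al (I.ell h) x
  dbs : ∀ (j : ℕ) (h : ℝ) (x : V2), dd (cj I.al) (b (j + 1) h) x =
    - (I.ell h x : ℂ) * dd I.al (b j h) x + 2 * (j : ℂ) * ddr I.al (I.ell h) x * b j h x
  A0 : ∀ h x, A 0 h x = dd I.al (b 0 h) x
  A1 : ∀ h x, A 1 h x = dd I.al (b 1 h) x
  A2 : ∀ h x, A 2 h x = dd I.al (b 2 h) x + b 1 h x * A 0 h x
  rel : ∀ (h : ℝ) (m : ℤ) (x : V2) (K : ℕ), (I.n : ℤ) ≤ m + K →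
    dd I.al (Bt I h m) x =
      ∑ j ∈ Finset.range K, ((m : ℂ) + j + 1) * Bt I h (m + j + 1) x * A j h x

/-- `dd (ell h) = l0 + l1 * ell h`. -/
noncomputable def l0 (I : ID) (x : V2) : ℂ := - ddr I.al I.U x / (I.mu x : ℂ)

/-- see `l0`. -/
noncomputable def l1 (I : ID) (x : V2) : ℂ := - ddr I.al I.mu x / (I.mu x : ℂ)

/-- `eps i k = k f_{i+k,i-k}`. -/
noncomputable def eps (I : ID) (i : ℕ) (k : ℤ) (x : V2) : ℂ :=
  (k : ℂ) * I.f ((i : ℤ) + k) ((i : ℤ) - k) x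

/-- The coefficient `n_{i,m}` of `dd R`. -/
noncomputable def nn (I : ID) (i : ℕ) (m : ℤ) (x : V2) : ℂ :=
  dd I.al (I.f ((i : ℤ) + m) ((i : ℤ) - m)) x
    + l0 I x * ((i : ℂ) + 1 - m) * I.f ((i : ℤ) + 1 + m) ((i : ℤ) + 1 - m) x
    + l1 I x * ((i : ℂ) - m) * I.f ((i : ℤ) + m) ((i : ℤ) - m) x

/-- The conjugate coefficient (of `db R`). -/
noncomputable def nb (I : ID) (i : ℕ) (m : ℤ) (x : V2) : ℂ :=
  dd (cj I.al) (I.f ((i : ℤ) + m) ((i : ℤ) - m)) x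
    + (starRingEnd ℂ) (l0 I x) * ((i : ℂ) + 1 - m) * I.f ((i : ℤ) + 1 + m) ((i : ℤ) + 1 - m) x
    + (starRingEnd ℂ) (l1 I x) * ((i : ℂ) - m) * I.f ((i : ℤ) + m) ((i : ℤ) - m) x

/-- The polynomial `e_i(w) = ∑_k eps i k w^(N-k)` (here `n = 2N`). -/
noncomputable def eh (I : ID) (N : ℕ) (i : ℕ) (x : V2) : Polynomial ℂ :=
  ∑ t ∈ Finset.range (2 * N + 1), Polynomial.C (eps I i ((N : ℤ) - t) x) * Polynomial.X ^ t

/-- The polynomial `ν_i(w) = ∑_m n_{i,m} w^(N-1-m)`. -/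
noncomputable def nh (I : ID) (N : ℕ) (i : ℕ) (x : V2) : Polynomial ℂ :=
  ∑ t ∈ Finset.range (2 * N), Polynomial.C (nn I i ((N : ℤ) - 1 - t) x) * Polynomial.X ^ t

end Pool.W4b1b5d.E
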