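import Pool.Agent.W_4b1b5d_h78.GoodB

set_option autoImplicit false

namespace Pool.W4b1b5d.E

open Pool.W4b1b5d.H3 Polynomial

theorem GoodC_coeff (I : ID) (N i t : ℕ) : Continuous fun y : V2 => (eh I N i y).coeff t := by
  unfold eh
  simp only [Polynomial.finsetSum_coeff, Polynomial.coeff_C_mul]
  refine continuous_finsetSum _ fun s _ => Continuous.mul ?_ continuous_const
  unfold eps
  exact continuous_const.mul (I.fsm _ _).continuous

theorem GoodC_open (I : ID) (N i : ℕ) : IsOpen {y : V2 | eh I N i y ≠ 0} := by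
  have h1 : {y : V2 | eh I N i y ≠ 0} = ⋃ t : ℕ, {y : V2 | (eh I N i y).coeff t ≠ 0} := by
    ext y
    rw [Set.mem_iUnion]
    constructor
    · intro h
      by_contra hcon
      push Not at hcon
      apply h
      ext t
      rw [Polynomial.coeff_zero]
      by_contra h2
      exact hcon t h2
    · rintro ⟨t, ht⟩ h0
      apply ht
      rw [h0, Polynomial.coeff_zero]
  rw [h1]
  exact isOpen_iUnion fun t => isOpen_ne_fun (GoodC_coeff I N i t) continuous_const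

/-- TASK GoodC (1).  Good points are dense in `{dU ≠ 0}`.

Proof.  For `y ∈ S` let `J(y) ≥ 1` be the least index with `e_J(y) ≠ 0` (`exists_eh_ne`).  Let
`J = min_S J(y)`, attained at `x1 ∈ S`; so `e_i = 0` on `S` for `i < J` (`e_0 = 0` by `eh_zero`).
If `J = 1` use `good_J1` at `x1`.  If `J ≥ 2` let `S' = {y ∈ S | e_J(y) ≠ 0}`, open (some coefficient
`eps J k` is nonzero at the point and continuous), containing `x1`.  For `y ∈ S'` let `k(y)` be the
largest `k` such that `(w - om(y))^k` divides `e_i(y)` for all `i` (it exists, `k ≤ deg e_J(y)`), and let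
`x2 ∈ S'` be a point where `k(y)` is minimal, `k = k(x2)`.  Then `(w - om(y))^k ∣ e_i(y)` for all
`y ∈ S'`, and for some `i0` `(w - om(x2))^(k+1)` does not divide `e_{i0}(x2)`.  Use `good_J2` with
`S'` and `x2`. -/
theorem exists_good (I : ID) (N : ℕ) (hN : I.n = 2 * N) (V : Uni I) (M : ℕ) (pa : ℂ[X])
    (hM : 1 ≤ M) (hMN : M ≤ N) (hpa : pa ≠ 0)
    (htop : ∀ (h : ℝ) (x : V2), Bt I h M x = pa.eval (h : ℂ))
    (hbig : ∀ (k : ℤ) (h : ℝ) (x : V2), (M : ℤ) < k → Bt I h k x = 0)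
    (S : Set V2) (hS : IsOpen S) (hne : S.Nonempty) (hdU : ∀ y ∈ S, fderiv ℝ I.U y ≠ 0) :
    ∃ x ∈ S, ∃ θ, GC I V x θ := by
  classical
  have hex : ∃ J : ℕ, ∃ y ∈ S, eh I N J y ≠ 0 := by
    obtain ⟨y, hy⟩ := hne
    obtain ⟨i, _, _, hi⟩ := exists_eh_ne I N hN M hM hMN pa hpa htop y
    exact ⟨i, y, hy, hi⟩
  obtain ⟨J, hJe⟩ : ∃ J, J = Nat.find hex := ⟨_, rfl⟩
  have hJs : ∃ y ∈ S, eh I N J y ≠ 0 := hJe ▸ Nat.find_spec hex
  have hlow : ∀ i, i < J → ∀ y ∈ S, eh I N i y = 0 := by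
    intro i hi y hy
    by_contra hcon
    exact Nat.find_min hex (hJe ▸ hi) ⟨y, hy, hcon⟩
  obtain ⟨x1, hx1, hJx1⟩ := hJs
  have hJ0 : J ≠ 0 := by
    rintro rfl
    exact hJx1 (eh_zero I N hN 0 x1 (Or.inl rfl))
  rcases (by omega : J = 1 ∨ 2 ≤ J) with h1 | h2
  · rw [h1] at hJx1
    exact ⟨x1, hx1, good_J1 I N hN V M pa hM hMN hpa htop hbig x1 hJx1⟩
  · obtain ⟨S', hS'⟩ : ∃ S' : Set V2, S' = {y | y ∈ S ∧ eh I N J y ≠ 0} := ⟨_, rfl⟩
    have hmem : ∀ y, y ∈ S' ↔ y ∈ S ∧ eh I N J y ≠ 0 := fun y => by rw [hS']; rfl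
    have hS'o : IsOpen S' := by
      rw [hS']
      exact hS.inter (GoodC_open I N J)
    have hex2 : ∃ k : ℕ, ∃ y ∈ S', ∃ i, ¬ (X - C (om I y)) ^ (k + 1) ∣ eh I N i y := by
      refine ⟨(eh I N J x1).natDegree, x1, (hmem x1).2 ⟨hx1, hJx1⟩, J, fun hdvd => ?_⟩
      have h3 := Polynomial.natDegree_le_of_dvd hdvd hJx1
      rw [Polynomial.natDegree_pow, Polynomial.natDegree_X_sub_C, mul_one] at h3
      omega
    obtain ⟨k, hke⟩ : ∃ k, k = Nat.find hex2 := ⟨_, rfl⟩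
    have hks : ∃ y ∈ S', ∃ i, ¬ (X - C (om I y)) ^ (k + 1) ∣ eh I N i y :=
      hke ▸ Nat.find_spec hex2
    obtain ⟨x2, hx2, i0, hi0⟩ := hks
    have hk : ∀ i, ∀ y ∈ S', (X - C (om I y)) ^ k ∣ eh I N i y := by
      intro i y hy
      rcases Nat.eq_zero_or_pos k with h0 | h0
      · rw [h0, pow_zero]
        exact one_dvd _
      · by_contra hcon
        have h4 : k - 1 < Nat.find hex2 := by omega
        refine Nat.find_min hex2 h4 ⟨y, hy, i, ?_⟩
        rw [Nat.sub_add_cancel h0]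
        exact hcon
    have h5 := good_J2 I N hN V M pa hM hMN hpa htop hbig S' hS'o
      (fun y hy => hdU y ((hmem y).1 hy).1) J h2 (fun i hi y hy => hlow i hi y ((hmem y).1 hy).1)
      k hk x2 hx2 ((hmem x2).1 hx2).2 i0 hi0
    exact ⟨x2, ((hmem x2).1 hx2).1, h5⟩

/-- TASK GoodC (2).  The set of points where `GC` holds for some `θ` is closed (the unit circle is
compact and all functions are continuous in `x` for every `h`: `HP.smooth`, `ell_smooth`). -/
theorem GC_closed (I : ID) (V : Uni I) : IsClosed {x : V2 | ∃ θ, GC I V x θ} := by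
  have hK : CompactSpace (Metric.sphere (0 : ℂ) 1) := isCompact_iff_compactSpace.mp
    (isCompact_sphere 0 1)
  have h1 : IsClosed {q : Metric.sphere (0 : ℂ) 1 × V2 | ∀ h : ℝ,
      V.A 0 h q.2 = -2 * (q.1 : ℂ) * ddr (cj I.al) (I.ell h) q.2 ∧
      V.A 1 h q.2 = 2 * (q.1 : ℂ) * (I.ell h q.2 : ℂ) * ddr I.al (I.ell h) q.2 ∧
      ∀ j : ℕ, V.A (j + 2) h q.2 = (q.1 : ℂ) * (I.ell h q.2 : ℂ) ^ 2 * V.A j h q.2} := by
    have hA : ∀ j h, Continuous fun q : Metric.sphere (0 : ℂ) 1 × V2 => V.A j h q.2 :=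
      fun j h => ((V.AHP j).smooth h).continuous.comp continuous_snd
    have hd : ∀ (a : Fin 2 → ℂ) (h : ℝ), Continuous fun q : Metric.sphere (0 : ℂ) 1 × V2 =>
        ddr a (I.ell h) q.2 := fun a h =>
      ((HP.ddr_ell I a).smooth h).continuous.comp continuous_snd
    have hl : ∀ h : ℝ, Continuous fun q : Metric.sphere (0 : ℂ) 1 × V2 => (I.ell h q.2 : ℂ) :=
      fun h => Complex.continuous_ofReal.comp ((I.ell_smooth h).continuous.comp continuous_snd)
    have hθ : Continuous fun q : Metric.sphere (0 : ℂ) 1 × V2 => (q.1 : ℂ) :=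
      continuous_subtype_val.comp continuous_fst
    simp only [Set.ofPred_forall, Set.ofPred_and]
    refine isClosed_iInter fun h => ((isClosed_eq (hA 0 h) ?_).inter
      ((isClosed_eq (hA 1 h) ?_).inter (isClosed_iInter fun j => isClosed_eq (hA (j + 2) h) ?_)))
    · exact (continuous_const.mul hθ).mul (hd _ h)
    · exact ((continuous_const.mul hθ).mul (hl h)).mul (hd _ h)
    · exact (hθ.mul ((hl h).pow 2)).mul (hA j h)
  have h2 := isClosedMap_snd_of_compactSpace _ h1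
  convert h2 using 1
  ext x
  constructor
  · rintro ⟨θ, h3, h4⟩
    exact ⟨(⟨θ, by rw [mem_sphere_zero_iff_norm]; exact h3⟩, x), h4, rfl⟩
  · rintro ⟨⟨θ, y⟩, h4, rfl⟩
    refine ⟨θ, ?_, h4⟩
    have h5 := θ.2
    rw [mem_sphere_zero_iff_norm] at h5
    exact h5

/-- TASK GoodC (3).  `GC` holds on the closure of `{dU ≠ 0}`. -/
theorem GC_of_closure (I : ID) (N : ℕ) (hN : I.n = 2 * N)
    (hF : ∃ (h : ℝ) (s : ℤ) (x : V2), 1 ≤ s ∧ I.beta h s x ≠ 0) (V : Uni I)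
    (x : V2) (hx : x ∈ closure {y : V2 | fderiv ℝ I.U y ≠ 0}) : ∃ θ, GC I V x θ := by
  obtain ⟨M, pa, hM, hMN, hpa, htop, hbig⟩ := top_exists I N hN hF
  have hD : IsOpen {y : V2 | fderiv ℝ I.U y ≠ 0} :=
    isOpen_ne_fun (I.Usm.continuous_fderiv (by simp)) continuous_const
  have h1 : {y : V2 | fderiv ℝ I.U y ≠ 0} ⊆ {x : V2 | ∃ θ, GC I V x θ} := by
    intro y hy
    rw [← (GC_closed I V).closure_eq, mem_closure_iff]
    intro O hO hyO
    obtain ⟨x', hx', hθ⟩ := exists_good I N hN V M pa hM hMN hpa htop hbig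
      (O ∩ {y : V2 | fderiv ℝ I.U y ≠ 0}) (hO.inter hD) ⟨y, hyO, hy⟩ (fun z hz => hz.2)
    exact ⟨x', hx'.1, hθ⟩
  exact closure_minimal h1 (GC_closed I V) hx

end Pool.W4b1b5d.E
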