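import Pool.Agent.W_4b1b5d_h78.SeqB

set_option autoImplicit false

namespace Pool.W4b1b5d.E

open Pool.W4b1b5d.H3

/-- the coefficients of `q = 1 + ∑ b_i w^(i+1)` -/
noncomputable def UniA_qc (b : ℕ → Sm) : ℕ → Sm
  | 0 => 1
  | i + 1 => b i

theorem UniA_LKq (d1 d2 : Derivation ℂ Sm Sm) (l u : Sm) (b : ℕ → Sm)
    (h0 : d2 (b 0) = -2 * u)
    (hs : ∀ i, d2 (b (i + 1)) = - l * d1 (b i) + 2 * (i : Sm) * u * b i) :
    LK d1 d2 l u 1 (PowerSeries.mk (UniA_qc b)) = 0 := by
  refine PowerSeries.ext fun n => ?_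
  unfold LK
  rcases n with _ | t
  · rw [map_add, coeff_cmap, PowerSeries.coeff_zero_X_mul, PowerSeries.coeff_mk, map_zero, add_zero]
    show d2 1 = 0
    exact d2.map_one_eq_zero
  · rw [map_add, coeff_cmap, PowerSeries.coeff_succ_X_mul, PowerSeries.coeff_mk, map_zero, map_add,
      PowerSeries.coeff_C_mul, PowerSeries.coeff_C_mul, coeff_cmap, PowerSeries.coeff_mk, map_sub,
      coeff_eul, PowerSeries.coeff_mk, Nat.cast_one, one_mul, PowerSeries.coeff_mk]
    rcases t with _ | i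
    · show d2 (b 0) + (l * d1 1 + 2 * u * (1 - ((0 : ℕ) : Sm) * 1)) = 0
      rw [h0, d1.map_one_eq_zero, Nat.cast_zero]
      ring
    · show d2 (b (i + 1)) + (l * d1 (b i) + 2 * u * (b i - ((i + 1 : ℕ) : Sm) * b i)) = 0
      rw [hs]
      push_cast
      ring

theorem UniA_d1q (d1 : Derivation ℂ Sm Sm) (b A : ℕ → Sm)
    (hA : ∀ n, A n = d1 (b n) + ∑ i ∈ Finset.range n, (i : Sm) * b i * A (n - 1 - i)) :
    cmap d1 (PowerSeries.mk (UniA_qc b)) =
      PowerSeries.X * (PowerSeries.mk A *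
        (PowerSeries.mk (UniA_qc b) - eul (PowerSeries.mk (UniA_qc b)))) := by
  have hQ0 : PowerSeries.coeff 0
      (PowerSeries.mk (UniA_qc b) - eul (PowerSeries.mk (UniA_qc b))) = 1 := by
    rw [map_sub, coeff_eul, PowerSeries.coeff_mk, Nat.cast_zero, zero_mul, sub_zero]
    rfl
  have hQs : ∀ i, PowerSeries.coeff (i + 1)
      (PowerSeries.mk (UniA_qc b) - eul (PowerSeries.mk (UniA_qc b))) = - ((i : Sm) * b i) := by
    intro i
    rw [map_sub, coeff_eul, PowerSeries.coeff_mk]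
    show b i - ((i + 1 : ℕ) : Sm) * b i = _
    push_cast
    ring
  refine PowerSeries.ext fun n => ?_
  rcases n with _ | n
  · rw [coeff_cmap, PowerSeries.coeff_zero_X_mul, PowerSeries.coeff_mk]
    show d1 1 = 0
    exact d1.map_one_eq_zero
  · rw [coeff_cmap, PowerSeries.coeff_succ_X_mul, PowerSeries.coeff_mk, PowerSeries.coeff_mul]
    rw [Finset.Nat.sum_antidiagonal_eq_sum_range_succ (fun i j => PowerSeries.coeff i
      (PowerSeries.mk A) * PowerSeries.coeff j (PowerSeries.mk (UniA_qc b) -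
        eul (PowerSeries.mk (UniA_qc b)))) n]
    rw [Finset.sum_range_succ, Nat.sub_self, hQ0, PowerSeries.coeff_mk, mul_one, hA n]
    show d1 (b n) = _
    rw [← Finset.sum_range_reflect (fun j => PowerSeries.coeff j (PowerSeries.mk A) * 
      PowerSeries.coeff (n - j) (PowerSeries.mk (UniA_qc b) -
        eul (PowerSeries.mk (UniA_qc b)))) n]
    have hsum : ∑ j ∈ Finset.range n, PowerSeries.coeff (n - 1 - j) (PowerSeries.mk A) * 
        PowerSeries.coeff (n - (n - 1 - j)) (PowerSeries.mk (UniA_qc b) -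
        eul (PowerSeries.mk (UniA_qc b))) =
        - ∑ i ∈ Finset.range n, (i : Sm) * b i * A (n - 1 - i) := by
      rw [← Finset.sum_neg_distrib]
      refine Finset.sum_congr rfl fun j hj => ?_
      have hj' := Finset.mem_range.1 hj
      have h1 : n - (n - 1 - j) = j + 1 := by omega
      rw [h1, hQs, PowerSeries.coeff_mk]
      ring
    rw [hsum]
    ring

/-- TASK UniA (1).  The relation for one `h` with `a = Bt h M ≠ 0`.

Proof.  Apply `jac` with `S = Sm`, `r = ∑ BS (M - i) w^i` (`rs_LK`), `q = 1 + ∑ b_i w^(i+1)`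
(`LK 1 q = 0` by the recursion: the coefficient of `w^1` is `db b_0 + 2 u`, that of `w^(i+1)` is
`db b_i + l dd b_{i-1} + 2 (1 - i) u b_{i-1}`).  It gives
`d1 r * (q - eul q) = (M r - eul r) * d1 q`.  The hypothesis on `A` says
`d1 q = w * A * (q - eul q)` as power series (`(q - eul q)_0 = 1`, `(q - eul q)_(i+1) = - i b_i`).
`q - eul q` has constant coefficient `1`, so it is a unit and
`d1 r = (M r - eul r) * w * A`.  The coefficient of `w^(i)` with `i = M - m ≥ 0` is the claim with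
`K = i`, evaluated at `x`; for `K > i` the added terms vanish (`Bt` of index `> M`), for `K < i`
the omitted terms vanish too (index `m + j + 1 > n ≥ M`); for `m > M` everything is zero. -/
theorem rel_good (I : ID) (N : ℕ) (hN : I.n = 2 * N) (M : ℕ) (hM : 1 ≤ M) (hMN : M ≤ N) (h : ℝ)
    (a : ℂ) (ha : a ≠ 0) (htop : ∀ x, Bt I h M x = a)
    (hbig : ∀ (k : ℤ) (x : V2), (M : ℤ) < k → Bt I h k x = 0)
    (b A : ℕ → V2 → ℂ)
    (hsm : ∀ i, ContDiff ℝ (⊤ : ℕ∞) (b i)) (hper : ∀ i, Per (b i))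
    (hAsm : ∀ i, ContDiff ℝ (⊤ : ℕ∞) (A i)) (hAper : ∀ i, Per (A i))
    (hb0 : ∀ x, dd (cj I.al) (b 0) x = -2 * ddr I.al (I.ell h) x)
    (hbs : ∀ (i : ℕ) (x : V2), dd (cj I.al) (b (i + 1)) x =
      - (I.ell h x : ℂ) * dd I.al (b i) x + 2 * (i : ℂ) * ddr I.al (I.ell h) x * b i x)
    (hA : ∀ (n : ℕ) (x : V2), A n x = dd I.al (b n) x
      + ∑ i ∈ Finset.range n, (i : ℂ) * b i x * A (n - 1 - i) x)
    (m : ℤ) (x : V2) (K : ℕ) (hK : (I.n : ℤ) ≤ m + K) :
    dd I.al (Bt I h m) x =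
      ∑ j ∈ Finset.range K, ((m : ℂ) + j + 1) * Bt I h (m + j + 1) x * A j x := by
  obtain ⟨bS, hbS⟩ : ∃ bS : ℕ → Sm, bS = fun i => ⟨b i, hsm i, hper i⟩ := ⟨_, rfl⟩
  obtain ⟨AS, hAS⟩ : ∃ AS : ℕ → Sm, AS = fun i => ⟨A i, hAsm i, hAper i⟩ := ⟨_, rfl⟩
  have hbSa : ∀ i y, (bS i : V2 → ℂ) y = b i y := fun i y => by rw [hbS]
  have hASa : ∀ i y, (AS i : V2 → ℂ) y = A i y := fun i y => by rw [hAS]
  have hcast : ∀ (k : ℕ) (y : V2), ((k : Sm) : V2 → ℂ) y = (k : ℂ) := by
    intro k y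
    induction k with
    | zero => rw [Nat.cast_zero, Nat.cast_zero]; rfl
    | succ k ih =>
      rw [Nat.cast_succ, Nat.cast_succ]
      show ((k : Sm) : V2 → ℂ) y + 1 = _
      rw [ih]
  have hLKq : LK (ddS I.al) (ddS (cj I.al)) (lS I h) (uS I h) 1
      (PowerSeries.mk (UniA_qc bS)) = 0 := by
    apply UniA_LKq
    · refine Sm_ext fun y => ?_
      show dd (cj I.al) (bS 0) y = -2 * ddr I.al (I.ell h) y
      rw [← hb0 y, hbS]
    · intro i
      refine Sm_ext fun y => ?_
      show dd (cj I.al) (bS (i + 1)) y = - (I.ell h y : ℂ) * dd I.al (bS i) y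
        + 2 * ((i : Sm) : V2 → ℂ) y * ddr I.al (I.ell h) y * (bS i : V2 → ℂ) y
      rw [hcast, hbSa, hbS]
      exact hbs i y
  have hd1q := UniA_d1q (ddS I.al) bS AS (by
    intro n
    refine Sm_ext fun y => ?_
    have h1 : ((ddS I.al (bS n) + ∑ i ∈ Finset.range n, (i : Sm) * bS i * AS (n - 1 - i) : Sm) :
        V2 → ℂ) y = dd I.al (bS n) y +
          ∑ i ∈ Finset.range n, (((i : Sm) * bS i * AS (n - 1 - i) : Sm) : V2 → ℂ) y := by
      rw [show ((ddS I.al (bS n) + ∑ i ∈ Finset.range n, (i : Sm) * bS i * AS (n - 1 - i) : Sm) :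
        V2 → ℂ) y = dd I.al (bS n) y +
          ((∑ i ∈ Finset.range n, (i : Sm) * bS i * AS (n - 1 - i) : Sm) : V2 → ℂ) y from rfl,
        AddSubmonoidClass.coe_finsetSum, Finset.sum_apply]
    rw [h1, hASa, hA n y]
    have h2 : dd I.al (bS n) y = dd I.al (b n) y := by rw [hbS]
    rw [h2]
    congr 1
    refine Finset.sum_congr rfl fun i _ => ?_
    show (i : ℂ) * b i y * A (n - 1 - i) y =
      ((i : Sm) : V2 → ℂ) y * (bS i : V2 → ℂ) y * (AS (n - 1 - i) : V2 → ℂ) y
    rw [hcast, hbSa, hASa])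
  have hr := rs_LK I M h (fun y => hbig ((M : ℤ) + 1) y (by omega))
  have hr0 : PowerSeries.coeff 0 (PowerSeries.mk fun i : ℕ => BS I h ((M : ℤ) - i)) =
      algebraMap ℂ Sm a := by
    rw [PowerSeries.coeff_mk]
    refine Sm_ext fun y => ?_
    rw [BS_apply, Nat.cast_zero, sub_zero, htop y]
    rfl
  have hj := jac (ddS I.al) (ddS (cj I.al)) (lS I h) (uS I h) (ker_ddS I.al I.hal) M hM
    (PowerSeries.mk fun i : ℕ => BS I h ((M : ℤ) - i)) a ha hr0 hr
    (PowerSeries.mk (UniA_qc bS)) (by rw [PowerSeries.coeff_mk]; rfl) hLKq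
  rw [hd1q] at hj
  have hunit : IsUnit (PowerSeries.mk (UniA_qc bS) - eul (PowerSeries.mk (UniA_qc bS))) := by
    rw [PowerSeries.isUnit_iff_constantCoeff, ← PowerSeries.coeff_zero_eq_constantCoeff_apply,
      map_sub, coeff_eul, PowerSeries.coeff_mk, Nat.cast_zero, zero_mul, sub_zero]
    exact isUnit_one
  have hj2 : cmap (ddS I.al) (PowerSeries.mk fun i : ℕ => BS I h ((M : ℤ) - i)) =
      PowerSeries.X * (((M : PowerSeries Sm) * (PowerSeries.mk fun i : ℕ => BS I h ((M : ℤ) - i)) -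
        eul (PowerSeries.mk fun i : ℕ => BS I h ((M : ℤ) - i))) * PowerSeries.mk AS) := by
    apply hunit.mul_right_cancel
    rw [hj]
    ring
  -- terms above `M`
  have hz : ∀ j : ℕ, (M : ℤ) < m + j + 1 →
      ((m : ℂ) + j + 1) * Bt I h (m + j + 1) x * A j x = 0 := by
    intro j hj
    rw [hbig _ x hj, mul_zero, zero_mul]
  rcases lt_or_ge (M : ℤ) m with hm | hm
  · rw [Build_dd_zero I.al (fun y => hbig m y hm) x, Finset.sum_eq_zero]
    intro j _
    exact hz j (by omega)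
  obtain ⟨i, hi⟩ : ∃ i : ℕ, (M : ℤ) - i = m := ⟨((M : ℤ) - m).toNat, by omega⟩
  have hiK : i ≤ K := by omega
  have hsum : ∑ j ∈ Finset.range K, ((m : ℂ) + j + 1) * Bt I h (m + j + 1) x * A j x =
      ∑ j ∈ Finset.range i, ((m : ℂ) + j + 1) * Bt I h (m + j + 1) x * A j x := by
    symm
    apply Finset.sum_subset (Finset.range_subset_range.2 hiK)
    intro j _ hj
    have hj' : i ≤ j := by
      by_contra hcon
      exact hj (Finset.mem_range.2 (by omega))
    exact hz j (by omega)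
  rw [hsum]
  have hco := congrArg (fun F => (PowerSeries.coeff i F : Sm)) hj2
  simp only [coeff_cmap, PowerSeries.coeff_mk] at hco
  rcases i with _ | i
  · rw [PowerSeries.coeff_zero_X_mul, hi] at hco
    have := congrArg (fun g : Sm => (g : V2 → ℂ) x) hco
    rw [Finset.range_zero, Finset.sum_empty]
    exact this
  · rw [PowerSeries.coeff_succ_X_mul, PowerSeries.coeff_mul,
      Finset.Nat.sum_antidiagonal_eq_sum_range_succ (fun s t => PowerSeries.coeff s
      ((M : PowerSeries Sm) * (PowerSeries.mk fun i : ℕ => BS I h ((M : ℤ) - i)) -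
        eul (PowerSeries.mk fun i : ℕ => BS I h ((M : ℤ) - i))) *
        PowerSeries.coeff t (PowerSeries.mk AS)) i, hi] at hco
    rw [← Finset.sum_range_reflect] at hco
    have hterm : ∀ t ∈ Finset.range (i + 1),
        PowerSeries.coeff (i + 1 - 1 - t)
          ((M : PowerSeries Sm) * (PowerSeries.mk fun i : ℕ => BS I h ((M : ℤ) - i)) -
            eul (PowerSeries.mk fun i : ℕ => BS I h ((M : ℤ) - i))) *
          PowerSeries.coeff (i - (i + 1 - 1 - t)) (PowerSeries.mk AS) =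
        ((M : Sm) - ((i - t : ℕ) : Sm)) * BS I h (m + t + 1) * AS t := by
      intro t ht
      have ht' := Finset.mem_range.1 ht
      have e1 : i + 1 - 1 - t = i - t := by omega
      have e2 : i - (i - t) = t := by omega
      have e3 : (M : PowerSeries Sm) = PowerSeries.C (M : Sm) := by simp
      have e4 : (M : ℤ) - ((i - t : ℕ) : ℤ) = m + t + 1 := by omega
      rw [e1, e2, e3, map_sub, PowerSeries.coeff_C_mul, coeff_eul, PowerSeries.coeff_mk,
        PowerSeries.coeff_mk, e4]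
      ring
    rw [Finset.sum_congr rfl hterm] at hco
    have h3 := congrArg (fun g : Sm => (g : V2 → ℂ) x) hco
    simp only [AddSubmonoidClass.coe_finsetSum, Finset.sum_apply] at h3
    rw [ddS_apply] at h3
    have h4 : dd I.al (BS I h m : V2 → ℂ) x = dd I.al (Bt I h m) x := rfl
    rw [h4] at h3
    rw [h3]
    refine Finset.sum_congr rfl fun t ht => ?_
    have ht' := Finset.mem_range.1 ht
    show (((M : Sm) : V2 → ℂ) x - (((i - t : ℕ) : Sm) : V2 → ℂ) x) *
      Bt I h (m + t + 1) x * (AS t : V2 → ℂ) x = _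
    rw [hcast, hcast, hASa]
    have e5 : (M : ℂ) - ((i - t : ℕ) : ℂ) = (m : ℂ) + t + 1 := by
      have e4 : (M : ℤ) - ((i - t : ℕ) : ℤ) = m + t + 1 := by omega
      have := congrArg (fun z : ℤ => (z : ℂ)) e4
      push_cast at this
      exact_mod_cast this
    rw [e5]

/-- the functions `A` of the universal data -/
noncomputable def UniA_A (al : Fin 2 → ℂ) (b : ℕ → ℝ → V2 → ℂ) : ℕ → ℝ → V2 → ℂ
  | n => fun h x => dd al (b n h) x
      + ∑ i : Fin n, ((i : ℕ) : ℂ) * b i h x * UniA_A al b (n - 1 - i) h x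
termination_by n => n
decreasing_by
  have := i.2
  omega

theorem UniA_A_eq (al : Fin 2 → ℂ) (b : ℕ → ℝ → V2 → ℂ) (n : ℕ) (h : ℝ) (x : V2) :
    UniA_A al b n h x = dd al (b n h) x
      + ∑ i ∈ Finset.range n, (i : ℂ) * b i h x * UniA_A al b (n - 1 - i) h x := by
  rw [UniA_A]
  show dd al (b n h) x + ∑ i : Fin n, ((i : ℕ) : ℂ) * b i h x * UniA_A al b (n - 1 - i) h x = _
  rw [Fin.sum_univ_eq_sum_range (fun i => (i : ℂ) * b i h x * UniA_A al b (n - 1 - i) h x)]

theorem UniA_A_HP (al : Fin 2 → ℂ) (b : ℕ → ℝ → V2 → ℂ) (hb : ∀ j, HP (j + 1) (b j)) (n : ℕ) :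
    HP (n + 1) (UniA_A al b n) := by
  induction n using Nat.strong_induction_on with
  | _ n ih =>
    have h1 : UniA_A al b n = fun h x => dd al (b n h) x
      + ∑ i ∈ Finset.range n, (i : ℂ) * (b i h x * UniA_A al b (n - 1 - i) h x) := by
      funext h x
      rw [UniA_A_eq]
      congr 1
      refine Finset.sum_congr rfl fun i _ => ?_
      ring
    rw [h1]
    apply HP.add
    · exact HP.dd al (hb n)
    · apply HP.sum
      intro i hi
      have hi' := Finset.mem_range.1 hi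
      apply HP.smul
      have h2 := HP.mul (hb i) (ih (n - 1 - i) (by omega))
      have h3 : i + 1 + (n - 1 - i + 1) = n + 1 := by omega
      rwa [h3] at h2

/-- TASK UniA (2).  The universal data exist.

Proof.  `b` from `exists_b`.  Define `A` by strong recursion:
`A n h x = dd al (b n h) x + ∑_{i<n} i b_i A_{n-1-i}`; `HP (n+1) (A n)` by strong induction
(`HP.mul`: degrees `i + 1` and `n - i`).  `A 0`, `A 1`, `A 2` are as required (the term `i = 0` is
zero).  The relation `rel` holds for `h` in the infinite set `{pa.eval h ≠ 0}` by `rel_good`, and both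
sides are polynomials in `h` (`HP.ext_at`). -/
theorem exists_uni (I : ID) (N : ℕ) (hN : I.n = 2 * N)
    (hF : ∃ (h : ℝ) (s : ℤ) (x : V2), 1 ≤ s ∧ I.beta h s x ≠ 0) : Nonempty (Uni I) := by
  obtain ⟨b, hbHP, hb0, hbs⟩ := exists_b I N hN hF
  obtain ⟨M, pa, hM1, hMN, hpa, htop, hbig⟩ := top_exists I N hN hF
  have hT : ({h : ℝ | pa.eval (h : ℂ) ≠ 0}).Infinite := by
    have h1 : ({h : ℝ | pa.eval (h : ℂ) = 0}).Finite := by
      have h2 := (Polynomial.finite_setOfPred_isRoot hpa).preimage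
        (Complex.ofReal_injective.injOn (s := Complex.ofReal ⁻¹' {x | pa.IsRoot x}))
      exact h2
    have h3 := h1.infinite_compl
    exact h3
  refine ⟨{ b := b, A := UniA_A I.al b, bHP := hbHP, AHP := UniA_A_HP I.al b hbHP,
            db0 := hb0, dbs := hbs, A0 := ?_, A1 := ?_, A2 := ?_, rel := ?_ }⟩
  · intro h x
    rw [UniA_A_eq, Finset.range_zero, Finset.sum_empty, add_zero]
  · intro h x
    rw [UniA_A_eq, Finset.sum_range_one, Nat.cast_zero, zero_mul, zero_mul, add_zero]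
  · intro h x
    rw [UniA_A_eq, Finset.sum_range_succ, Finset.sum_range_one, Nat.cast_zero, zero_mul, zero_mul,
      zero_add, Nat.cast_one, one_mul]
  · intro h m x K hK
    have hL : HP (I.n + K) (fun h x => dd I.al (Bt I h m) x) :=
      HP.mono (Nat.le_add_right _ _) (HP.dd I.al (HP.Bt I m))
    have hR : HP (I.n + K) (fun h x => ∑ j ∈ Finset.range K,
        ((m : ℂ) + j + 1) * (Bt I h (m + j + 1) x * UniA_A I.al b j h x)) := by
      apply HP.sum
      intro j hj
      have hj' := Finset.mem_range.1 hj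
      apply HP.smul
      exact HP.mono (by omega) (HP.mul (HP.Bt I (m + j + 1)) (UniA_A_HP I.al b hbHP j))
    have hkey := HP.ext_at hL hR x _ hT (by
      intro t ht
      have h1 := rel_good I N hN M hM1 hMN t (pa.eval (t : ℂ)) ht (htop t)
        (fun k y hk => hbig k t y hk) (fun i y => b i t y) (fun i y => UniA_A I.al b i t y)
        (fun i => HP.smooth (hbHP i) t) (fun i => HP.per (hbHP i) t)
        (fun i => HP.smooth (UniA_A_HP I.al b hbHP i) t)
        (fun i => HP.per (UniA_A_HP I.al b hbHP i) t)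
        (fun y => hb0 t y) (fun i y => hbs i t y) (fun n y => UniA_A_eq I.al b n t y) m x K hK
      rw [h1]
      refine Finset.sum_congr rfl fun j _ => ?_
      ring)
    have h2 := hkey h
    rw [h2]
    refine Finset.sum_congr rfl fun j _ => ?_
    ring

end Pool.W4b1b5d.E
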