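import Pool.Agent.W_4b1b5d_h78.Defs
import Pool.Agent.W_4b1b5d_h3.BetaA

set_option autoImplicit false

namespace Pool.W4b1b5d.E

open Pool.W4b1b5d.H3

/-- TASK HPops (1).  More powers allowed (the added coefficients are `0`; redefine `c k = 0` for
`k > m`). -/
theorem HP.mono {m m' : ℕ} {f : ℝ → V2 → ℂ} (h : m ≤ m') (hf : HP m f) : HP m' f := by
  obtain ⟨c, hc, hp, he⟩ := hf
  refine ⟨fun k => if k ≤ m then c k else fun _ => 0, fun k => ?_, fun k => ?_, fun t x => ?_⟩
  · by_cases hk : k ≤ m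
    · simp only [if_pos hk]
      exact hc k
    · simp only [if_neg hk]
      exact contDiff_const
  · by_cases hk : k ≤ m
    · simp only [if_pos hk]
      exact hp k
    · simp only [if_neg hk]
      intro x j
      rfl
  · rw [he]
    have h1 : Finset.range (m + 1) ⊆ Finset.range (m' + 1) := by
      intro k hk
      rw [Finset.mem_range] at hk ⊢
      omega
    rw [← Finset.sum_subset h1]
    · refine Finset.sum_congr rfl fun k hk => ?_
      rw [Finset.mem_range] at hk
      beta_reduce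
      rw [if_pos (by omega : k ≤ m)]
    · intro k _ hk
      rw [Finset.mem_range] at hk
      beta_reduce
      rw [if_neg (by omega : ¬ k ≤ m), zero_mul]

theorem HPops_zero (m : ℕ) : HP m (fun _ _ => 0) := by
  refine ⟨fun _ _ => 0, fun _ => contDiff_const, fun _ _ _ => rfl, fun t x => ?_⟩
  simp

theorem HPops_mono_term {m k : ℕ} (hk : k ≤ m) {c : V2 → ℂ} (hc : ContDiff ℝ (⊤ : ℕ∞) c)
    (hp : Per c) : HP m (fun h x => c x * (h : ℂ) ^ k) := by
  refine ⟨fun j => if j = k then c else fun _ => 0, fun j => ?_, fun j => ?_, fun t x => ?_⟩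
  · by_cases hj : j = k
    · simp only [if_pos hj]
      exact hc
    · simp only [if_neg hj]
      exact contDiff_const
  · by_cases hj : j = k
    · simp only [if_pos hj]
      exact hp
    · simp only [if_neg hj]
      intro x j
      rfl
  · rw [Finset.sum_eq_single k]
    · beta_reduce
      rw [if_pos rfl]
    · intro j _ hj
      beta_reduce
      rw [if_neg hj, zero_mul]
    · intro h
      exact absurd (Finset.mem_range.mpr (by omega)) h

/-- TASK HPops (2).  A smooth periodic function not depending on `h`. -/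
theorem HP.const {f : V2 → ℂ} (hf : ContDiff ℝ (⊤ : ℕ∞) f) (hp : Per f) :
    HP 0 (fun _ x => f x) := by
  refine ⟨fun _ => f, fun _ => hf, fun _ => hp, fun t x => ?_⟩
  simp

/-- TASK HPops (3). -/
theorem HP.add {m : ℕ} {f g : ℝ → V2 → ℂ} (hf : HP m f) (hg : HP m g) :
    HP m (fun h x => f h x + g h x) := by
  obtain ⟨c, hc, hp, he⟩ := hf
  obtain ⟨c', hc', hp', he'⟩ := hg
  refine ⟨fun k x => c k x + c' k x, fun k => (hc k).add (hc' k), fun k x j => ?_, fun t x => ?_⟩
  · change c k _ + c' k _ = _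
    rw [hp k x j, hp' k x j]
  · beta_reduce
    rw [he, he', ← Finset.sum_add_distrib]
    refine Finset.sum_congr rfl fun k _ => ?_
    ring

theorem HPops_sum {m : ℕ} {ι : Type*} (s : Finset ι) {f : ι → ℝ → V2 → ℂ}
    (hf : ∀ i ∈ s, HP m (f i)) : HP m (fun h x => ∑ i ∈ s, f i h x) := by
  classical
  induction s using Finset.induction_on with
  | empty =>
    simp only [Finset.sum_empty]
    exact HPops_zero m
  | insert i s hi ih =>
    simp only [Finset.sum_insert hi]
    exact (hf i (Finset.mem_insert_self i s)).add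
      (ih fun j hj => hf j (Finset.mem_insert_of_mem hj))

/-- TASK HPops (4). -/
theorem HP.smul {m : ℕ} {f : ℝ → V2 → ℂ} (a : ℂ) (hf : HP m f) :
    HP m (fun h x => a * f h x) := by
  obtain ⟨c, hc, hp, he⟩ := hf
  refine ⟨fun k x => a * c k x, fun k => contDiff_const.mul (hc k), fun k x j => ?_,
    fun t x => ?_⟩
  · change a * c k _ = _
    rw [hp k x j]
  · beta_reduce
    rw [he, Finset.mul_sum]
    refine Finset.sum_congr rfl fun k _ => ?_
    ring

/-- TASK HPops (5).  Products: convolution of the coefficients. -/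
theorem HP.mul {m m' : ℕ} {f g : ℝ → V2 → ℂ} (hf : HP m f) (hg : HP m' g) :
    HP (m + m') (fun h x => f h x * g h x) := by
  obtain ⟨c, hc, hp, he⟩ := hf
  obtain ⟨c', hc', hp', he'⟩ := hg
  have h1 : (fun (h : ℝ) (x : V2) => f h x * g h x) = fun (h : ℝ) (x : V2) =>
      ∑ i ∈ Finset.range (m + 1), ∑ j ∈ Finset.range (m' + 1),
        (c i x * c' j x) * (h : ℂ) ^ (i + j) := by
    funext h x
    rw [he, he', Finset.sum_mul_sum]
    refine Finset.sum_congr rfl fun i _ => Finset.sum_congr rfl fun j _ => ?_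
    rw [pow_add]
    ring
  rw [h1]
  refine HPops_sum _ fun i hi => HPops_sum _ fun j hj => ?_
  rw [Finset.mem_range] at hi hj
  refine HPops_mono_term (c := fun x => c i x * c' j x) (by omega) ((hc i).mul (hc' j)) ?_
  intro x k
  change c i _ * c' j _ = _
  rw [hp i x k, hp' j x k]

/-- TASK HPops (6).  Finite sums. -/
theorem HP.sum {m : ℕ} {ι : Type*} (s : Finset ι) {f : ι → ℝ → V2 → ℂ}
    (hf : ∀ i ∈ s, HP m (f i)) : HP m (fun h x => ∑ i ∈ s, f i h x) :=
  HPops_sum s hf

/-- TASK HPops (7).  Derivatives (`dd_sum`, and `dd a (c k * const)`). -/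
theorem HP.dd {m : ℕ} {f : ℝ → V2 → ℂ} (a : Fin 2 → ℂ) (hf : HP m f) :
    HP m (fun h x => dd a (f h) x) := by
  obtain ⟨c, hc, hp, he⟩ := hf
  refine ⟨fun k x => Pool.W4b1b5d.H3.dd a (c k) x, fun k => dd_contDiff a (hc k),
    fun k => dd_per a (hp k), fun t x => ?_⟩
  have h1 : f t = fun y => ∑ k ∈ Finset.range (m + 1), c k y * (t : ℂ) ^ k := by
    funext y
    exact he t y
  have hd : ∀ k, DifferentiableAt ℝ (c k) x := fun k =>
    ((hc k).differentiable (by simp)).differentiableAt
  change Pool.W4b1b5d.H3.dd a (f t) x = _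
  rw [h1, dd_sum a _ (fun k y => c k y * (t : ℂ) ^ k) (fun k _ =>
    (hd k).mul (differentiableAt_const _))]
  refine Finset.sum_congr rfl fun k _ => ?_
  rw [dd_mul a (hd k) (differentiableAt_const _), BetaA_const, mul_zero, add_zero]

/-- TASK HPops (8).  For every `h` the function is smooth. -/
theorem HP.smooth {m : ℕ} {f : ℝ → V2 → ℂ} (hf : HP m f) (h : ℝ) :
    ContDiff ℝ (⊤ : ℕ∞) (f h) := by
  obtain ⟨c, hc, hp, he⟩ := hf
  have h1 : f h = fun y => ∑ k ∈ Finset.range (m + 1), c k y * (h : ℂ) ^ k := by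
    funext y
    exact he h y
  rw [h1]
  exact ContDiff.sum fun k _ => (hc k).mul contDiff_const

/-- TASK HPops (9).  For every `h` the function is periodic. -/
theorem HP.per {m : ℕ} {f : ℝ → V2 → ℂ} (hf : HP m f) (h : ℝ) : Per (f h) := by
  obtain ⟨c, hc, hp, he⟩ := hf
  intro x k
  rw [he, he]
  refine Finset.sum_congr rfl fun j _ => ?_
  rw [hp j x k]

/-- TASK HPops (10).  `ell h x = (h - U)/mu` is of degree one in `h`. -/
theorem HP.ell (I : ID) : HP 1 (fun h x => (I.ell h x : ℂ)) := by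
  have hne : ∀ x, I.mu x ≠ 0 := fun x => (I.mupos x).ne'
  have hs0 : ContDiff ℝ (⊤ : ℕ∞) (fun x => ((-(I.U x) / I.mu x : ℝ) : ℂ)) :=
    Complex.ofRealCLM.contDiff.comp (I.Usm.neg.div I.musm hne)
  have hs1 : ContDiff ℝ (⊤ : ℕ∞) (fun x => ((1 / I.mu x : ℝ) : ℂ)) :=
    Complex.ofRealCLM.contDiff.comp (contDiff_const.div I.musm hne)
  refine ⟨fun k => if k = 0 then (fun x => ((-(I.U x) / I.mu x : ℝ) : ℂ)) else
    (fun x => ((1 / I.mu x : ℝ) : ℂ)), fun k => ?_, fun k => ?_, fun t x => ?_⟩
  · by_cases hk : k = 0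
    · simp only [if_pos hk]
      exact hs0
    · simp only [if_neg hk]
      exact hs1
  · by_cases hk : k = 0
    · simp only [if_pos hk]
      intro x j
      beta_reduce
      rw [I.Uper x j, I.muper x j]
    · simp only [if_neg hk]
      intro x j
      beta_reduce
      rw [I.muper x j]
  · rw [Finset.sum_range_succ, Finset.sum_range_one]
    beta_reduce
    rw [if_pos rfl, if_neg one_ne_zero]
    unfold ID.ell
    push_cast
    have h1 : (I.mu x : ℂ) ≠ 0 := Complex.ofReal_ne_zero.mpr (hne x)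
    field_simp
    ring

/-- TASK HPops (11).  `ddr a (ell h)` is of degree one in `h`. -/
theorem HP.ddr_ell (I : ID) (a : Fin 2 → ℂ) : HP 1 (fun h x => ddr a (I.ell h) x) :=
  HP.dd a (HP.ell I)

theorem HPops_pow (I : ID) (b : ℕ) : HP b (fun h x => (I.ell h x : ℂ) ^ b) := by
  induction b with
  | zero =>
    simp only [pow_zero]
    exact HP.const contDiff_const (fun _ _ => rfl)
  | succ b ih =>
    simp only [pow_succ]
    exact ih.mul (HP.ell I)

/-- TASK HPops (12). -/
theorem HP.Bt (I : ID) (k : ℤ) : HP I.n (fun h x => Bt I h k x) := by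
  have h1 : (fun (h : ℝ) (x : V2) => Pool.W4b1b5d.E.Bt I h k x) = fun h x =>
      ∑ b ∈ Finset.range (I.n + 1), I.f (2 * k + b) b x * (I.ell h x : ℂ) ^ b := by
    funext h x
    rfl
  rw [h1]
  refine HP.sum _ fun b hb => ?_
  rw [Finset.mem_range] at hb
  exact HP.mono (by omega : 0 + b ≤ I.n)
    ((HP.const (I.fsm (2 * k + b) b) (I.fper (2 * k + b) b)).mul (HPops_pow I b))

/-- TASK HPops (13).  At a fixed point `x` the value is a polynomial in `h` of degree at most `m`. -/
theorem HP.poly {m : ℕ} {f : ℝ → V2 → ℂ} (hf : HP m f) (x : V2) :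
    ∃ p : Polynomial ℂ, p.natDegree ≤ m ∧ ∀ h : ℝ, f h x = p.eval (h : ℂ) := by
  obtain ⟨c, hc, hp, he⟩ := hf
  refine ⟨∑ k ∈ Finset.range (m + 1), Polynomial.C (c k x) * Polynomial.X ^ k, ?_, fun t => ?_⟩
  · refine Polynomial.natDegree_sum_le_of_forall_le _ _ fun k hk => ?_
    rw [Finset.mem_range] at hk
    exact (Polynomial.natDegree_C_mul_X_pow_le _ _).trans (by omega)
  · rw [he, Polynomial.eval_finsetSum]
    refine Finset.sum_congr rfl fun k _ => ?_
    rw [Polynomial.eval_mul, Polynomial.eval_C, Polynomial.eval_pow, Polynomial.eval_X]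

/-- TASK HPops (14).  Two such functions which agree at `x` for infinitely many `h` agree for
all `h`. -/
theorem HP.ext_at {m : ℕ} {f g : ℝ → V2 → ℂ} (hf : HP m f) (hg : HP m g) (x : V2) (T : Set ℝ)
    (hT : T.Infinite) (h : ∀ t ∈ T, f t x = g t x) : ∀ t, f t x = g t x := by
  obtain ⟨p, _, hp⟩ := hf.poly x
  obtain ⟨q, _, hq⟩ := hg.poly x
  have h1 : p = q := by
    refine Polynomial.eq_of_infinite_eval_eq p q ?_
    have h2 : ((fun t : ℝ => (t : ℂ)) '' T).Infinite :=
      hT.image (Complex.ofReal_injective.injOn)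
    refine h2.mono ?_
    rintro z ⟨t, ht, rfl⟩
    change p.eval (t : ℂ) = q.eval (t : ℂ)
    rw [← hp, ← hq]
    exact h t ht
  intro t
  rw [hp, hq, h1]

/-- TASK HPops (15).  At a fixed `x` the value is a polynomial in `l = ell h x` of degree at
most `m` (`h = U x + mu x * l`). -/
theorem HP.poly_ell (I : ID) {m : ℕ} {f : ℝ → V2 → ℂ} (hf : HP m f) (x : V2) :
    ∃ p : Polynomial ℂ, p.natDegree ≤ m ∧ ∀ h : ℝ, f h x = p.eval (I.ell h x : ℂ) := by
  obtain ⟨p, hd, hp⟩ := hf.poly x
  refine ⟨p.comp (Polynomial.C (I.U x : ℂ) + Polynomial.C (I.mu x : ℂ) * Polynomial.X), ?_,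
    fun t => ?_⟩
  · refine Polynomial.natDegree_comp_le.trans ?_
    have h1 : (Polynomial.C (I.U x : ℂ) + Polynomial.C (I.mu x : ℂ) * Polynomial.X).natDegree ≤ 1 := by
      refine (Polynomial.natDegree_add_le _ _).trans ?_
      rw [Polynomial.natDegree_C]
      exact max_le (by omega) ((Polynomial.natDegree_C_mul_le _ _).trans Polynomial.natDegree_X_le)
    calc p.natDegree * _ ≤ m * 1 := Nat.mul_le_mul hd h1
      _ = m := mul_one m
  · rw [hp, Polynomial.eval_comp]
    congr 1
    rw [Polynomial.eval_add, Polynomial.eval_C, Polynomial.eval_mul, Polynomial.eval_C,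
      Polynomial.eval_X]
    unfold ID.ell
    push_cast
    have h1 : (I.mu x : ℂ) ≠ 0 := Complex.ofReal_ne_zero.mpr (I.mupos x).ne'
    field_simp
    ring

end Pool.W4b1b5d.E
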