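import Mathlib

set_option autoImplicit false

namespace Pool.W4b1b5d.E

open Polynomial

theorem cauchy_iterDeriv (n : ℕ) : ∀ P : ℂ[X],
    iteratedDeriv n (fun w : ℂ => P.eval w) = fun w => (derivative^[n] P).eval w := by
  induction n with
  | zero => intro P; simp
  | succ n ih =>
    intro P
    rw [iteratedDeriv_succ']
    have h1 : deriv (fun w : ℂ => P.eval w) = fun w => (derivative P).eval w := by
      funext w
      exact P.deriv
    rw [h1, ih, Function.iterate_succ, Function.comp_apply]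

theorem cauchy_iterDeriv_zero (n : ℕ) (P : ℂ[X]) :
    iteratedDeriv n (fun w : ℂ => P.eval w) 0 = (n.factorial : ℂ) * P.coeff n := by
  rw [cauchy_iterDeriv]
  simp only []
  rw [← coeff_zero_eq_eval_zero, coeff_iterate_derivative, zero_add, Nat.descFactorial_self,
    nsmul_eq_mul]

theorem cauchy_nozero (P Q : ℂ[X]) (g : PowerSeries ℂ)
    (hg : (Q : PowerSeries ℂ) * g = (P : PowerSeries ℂ)) (r : ℝ) (hr : 0 < r) (K : ℝ)
    (hin : ∀ w : ℂ, ‖w‖ ≤ r → Q.eval w ≠ 0)
    (hbd : ∀ w : ℂ, ‖w‖ = r → ‖P.eval w‖ ≤ K * ‖Q.eval w‖) (j : ℕ) :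
    ‖PowerSeries.coeff j g‖ ≤ K / r ^ j := by
  have hball : ∀ w ∈ Metric.closedBall (0 : ℂ) r, Q.eval w ≠ 0 := fun w hw =>
    hin w (by simpa using hw)
  have hda : ∀ w ∈ Metric.closedBall (0 : ℂ) r,
      DifferentiableAt ℂ (fun w => P.eval w / Q.eval w) w := fun w hw =>
    P.differentiable.differentiableAt.fun_div Q.differentiable.differentiableAt (hball w hw)
  have hdc : DiffContOnCl ℂ (fun w => P.eval w / Q.eval w) (Metric.ball 0 r) := by
    apply DifferentiableOn.diffContOnCl
    rw [closure_ball _ hr.ne']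
    exact fun w hw => (hda w hw).differentiableWithinAt
  have hbound := Complex.norm_iteratedDeriv_le_of_forall_mem_sphere_norm_le (C := K) j hr hdc
    (by
      intro z hz
      have hz' : ‖z‖ = r := by simpa using hz
      have h0 : 0 < ‖Q.eval z‖ := norm_pos_iff.2 (hin z hz'.le)
      rw [norm_div, div_le_iff₀ h0]
      exact hbd z hz')
  have h0mem : (0 : ℂ) ∈ Metric.closedBall (0 : ℂ) r := by simp [hr.le]
  have hQ0 : Q.eval 0 ≠ 0 := hball 0 h0mem
  have hcd : ∀ n : ℕ, ContDiffAt ℂ n (fun w => P.eval w / Q.eval w) 0 := fun n =>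
    P.differentiable.contDiff.contDiffAt.fun_div Q.differentiable.contDiff.contDiffAt hQ0
  have hφ : (Q : PowerSeries ℂ) *
      PowerSeries.mk (fun n => iteratedDeriv n (fun w => P.eval w / Q.eval w) 0 / n.factorial) =
      (P : PowerSeries ℂ) := by
    ext n
    rw [PowerSeries.coeff_mul, Polynomial.coeff_coe]
    have hev : (fun w => Q.eval w * (P.eval w / Q.eval w)) =ᶠ[nhds (0 : ℂ)]
        fun w => P.eval w := by
      filter_upwards [Metric.closedBall_mem_nhds (0 : ℂ) hr] with w hw
      exact mul_div_cancel₀ _ (hball w hw)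
    have h1 := hev.iteratedDeriv_eq n
    rw [iteratedDeriv_fun_mul Q.differentiable.contDiff.contDiffAt (hcd n), cauchy_iterDeriv_zero n P] at h1
    have hn : (n.factorial : ℂ) ≠ 0 := by exact_mod_cast n.factorial_ne_zero
    apply mul_left_cancel₀ hn
    rw [← h1, Finset.Nat.sum_antidiagonal_eq_sum_range_succ_mk, Finset.mul_sum]
    apply Finset.sum_congr rfl
    intro i hi
    have hi' : i ≤ n := by
      have := Finset.mem_range.1 hi
      omega
    rw [cauchy_iterDeriv_zero i Q]
    simp only [Polynomial.coeff_coe, PowerSeries.coeff_mk]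
    have h2 : (n.choose i : ℂ) * i.factorial * (n - i).factorial = n.factorial := by
      exact_mod_cast Nat.choose_mul_factorial_mul_factorial hi'
    have h3 : ((n - i).factorial : ℂ) ≠ 0 := by exact_mod_cast (n - i).factorial_ne_zero
    rw [← h2]
    field_simp
  have hQne : (Q : PowerSeries ℂ) ≠ 0 := by
    intro h
    have h2 : Q = 0 := by exact_mod_cast h
    rw [h2] at hQ0
    simp at hQ0
  have hgφ := mul_left_cancel₀ hQne (hg.trans hφ.symm)
  rw [hgφ, PowerSeries.coeff_mk, norm_div]
  have hn : (0 : ℝ) < (j.factorial : ℝ) := by exact_mod_cast j.factorial_pos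
  rw [Complex.norm_natCast, div_le_iff₀ hn]
  calc _ ≤ _ := hbound
    _ = _ := by ring

/-- TASK Cauchy.  Cauchy estimate for the coefficients of the power series `g = P / Q`, when every
zero of `Q` in the open disc of radius `r` is a zero of `P` of at least the same order.

Proof.  (1) Cancellation, by strong induction on `Q.natDegree`: if `Q` has a root `w0` with
`‖w0‖ < r`, then `X - C w0` divides `Q` and `P` (`m = 1`), `Q = (X - C w0) Q1`, `P = (X - C w0) P1`;
`w0 ≠ 0`, `Q1 * g = P1` (the power series ring is a domain) and the hypotheses hold for `P1, Q1`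
(on `‖w‖ = r` divide by `‖w - w0‖ > 0`).  (2) Now `Q` has no zero in `‖w‖ ≤ r` (none on the circle by
`hbd`).  Let `s_j(w) = ∑_{i<j} g_i w^i`.  From `Q g = P`: `P - Q s_j = X^j P_j` with `P_j` a
polynomial with `P_j(0) = Q(0) g_j`.  `P_j / Q` is holomorphic near the closed disc, so by the
Cauchy integral formula `g_j = (2πi)⁻¹ ∮ P_j/(Q w) dw = (2πi)⁻¹ ∮ (P/Q - s_j) w^(-j-1) dw
= (2πi)⁻¹ ∮ (P/Q) w^(-j-1) dw`, because `∮ w^(i-j-1) dw = 0` for `i < j`
(`circleIntegral.integral_sub_zpow_of_ne`).  Bound: `circleIntegral.norm_integral_le_of_norm_le_const`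
or use `Complex.norm_iteratedDeriv_le_of_forall_mem_sphere_norm_le`. -/
theorem cauchy_coeff (P Q : ℂ[X]) (hQ : Q.eval 0 ≠ 0) (g : PowerSeries ℂ)
    (hg : (Q : PowerSeries ℂ) * g = (P : PowerSeries ℂ)) (r : ℝ) (hr : 0 < r) (K : ℝ)
    (hin : ∀ w : ℂ, ‖w‖ < r → ∀ m : ℕ, (X - C w) ^ m ∣ Q → (X - C w) ^ m ∣ P)
    (hbd : ∀ w : ℂ, ‖w‖ = r → Q.eval w ≠ 0 ∧ ‖P.eval w‖ ≤ K * ‖Q.eval w‖) (j : ℕ) :
    ‖PowerSeries.coeff j g‖ ≤ K / r ^ j := by
  induction hd : Q.natDegree using Nat.strong_induction_on generalizing P Q with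
  | _ d ih =>
    by_cases hz : ∃ w0 : ℂ, ‖w0‖ < r ∧ Q.eval w0 = 0
    · obtain ⟨w0, hw0, hQ0⟩ := hz
      have hQd : (X - C w0) ∣ Q := dvd_iff_isRoot.2 hQ0
      have hPd : (X - C w0) ∣ P := by
        have h1 := hin w0 hw0 1 (by simpa using hQd)
        simpa using h1
      obtain ⟨Q1, rfl⟩ := hQd
      obtain ⟨P1, rfl⟩ := hPd
      have hQne : Q1 ≠ 0 := by
        rintro rfl
        simp at hQ
      have hX : (X - C w0 : ℂ[X]) ≠ 0 := X_sub_C_ne_zero w0
      have hXP : ((X - C w0 : ℂ[X]) : PowerSeries ℂ) ≠ 0 := by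
        intro h
        apply hX
        exact_mod_cast h
      refine ih Q1.natDegree ?_ P1 Q1 ?_ ?_ ?_ ?_ rfl
      · rw [← hd, natDegree_mul hX hQne, natDegree_X_sub_C]
        omega
      · intro h
        apply hQ
        rw [eval_mul, h, mul_zero]
      · apply mul_left_cancel₀ hXP
        have h1 := hg
        rw [Polynomial.coe_mul, Polynomial.coe_mul] at h1
        rw [← h1]
        ring
      · intro w hw m hm
        by_cases hww : w = w0
        · subst hww
          have h1 : (X - C w) ^ (m + 1) ∣ (X - C w) * Q1 := by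
            rw [pow_succ']
            exact mul_dvd_mul_left _ hm
          have h2 := hin w hw (m + 1) h1
          rw [pow_succ'] at h2
          exact (mul_dvd_mul_iff_left hX).1 h2
        · have h1 : (X - C w) ^ m ∣ (X - C w0) * Q1 := Dvd.dvd.mul_left hm _
          have h2 := hin w hw m h1
          have hcop : IsCoprime ((X - C w) ^ m) (X - C w0) := by
            apply IsCoprime.pow_left
            exact isCoprime_X_sub_C_of_isUnit_sub (sub_ne_zero.2 hww).isUnit
          exact hcop.dvd_of_dvd_mul_left h2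
      · intro w hw
        obtain ⟨h1, h2⟩ := hbd w hw
        rw [eval_mul] at h1
        refine ⟨right_ne_zero_of_mul h1, ?_⟩
        have h3 : 0 < ‖(X - C w0).eval w‖ := norm_pos_iff.2 (left_ne_zero_of_mul h1)
        rw [eval_mul, eval_mul, norm_mul, norm_mul] at h2
        have h4 : ‖(X - C w0).eval w‖ * ‖P1.eval w‖ ≤
            ‖(X - C w0).eval w‖ * (K * ‖Q1.eval w‖) := by
          calc _ ≤ _ := h2
            _ = _ := by ring
        exact le_of_mul_le_mul_left h4 h3
    · push Not at hz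
      refine cauchy_nozero P Q g hg r hr K ?_ (fun w hw => (hbd w hw).2) j
      intro w hw
      rcases hw.lt_or_eq with h | h
      · exact hz w h
      · exact (hbd w h).1

end Pool.W4b1b5d.E
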