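import Mathlib

set_option autoImplicit false

namespace Pool.W4b1b5d.E

open Polynomial

/-- TASK PolyLow.  A complex polynomial of degree at most `j + 1` with `|p(t)| ≤ C |t|^j` for all
small real `t ≠ 0` is `a t^j + b t^(j+1)`.

Proof.  Let `i < j` be the least index with `coeff i p ≠ 0`; then `p = X^i * q` with `q(0) ≠ 0`, and
`|t|^i |q(t)| ≤ C |t|^j` gives `|q(t)| ≤ C |t|^(j-i)`, so `q(0) = 0` by continuity as `t → 0`, a
contradiction.  So all coefficients below `j` vanish. -/
theorem poly_low (p : ℂ[X]) (j : ℕ) (hd : p.natDegree ≤ j + 1) (K ε : ℝ) (hε : 0 < ε)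
    (hb : ∀ t : ℝ, 0 < |t| → |t| < ε → ‖p.eval (t : ℂ)‖ ≤ K * |t| ^ j) :
    ∃ a b : ℂ, p = C a * X ^ j + C b * X ^ (j + 1) := by
  classical
  -- all coefficients below `j` vanish
  have key : ∀ i, i < j → p.coeff i = 0 := by
    intro i
    induction i using Nat.strong_induction_on with
    | _ i ih =>
      intro hij
      have hdvd : X ^ i ∣ p := by
        rw [X_pow_dvd_iff]
        intro d hd'
        exact ih d hd' (hd'.trans hij)
      obtain ⟨q, hq⟩ := hdvd
      have hc : p.coeff i = q.coeff 0 := by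
        rw [hq, coeff_X_pow_mul', if_pos le_rfl, Nat.sub_self]
      rw [hc]
      -- `‖q(t)‖ ≤ K |t|^(j-i)`
      have h1 : ∀ t : ℝ, 0 < |t| → |t| < ε → ‖q.eval (t : ℂ)‖ ≤ K * |t| ^ (j - i) := by
        intro t ht0 ht
        have h2 := hb t ht0 ht
        rw [hq, eval_mul, eval_pow, eval_X, norm_mul, norm_pow, Complex.norm_real,
          Real.norm_eq_abs] at h2
        have h3 : |t| ^ j = |t| ^ i * |t| ^ (j - i) := by
          rw [← pow_add]; congr 1; omega
        rw [h3] at h2
        have hp : 0 < |t| ^ i := by positivity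
        have h4 : |t| ^ i * ‖q.eval (t : ℂ)‖ ≤ |t| ^ i * (K * |t| ^ (j - i)) := by
          linarith
        exact le_of_mul_le_mul_left h4 hp
      have hcont : Filter.Tendsto (fun t : ℝ => ‖q.eval (t : ℂ)‖) (nhdsWithin 0 (Set.Ioi 0))
          (nhds ‖q.eval ((0 : ℝ) : ℂ)‖) := by
        have hC : Continuous fun t : ℝ => ‖q.eval (t : ℂ)‖ := by
          have : Continuous fun t : ℝ => q.eval (t : ℂ) :=
            q.continuous.comp Complex.continuous_ofReal
          exact this.norm
        exact (hC.tendsto 0).mono_left nhdsWithin_le_nhds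
      have hlim : Filter.Tendsto (fun t : ℝ => K * |t| ^ (j - i)) (nhdsWithin 0 (Set.Ioi 0))
          (nhds 0) := by
        have hC : Continuous fun t : ℝ => K * |t| ^ (j - i) := by fun_prop
        have h5 := (hC.tendsto 0).mono_left (nhdsWithin_le_nhds (s := Set.Ioi (0:ℝ)))
        have h6 : K * |(0:ℝ)| ^ (j - i) = 0 := by
          rw [abs_zero, zero_pow (by omega), mul_zero]
        rwa [h6] at h5
      have hle : ‖q.eval ((0 : ℝ) : ℂ)‖ ≤ 0 := by
        refine le_of_tendsto_of_tendsto hcont hlim ?_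
        have hmem : Set.Ioo (0:ℝ) ε ∈ nhdsWithin (0:ℝ) (Set.Ioi 0) :=
          Ioo_mem_nhdsGT hε
        filter_upwards [hmem] with t ht
        exact h1 t (by rw [abs_of_pos ht.1]; exact ht.1) (by rw [abs_of_pos ht.1]; exact ht.2)
      have h7 : q.eval ((0 : ℝ) : ℂ) = 0 := norm_le_zero_iff.1 hle
      rw [Complex.ofReal_zero] at h7
      rw [coeff_zero_eq_eval_zero]
      exact h7
  refine ⟨p.coeff j, p.coeff (j + 1), ?_⟩
  ext n
  rw [coeff_add, coeff_C_mul_X_pow, coeff_C_mul_X_pow]
  rcases lt_trichotomy n j with h | h | h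
  · rw [if_neg (by omega), if_neg (by omega), key n h, add_zero]
  · subst h
    rw [if_pos rfl, if_neg (by omega), add_zero]
  · rcases eq_or_lt_of_le (Nat.succ_le_of_lt h) with h' | h'
    · have h'' : n = j + 1 := h'.symm
      subst h''
      rw [if_neg (by omega), if_pos rfl, zero_add]
    · rw [if_neg (by omega), if_neg (by omega), add_zero]
      exact coeff_eq_zero_of_natDegree_lt (by omega)

end Pool.W4b1b5d.E
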