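import Pool.Agent.W_4b1b5d_h78.Coef
import Pool.Agent.W_4b1b5d_h78.PropW
import Pool.Agent.W_4b1b5d_h78.Cauchy
import Pool.Agent.W_4b1b5d_h78.PolyLow
import Pool.Agent.W_4b1b5d_h78.HPops

set_option autoImplicit false

namespace Pool.W4b1b5d.E

open Pool.W4b1b5d.H3 Polynomial

theorem ABd_Bt_low (I : ID) (M : ℕ) (h : ℝ)
    (hbig : ∀ (k : ℤ) (x : V2), (M : ℤ) < k → Bt I h k x = 0) (k : ℤ) (hk : k < -(M : ℤ)) (x : V2) :
    Bt I h k x = 0 := by
  obtain ⟨n, hn⟩ : ∃ n : ℕ, k = -(n : ℤ) := ⟨(-k).toNat, by omega⟩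
  rw [hn, Bt_neg, hbig n x (by omega), map_zero, mul_zero]

theorem ABd_QW_coeff (I : ID) (M : ℕ) (h : ℝ)
    (hbig : ∀ (k : ℤ) (x : V2), (M : ℤ) < k → Bt I h k x = 0) (x : V2) (t : ℕ) :
    (QW I M h x).coeff t = ((M : ℂ) - t) * Bt I h ((M : ℤ) - t) x := by
  unfold QW
  rw [Polynomial.finsetSum_coeff]
  simp only [Polynomial.coeff_C_mul, Polynomial.coeff_X_pow]
  rcases Nat.lt_or_ge t (2 * M + 1) with h1 | h1
  · rw [Finset.sum_eq_single t]
    · rw [if_pos rfl, mul_one]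
    · intro b _ hb
      rw [if_neg (Ne.symm hb), mul_zero]
    · intro h'
      exact absurd (Finset.mem_range.mpr h1) h'
  · rw [Finset.sum_eq_zero]
    · rw [ABd_Bt_low I M h hbig _ (by omega) x, mul_zero]
    · intro b hb
      rw [Finset.mem_range] at hb
      rw [if_neg (by omega), mul_zero]

theorem ABd_NW_coeff (I : ID) (M : ℕ) (h : ℝ)
    (hbig : ∀ (k : ℤ) (x : V2), (M : ℤ) < k → Bt I h k x = 0) (x : V2) (t : ℕ) :
    (NW I M h x).coeff t = dd I.al (Bt I h ((M : ℤ) - 1 - t)) x := by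
  unfold NW
  rw [Polynomial.finsetSum_coeff]
  simp only [Polynomial.coeff_C_mul, Polynomial.coeff_X_pow]
  rcases Nat.lt_or_ge t (2 * M) with h1 | h1
  · rw [Finset.sum_eq_single t]
    · rw [if_pos rfl, mul_one]
    · intro b _ hb
      rw [if_neg (Ne.symm hb), mul_zero]
    · intro h'
      exact absurd (Finset.mem_range.mpr h1) h'
  · rw [Finset.sum_eq_zero]
    · exact (Build_dd_zero I.al (fun y => ABd_Bt_low I M h hbig _ (by omega) y) x).symm
    · intro b hb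
      rw [Finset.mem_range] at hb
      rw [if_neg (by omega), mul_zero]

/-- TASK ABd (1).  For a good `h`: the power series `∑ A_j w^j` is `NW / QW`
(coefficient of `w^s` of `QW * A` is `∑_{j ≤ s} (M - (s - j)) Bt (M - (s-j)) A_j`, which is
`rel` with `m = M - 1 - s`; the terms of `QW` with `t > 2 M` vanish because `Bt` of index `< -M`
is `0`; in `rel` the terms with `j > s` vanish because `Bt` of index `> M` is `0`;
for `s ≥ 2 M`: `dd (Bt (M-1-s)) = 0`). -/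
theorem QW_A (I : ID) (N : ℕ) (hN : I.n = 2 * N) (V : Uni I) (M : ℕ) (hM : 1 ≤ M) (hMN : M ≤ N)
    (h : ℝ) (hbig : ∀ (k : ℤ) (x : V2), (M : ℤ) < k → Bt I h k x = 0) (x : V2) :
    (QW I M h x : PowerSeries ℂ) * (PowerSeries.mk fun j => V.A j h x)
      = (NW I M h x : PowerSeries ℂ) := by
  ext s
  rw [mul_comm, PowerSeries.coeff_mul, Polynomial.coeff_coe, ABd_NW_coeff I M h hbig,
    Finset.Nat.sum_antidiagonal_eq_sum_range_succ_mk,
    V.rel h ((M : ℤ) - 1 - s) x (s + 1 + 2 * N) (by rw [hN]; push_cast; omega)]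
  rw [← Finset.sum_subset (Finset.range_subset_range.mpr (by omega : s + 1 ≤ s + 1 + 2 * N))]
  · refine Finset.sum_congr rfl fun j hj => ?_
    rw [Finset.mem_range] at hj
    rw [Polynomial.coeff_coe, ABd_QW_coeff I M h hbig, PowerSeries.coeff_mk]
    have e1 : (M : ℤ) - 1 - (s : ℤ) + (j : ℤ) + 1 = (M : ℤ) - ((s - j : ℕ) : ℤ) := by omega
    rw [e1]
    rw [Nat.cast_sub (by omega : j ≤ s)]
    push_cast
    ring
  · intro j _ hj
    rw [Finset.mem_range] at hj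
    rw [hbig _ x (by omega), mul_zero, zero_mul]

theorem ABd_eh_zero (I : ID) (N : ℕ) (hN : I.n = 2 * N) (i : ℕ) (x : V2) (h : N < i) :
    eh I N i x = 0 := by
  unfold eh
  refine Finset.sum_eq_zero fun t _ => ?_
  rw [eps_zero I N hN i _ x (Or.inl (by exact_mod_cast h)), Polynomial.C_0, zero_mul]

theorem ABd_lower (N J : ℕ) (e : ℕ → ℂ) (l : ℝ) (hl : 0 < |l|) (hl1 : |l| ≤ 1)
    (hlow : ∀ i, i < J → e i = 0) (hJ1 : 1 ≤ J) (hJN : J ≤ N) (c E : ℝ) (hc : c ≤ ‖e J‖)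
    (hE : ∑ i ∈ Finset.range (N + 1), ‖e i‖ ≤ E) :
    (c - |l| * E) * |l| ^ (J - 1) ≤
      ‖∑ i ∈ Finset.range (N + 1), e i * (l : ℂ) ^ ((i : ℤ) - 1)‖ := by
  classical
  have hmem : J ∈ Finset.range (N + 1) := Finset.mem_range.mpr (by omega)
  rw [← Finset.add_sum_erase _ _ hmem]
  have hln : ‖(l : ℂ)‖ = |l| := by rw [Complex.norm_real, Real.norm_eq_abs]
  have h1 : ‖e J * (l : ℂ) ^ ((J : ℤ) - 1)‖ = ‖e J‖ * |l| ^ (J - 1) := by
    rw [norm_mul, norm_zpow, hln]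
    congr 1
    have e1 : (J : ℤ) - 1 = ((J - 1 : ℕ) : ℤ) := by omega
    rw [e1, zpow_natCast]
  have h2 : ‖∑ i ∈ (Finset.range (N + 1)).erase J, e i * (l : ℂ) ^ ((i : ℤ) - 1)‖ ≤
      (|l| * E) * |l| ^ (J - 1) := by
    refine (norm_sum_le _ _).trans ?_
    have h3 : ∀ i ∈ (Finset.range (N + 1)).erase J, ‖e i * (l : ℂ) ^ ((i : ℤ) - 1)‖ ≤
        ‖e i‖ * (|l| * |l| ^ (J - 1)) := by
      intro i hi
      rw [Finset.mem_erase] at hi
      rcases Nat.lt_or_ge i J with h4 | h4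
      · rw [hlow i h4, zero_mul, norm_zero, zero_mul]
      · have h5 : J < i := by omega
        rw [norm_mul, norm_zpow, hln]
        refine mul_le_mul_of_nonneg_left ?_ (norm_nonneg _)
        have e1 : (i : ℤ) - 1 = ((i - 1 : ℕ) : ℤ) := by omega
        rw [e1, zpow_natCast, ← pow_succ']
        exact pow_le_pow_of_le_one hl.le hl1 (by omega)
    refine (Finset.sum_le_sum h3).trans ?_
    rw [← Finset.sum_mul]
    have h6 : ∑ i ∈ (Finset.range (N + 1)).erase J, ‖e i‖ ≤ E :=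
      (Finset.sum_le_sum_of_subset_of_nonneg (Finset.erase_subset _ _)
        (fun _ _ _ => norm_nonneg _)).trans hE
    calc (∑ i ∈ (Finset.range (N + 1)).erase J, ‖e i‖) * (|l| * |l| ^ (J - 1))
        ≤ E * (|l| * |l| ^ (J - 1)) := mul_le_mul_of_nonneg_right h6 (by positivity)
      _ = (|l| * E) * |l| ^ (J - 1) := by ring
  have h7 : ‖e J * (l : ℂ) ^ ((J : ℤ) - 1)‖ -
      ‖∑ i ∈ (Finset.range (N + 1)).erase J, e i * (l : ℂ) ^ ((i : ℤ) - 1)‖ ≤
      ‖e J * (l : ℂ) ^ ((J : ℤ) - 1) +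
        ∑ i ∈ (Finset.range (N + 1)).erase J, e i * (l : ℂ) ^ ((i : ℤ) - 1)‖ := by
    have h8 := norm_sub_norm_le (e J * (l : ℂ) ^ ((J : ℤ) - 1))
      (-(∑ i ∈ (Finset.range (N + 1)).erase J, e i * (l : ℂ) ^ ((i : ℤ) - 1)))
    rw [norm_neg, sub_neg_eq_add] at h8
    exact h8
  refine le_trans ?_ h7
  rw [h1]
  have h9 : c * |l| ^ (J - 1) ≤ ‖e J‖ * |l| ^ (J - 1) :=
    mul_le_mul_of_nonneg_right hc (by positivity)
  rw [sub_mul]
  linarith

theorem ABd_upper (N J : ℕ) (v : ℕ → ℂ) (l : ℝ) (hl1 : |l| ≤ 1)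
    (hlow : ∀ i, i + 1 < J → v i = 0) (E : ℝ)
    (hE : ∑ i ∈ Finset.range (N + 1), ‖v i‖ ≤ E) :
    ‖∑ i ∈ Finset.range (N + 1), v i * (l : ℂ) ^ i‖ ≤ E * |l| ^ (J - 1) := by
  have hln : ‖(l : ℂ)‖ = |l| := by rw [Complex.norm_real, Real.norm_eq_abs]
  refine (norm_sum_le _ _).trans ?_
  have h3 : ∀ i ∈ Finset.range (N + 1), ‖v i * (l : ℂ) ^ i‖ ≤ ‖v i‖ * |l| ^ (J - 1) := by
    intro i _
    rcases Nat.lt_or_ge (i + 1) J with h4 | h4
    · rw [hlow i h4, zero_mul, norm_zero, zero_mul]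
    · rw [norm_mul, norm_pow, hln]
      refine mul_le_mul_of_nonneg_left ?_ (norm_nonneg _)
      exact pow_le_pow_of_le_one (abs_nonneg _) hl1 (by omega)
  refine (Finset.sum_le_sum h3).trans ?_
  rw [← Finset.sum_mul]
  exact mul_le_mul_of_nonneg_right hE (by positivity)

theorem ABd_shift (a : ℤ → ℂ) (M N : ℕ) (hMN : M ≤ N) (c : ℕ)
    (hz : ∀ k : ℤ, (M : ℤ) < k ∨ k < (c : ℤ) - M → a k = 0) (hc : c ≤ 1) (w : ℂ) :
    ∑ t ∈ Finset.range (2 * N + 1 - c), a ((N : ℤ) - t) * w ^ t =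
      w ^ (N - M) * ∑ t ∈ Finset.range (2 * M + 1 - c), a ((M : ℤ) - t) * w ^ t := by
  obtain ⟨k, rfl⟩ := Nat.exists_eq_add_of_le hMN
  rw [Finset.mul_sum]
  have h1 : Finset.range (2 * (M + k) + 1 - c) = Finset.range (k + (2 * M + 1 - c + k)) := by
    congr 1
    omega
  rw [h1, Finset.sum_range_add, Finset.sum_range_add, Finset.sum_eq_zero, zero_add,
    Finset.sum_eq_zero (s := Finset.range k), add_zero]
  · refine Finset.sum_congr rfl fun t _ => ?_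
    have e1 : ((M + k : ℕ) : ℤ) - ((k + t : ℕ) : ℤ) = (M : ℤ) - t := by push_cast; ring
    rw [e1, Nat.add_sub_cancel_left, pow_add]
    ring
  · intro t _
    rw [hz _ (Or.inr (by push_cast; omega)), zero_mul]
  · intro t ht
    rw [Finset.mem_range] at ht
    rw [hz _ (Or.inl (by push_cast; omega)), zero_mul]

theorem ABd_Qr (I : ID) (N : ℕ) (hN : I.n = 2 * N) (M : ℕ) (hMN : M ≤ N) (h : ℝ)
    (hbig : ∀ (k : ℤ) (x : V2), (M : ℤ) < k → Bt I h k x = 0) (x : V2)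
    (hl : I.ell h x ≠ 0) (w : ℂ) :
    ∑ i ∈ Finset.range (N + 1),
        (eh I N i x).eval ((I.ell h x : ℂ) * w) * (I.ell h x : ℂ) ^ ((i : ℤ) - 1) =
      (I.ell h x : ℂ) ^ ((N : ℤ) - 1) * (w ^ (N - M) * (QW I M h x).eval w) := by
  have hlc : (I.ell h x : ℂ) ≠ 0 := Complex.ofReal_ne_zero.mpr hl
  have h1 : (QW I M h x).eval w =
      ∑ t ∈ Finset.range (2 * M + 1 - 0), (fun k : ℤ => (k : ℂ) * Bt I h k x) ((M : ℤ) - t) * w ^ t := by
    unfold QW
    rw [eval_finsetSum]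
    refine Finset.sum_congr rfl fun t _ => ?_
    rw [eval_mul, eval_C, eval_pow, eval_X]
    push_cast
    ring
  rw [h1, ← ABd_shift (fun k : ℤ => (k : ℂ) * Bt I h k x) M N hMN 0 ?_ (by norm_num) w,
    Finset.mul_sum]
  · have h2 : ∀ i ∈ Finset.range (N + 1),
        (eh I N i x).eval ((I.ell h x : ℂ) * w) * (I.ell h x : ℂ) ^ ((i : ℤ) - 1) =
        ∑ t ∈ Finset.range (2 * N + 1),
          (eps I i ((N : ℤ) - t) x * (I.ell h x : ℂ) ^ ((i : ℤ) - 1)) *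
            ((I.ell h x : ℂ) * w) ^ t := by
      intro i _
      unfold eh
      rw [eval_finsetSum, Finset.sum_mul]
      refine Finset.sum_congr rfl fun t _ => ?_
      rw [eval_mul, eval_C, eval_pow, eval_X]
      ring
    rw [Finset.sum_congr rfl h2, Finset.sum_comm, Nat.sub_zero]
    refine Finset.sum_congr rfl fun t _ => ?_
    rw [← Finset.sum_mul, ← Bt_eps I N hN h x hl, mul_pow]
    have e2 : (I.ell h x : ℂ) ^ ((N : ℤ) - 1) =
        (I.ell h x : ℂ) ^ ((N : ℤ) - t - 1) * (I.ell h x : ℂ) ^ t := by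
      rw [← zpow_natCast, ← zpow_add₀ hlc]
      congr 1
      ring
    rw [e2]
    ring
  · intro k hk
    beta_reduce
    rcases hk with hk | hk
    · rw [hbig k x hk, mul_zero]
    · rw [ABd_Bt_low I M h hbig k (by push_cast at hk; omega) x, mul_zero]

theorem ABd_Nr (I : ID) (N : ℕ) (hN : I.n = 2 * N) (M : ℕ) (hM : 1 ≤ M) (hMN : M ≤ N) (h : ℝ)
    (a : ℂ) (htop : ∀ x, Bt I h M x = a)
    (hbig : ∀ (k : ℤ) (x : V2), (M : ℤ) < k → Bt I h k x = 0) (x : V2)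
    (hl : I.ell h x ≠ 0) (w : ℂ) :
    ∑ i ∈ Finset.range (N + 1),
        (nh I N i x).eval ((I.ell h x : ℂ) * w) * (I.ell h x : ℂ) ^ i =
      (I.ell h x : ℂ) ^ ((N : ℤ) - 1) * (w ^ (N - M) * (NW I M h x).eval w) := by
  have hlc : (I.ell h x : ℂ) ≠ 0 := Complex.ofReal_ne_zero.mpr hl
  have h1 : (NW I M h x).eval w =
      ∑ t ∈ Finset.range (2 * M + 1 - 1), (fun k : ℤ => dd I.al (Bt I h (k - 1)) x) ((M : ℤ) - t) *
        w ^ t := by
    unfold NW
    rw [eval_finsetSum, Nat.add_sub_cancel]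
    refine Finset.sum_congr rfl fun t _ => ?_
    rw [eval_mul, eval_C, eval_pow, eval_X]
    beta_reduce
    rw [show (M : ℤ) - 1 - t = (M : ℤ) - t - 1 by ring]
  have hz : ∀ k : ℤ, (M : ℤ) ≤ k → dd I.al (Bt I h k) x = 0 := by
    intro k hk
    rcases hk.lt_or_eq with h2 | h2
    · exact Build_dd_zero I.al (fun y => hbig k y h2) x
    · have h3 : Bt I h k = fun _ => a := by
        rw [← h2]
        exact funext htop
      rw [h3]
      unfold dd
      refine Finset.sum_eq_zero fun i _ => ?_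
      rw [fderiv_const_apply]
      simp
  rw [h1, ← ABd_shift (fun k : ℤ => dd I.al (Bt I h (k - 1)) x) M N hMN 1 ?_ (by norm_num) w,
    Finset.mul_sum]
  · have h2 : ∀ i ∈ Finset.range (N + 1),
        (nh I N i x).eval ((I.ell h x : ℂ) * w) * (I.ell h x : ℂ) ^ i =
        ∑ t ∈ Finset.range (2 * N),
          (nn I i ((N : ℤ) - 1 - t) x * (I.ell h x : ℂ) ^ i) *
            ((I.ell h x : ℂ) * w) ^ t := by
      intro i _
      unfold nh
      rw [eval_finsetSum, Finset.sum_mul]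
      refine Finset.sum_congr rfl fun t _ => ?_
      rw [eval_mul, eval_C, eval_pow, eval_X]
      ring
    rw [Finset.sum_congr rfl h2, Finset.sum_comm, Nat.add_sub_cancel]
    refine Finset.sum_congr rfl fun t _ => ?_
    rw [← Finset.sum_mul, ← ddBt_nn I N hN h x hl, mul_pow]
    have e2 : (I.ell h x : ℂ) ^ ((N : ℤ) - 1) =
        (I.ell h x : ℂ) ^ ((N : ℤ) - 1 - t) * (I.ell h x : ℂ) ^ t := by
      rw [← zpow_natCast, ← zpow_add₀ hlc]
      congr 1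
      ring
    rw [e2, show (N : ℤ) - 1 - t = (N : ℤ) - t - 1 by ring]
    ring
  · intro k hk
    beta_reduce
    rcases hk with hk | hk
    · exact hz _ (by omega)
    · exact Build_dd_zero I.al (fun y => ABd_Bt_low I M h hbig _ (by push_cast at hk; omega) y) x

theorem ABd_roots (q : ℂ[X]) (hq : q ≠ 0) :
    ∃ ε : ℝ, 0 < ε ∧ ∀ t : ℝ, 0 < |t| → |t| < ε → q.eval (t : ℂ) ≠ 0 := by
  have hfin : ({z : ℂ | q.eval z = 0} \ {0}).Finite :=
    (Polynomial.finite_setOfPred_isRoot hq).subset Set.sdiff_subset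
  have hopen : IsOpen (({z : ℂ | q.eval z = 0} \ {0})ᶜ) := hfin.isClosed.isOpen_compl
  obtain ⟨ε, hε, hb⟩ := Metric.isOpen_iff.mp hopen 0 (by simp)
  refine ⟨ε, hε, fun t ht0 ht hz => ?_⟩
  have h1 : (t : ℂ) ∈ Metric.ball (0 : ℂ) ε := by
    rw [mem_ball_zero_iff, Complex.norm_real, Real.norm_eq_abs]
    exact ht
  refine hb h1 ⟨hz, ?_⟩
  intro h2
  rw [Set.mem_singleton_iff, Complex.ofReal_eq_zero] at h2
  rw [h2, abs_zero] at ht0
  exact lt_irrefl _ ht0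

theorem ABd_circle_bound (N : ℕ) (e : ℕ → ℂ[X]) : ∃ E : ℝ, 0 ≤ E ∧
    ∀ w ∈ Metric.sphere (0 : ℂ) (1 / 2), ∑ i ∈ Finset.range (N + 1), ‖(e i).eval w‖ ≤ E := by
  have hc : Continuous fun w : ℂ => ∑ i ∈ Finset.range (N + 1), ‖(e i).eval w‖ :=
    continuous_finsetSum _ fun i _ => (e i).continuous.norm
  obtain ⟨E, hE⟩ := (isCompact_sphere (0 : ℂ) (1 / 2)).exists_bound_of_continuousOn hc.continuousOn
  refine ⟨max E 0, le_max_right _ _, fun w hw => ?_⟩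
  have h1 := hE w hw
  rw [Real.norm_of_nonneg (Finset.sum_nonneg fun _ _ => norm_nonneg _)] at h1
  exact h1.trans (le_max_left _ _)

theorem ABd_circle_low (e : ℂ[X]) (h : ∀ w : ℂ, ‖w‖ = 1 / 2 → e.eval w ≠ 0) : ∃ c : ℝ, 0 < c ∧
    ∀ w ∈ Metric.sphere (0 : ℂ) (1 / 2), c ≤ ‖e.eval w‖ := by
  have hne : (Metric.sphere (0 : ℂ) (1 / 2)).Nonempty := ⟨1 / 2, by
    rw [mem_sphere_zero_iff_norm]
    norm_num⟩
  obtain ⟨w0, hw0, hmin⟩ := (isCompact_sphere (0 : ℂ) (1 / 2)).exists_isMinOn hne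
    (e.continuous.norm.continuousOn)
  refine ⟨‖e.eval w0‖, norm_pos_iff.mpr (h w0 (mem_sphere_zero_iff_norm.mp hw0)), fun w hw => ?_⟩
  exact hmin hw

/-- TASK ABd (2).  THE BOUND.  Let `x` be a point and `J ≥ 1` such that `e_i(x) = 0` for `i < J`,
`e_J(x)` has no zero on `‖w‖ = 1/2`, and `ν_i(x) = 0` for `i + 1 < J`.  Then
`|A_j| ≤ K (2 |l|)^j` for all small `l = ell h x ≠ 0` and all `j`.

Proof.  `Qr(w') := ∑_{i≥J} l^(i-1) e_i(w')` and `Nr(w') := ∑_{i ≥ J-1} l^i ν_i(w')`.  By `Bt_eps`,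
`ddBt_nn`, with `w' = l w`:  `l^(M-1) QW(w) * w'^(N-M) = Qr(w')` and
`l^(M-1) NW(w) w'^(N-M) = Nr(w')` (the coefficient of `w^t` in `QW` is `k Bt k`, `k = M - t`, and
`k Bt k l^(k-1) w'^(N-k) = k Bt k l^(M-1) w^t w'^(N-M)`; similarly for `NW`).
On `‖w'‖ = 1/2`: `|Qr(w')| ≥ c |l|^(J-1)` and `|Nr(w')| ≤ C |l|^(J-1)` for small `l` (compactness of
the circle), so with `r = 1/(2|l|)`: on `‖w‖ = r`, `QW(w) ≠ 0` and `‖NW(w)‖ ≤ K ‖QW(w)‖` with
`K = C / c`.  `QW(0) = M pa(h) ≠ 0` for small `l ≠ 0` (`pa` has finitely many roots).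
The zeros `w` of `QW` with `‖w‖ < r` satisfy `|l| ‖w‖ < 1/2 < 1`, so `propW` gives `hin`.
Now `cauchy_coeff` with `g = ∑ A_j w^j` (`QW_A`) gives `|A_j| ≤ K / r^j`. -/
theorem A_bound (I : ID) (N : ℕ) (hN : I.n = 2 * N) (V : Uni I) (M : ℕ) (pa : ℂ[X])
    (hM : 1 ≤ M) (hMN : M ≤ N) (hpa : pa ≠ 0)
    (htop : ∀ (h : ℝ) (x : V2), Bt I h M x = pa.eval (h : ℂ))
    (hbig : ∀ (k : ℤ) (h : ℝ) (x : V2), (M : ℤ) < k → Bt I h k x = 0)
    (x : V2) (J : ℕ) (hJ1 : 1 ≤ J) (hlow : ∀ i, i < J → eh I N i x = 0)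
    (hJ : ∀ w : ℂ, ‖w‖ = 1 / 2 → (eh I N J x).eval w ≠ 0)
    (hν : ∀ i, i + 1 < J → nh I N i x = 0) :
    ∃ K ε : ℝ, 0 < ε ∧ ∀ h : ℝ, 0 < |I.ell h x| → |I.ell h x| < ε →
      ∀ j : ℕ, ‖V.A j h x‖ ≤ K * (2 * |I.ell h x|) ^ j := by
  have hJN : J ≤ N := by
    by_contra hcon
    have h1 := hJ (1 / 2) (by norm_num)
    rw [ABd_eh_zero I N hN J x (by omega), eval_zero] at h1
    exact h1 rfl
  obtain ⟨c, hc0, hc⟩ := ABd_circle_low (eh I N J x) hJ
  obtain ⟨E, hE0, hE⟩ := ABd_circle_bound N (fun i => eh I N i x)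
  obtain ⟨F, hF0, hF⟩ := ABd_circle_bound N (fun i => nh I N i x)
  have hmu : (I.mu x : ℂ) ≠ 0 := Complex.ofReal_ne_zero.mpr (I.mupos x).ne'
  obtain ⟨q, hqdef⟩ : ∃ q : ℂ[X], q = pa.comp (C (I.mu x : ℂ) * X + C (I.U x : ℂ)) := ⟨_, rfl⟩
  have hq : q ≠ 0 := by
    intro h0
    have h1 : q.comp (C ((I.mu x : ℂ)⁻¹) * (X - C (I.U x : ℂ))) = pa := by
      rw [hqdef, comp_assoc]
      have h2 : (C (I.mu x : ℂ) * X + C (I.U x : ℂ)).comp
          (C ((I.mu x : ℂ)⁻¹) * (X - C (I.U x : ℂ))) = X := by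
        rw [add_comp, mul_comp, C_comp, X_comp, C_comp, ← mul_assoc, ← C_mul,
          mul_inv_cancel₀ hmu, C_1, one_mul, sub_add_cancel]
      rw [h2, comp_X]
    rw [h0, zero_comp] at h1
    exact hpa h1.symm
  obtain ⟨ε1, hε1, hroot⟩ := ABd_roots q hq
  refine ⟨2 * F / c, min ε1 (min 1 (c / (2 * (E + 1)))), ?_, ?_⟩
  · refine lt_min hε1 (lt_min one_pos ?_)
    positivity
  intro h hl0 hlε j
  have hlε1 : |I.ell h x| < ε1 := hlε.trans_le (min_le_left _ _)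
  have hl1 : |I.ell h x| ≤ 1 :=
    (hlε.trans_le ((min_le_right _ _).trans (min_le_left _ _))).le
  have hlc' : |I.ell h x| < c / (2 * (E + 1)) :=
    hlε.trans_le ((min_le_right _ _).trans (min_le_right _ _))
  have hlne : I.ell h x ≠ 0 := abs_pos.mp hl0
  have hlc : (I.ell h x : ℂ) ≠ 0 := Complex.ofReal_ne_zero.mpr hlne
  have hpah : pa.eval (h : ℂ) ≠ 0 := by
    have h1 := hroot (I.ell h x) hl0 hlε1
    rw [hqdef, eval_comp] at h1
    have h2 : (C (I.mu x : ℂ) * X + C (I.U x : ℂ)).eval (I.ell h x : ℂ) = (h : ℂ) := by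
      rw [eval_add, eval_mul, eval_C, eval_X, eval_C]
      unfold ID.ell
      push_cast
      field_simp
      ring
    rwa [h2] at h1
  have hr : 0 < 1 / (2 * |I.ell h x|) := by positivity
  have hln : ‖(I.ell h x : ℂ)‖ = |I.ell h x| := by rw [Complex.norm_real, Real.norm_eq_abs]
  have hQ0 : (QW I M h x).eval 0 ≠ 0 := by
    rw [← coeff_zero_eq_eval_zero, ABd_QW_coeff I M h (fun k y hk => hbig k h y hk)]
    have e1 : (M : ℤ) - ((0 : ℕ) : ℤ) = M := by simp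
    rw [e1, htop, Nat.cast_zero, sub_zero]
    exact mul_ne_zero (Nat.cast_ne_zero.mpr (by omega)) hpah
  have hmain := cauchy_coeff (NW I M h x) (QW I M h x) hQ0 (PowerSeries.mk fun j => V.A j h x)
    (QW_A I N hN V M hM hMN h (fun k y hk => hbig k h y hk) x) (1 / (2 * |I.ell h x|)) hr
    (2 * F / c) ?_ ?_ j
  · rw [PowerSeries.coeff_mk] at hmain
    refine hmain.trans (le_of_eq ?_)
    rw [div_pow, one_pow, div_div_eq_mul_div, div_one]
  · intro w hw m hm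
    by_cases hw0 : w = 0
    · rcases Nat.eq_zero_or_pos m with h1 | h1
      · rw [h1, pow_zero]
        exact one_dvd _
      · exfalso
        apply hQ0
        have h2 : (X - C w) ∣ QW I M h x := (dvd_pow_self _ (by omega)).trans hm
        rw [hw0] at h2
        exact dvd_iff_isRoot.mp h2
    · refine propW I N hN M hM h (pa.eval (h : ℂ)) hpah (fun y => htop h y)
        (fun k y hk => hbig k h y hk) x w hw0 ?_ m hm
      calc |I.ell h x| * ‖w‖ ≤ |I.ell h x| * (1 / (2 * |I.ell h x|)) :=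
            mul_le_mul_of_nonneg_left hw.le hl0.le
        _ = 1 / 2 := by field_simp
        _ < 1 := by norm_num
  · intro w hw
    have hw0 : w ≠ 0 := by
      rw [← norm_pos_iff, hw]
      exact hr
    have hw' : ‖(I.ell h x : ℂ) * w‖ = 1 / 2 := by
      rw [norm_mul, hln, hw]
      field_simp
    have hmem : (I.ell h x : ℂ) * w ∈ Metric.sphere (0 : ℂ) (1 / 2) :=
      mem_sphere_zero_iff_norm.mpr hw'
    have hlow' := ABd_lower N J (fun i => (eh I N i x).eval ((I.ell h x : ℂ) * w)) (I.ell h x)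
      hl0 hl1 (fun i hi => by
        beta_reduce
        rw [hlow i hi, eval_zero]) hJ1 hJN c E (hc _ hmem) (hE _ hmem)
    have hup' := ABd_upper N J (fun i => (nh I N i x).eval ((I.ell h x : ℂ) * w)) (I.ell h x)
      hl1 (fun i hi => by
        beta_reduce
        rw [hν i hi, eval_zero]) F (hF _ hmem)
    rw [ABd_Qr I N hN M hMN h (fun k y hk => hbig k h y hk) x hlne w, norm_mul, norm_mul] at hlow'
    rw [ABd_Nr I N hN M hM hMN h (pa.eval (h : ℂ)) (fun y => htop h y)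
      (fun k y hk => hbig k h y hk) x hlne w, norm_mul, norm_mul] at hup'
    have hA : 0 < ‖(I.ell h x : ℂ) ^ ((N : ℤ) - 1)‖ := norm_pos_iff.mpr (zpow_ne_zero _ hlc)
    have hB : 0 < ‖w ^ (N - M)‖ := norm_pos_iff.mpr (pow_ne_zero _ hw0)
    have hP : 0 < |I.ell h x| ^ (J - 1) := by positivity
    have hhalf : c / 2 ≤ c - |I.ell h x| * E := by
      have h1 : |I.ell h x| * (2 * (E + 1)) < c := (lt_div_iff₀ (by positivity)).mp hlc'
      have h2 : |I.ell h x| * E ≤ |I.ell h x| * (E + 1) :=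
        mul_le_mul_of_nonneg_left (by linarith) hl0.le
      linarith
    have h3 : c / 2 * |I.ell h x| ^ (J - 1) ≤
        ‖(I.ell h x : ℂ) ^ ((N : ℤ) - 1)‖ * (‖w ^ (N - M)‖ * ‖eval w (QW I M h x)‖) :=
      (mul_le_mul_of_nonneg_right hhalf hP.le).trans hlow'
    constructor
    · intro h0
      rw [h0, norm_zero, mul_zero, mul_zero] at h3
      have : 0 < c / 2 * |I.ell h x| ^ (J - 1) := by positivity
      linarith
    · have h4 : ‖(I.ell h x : ℂ) ^ ((N : ℤ) - 1)‖ * (‖w ^ (N - M)‖ * ‖eval w (NW I M h x)‖) ≤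
          ‖(I.ell h x : ℂ) ^ ((N : ℤ) - 1)‖ * (‖w ^ (N - M)‖ *
            (2 * F / c * ‖eval w (QW I M h x)‖)) := by
        refine hup'.trans ?_
        have h5 : F * |I.ell h x| ^ (J - 1) = 2 * F / c * (c / 2 * |I.ell h x| ^ (J - 1)) := by
          field_simp
        rw [h5]
        refine (mul_le_mul_of_nonneg_left h3 (by positivity)).trans (le_of_eq ?_)
        ring
      exact le_of_mul_le_mul_left (le_of_mul_le_mul_left h4 hA) hB

/-- TASK ABd (3).  Consequence: `A_j = l^j (al_j + l al'_j)`: `A_j` is a polynomial in `l` of degree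
at most `j + 1` (`HP.poly_ell`), apply `poly_low` with the constant `K 2^j`
(every real `t` is `ell h x` for `h = U x + mu x * t`). -/
theorem A_lin (I : ID) (N : ℕ) (hN : I.n = 2 * N) (V : Uni I) (M : ℕ) (pa : ℂ[X])
    (hM : 1 ≤ M) (hMN : M ≤ N) (hpa : pa ≠ 0)
    (htop : ∀ (h : ℝ) (x : V2), Bt I h M x = pa.eval (h : ℂ))
    (hbig : ∀ (k : ℤ) (h : ℝ) (x : V2), (M : ℤ) < k → Bt I h k x = 0)
    (x : V2) (J : ℕ) (hJ1 : 1 ≤ J) (hlow : ∀ i, i < J → eh I N i x = 0)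
    (hJ : ∀ w : ℂ, ‖w‖ = 1 / 2 → (eh I N J x).eval w ≠ 0)
    (hν : ∀ i, i + 1 < J → nh I N i x = 0) :
    ∃ al al' : PowerSeries ℂ, ∀ (j : ℕ) (h : ℝ), V.A j h x =
      (I.ell h x : ℂ) ^ j * (PowerSeries.coeff j al + (I.ell h x : ℂ) * PowerSeries.coeff j al') := by
  obtain ⟨K, ε, hε, hb⟩ := A_bound I N hN V M pa hM hMN hpa htop hbig x J hJ1 hlow hJ hν
  have hex : ∀ j : ℕ, ∃ ab : ℂ × ℂ, ∀ h : ℝ, V.A j h x =
      (I.ell h x : ℂ) ^ j * (ab.1 + (I.ell h x : ℂ) * ab.2) := by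
    intro j
    obtain ⟨p, hpd, hp⟩ := HP.poly_ell I (V.AHP j) x
    obtain ⟨a, b, hab⟩ := poly_low p j hpd (K * 2 ^ j) ε hε (by
      intro t ht0 htε
      have hmu : I.mu x ≠ 0 := (I.mupos x).ne'
      have h3 : I.ell (I.U x + I.mu x * t) x = t := by
        unfold ID.ell
        field_simp
        ring
      have h4 := hb (I.U x + I.mu x * t) (by rw [h3]; exact ht0) (by rw [h3]; exact htε) j
      rw [hp, h3, mul_pow] at h4
      rw [mul_assoc]
      exact h4)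
    refine ⟨(a, b), fun h => ?_⟩
    rw [hp, hab, eval_add, eval_mul, eval_mul, eval_C, eval_C, eval_pow, eval_pow, eval_X]
    ring
  choose ab hab using hex
  refine ⟨PowerSeries.mk fun j => (ab j).1, PowerSeries.mk fun j => (ab j).2, fun j h => ?_⟩
  rw [PowerSeries.coeff_mk, PowerSeries.coeff_mk]
  exact hab j h

end Pool.W4b1b5d.E
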