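import Pool.Agent.W_4b1b5d_h78.AlgS

set_option autoImplicit false

namespace Pool.W4b1b5d.E

open PowerSeries

variable {S : Type*} [CommRing S] [Algebra ℂ S]

theorem AlgT_cmap_add (d : Derivation ℂ S S) (f g : PowerSeries S) :
    cmap d (f + g) = cmap d f + cmap d g := by
  ext n
  simp only [coeff_cmap, map_add]

omit [Algebra ℂ S] in
theorem AlgT_eul_add (f g : PowerSeries S) : eul (f + g) = eul f + eul g := by
  ext n
  simp only [coeff_eul, map_add, mul_add]

theorem AlgT_LK_add (d1 d2 : Derivation ℂ S S) (l u : S) (K : ℕ) (f g : PowerSeries S) :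
    LK d1 d2 l u K (f + g) = LK d1 d2 l u K f + LK d1 d2 l u K g := by
  unfold LK
  rw [AlgT_cmap_add, AlgT_cmap_add, AlgT_eul_add]
  ring

theorem AlgT_cmap_zero (d : Derivation ℂ S S) : cmap d (0 : PowerSeries S) = 0 := by
  ext n
  simp only [coeff_cmap, map_zero]

omit [Algebra ℂ S] in
theorem AlgT_eul_zero : eul (0 : PowerSeries S) = 0 := by
  ext n
  simp only [coeff_eul, map_zero, mul_zero]

theorem AlgT_LK_zero (d1 d2 : Derivation ℂ S S) (l u : S) (K : ℕ) :
    LK d1 d2 l u K 0 = 0 := by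
  unfold LK
  rw [AlgT_cmap_zero, AlgT_cmap_zero, AlgT_eul_zero]
  ring

theorem AlgT_LK_sum (d1 d2 : Derivation ℂ S S) (l u : S) (K : ℕ) (t : Finset ℕ)
    (F : ℕ → PowerSeries S) :
    LK d1 d2 l u K (∑ i ∈ t, F i) = ∑ i ∈ t, LK d1 d2 l u K (F i) := by
  classical
  induction t using Finset.induction_on with
  | empty => simp only [Finset.sum_empty, AlgT_LK_zero]
  | insert a t ha ih => rw [Finset.sum_insert ha, Finset.sum_insert ha, AlgT_LK_add, ih]

theorem AlgT_LK_sub (d1 d2 : Derivation ℂ S S) (l u : S) (K : ℕ) (f g : PowerSeries S) :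
    LK d1 d2 l u K (f - g) = LK d1 d2 l u K f - LK d1 d2 l u K g := by
  have h := AlgT_LK_add d1 d2 l u K (f - g) g
  rw [sub_add_cancel] at h
  rw [h, add_sub_cancel_right]

theorem AlgT_cmap_dvd (d : Derivation ℂ S S) {s : ℕ} {f : PowerSeries S}
    (h : PowerSeries.X ^ s ∣ f) : PowerSeries.X ^ s ∣ cmap d f := by
  rw [PowerSeries.X_pow_dvd_iff] at h ⊢
  intro m hm
  rw [coeff_cmap, h m hm, map_zero]

omit [Algebra ℂ S] in
theorem AlgT_eul_dvd {s : ℕ} {f : PowerSeries S}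
    (h : PowerSeries.X ^ s ∣ f) : PowerSeries.X ^ s ∣ eul f := by
  rw [PowerSeries.X_pow_dvd_iff] at h ⊢
  intro m hm
  rw [coeff_eul, h m hm, mul_zero]

/-- If `f = O(w^s)` then the coefficient of `w^s` of `LK K f` is `d2 (coeff s f)`. -/
theorem AlgT_LK_coeff (d1 d2 : Derivation ℂ S S) (l u : S) (K : ℕ) {s : ℕ} {f : PowerSeries S}
    (h : PowerSeries.X ^ s ∣ f) :
    PowerSeries.coeff s (LK d1 d2 l u K f) = d2 (PowerSeries.coeff s f) := by
  unfold LK
  rw [map_add, coeff_cmap]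
  have h1 : PowerSeries.X ^ s ∣ (PowerSeries.C l * cmap d1 f
    + PowerSeries.C (2 * u) * ((K : PowerSeries S) * f - eul f)) :=
    dvd_add ((AlgT_cmap_dvd d1 h).mul_left _)
      ((dvd_sub (h.mul_left _) (AlgT_eul_dvd h)).mul_left _)
  have h2 : PowerSeries.X ^ (s + 1) ∣ PowerSeries.X * (PowerSeries.C l * cmap d1 f
    + PowerSeries.C (2 * u) * ((K : PowerSeries S) * f - eul f)) := by
    rw [pow_succ']
    exact mul_dvd_mul_left _ h1
  rw [(PowerSeries.X_pow_dvd_iff.1 h2) s (Nat.lt_succ_self s), add_zero]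

omit [Algebra ℂ S] in
theorem AlgT_coeff_zero_pow {q : PowerSeries S} (hq0 : PowerSeries.coeff 0 q = 1) (n : ℕ) :
    PowerSeries.coeff 0 (q ^ n) = 1 := by
  rw [PowerSeries.coeff_zero_eq_constantCoeff_apply] at hq0 ⊢
  rw [map_pow, hq0, one_pow]

/-- TASK AlgT (1).  EXPANSION.  Let `R` (think of `r^p`) satisfy `LK N R = 0`, and let `q` have
constant coefficient `1` with `LK 1 q = O(w^(j+2))`.  If the kernel of `d2` consists of constants
and `s ≤ j + 2`, `s ≤ N + 1`, there are constants `c_i` with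
`R = ∑_{i<s} c_i w^i q^(N-i) + O(w^s)`.

Proof.  Induction on `s`.  Let `E = R - ∑_{i<s} c_i w^i q^(N-i)`, `E = O(w^s)`, `s ≤ j + 1`.
By LK_term `LK N E = O(w^(j+2))`, and the coefficient of `w^s` of `LK N E` is `d2 (coeff s E)` (the other
terms of `LK` involve `coeff i E` with `i < s`, and `s ≤ j+1`).  So `d2 (coeff s E) = 0`,
`coeff s E = c_s` is a constant; subtract `c_s w^s q^(N-s)` (constant coefficient of `q^(N-s)` is
`1`). -/
theorem expand (d1 d2 : Derivation ℂ S S) (l u : S)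
    (hker : ∀ s, d2 s = 0 → ∃ c : ℂ, s = algebraMap ℂ S c)
    (N : ℕ) (R : PowerSeries S) (hR : LK d1 d2 l u N R = 0) (j : ℕ) (q : PowerSeries S)
    (hq0 : PowerSeries.coeff 0 q = 1)
    (hq : ∀ i < j + 2, PowerSeries.coeff i (LK d1 d2 l u 1 q) = 0) (s : ℕ) (hs : s ≤ j + 2)
    (hsN : s ≤ N + 1) :
    ∃ c : ℕ → ℂ, ∀ i < s, PowerSeries.coeff i (R - ∑ i ∈ Finset.range s,
      PowerSeries.C (algebraMap ℂ S (c i)) * PowerSeries.X ^ i * q ^ (N - i)) = 0 := by
  classical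
  induction s with
  | zero => exact ⟨fun _ => 0, fun i hi => absurd hi (Nat.not_lt_zero i)⟩
  | succ s ih =>
    obtain ⟨c, hc⟩ := ih (by omega) (by omega)
    obtain ⟨E, hE⟩ : ∃ E : PowerSeries S, E = R - ∑ i ∈ Finset.range s,
      PowerSeries.C (algebraMap ℂ S (c i)) * PowerSeries.X ^ i * q ^ (N - i) := ⟨_, rfl⟩
    rw [← hE] at hc
    have hEd : PowerSeries.X ^ s ∣ E := PowerSeries.X_pow_dvd_iff.2 hc
    have hqd : PowerSeries.X ^ (j + 2) ∣ LK d1 d2 l u 1 q := PowerSeries.X_pow_dvd_iff.2 hq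
    have hLE : PowerSeries.X ^ (j + 2) ∣ LK d1 d2 l u N E := by
      rw [hE, AlgT_LK_sub, hR, zero_sub, AlgT_LK_sum]
      refine (Finset.dvd_sum fun i hi => ?_).neg_right
      have hi' := Finset.mem_range.1 hi
      rw [LK_term d1 d2 l u N i (by omega)]
      exact (hqd.mul_left _).mul_left _
    have h0 : d2 (PowerSeries.coeff s E) = 0 := by
      rw [← AlgT_LK_coeff d1 d2 l u N hEd]
      exact PowerSeries.X_pow_dvd_iff.1 hLE s (by omega)
    obtain ⟨z, hz⟩ := hker _ h0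
    refine ⟨Function.update c s z, fun i hi => ?_⟩
    have hsum : (R - ∑ i ∈ Finset.range (s + 1),
        PowerSeries.C (algebraMap ℂ S (Function.update c s z i)) * PowerSeries.X ^ i *
          q ^ (N - i)) = E - PowerSeries.X ^ s * (PowerSeries.C (algebraMap ℂ S z) *
            q ^ (N - s)) := by
      rw [Finset.sum_range_succ, Function.update_self, hE]
      have : (∑ i ∈ Finset.range s,
          PowerSeries.C (algebraMap ℂ S (Function.update c s z i)) * PowerSeries.X ^ i *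
            q ^ (N - i)) = ∑ i ∈ Finset.range s,
          PowerSeries.C (algebraMap ℂ S (c i)) * PowerSeries.X ^ i * q ^ (N - i) := by
        refine Finset.sum_congr rfl fun i hi => ?_
        rw [Function.update_of_ne (Finset.mem_range.1 hi).ne]
      rw [this]
      ring
    rw [hsum, map_sub]
    rcases Nat.lt_succ_iff_lt_or_eq.1 hi with hi' | rfl
    · rw [hc i hi', (PowerSeries.X_pow_dvd_iff.1 (dvd_mul_right _ _)) i hi', sub_zero]
    · have h1 : PowerSeries.coeff i (PowerSeries.X ^ i * (PowerSeries.C (algebraMap ℂ S z) *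
          q ^ (N - i))) = algebraMap ℂ S z := by
        have := PowerSeries.coeff_X_pow_mul (PowerSeries.C (algebraMap ℂ S z) *
          q ^ (N - i)) i 0
        rw [zero_add] at this
        rw [this, PowerSeries.coeff_C_mul, AlgT_coeff_zero_pow hq0, mul_one]
      rw [h1, hz, sub_self]

/-- TASK AlgT (2).  SOLVABILITY.  Let `LK M r = 0` with constant coefficient `a ≠ 0`, and let `q`
have constant coefficient `1`, `LK 1 q = - g w^(j+2) + O(w^(j+3))`.  Then `g` is in the image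
of `d2`.

Proof.  Take `p = j + 2`, `N = p * M ≥ j + 2`, `R = r^p`, `LK N R = 0` by LK_pow.  Use expand with
`s = j + 2`: `E = R - ∑_{i<j+2} c_i w^i q^(N-i) = O(w^(j+2))`.  Compare the coefficients of
`w^(j+2)` in `LK N E = - ∑ LK N (c_i w^i q^(N-i))`: the left side is `d2 (coeff (j+2) E)` (all lower
coefficients of `E` vanish), the right side is `c_0 N g` (only `i = 0` contributes, by LK_term).  And
`c_0 = a^p ≠ 0` (coefficient of `w^0`; `algebraMap` is injective, use `hinj`).  So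
`g = d2 ((c_0 N)⁻¹ coeff (j+2) E)`. -/
theorem solv (d1 d2 : Derivation ℂ S S) (l u : S)
    (hinj : Function.Injective (algebraMap ℂ S))
    (hker : ∀ s, d2 s = 0 → ∃ c : ℂ, s = algebraMap ℂ S c)
    (M : ℕ) (hM : 1 ≤ M) (r : PowerSeries S) (a : ℂ) (ha : a ≠ 0)
    (hr0 : PowerSeries.coeff 0 r = algebraMap ℂ S a) (hr : LK d1 d2 l u M r = 0)
    (j : ℕ) (q : PowerSeries S) (hq0 : PowerSeries.coeff 0 q = 1) (g : S)
    (hq : ∀ i < j + 2, PowerSeries.coeff i (LK d1 d2 l u 1 q) = 0)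
    (hg : PowerSeries.coeff (j + 2) (LK d1 d2 l u 1 q) = - g) : ∃ e, d2 e = g := by
  classical
  have hN : j + 2 ≤ (j + 2) * M := Nat.le_mul_of_pos_right _ (by omega)
  have hR : LK d1 d2 l u ((j + 2) * M) (r ^ (j + 2)) = 0 := by
    rw [LK_pow, hr, mul_zero]
  obtain ⟨c, hc⟩ := expand d1 d2 l u hker ((j + 2) * M) (r ^ (j + 2)) hR j q hq0 hq (j + 2)
    le_rfl (by omega)
  obtain ⟨N, hNdef⟩ : ∃ N : ℕ, N = (j + 2) * M := ⟨_, rfl⟩
  rw [← hNdef] at hN hR hc
  obtain ⟨E, hE⟩ : ∃ E : PowerSeries S, E = r ^ (j + 2) - ∑ i ∈ Finset.range (j + 2),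
      PowerSeries.C (algebraMap ℂ S (c i)) * PowerSeries.X ^ i * q ^ (N - i) := ⟨_, rfl⟩
  rw [← hE] at hc
  have hEd : PowerSeries.X ^ (j + 2) ∣ E := PowerSeries.X_pow_dvd_iff.2 hc
  have hqd : PowerSeries.X ^ (j + 2) ∣ LK d1 d2 l u 1 q := PowerSeries.X_pow_dvd_iff.2 hq
  -- the constant `c 0`
  have hc0 : c 0 = a ^ (j + 2) := by
    apply hinj
    have h0 := hc 0 (by omega)
    rw [hE, map_sub, sub_eq_zero, map_sum, Finset.sum_range_succ', Finset.sum_eq_zero, zero_add,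
      pow_zero, mul_one, PowerSeries.coeff_C_mul, AlgT_coeff_zero_pow hq0, mul_one] at h0
    · rw [← h0, map_pow (algebraMap ℂ S), ← hr0, PowerSeries.coeff_zero_eq_constantCoeff_apply,
        PowerSeries.coeff_zero_eq_constantCoeff_apply, map_pow]
    · intro i _
      have : PowerSeries.C (algebraMap ℂ S (c (i + 1))) * PowerSeries.X ^ (i + 1) *
          q ^ (N - (i + 1)) = PowerSeries.X ^ (i + 1) *
          (PowerSeries.C (algebraMap ℂ S (c (i + 1))) * q ^ (N - (i + 1))) := by ring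
      rw [this]
      exact (PowerSeries.X_pow_dvd_iff.1 (dvd_mul_right _ _)) 0 (Nat.succ_pos i)
  have h1 := AlgT_LK_coeff d1 d2 l u N hEd
  have h2 : PowerSeries.coeff (j + 2) (LK d1 d2 l u N E) =
      algebraMap ℂ S (c 0) * ((N : S) * g) := by
    rw [hE, AlgT_LK_sub, hR, zero_sub, AlgT_LK_sum, map_neg, map_sum, Finset.sum_range_succ',
      Finset.sum_eq_zero, zero_add, LK_term d1 d2 l u N 0 (Nat.zero_le N)]
    · obtain ⟨Q, hQ⟩ := hqd
      have hQ0 : PowerSeries.coeff 0 Q = - g := by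
        have h3 := hg
        rw [hQ] at h3
        have h4 := PowerSeries.coeff_X_pow_mul Q (j + 2) 0
        rw [zero_add] at h4
        rw [← h4, h3]
      have h5 : PowerSeries.C (algebraMap ℂ S (c 0)) * PowerSeries.X ^ 0 *
          (((N - 0 : ℕ) : PowerSeries S) * q ^ (N - 0 - 1) * LK d1 d2 l u 1 q) =
          PowerSeries.X ^ (j + 2) * (PowerSeries.C (algebraMap ℂ S (c 0)) *
            (PowerSeries.C (N : S) * (q ^ (N - 1) * Q))) := by
        rw [hQ, pow_zero, mul_one, Nat.sub_zero, map_natCast]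
        ring
      rw [h5]
      have h6 := PowerSeries.coeff_X_pow_mul (PowerSeries.C (algebraMap ℂ S (c 0)) *
            (PowerSeries.C (N : S) * (q ^ (N - 1) * Q))) (j + 2) 0
      rw [zero_add] at h6
      rw [h6, PowerSeries.coeff_C_mul, PowerSeries.coeff_C_mul]
      have h7 : PowerSeries.coeff 0 (q ^ (N - 1) * Q) = - g := by
        have e1 := AlgT_coeff_zero_pow hq0 (N - 1)
        rw [PowerSeries.coeff_zero_eq_constantCoeff_apply] at e1 hQ0 ⊢
        rw [map_mul, e1, one_mul, hQ0]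
      rw [h7]
      ring
    · intro i hi
      have hi' := Finset.mem_range.1 hi
      rw [LK_term d1 d2 l u N (i + 1) (by omega)]
      obtain ⟨Q, hQ⟩ := hqd
      have h5 : PowerSeries.C (algebraMap ℂ S (c (i + 1))) * PowerSeries.X ^ (i + 1) *
          (((N - (i + 1) : ℕ) : PowerSeries S) * q ^ (N - (i + 1) - 1) * LK d1 d2 l u 1 q) =
          PowerSeries.X ^ (j + 2 + 1) * (PowerSeries.C (algebraMap ℂ S (c (i + 1))) *
            PowerSeries.X ^ i *
            (((N - (i + 1) : ℕ) : PowerSeries S) * (q ^ (N - (i + 1) - 1) * Q))) := by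
        rw [hQ]
        ring
      rw [h5]
      exact (PowerSeries.X_pow_dvd_iff.1 (dvd_mul_right _ _)) (j + 2) (Nat.lt_succ_self _)
  rw [h1, hc0] at h2
  have hNpos : (N : ℂ) ≠ 0 := by
    have : N ≠ 0 := by omega
    exact_mod_cast this
  have hz : a ^ (j + 2) * N ≠ 0 := mul_ne_zero (pow_ne_zero _ ha) hNpos
  refine ⟨(a ^ (j + 2) * N)⁻¹ • PowerSeries.coeff (j + 2) E, ?_⟩
  rw [d2.map_smul, h2]
  have h8 : algebraMap ℂ S (a ^ (j + 2)) * ((N : S) * g) = (a ^ (j + 2) * (N : ℂ)) • g := by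
    rw [Algebra.smul_def, map_mul, map_natCast]
    ring
  rw [h8, smul_smul, inv_mul_cancel₀ hz, one_smul]

/-- The Jacobian of `f` (of weight `K`) and `q`. -/
noncomputable def AlgT_Jac (d1 : Derivation ℂ S S) (q : PowerSeries S) (K : ℕ)
    (f : PowerSeries S) : PowerSeries S :=
  cmap d1 f * (q - eul q) - ((K : PowerSeries S) * f - eul f) * cmap d1 q

theorem AlgT_Jac_add (d1 : Derivation ℂ S S) (q : PowerSeries S) (K : ℕ) (f g : PowerSeries S) :
    AlgT_Jac d1 q K (f + g) = AlgT_Jac d1 q K f + AlgT_Jac d1 q K g := by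
  unfold AlgT_Jac
  rw [AlgT_cmap_add, AlgT_eul_add]
  ring

theorem AlgT_Jac_zero (d1 : Derivation ℂ S S) (q : PowerSeries S) (K : ℕ) :
    AlgT_Jac d1 q K 0 = 0 := by
  unfold AlgT_Jac
  rw [AlgT_cmap_zero, AlgT_eul_zero]
  ring

theorem AlgT_Jac_mul (d1 : Derivation ℂ S S) (q : PowerSeries S) (K K' : ℕ)
    (f g : PowerSeries S) :
    AlgT_Jac d1 q (K + K') (f * g) = AlgT_Jac d1 q K f * g + f * AlgT_Jac d1 q K' g := by
  unfold AlgT_Jac
  rw [cmap_mul, eul_mul, Nat.cast_add]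
  ring

theorem AlgT_Jac_one (d1 : Derivation ℂ S S) (q : PowerSeries S) : AlgT_Jac d1 q 1 q = 0 := by
  unfold AlgT_Jac
  rw [Nat.cast_one]
  ring

theorem AlgT_Jac_unit (d1 : Derivation ℂ S S) (q : PowerSeries S) : AlgT_Jac d1 q 0 1 = 0 := by
  have h1 : cmap d1 (1 : PowerSeries S) = 0 := by
    ext n
    rw [coeff_cmap, PowerSeries.coeff_one, map_zero]
    split_ifs
    · exact d1.map_one_eq_zero
    · exact map_zero d1
  have h2 : eul (1 : PowerSeries S) = 0 := by
    ext n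
    rw [coeff_eul, PowerSeries.coeff_one, map_zero]
    split_ifs with h
    · rw [h, Nat.cast_zero, zero_mul]
    · rw [mul_zero]
  unfold AlgT_Jac
  rw [h1, h2]
  simp

theorem AlgT_Jac_const (d1 : Derivation ℂ S S) (q : PowerSeries S) (z : ℂ) :
    AlgT_Jac d1 q 0 (PowerSeries.C (algebraMap ℂ S z)) = 0 := by
  have h1 : cmap d1 (PowerSeries.C (algebraMap ℂ S z)) = 0 := by
    ext n
    rw [coeff_cmap, PowerSeries.coeff_C, map_zero]
    split_ifs
    · exact d1.map_algebraMap z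
    · exact map_zero d1
  have h2 : eul (PowerSeries.C (algebraMap ℂ S z)) = 0 := by
    ext n
    rw [coeff_eul, PowerSeries.coeff_C, map_zero]
    split_ifs with h
    · rw [h, Nat.cast_zero, zero_mul]
    · rw [mul_zero]
  unfold AlgT_Jac
  rw [h1, h2]
  simp

theorem AlgT_Jac_X (d1 : Derivation ℂ S S) (q : PowerSeries S) :
    AlgT_Jac d1 q 1 PowerSeries.X = 0 := by
  have h1 : cmap d1 (PowerSeries.X : PowerSeries S) = 0 := by
    ext n
    rw [coeff_cmap, PowerSeries.coeff_X, map_zero]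
    split_ifs
    · exact d1.map_one_eq_zero
    · exact map_zero d1
  have h2 : eul (PowerSeries.X : PowerSeries S) = PowerSeries.X := by
    ext n
    rw [coeff_eul, PowerSeries.coeff_X]
    split_ifs with h
    · rw [h, Nat.cast_one, one_mul]
    · rw [mul_zero]
  unfold AlgT_Jac
  rw [h1, h2, Nat.cast_one]
  ring

theorem AlgT_Jac_pow (d1 : Derivation ℂ S S) (q : PowerSeries S) (M p : ℕ)
    (f : PowerSeries S) :
    AlgT_Jac d1 q (p * M) (f ^ p) = (p : PowerSeries S) * f ^ (p - 1) * AlgT_Jac d1 q M f := by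
  induction p with
  | zero => rw [zero_mul, pow_zero, AlgT_Jac_unit, Nat.cast_zero]; ring
  | succ p ih =>
    rw [add_mul, one_mul, pow_succ, AlgT_Jac_mul, ih]
    rcases Nat.eq_zero_or_pos p with rfl | hp
    · simp
    · obtain ⟨n, rfl⟩ : ∃ n, p = n + 1 := ⟨p - 1, by omega⟩
      simp only [Nat.add_sub_cancel]
      push_cast
      ring

theorem AlgT_Jac_dvd (d1 : Derivation ℂ S S) (q : PowerSeries S) (K : ℕ) {s : ℕ}
    {f : PowerSeries S} (h : PowerSeries.X ^ s ∣ f) :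
    PowerSeries.X ^ s ∣ AlgT_Jac d1 q K f := by
  unfold AlgT_Jac
  exact dvd_sub ((AlgT_cmap_dvd d1 h).mul_right _)
    ((dvd_sub (h.mul_left _) (AlgT_eul_dvd h)).mul_right _)

theorem AlgT_Jac_term (d1 : Derivation ℂ S S) (q : PowerSeries S) (N i : ℕ) (hi : i ≤ N) (z : ℂ) :
    AlgT_Jac d1 q N (PowerSeries.C (algebraMap ℂ S z) * PowerSeries.X ^ i * q ^ (N - i)) = 0 := by
  have h1 : AlgT_Jac d1 q (0 + i * 1) (PowerSeries.C (algebraMap ℂ S z) * PowerSeries.X ^ i) =
      0 := by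
    rw [AlgT_Jac_mul, AlgT_Jac_const, AlgT_Jac_pow, AlgT_Jac_X]
    ring
  have h2 : AlgT_Jac d1 q ((N - i) * 1) (q ^ (N - i)) = 0 := by
    rw [AlgT_Jac_pow, AlgT_Jac_one, mul_zero]
  have h3 := AlgT_Jac_mul d1 q (0 + i * 1) ((N - i) * 1)
    (PowerSeries.C (algebraMap ℂ S z) * PowerSeries.X ^ i) (q ^ (N - i))
  rw [h1, h2, zero_mul, mul_zero, add_zero] at h3
  have h4 : 0 + i * 1 + (N - i) * 1 = N := by omega
  rwa [h4] at h3

theorem AlgT_Jac_sum (d1 : Derivation ℂ S S) (q : PowerSeries S) (K : ℕ) (t : Finset ℕ)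
    (F : ℕ → PowerSeries S) :
    AlgT_Jac d1 q K (∑ i ∈ t, F i) = ∑ i ∈ t, AlgT_Jac d1 q K (F i) := by
  classical
  induction t using Finset.induction_on with
  | empty => simp only [Finset.sum_empty, AlgT_Jac_zero]
  | insert a t ha ih => rw [Finset.sum_insert ha, Finset.sum_insert ha, AlgT_Jac_add, ih]

/-- TASK AlgT (3).  THE JACOBIAN.  If `LK 1 q = 0` exactly (constant coefficient `1`), then
`d1 r * (q - eul q) = (M r - eul r) * d1 q`.

Proof.  Put `Jac K f = d1 f * (q - eul q) - (K f - eul f) * d1 q` (for `f` of weight `K`).  It is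
additive, `Jac (K+K') (f g) = Jac K f * g + f * Jac K' g`, `Jac 1 q = 0`, `Jac i (w^i) = 0`, and
`Jac 0 (constant) = 0`, so `Jac N (c w^i q^(N-i)) = 0`.  For every `s`: choose `p` with
`N = p * M + ... ≥ s`, `R = r^p`; by expand `R = ∑_{i<s} c_i w^i q^(N-i) + O(w^s)` and
`Jac N (O(w^s)) = O(w^s)` so `Jac N (r^p) = p r^(p-1) Jac M r = O(w^s)`.  The constant coefficient
of `p r^(p-1)` is the nonzero constant `p a^(p-1)`, a unit, so `Jac M r = O(w^s)`.  Let `s → ∞`. -/
theorem jac (d1 d2 : Derivation ℂ S S) (l u : S)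
    (hker : ∀ s, d2 s = 0 → ∃ c : ℂ, s = algebraMap ℂ S c)
    (M : ℕ) (hM : 1 ≤ M) (r : PowerSeries S) (a : ℂ) (ha : a ≠ 0)
    (hr0 : PowerSeries.coeff 0 r = algebraMap ℂ S a) (hr : LK d1 d2 l u M r = 0)
    (q : PowerSeries S) (hq0 : PowerSeries.coeff 0 q = 1) (hq : LK d1 d2 l u 1 q = 0) :
    cmap d1 r * (q - eul q) = ((M : PowerSeries S) * r - eul r) * cmap d1 q := by
  classical
  suffices h : AlgT_Jac d1 q M r = 0 by
    unfold AlgT_Jac at h
    exact sub_eq_zero.1 h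
  have key : ∀ s : ℕ, PowerSeries.X ^ s ∣ AlgT_Jac d1 q M r := by
    intro s
    have hN : s + 1 ≤ (s + 1) * M := Nat.le_mul_of_pos_right _ (by omega)
    have hR : LK d1 d2 l u ((s + 1) * M) (r ^ (s + 1)) = 0 := by
      rw [LK_pow, hr, mul_zero]
    obtain ⟨c, hc⟩ := expand d1 d2 l u hker ((s + 1) * M) (r ^ (s + 1)) hR s q hq0
      (fun i _ => by rw [hq, map_zero]) s (by omega) (by omega)
    obtain ⟨N, hNdef⟩ : ∃ N : ℕ, N = (s + 1) * M := ⟨_, rfl⟩
    rw [← hNdef] at hN hR hc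
    obtain ⟨E, hE⟩ : ∃ E : PowerSeries S, E = r ^ (s + 1) - ∑ i ∈ Finset.range s,
        PowerSeries.C (algebraMap ℂ S (c i)) * PowerSeries.X ^ i * q ^ (N - i) := ⟨_, rfl⟩
    rw [← hE] at hc
    have hEd : PowerSeries.X ^ s ∣ E := PowerSeries.X_pow_dvd_iff.2 hc
    have h1 : r ^ (s + 1) = E + ∑ i ∈ Finset.range s,
        PowerSeries.C (algebraMap ℂ S (c i)) * PowerSeries.X ^ i * q ^ (N - i) := by
      rw [hE, sub_add_cancel]
    have h2 : AlgT_Jac d1 q N (r ^ (s + 1)) = AlgT_Jac d1 q N E := by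
      rw [h1, AlgT_Jac_add, AlgT_Jac_sum, Finset.sum_eq_zero, add_zero]
      intro i hi
      have hi' := Finset.mem_range.1 hi
      exact AlgT_Jac_term d1 q N i (by omega) _
    have h3 : PowerSeries.X ^ s ∣ ((s + 1 : ℕ) : PowerSeries S) * r ^ (s + 1 - 1) *
        AlgT_Jac d1 q M r := by
      rw [← AlgT_Jac_pow, ← hNdef, h2]
      exact AlgT_Jac_dvd d1 q N hEd
    have hunit : IsUnit (((s + 1 : ℕ) : PowerSeries S) * r ^ (s + 1 - 1)) := by
      rw [PowerSeries.isUnit_iff_constantCoeff, map_mul, map_pow, map_natCast]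
      rw [PowerSeries.coeff_zero_eq_constantCoeff_apply] at hr0
      rw [hr0, ← map_natCast (algebraMap ℂ S), ← map_pow, ← map_mul]
      refine IsUnit.map _ (isUnit_iff_ne_zero.2 (mul_ne_zero ?_ (pow_ne_zero _ ha)))
      exact_mod_cast Nat.succ_ne_zero s
    exact (IsUnit.dvd_mul_left hunit).1 h3
  ext n
  rw [map_zero]
  exact PowerSeries.X_pow_dvd_iff.1 (key (n + 1)) n (Nat.lt_succ_self n)

end Pool.W4b1b5d.E
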