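import Pool.Agent.W_4b1b5d_h78.Top

set_option autoImplicit false

namespace Pool.W4b1b5d.E

open Pool.W4b1b5d.H3

/-- TASK Coef (1).  `dd ell = l0 + l1 ell` (from `ID.ddr_ell`). -/
theorem ddr_ell_eq (I : ID) (h : ℝ) (x : V2) :
    ddr I.al (I.ell h) x = l0 I x + l1 I x * (I.ell h x : ℂ) := by
  have hm : (I.mu x : ℂ) ≠ 0 := by exact_mod_cast (I.mupos x).ne'
  have h1 := I.ddr_ell h I.al x
  unfold l0 l1
  field_simp
  linear_combination h1

/-- TASK Coef (2).  `eps` vanishes for `i > N` or `|k| > i` (`f_big`, `f_neg`, `f_neg'`) and for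
`i = 0`. -/
theorem eps_zero (I : ID) (N : ℕ) (hN : I.n = 2 * N) (i : ℕ) (k : ℤ) (x : V2)
    (h : (N : ℤ) < i ∨ (i : ℤ) < |k| ∨ i = 0) : eps I i k x = 0 := by
  unfold eps
  rcases eq_or_ne k 0 with rfl | hk
  · rw [Int.cast_zero, zero_mul]
  · have h0 : I.f ((i : ℤ) + k) ((i : ℤ) - k) x = 0 := by
      by_cases h1 : (i : ℤ) + k < 0
      · exact I.f_neg _ _ _ h1
      by_cases h2 : (i : ℤ) - k < 0
      · exact I.f_neg' _ _ _ h2
      rcases h with h | h | h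
      · apply I.f_big
        rw [hN]
        push_cast
        omega
      · exfalso
        rcases abs_cases k with ⟨h3, _⟩ | ⟨h3, _⟩ <;> omega
      · exfalso
        omega
    rw [h0, mul_zero]

/-- TASK Coef (3).  `nn` vanishes for `i > N`, for `|m| > i + 1`, and for `m = i + 1`. -/
theorem nn_zero (I : ID) (N : ℕ) (hN : I.n = 2 * N) (i : ℕ) (m : ℤ) (x : V2)
    (h : (N : ℤ) < i ∨ (i : ℤ) + 1 < |m| ∨ m = i + 1) : nn I i m x = 0 := by
  have h1 : ∀ y, I.f ((i : ℤ) + m) ((i : ℤ) - m) y = 0 := by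
    intro y
    by_cases h1 : (i : ℤ) + m < 0
    · exact I.f_neg _ _ _ h1
    by_cases h2 : (i : ℤ) - m < 0
    · exact I.f_neg' _ _ _ h2
    apply I.f_big
    rw [hN]
    push_cast
    rcases h with h | h | h
    · omega
    · exfalso
      rcases abs_cases m with ⟨h3, _⟩ | ⟨h3, _⟩ <;> omega
    · exfalso
      omega
  have h2 : ((i : ℂ) + 1 - m) * I.f ((i : ℤ) + 1 + m) ((i : ℤ) + 1 - m) x = 0 := by
    rcases eq_or_ne m ((i : ℤ) + 1) with hm | hm
    · rw [hm]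
      push_cast
      ring
    · have h3 : I.f ((i : ℤ) + 1 + m) ((i : ℤ) + 1 - m) x = 0 := by
        by_cases h4 : (i : ℤ) + 1 + m < 0
        · exact I.f_neg _ _ _ h4
        by_cases h5 : (i : ℤ) + 1 - m < 0
        · exact I.f_neg' _ _ _ h5
        apply I.f_big
        rw [hN]
        push_cast
        rcases h with h | h | h
        · omega
        · exfalso
          rcases abs_cases m with ⟨h3, _⟩ | ⟨h3, _⟩ <;> omega
        · exact absurd h hm
      rw [h3, mul_zero]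
  unfold nn
  rw [Build_dd_zero I.al h1 x, h1 x, mul_zero, add_zero, zero_add, mul_assoc, h2, mul_zero]

/-- TASK Coef (3').  The top coefficient `f_{2N,0}` is constant in `x`, so `nn N N = 0`.
(`I.eqn` with `A = 2N`, `B = 1` has only the terms `dd f_{2N,0}`, `db f_{2N-1,1}`; use instead
`A = 2N+1, B = 0`: `mu * dd (cj al) f_{2N,0} = 0`; then `liou` gives that `f_{2N,0}` is constant.) -/
theorem nn_top (I : ID) (N : ℕ) (hN : I.n = 2 * N) (x : V2) : nn I N (N : ℤ) x = 0 := by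
  have e1 : (N : ℤ) + (N : ℤ) = 2 * N := by ring
  have e2 : (N : ℤ) - (N : ℤ) = 0 := by ring
  have h0 : ∀ y, dd (cj I.al) (I.f (2 * (N : ℤ)) 0) y = 0 := by
    intro y
    have hm : (I.mu y : ℂ) ≠ 0 := by exact_mod_cast (I.mupos y).ne'
    have h1 := I.eqn (2 * (N : ℤ) + 1) 0 y
    have z1 : ∀ z, I.f (2 * (N : ℤ) + 1) (0 - 1) z = 0 := fun z => I.f_neg' _ _ _ (by norm_num)
    have z2 : I.f (2 * (N : ℤ) + 1 + 1) 0 y = 0 := I.f_big _ _ _ (by
      rw [hN]
      push_cast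
      omega)
    have z3 : I.f (2 * (N : ℤ) + 1) (0 + 1) y = 0 := I.f_big _ _ _ (by
      rw [hN]
      push_cast
      omega)
    have e3 : 2 * (N : ℤ) + 1 - 1 = 2 * N := by ring
    rw [Build_dd_zero I.al z1 y, z1 y, z2, z3, e3] at h1
    simp only [Int.cast_zero, zero_mul, mul_zero, add_zero, sub_zero, zero_add] at h1
    exact (mul_eq_zero.1 h1).resolve_left hm
  obtain ⟨c, hc⟩ := liou I.al I.hal _ (I.fsm (2 * (N : ℤ)) 0) (I.fper _ _) h0
  have h2 : I.f (2 * (N : ℤ)) 0 = fun _ => c := funext hc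
  have h3 : dd I.al (I.f (2 * (N : ℤ)) 0) x = 0 := by
    rw [h2]
    unfold dd
    simp
  have z4 : I.f ((N : ℤ) + 1 + N) ((N : ℤ) + 1 - N) x = 0 := I.f_big _ _ _ (by
    rw [hN]
    push_cast
    omega)
  unfold nn
  rw [e1, e2, h3, z4]
  push_cast
  ring

/-- TASK Coef (4).  `eps i (-k) = - conj (eps i k)`. -/
theorem eps_neg (I : ID) (i : ℕ) (k : ℤ) (x : V2) :
    eps I i (-k) x = - (starRingEnd ℂ) (eps I i k x) := by
  unfold eps
  rw [map_mul, ← I.conj, map_intCast, ← sub_eq_add_neg, sub_neg_eq_add]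
  push_cast
  ring

/-- A sum over integers written in two ways. -/
theorem Coef_sum (G : ℤ → ℂ) (a : ℤ) (L : ℕ) (h : ∀ j, G j ≠ 0 → a ≤ j ∧ j < a + L) :
    ∑ b ∈ Finset.range L, G (a + b) = ∑ᶠ j, G j := by
  rw [finsum_eq_sum_of_support_subset (s := Finset.Ico a (a + L))]
  · refine Finset.sum_nbij' (fun b : ℕ => a + (b : ℤ)) (fun j : ℤ => (j - a).toNat) ?_ ?_ ?_ ?_ ?_
    · intro b hb
      rw [Finset.mem_range] at hb
      rw [Finset.mem_Ico]
      omega
    · intro j hj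
      rw [Finset.mem_Ico] at hj
      rw [Finset.mem_range]
      omega
    · intro b _
      show (a + (b : ℤ) - a).toNat = b
      omega
    · intro j hj
      rw [Finset.mem_Ico] at hj
      show a + (((j - a).toNat : ℕ) : ℤ) = j
      omega
    · intro b _
      rfl
  · intro j hj
    rw [Finset.coe_Ico, Set.mem_Ico]
    exact h j hj

theorem Coef_two (G : ℤ → ℂ) (a : ℤ) (L N : ℕ) (h : ∀ j, G j ≠ 0 → a ≤ j ∧ j < a + L)
    (h' : ∀ j, G j ≠ 0 → 0 ≤ j ∧ j ≤ N) :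
    ∑ b ∈ Finset.range L, G (a + b) = ∑ i ∈ Finset.range (N + 1), G i := by
  rw [Coef_sum G a L h, ← Coef_sum G 0 (N + 1) (fun j hj => ⟨(h' j hj).1, by
    have := (h' j hj).2
    push_cast
    omega⟩)]
  refine Finset.sum_congr rfl fun i _ => ?_
  rw [zero_add]

theorem Coef_supp (I : ID) (N : ℕ) (hN : I.n = 2 * N) (j k : ℤ) (x : V2)
    (h : I.f (j + k) (j - k) x ≠ 0) : 0 ≤ j + k ∧ 0 ≤ j - k ∧ j ≤ N := by
  refine ⟨?_, ?_, ?_⟩
  · by_contra h1
    exact h (I.f_neg _ _ _ (by omega))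
  · by_contra h1
    exact h (I.f_neg' _ _ _ (by omega))
  · by_contra h1
    apply h
    apply I.f_big
    rw [hN]
    push_cast
    omega

/-- TASK Coef (5).  For `l = ell h x ≠ 0`: `k Bt(k) l^(k-1) = ∑_i eps i k l^(i-1)`
(in `Bt h k x = ∑_b f_{2k+b,b} l^b` put `i = b + k`). -/
theorem Bt_eps (I : ID) (N : ℕ) (hN : I.n = 2 * N) (h : ℝ) (x : V2) (hl : I.ell h x ≠ 0)
    (k : ℤ) :
    (k : ℂ) * Bt I h k x * (I.ell h x : ℂ) ^ (k - 1) =
      ∑ i ∈ Finset.range (N + 1), eps I i k x * (I.ell h x : ℂ) ^ ((i : ℤ) - 1) := by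
  have hl' : (I.ell h x : ℂ) ≠ 0 := by exact_mod_cast hl
  have h1 := Coef_two (fun j : ℤ => (k : ℂ) * I.f (j + k) (j - k) x * (I.ell h x : ℂ) ^ (j - 1)) k
    (I.n + 1) N (fun j hj => by
      have h2 := Coef_supp I N hN j k x (fun h0 => hj (by simp only [h0, mul_zero, zero_mul]))
      push_cast
      omega) (fun j hj => by
      have h2 := Coef_supp I N hN j k x (fun h0 => hj (by simp only [h0, mul_zero, zero_mul]))
      omega)
  unfold Bt ID.beta
  rw [Finset.mul_sum, Finset.sum_mul]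
  refine Eq.trans ?_ (h1.trans ?_)
  · refine Finset.sum_congr rfl fun b _ => ?_
    have e1 : k + (b : ℤ) + k = 2 * k + b := by ring
    have e2 : k + (b : ℤ) - k = b := by ring
    have e3 : k + (b : ℤ) - 1 = (b : ℤ) + (k - 1) := by ring
    show _ = (k : ℂ) * I.f (k + (b : ℤ) + k) (k + (b : ℤ) - k) x *
      (I.ell h x : ℂ) ^ (k + (b : ℤ) - 1)
    rw [e1, e2, e3, zpow_add₀ hl', zpow_natCast]
    ring
  · refine Finset.sum_congr rfl fun i _ => ?_
    rfl

/-- TASK Coef (6).  For `l = ell h x ≠ 0`: `dd (Bt m) l^m = ∑_i nn i m l^i`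
(`dd` of `f_{2m+b,b} l^b` is `dd f l^b + b f l^(b-1) (l0 + l1 l)`; put `i = b + m`, respectively
`i = b + m - 1` in the `l0` term; all terms with `i < 0` vanish). -/
theorem ddBt_nn (I : ID) (N : ℕ) (hN : I.n = 2 * N) (h : ℝ) (x : V2) (hl : I.ell h x ≠ 0)
    (m : ℤ) :
    dd I.al (Bt I h m) x * (I.ell h x : ℂ) ^ m =
      ∑ i ∈ Finset.range (N + 1), nn I i m x * (I.ell h x : ℂ) ^ i := by
  have hl' : (I.ell h x : ℂ) ≠ 0 := by exact_mod_cast hl
  have hld : DifferentiableAt ℝ (fun y => (I.ell h y : ℂ)) x :=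
    (Complex.ofRealCLM.contDiff.comp (I.ell_smooth h)).differentiable (by simp) x
  have hfd : ∀ a b, DifferentiableAt ℝ (I.f a b) x := fun a b =>
    (I.fsm a b).differentiable (by simp) x
  have hpw : ∀ b : ℕ, DifferentiableAt ℝ (fun y => (I.ell h y : ℂ) ^ b) x := fun b =>
    hld.pow b
  have hdd : dd I.al (Bt I h m) x =
      ∑ b ∈ Finset.range (I.n + 1), (dd I.al (I.f (2 * m + b) b) x * (I.ell h x : ℂ) ^ b +
        I.f (2 * m + b) b x * ((b : ℂ) * (I.ell h x : ℂ) ^ (b - 1) * ddr I.al (I.ell h) x)) := by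
    have h1 : Bt I h m = fun y => ∑ b ∈ Finset.range (I.n + 1),
        I.f (2 * m + b) b y * (I.ell h y : ℂ) ^ b := rfl
    rw [h1, dd_sum]
    · refine Finset.sum_congr rfl fun b _ => ?_
      rw [dd_mul I.al (hfd _ _) (hpw b), dd_pow I.al hld]
      rfl
    · intro b _
      exact (hfd _ _).mul (hpw b)
  have hddz : ∀ j : ℤ, dd I.al (I.f (j + m) (j - m)) x ≠ 0 → 0 ≤ j + m ∧ 0 ≤ j - m ∧ j ≤ N := by
    intro j hj
    refine ⟨?_, ?_, ?_⟩
    · by_contra h1
      exact hj (Build_dd_zero I.al (fun y => I.f_neg _ _ _ (by omega)) x)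
    · by_contra h1
      exact hj (Build_dd_zero I.al (fun y => I.f_neg' _ _ _ (by omega)) x)
    · by_contra h1
      refine hj (Build_dd_zero I.al (fun y => I.f_big _ _ _ ?_) x)
      rw [hN]
      push_cast
      omega
  have s1 := Coef_two (fun j : ℤ => dd I.al (I.f (j + m) (j - m)) x * (I.ell h x : ℂ) ^ j) m
    (I.n + 1) N (fun j hj => by
      have h2 := hddz j (fun h0 => hj (by simp only [h0, zero_mul]))
      push_cast
      omega) (fun j hj => by
      have h2 := hddz j (fun h0 => hj (by simp only [h0, zero_mul]))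
      omega)
  have s3 := Coef_two (fun j : ℤ => l1 I x * ((j : ℂ) - m) * I.f (j + m) (j - m) x *
      (I.ell h x : ℂ) ^ j) m
    (I.n + 1) N (fun j hj => by
      have h2 := Coef_supp I N hN j m x (fun h0 => hj (by simp only [h0, mul_zero, zero_mul]))
      push_cast
      omega) (fun j hj => by
      have h2 := Coef_supp I N hN j m x (fun h0 => hj (by simp only [h0, mul_zero, zero_mul]))
      omega)
  have hs2 : ∀ j : ℤ, l0 I x * ((j : ℂ) + 1 - m) * I.f (j + 1 + m) (j + 1 - m) x *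
      (I.ell h x : ℂ) ^ j ≠ 0 → 0 ≤ j + 1 + m ∧ 1 ≤ j + 1 - m ∧ j + 1 ≤ N := by
    intro j hj
    have h2 := Coef_supp I N hN (j + 1) m x (fun h0 => hj (by simp only [h0, mul_zero, zero_mul]))
    have h3 : j + 1 - m ≠ 0 := by
      intro h4
      apply hj
      have h5 : (j : ℂ) + 1 - m = 0 := by exact_mod_cast h4
      rw [h5, mul_zero, zero_mul, zero_mul]
    omega
  have s2 := Coef_two (fun j : ℤ => l0 I x * ((j : ℂ) + 1 - m) * I.f (j + 1 + m) (j + 1 - m) x *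
      (I.ell h x : ℂ) ^ j) (m - 1)
    (I.n + 1) N (fun j hj => by
      have h2 := hs2 j hj
      push_cast
      omega) (fun j hj => by
      have h2 := hs2 j hj
      omega)
  rw [hdd, Finset.sum_mul]
  have hL : ∀ b ∈ Finset.range (I.n + 1),
      (dd I.al (I.f (2 * m + b) b) x * (I.ell h x : ℂ) ^ b +
        I.f (2 * m + b) b x * ((b : ℂ) * (I.ell h x : ℂ) ^ (b - 1) * ddr I.al (I.ell h) x)) *
          (I.ell h x : ℂ) ^ m =
      dd I.al (I.f (m + (b : ℤ) + m) (m + (b : ℤ) - m)) x * (I.ell h x : ℂ) ^ (m + (b : ℤ)) +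
      l0 I x * (((m - 1 + (b : ℤ) : ℤ) : ℂ) + 1 - m) *
        I.f (m - 1 + (b : ℤ) + 1 + m) (m - 1 + (b : ℤ) + 1 - m) x *
          (I.ell h x : ℂ) ^ (m - 1 + (b : ℤ)) +
      l1 I x * (((m + (b : ℤ) : ℤ) : ℂ) - m) * I.f (m + (b : ℤ) + m) (m + (b : ℤ) - m) x *
        (I.ell h x : ℂ) ^ (m + (b : ℤ)) := by
    intro b _
    have e1 : m + (b : ℤ) + m = 2 * m + b := by ring
    have e2 : m + (b : ℤ) - m = b := by ring
    have e3 : m - 1 + (b : ℤ) + 1 + m = 2 * m + b := by ring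
    have e4 : m - 1 + (b : ℤ) + 1 - m = b := by ring
    have e5 : ((m - 1 + (b : ℤ) : ℤ) : ℂ) + 1 - m = b := by
      push_cast
      ring
    have e6 : ((m + (b : ℤ) : ℤ) : ℂ) - m = b := by
      push_cast
      ring
    rw [e1, e2, e3, e4, e5, e6, ddr_ell_eq]
    rcases b with _ | c
    · simp
    · rw [Nat.add_sub_cancel]
      have e7 : (I.ell h x : ℂ) ^ (m + ((c + 1 : ℕ) : ℤ)) =
          (I.ell h x : ℂ) ^ m * (I.ell h x : ℂ) ^ (c + 1) := by
        rw [zpow_add₀ hl', zpow_natCast]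
      have e8 : (I.ell h x : ℂ) ^ (m - 1 + ((c + 1 : ℕ) : ℤ)) =
          (I.ell h x : ℂ) ^ m * (I.ell h x : ℂ) ^ c := by
        rw [show m - 1 + ((c + 1 : ℕ) : ℤ) = m + (c : ℤ) by
          push_cast
          ring, zpow_add₀ hl', zpow_natCast]
      rw [e7, e8]
      ring
  rw [Finset.sum_congr rfl hL, Finset.sum_add_distrib, Finset.sum_add_distrib]
  have hR : ∀ i ∈ Finset.range (N + 1), nn I i m x * (I.ell h x : ℂ) ^ i =
      dd I.al (I.f ((i : ℤ) + m) ((i : ℤ) - m)) x * (I.ell h x : ℂ) ^ (i : ℤ) +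
      l0 I x * (((i : ℤ) : ℂ) + 1 - m) * I.f ((i : ℤ) + 1 + m) ((i : ℤ) + 1 - m) x *
        (I.ell h x : ℂ) ^ (i : ℤ) +
      l1 I x * (((i : ℤ) : ℂ) - m) * I.f ((i : ℤ) + m) ((i : ℤ) - m) x *
        (I.ell h x : ℂ) ^ (i : ℤ) := by
    intro i _
    unfold nn
    rw [zpow_natCast, Int.cast_natCast]
    ring
  rw [Finset.sum_congr rfl hR, Finset.sum_add_distrib, Finset.sum_add_distrib]
  exact congrArg₂ (· + ·) (congrArg₂ (· + ·) s1 s2) s3

/-- TASK Coef (7).  The equation `I.eqn` with `A = i + m + 1`, `B = i - m`, divided by `mu`. -/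
theorem T_rel (I : ID) (i : ℕ) (m : ℤ) (x : V2) :
    nn I i (m + 1) x + nb I i m x + 2 * l0 I x * eps I (i + 1) (m + 1) x
      + 2 * l1 I x * eps I i (m + 1) x = 0 := by
  have hm : (I.mu x : ℂ) ≠ 0 := by exact_mod_cast (I.mupos x).ne'
  have h1 := I.eqn ((i : ℤ) + m + 1) ((i : ℤ) - m) x
  have hmu : ddr (cj I.al) I.mu x = (starRingEnd ℂ) (ddr I.al I.mu x) :=
    ddr_conj I.al (I.musm.differentiable (by simp) x)
  have hU : ddr (cj I.al) I.U x = (starRingEnd ℂ) (ddr I.al I.U x) :=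
    ddr_conj I.al (I.Usm.differentiable (by simp) x)
  have c0 : (starRingEnd ℂ) (l0 I x) = - ddr (cj I.al) I.U x / (I.mu x : ℂ) := by
    unfold l0
    rw [map_div₀, map_neg, Complex.conj_ofReal, hU]
  have c1 : (starRingEnd ℂ) (l1 I x) = - ddr (cj I.al) I.mu x / (I.mu x : ℂ) := by
    unfold l1
    rw [map_div₀, map_neg, Complex.conj_ofReal, hmu]
  have a1 : (i : ℤ) + (m + 1) = (i : ℤ) + m + 1 := by ring
  have a2 : (i : ℤ) - (m + 1) = (i : ℤ) - m - 1 := by ring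
  have a3 : (i : ℤ) + 1 + (m + 1) = (i : ℤ) + m + 1 + 1 := by ring
  have a4 : (i : ℤ) + 1 - (m + 1) = (i : ℤ) - m := by ring
  have a5 : (i : ℤ) + 1 + m = (i : ℤ) + m + 1 := by ring
  have a6 : (i : ℤ) + 1 - m = (i : ℤ) - m + 1 := by ring
  have a7 : (i : ℤ) + m + 1 - 1 = (i : ℤ) + m := by ring
  have a8 : ((i + 1 : ℕ) : ℤ) = (i : ℤ) + 1 := by push_cast; rfl
  unfold nn nb eps
  rw [a8, c0, c1, a1, a2, a3, a4, a5, a6]
  rw [a7] at h1
  unfold l0 l1
  push_cast at h1 ⊢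
  field_simp
  linear_combination h1

end Pool.W4b1b5d.E
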