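import Pool.Agent.W_4b1b5d_h78.Defs
import Pool.Agent.W_4b1b5d_h3.BetaA
import Pool.Agent.W_4b1b5d_h3.LkDer

set_option autoImplicit false

namespace Pool.W4b1b5d.E

open Pool.W4b1b5d.H3

theorem Comm_second {f : V2 → ℂ} {x : V2} (hf : DifferentiableAt ℝ (fderiv ℝ f) x)
    (a b : Fin 2 → ℂ) :
    dd a (fun y => dd b f y) x = ∑ i, ∑ j, a i *
      (b j * (fderiv ℝ (fderiv ℝ f) x (Pi.single i 1)) (Pi.single j 1)) := by
  have h1 : ∀ j : Fin 2, HasFDerivAt (fun y => b j * fderiv ℝ f y (Pi.single j 1))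
      (b j • ((ContinuousLinearMap.apply ℝ ℂ (Pi.single j 1 : V2)).comp
        (fderiv ℝ (fderiv ℝ f) x))) x := fun j =>
    ((ContinuousLinearMap.apply ℝ ℂ (Pi.single j 1 : V2)).hasFDerivAt.comp x
      hf.hasFDerivAt).const_mul (b j)
  have h2 : HasFDerivAt (fun y => ∑ j, b j * fderiv ℝ f y (Pi.single j 1))
      (∑ j, b j • ((ContinuousLinearMap.apply ℝ ℂ (Pi.single j 1 : V2)).comp
        (fderiv ℝ (fderiv ℝ f) x))) x := HasFDerivAt.fun_sum fun j _ => h1 j
  unfold dd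
  rw [h2.fderiv]
  refine Finset.sum_congr rfl fun i _ => ?_
  rw [sum_apply, Finset.mul_sum]
  rfl

/-- TASK Comm (1).  Two constant coefficient derivations commute (symmetry of the second
derivative, `ContDiffAt.isSymmSndFDerivAt`; `f` is `C²` at `x`). -/
theorem dd_comm (a b : Fin 2 → ℂ) {f : V2 → ℂ} {x : V2} (hf : ContDiffAt ℝ 2 f x) :
    dd a (fun y => dd b f y) x = dd b (fun y => dd a f y) x := by
  have h1 : DifferentiableAt ℝ (fderiv ℝ f) x :=
    (hf.fderiv_right (m := 1) (by norm_num)).differentiableAt (by norm_num)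
  have h2 : IsSymmSndFDerivAt ℝ f x := by
    apply hf.isSymmSndFDerivAt
    rw [minSmoothness_of_isRCLikeNormedField]
  rw [Comm_second h1, Comm_second h1, Finset.sum_comm]
  refine Finset.sum_congr rfl fun i _ => Finset.sum_congr rfl fun j _ => ?_
  rw [h2.eq (Pi.single j 1) (Pi.single i 1)]
  ring

/-- TASK Comm (2).  `dd a f` is smooth at a point where `f` is. -/
theorem dd_contDiffAt (a : Fin 2 → ℂ) {f : V2 → ℂ} {x : V2}
    (hf : ContDiffAt ℝ (⊤ : ℕ∞) f x) : ContDiffAt ℝ (⊤ : ℕ∞) (fun y => dd a f y) x := by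
  have h1 : ContDiffAt ℝ (⊤ : ℕ∞) (fderiv ℝ f) x := hf.fderiv_right (by simp)
  unfold dd
  exact ContDiffAt.sum fun i _ => contDiffAt_const.mul (h1.clm_apply contDiffAt_const)

/-- TASK Comm (3).  Derivatives of eventually equal functions agree. -/
theorem dd_congr (a : Fin 2 → ℂ) {f g : V2 → ℂ} {x : V2} (h : f =ᶠ[nhds x] g) :
    dd a f x = dd a g x := by
  unfold dd
  rw [h.fderiv_eq]

/-- TASK Comm (4).  If `dd al f = 0` and `dd (cj al) f = 0` at `x` then `fderiv f x = 0`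
(`dir_decomp`). -/
theorem fderiv_zero_of_dd (al : Fin 2 → ℂ) (hal : ((starRingEnd ℂ) (al 0) * al 1).im ≠ 0)
    {f : V2 → ℂ} {x : V2} (hf : DifferentiableAt ℝ f x) (h1 : dd al f x = 0)
    (h2 : dd (cj al) f x = 0) : fderiv ℝ f x = 0 := by
  refine ContinuousLinearMap.ext fun v => ?_
  obtain ⟨lam, _, h3⟩ := dir_decomp al hal v
  rw [h3 f x hf, h1, h2]
  simp

end Pool.W4b1b5d.E
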