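import Mathlib

set_option autoImplicit false

namespace Pool.W4b1b5d.E

open Polynomial

/-- Minimal monic common denominator. -/
theorem den_min (al al' : PowerSeries ℂ) (D0 : ℂ[X]) (hD0 : D0 ≠ 0)
    (h0 : ∃ P P' : ℂ[X], (D0 : PowerSeries ℂ) * al = (P : PowerSeries ℂ) ∧
      (D0 : PowerSeries ℂ) * al' = (P' : PowerSeries ℂ)) :
    ∃ D P P' : ℂ[X], D.Monic ∧ (D : PowerSeries ℂ) * al = (P : PowerSeries ℂ) ∧
      (D : PowerSeries ℂ) * al' = (P' : PowerSeries ℂ) ∧
      (∀ w : ℂ, D.eval w = 0 → P.eval w ≠ 0 ∨ P'.eval w ≠ 0) := by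
  classical
  have hex : ∃ n : ℕ, ∃ D : ℂ[X], D.Monic ∧ D.natDegree = n ∧
      ∃ P P' : ℂ[X], (D : PowerSeries ℂ) * al = (P : PowerSeries ℂ) ∧
        (D : PowerSeries ℂ) * al' = (P' : PowerSeries ℂ) := by
    obtain ⟨P, P', hP, hP'⟩ := h0
    refine ⟨_, D0 * C D0.leadingCoeff⁻¹, monic_mul_leadingCoeff_inv hD0, rfl,
      P * C D0.leadingCoeff⁻¹, P' * C D0.leadingCoeff⁻¹, ?_, ?_⟩
    · rw [Polynomial.coe_mul, Polynomial.coe_mul, ← hP]; ring
    · rw [Polynomial.coe_mul, Polynomial.coe_mul, ← hP']; ring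
  obtain ⟨D, hDm, hDn, P, P', hP, hP'⟩ := Nat.find_spec hex
  refine ⟨D, P, P', hDm, hP, hP', ?_⟩
  intro w hw
  by_contra hcon
  push Not at hcon
  obtain ⟨hPw, hPw'⟩ := hcon
  obtain ⟨D1, hD1⟩ := dvd_iff_isRoot.mpr (show IsRoot D w from hw)
  obtain ⟨P1, hP1⟩ := dvd_iff_isRoot.mpr (show IsRoot P w from hPw)
  obtain ⟨P1', hP1'⟩ := dvd_iff_isRoot.mpr (show IsRoot P' w from hPw')
  have hne : ((X - C w : ℂ[X]) : PowerSeries ℂ) ≠ 0 := by
    intro h
    exact X_sub_C_ne_zero w (Polynomial.coe_inj.mp (by rw [h, Polynomial.coe_zero]))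
  have hD1m : D1.Monic := (monic_X_sub_C w).of_mul_monic_left (by rw [← hD1]; exact hDm)
  have hdeg : D.natDegree = 1 + D1.natDegree := by
    rw [hD1, (monic_X_sub_C w).natDegree_mul hD1m, natDegree_X_sub_C]
  refine Nat.find_min hex (m := D1.natDegree) (by omega) ⟨D1, hD1m, rfl, P1, P1', ?_, ?_⟩
  · apply mul_left_cancel₀ hne
    rw [← Polynomial.coe_mul, ← hP1, ← hP, hD1, Polynomial.coe_mul, mul_assoc]
  · apply mul_left_cancel₀ hne
    rw [← Polynomial.coe_mul, ← hP1', ← hP', hD1, Polynomial.coe_mul, mul_assoc]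

/-- Divisibility of all coefficients by a prime power of the denominator. -/
theorem den_pow (e ν : ℕ → ℂ[X]) (N : ℕ) (h0 : e 0 = 0) (hbig : ∀ i, N < i → e i = 0)
    (D P P' : ℂ[X]) (hrel : ∀ i, e (i + 1) * P + e i * P' = D * ν i) (w : ℂ) (m : ℕ)
    (hm : (X - C w) ^ m ∣ D) (hw : P.eval w ≠ 0 ∨ P'.eval w ≠ 0) (i : ℕ) :
    (X - C w) ^ m ∣ e i := by
  rcases hw with hw | hw
  · have hnd : ¬ (X - C w) ∣ P := fun hd => hw (dvd_iff_isRoot.mp hd)
    induction i with
    | zero => rw [h0]; exact dvd_zero _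
    | succ i ih =>
      apply (prime_X_sub_C w).pow_dvd_of_dvd_mul_right m hnd
      have h1 : e (i + 1) * P = D * ν i - e i * P' := by rw [← hrel i]; ring
      rw [h1]
      exact dvd_sub (hm.mul_right _) (ih.mul_right _)
  · have hnd : ¬ (X - C w) ∣ P' := fun hd => hw (dvd_iff_isRoot.mp hd)
    have key : ∀ k : ℕ, ∀ i : ℕ, N + 1 ≤ i + k → (X - C w) ^ m ∣ e i := by
      intro k
      induction k with
      | zero => intro i hi; rw [hbig i (by omega)]; exact dvd_zero _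
      | succ k ih =>
        intro i hi
        have h2 := ih (i + 1) (by omega)
        apply (prime_X_sub_C w).pow_dvd_of_dvd_mul_right m hnd
        have h1 : e i * P' = D * ν i - e (i + 1) * P := by rw [← hrel i]; ring
        rw [h1]
        exact dvd_sub (hm.mul_right _) (h2.mul_right _)
    exact key (N + 1) i (by omega)

/-- TASK Den.  The common denominator of two power series `al`, `al'` with
`e (i+1) * al + e i * al' = ν i` for all `i`, where `e i = 0` for `i < J` and for `i > N` and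
`e J ≠ 0`.

Proof.  The set `Id = {D : ℂ[X] | ∃ P P', D * al = P ∧ D * al' = P'}` is an ideal.  It contains
`(e J)^2`: for `i = J - 1` (`J ≥ 1`): `e J * al = ν (J-1)`; for `i = J`:
`e J * al' = ν J - e (J+1) * al`, so `(e J)^2 * al' = e J * ν J - e (J+1) * ν (J-1)`.
Let `D` be a monic polynomial of least degree in `Id` (a generator), `P = D al`, `P' = D al'`.
If `D(w) = 0`, `P(w) = 0` and `P'(w) = 0`, then `D / (X - C w)` is in `Id` (cancel `X - C w` in the
power series domain), of smaller degree: contradiction.  This is the last statement.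
`D ∣ e i`: it suffices that `(X - C w)^m ∣ D → (X - C w)^m ∣ e i` for all `w`, `m ≥ 1`
(`D` splits over `ℂ`; or: `D.roots ≤ (e i).roots` when `e i ≠ 0`).  We have
`e (i+1) * P + e i * P' = D * ν i` in `ℂ[X]`.  If `P(w) ≠ 0`: ascending induction on `i` (from
`e 0 = 0`, because `J ≥ 1`): `(X - C w)^m ∣ e i` gives `(X - C w)^m ∣ e (i+1) * P`, so it divides
`e (i+1)` (`Prime.pow_dvd_of_dvd_mul_right`).  If `P'(w) ≠ 0`: descending induction from
`e (N+1) = 0`. -/
theorem den (e ν : ℕ → ℂ[X]) (J N : ℕ) (hJ1 : 1 ≤ J) (hlow : ∀ i < J, e i = 0) (hJ : e J ≠ 0)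
    (hbig : ∀ i, N < i → e i = 0) (al al' : PowerSeries ℂ)
    (h : ∀ i, (e (i + 1) : PowerSeries ℂ) * al + (e i : PowerSeries ℂ) * al'
      = (ν i : PowerSeries ℂ)) :
    ∃ D P P' : ℂ[X], D.Monic ∧ (D : PowerSeries ℂ) * al = (P : PowerSeries ℂ) ∧
      (D : PowerSeries ℂ) * al' = (P' : PowerSeries ℂ) ∧ (∀ i, D ∣ e i) ∧
      (∀ w : ℂ, D.eval w = 0 → P.eval w ≠ 0 ∨ P'.eval w ≠ 0) := by
  classical
  have hmem : ∃ P P' : ℂ[X], (((e J) ^ 2 : ℂ[X]) : PowerSeries ℂ) * al = (P : PowerSeries ℂ) ∧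
      (((e J) ^ 2 : ℂ[X]) : PowerSeries ℂ) * al' = (P' : PowerSeries ℂ) := by
    have h1 : (e J : PowerSeries ℂ) * al = (ν (J - 1) : PowerSeries ℂ) := by
      have h2 := h (J - 1)
      rw [Nat.sub_add_cancel hJ1, hlow (J - 1) (by omega), Polynomial.coe_zero, zero_mul,
        add_zero] at h2
      exact h2
    have h3 := h J
    refine ⟨e J * ν (J - 1), e J * ν J - e (J + 1) * ν (J - 1), ?_, ?_⟩
    · rw [Polynomial.coe_pow, Polynomial.coe_mul, ← h1]; ring
    · rw [Polynomial.coe_pow, Polynomial.coe_sub, Polynomial.coe_mul, Polynomial.coe_mul, ← h1,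
        ← h3]
      ring
  obtain ⟨D, P, P', hDm, hP, hP', hlast⟩ := den_min al al' ((e J) ^ 2) (pow_ne_zero 2 hJ) hmem
  refine ⟨D, P, P', hDm, hP, hP', ?_, hlast⟩
  have hrel : ∀ i, e (i + 1) * P + e i * P' = D * ν i := by
    intro i
    apply Polynomial.coe_inj.mp
    rw [Polynomial.coe_add, Polynomial.coe_mul, Polynomial.coe_mul, Polynomial.coe_mul, ← hP,
      ← hP', ← h i]
    ring
  intro i
  by_cases hei : e i = 0
  · rw [hei]; exact dvd_zero _
  have hsp : D.Splits := IsAlgClosed.splits D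
  have hprod : (D.roots.map (fun a => X - C a)).prod = D := by
    have := hsp.eq_prod_roots
    rw [hDm.leadingCoeff, C_1, one_mul] at this
    exact this.symm
  rw [← hprod, Multiset.prod_X_sub_C_dvd_iff_le_roots hei, Multiset.le_iff_count]
  intro w
  rw [count_roots, count_roots, le_rootMultiplicity_iff hei]
  by_cases hDw : D.eval w = 0
  · exact den_pow e ν N (hlow 0 (by omega)) hbig D P P' hrel w _
      (pow_rootMultiplicity_dvd D w) (hlast w hDw) i
  · rw [rootMultiplicity_eq_zero (show ¬ IsRoot D w from hDw), pow_zero]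
    exact one_dvd _

end Pool.W4b1b5d.E
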