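import Mathlib

set_option autoImplicit false

namespace Pool.W4b1b5d.E

open Polynomial

/-- TASK DenM.  If moreover `(X - C w)^k` divides all `e i` and all `ν i` but `(X - C w)^(k+1)`
does not divide some `e i0`, then `D(w) ≠ 0`.

Proof.  Write `e i = (X - C w)^k * e' i`, `ν i = (X - C w)^k * ν' i`.  Multiply the relation by `D`
and cancel: `e' (i+1) * P + e' i * P' = D * ν' i` in `ℂ[X]` (`Polynomial.coe_inj` for power series).
Suppose `D(w) = 0`.  Then `e' (i+1)(w) P(w) + e' i (w) P'(w) = 0` for all `i`.  If `P(w) ≠ 0`,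
ascending induction from `e' 0 = 0` gives `e' i (w) = 0` for all `i`; if `P'(w) ≠ 0`, descending
induction from `e' (N+1) = 0`.  This contradicts `e' i0 (w) ≠ 0`. -/
theorem den_mult (e ν : ℕ → ℂ[X]) (N : ℕ) (h0 : e 0 = 0)
    (hbig : ∀ i, N < i → e i = 0) (al al' : PowerSeries ℂ)
    (h : ∀ i, (e (i + 1) : PowerSeries ℂ) * al + (e i : PowerSeries ℂ) * al'
      = (ν i : PowerSeries ℂ))
    (D P P' : ℂ[X]) (hP : (D : PowerSeries ℂ) * al = (P : PowerSeries ℂ))
    (hP' : (D : PowerSeries ℂ) * al' = (P' : PowerSeries ℂ))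
    (w : ℂ) (hPP : P.eval w ≠ 0 ∨ P'.eval w ≠ 0)
    (k : ℕ) (hk : ∀ i, (X - C w) ^ k ∣ e i) (hkν : ∀ i, (X - C w) ^ k ∣ ν i)
    (i0 : ℕ) (hi0 : ¬ (X - C w) ^ (k + 1) ∣ e i0) : D.eval w ≠ 0 := by
  choose e' he' using hk
  choose n' hn' using hkν
  have ht : (X - C w : ℂ[X]) ^ k ≠ 0 := pow_ne_zero _ (X_sub_C_ne_zero w)
  have hrel : ∀ i, e' (i + 1) * P + e' i * P' = D * n' i := by
    intro i
    apply mul_left_cancel₀ ht
    have e1 : (X - C w) ^ k * (e' (i + 1) * P + e' i * P') = e (i + 1) * P + e i * P' := by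
      rw [he' (i + 1), he' i]; ring
    have e2 : (X - C w) ^ k * (D * n' i) = D * ν i := by rw [hn' i]; ring
    rw [e1, e2, ← Polynomial.coe_inj]
    push_cast
    rw [← hP, ← hP', ← h i]
    ring
  intro hD
  have hz : ∀ i, (e' (i + 1)).eval w * P.eval w + (e' i).eval w * P'.eval w = 0 := by
    intro i
    have h1 := congrArg (eval w) (hrel i)
    simpa [hD] using h1
  have he0 : e' 0 = 0 := by
    have h1 := he' 0
    rw [h0] at h1
    exact (mul_eq_zero.1 h1.symm).resolve_left ht
  have hbig' : ∀ i, N < i → e' i = 0 := by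
    intro i hi
    have h1 := he' i
    rw [hbig i hi] at h1
    exact (mul_eq_zero.1 h1.symm).resolve_left ht
  have hall : ∀ i, (e' i).eval w = 0 := by
    rcases hPP with hp | hp
    · intro i
      induction i with
      | zero => simp [he0]
      | succ i ih =>
        have h1 := hz i
        rw [ih, zero_mul, add_zero] at h1
        exact (mul_eq_zero.1 h1).resolve_right hp
    · have h2 : ∀ m i, N < i + m → (e' i).eval w = 0 := by
        intro m
        induction m with
        | zero => intro i hi; simp [hbig' i (by simpa using hi)]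
        | succ m ih =>
          intro i hi
          have h1 := ih (i + 1) (by omega)
          have h3 := hz i
          rw [h1, zero_mul, zero_add] at h3
          exact (mul_eq_zero.1 h3).resolve_right hp
      intro i
      exact h2 (N + 1) i (by omega)
  apply hi0
  rw [he' i0, pow_succ]
  exact mul_dvd_mul_left _ (dvd_iff_isRoot.2 (hall i0))

end Pool.W4b1b5d.E
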