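import Pool.Agent.W_4b1b5d_h78.Coef
import Pool.Agent.W_4b1b5d_h78.HPops

set_option autoImplicit false

namespace Pool.W4b1b5d.E

open Pool.W4b1b5d.H3 Polynomial

/-- TASK FinA (1).  Backward recursion.  If a sequence `δ` satisfies
`∑_{k=-M}^{M} γ_k δ_{k+s} = 0` for all `s ≥ M`, with `γ_{-M} ≠ 0`, and `δ_j = 0` for large `j`, then
`δ = 0`.  (Descending induction: `δ_{s-M}` is determined by the later terms.) -/
theorem back_rec (M : ℕ) (γ : ℕ → ℂ) (hγ : γ 0 ≠ 0) (δ : ℕ → ℂ)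
    (h : ∀ s : ℕ, ∑ k ∈ Finset.range (2 * M + 1), γ k * δ (k + s) = 0)
    (K : ℕ) (hK : ∀ j, K ≤ j → δ j = 0) : ∀ j, δ j = 0 := by
  have key : ∀ t j, K ≤ j + t → δ j = 0 := by
    intro t
    induction t with
    | zero => exact fun j hj => hK j hj
    | succ t ih =>
      intro j hj
      have h1 := h j
      rw [Finset.sum_range_succ', Finset.sum_eq_zero, zero_add, zero_add] at h1
      · exact (mul_eq_zero.mp h1).resolve_left hγ
      · intro k _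
        rw [ih (k + 1 + j) (by omega), mul_zero]
  exact fun j => key K j (by omega)

theorem FinA_Bt_low (I : ID) (M : ℕ)
    (hbig : ∀ (k : ℤ) (h : ℝ) (x : V2), (M : ℤ) < k → Bt I h k x = 0)
    (k : ℤ) (hk : k < -(M : ℤ)) (h : ℝ) (x : V2) : Bt I h k x = 0 := by
  obtain ⟨m, rfl⟩ : ∃ m : ℕ, k = -(m : ℤ) := ⟨(-k).toNat, by omega⟩
  rw [Bt_neg, hbig (m : ℤ) h x (by omega), map_zero, mul_zero]

theorem FinA_dd_low (I : ID) (M : ℕ)
    (hbig : ∀ (k : ℤ) (h : ℝ) (x : V2), (M : ℤ) < k → Bt I h k x = 0)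
    (k : ℤ) (hk : k < -(M : ℤ)) (h : ℝ) (x : V2) : dd I.al (Bt I h k) x = 0 :=
  Build_dd_zero I.al (fun y => FinA_Bt_low I M hbig k hk h y) x

/-- the recursion of `A` for large index -/
theorem FinA_sum (I : ID) (N : ℕ) (hN : I.n = 2 * N) (V : Uni I) (M : ℕ) (_hMN : M ≤ N)
    (hbig : ∀ (k : ℤ) (h : ℝ) (x : V2), (M : ℤ) < k → Bt I h k x = 0)
    (x : V2) (h : ℝ) (s : ℕ) :
    ∑ k ∈ Finset.range (2 * M + 1), (((k : ℂ) - M) * Bt I h ((k : ℤ) - M) x) * V.A (k + s) h x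
      = 0 := by
  have h1 := V.rel h (-(M : ℤ) - 1 - s) x (s + ((2 * M + 1) + (I.n - M))) (by
    rw [hN]
    omega)
  rw [FinA_dd_low I M hbig _ (by omega), Finset.sum_range_add, Finset.sum_range_add] at h1
  have h2 : ∑ j ∈ Finset.range s, (((-(M : ℤ) - 1 - s : ℤ) : ℂ) + j + 1) *
      Bt I h (-(M : ℤ) - 1 - s + j + 1) x * V.A j h x = 0 := by
    refine Finset.sum_eq_zero fun j hj => ?_
    rw [Finset.mem_range] at hj
    rw [FinA_Bt_low I M hbig _ (by omega), mul_zero, zero_mul]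
  have h3 : ∑ j ∈ Finset.range (I.n - M),
      (((-(M : ℤ) - 1 - s : ℤ) : ℂ) + ((s + (2 * M + 1 + j) : ℕ) : ℂ) + 1) *
      Bt I h (-(M : ℤ) - 1 - s + ((s + (2 * M + 1 + j) : ℕ) : ℤ) + 1) x *
        V.A (s + (2 * M + 1 + j)) h x = 0 := by
    refine Finset.sum_eq_zero fun j _ => ?_
    rw [hbig _ h x (by push_cast; omega), mul_zero, zero_mul]
  rw [h2, h3, zero_add, add_zero] at h1
  rw [h1]
  refine Finset.sum_congr rfl fun k _ => ?_
  have e1 : -(M : ℤ) - 1 - s + ((s + k : ℕ) : ℤ) + 1 = (k : ℤ) - M := by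
    push_cast
    ring
  rw [e1, add_comm s k]
  congr 2
  push_cast
  ring

theorem FinA_good (I : ID) (pa : ℂ[X]) (hpa : pa ≠ 0) (x : V2) :
    {h : ℝ | pa.eval (h : ℂ) ≠ 0 ∧ I.ell h x ≠ 0}.Infinite := by
  have h1 : {h : ℝ | pa.eval (h : ℂ) = 0}.Finite := by
    have h2 : ({z : ℂ | pa.IsRoot z}).Finite := Polynomial.finite_setOfPred_isRoot hpa
    exact h2.preimage (Complex.ofReal_injective.injOn)
  have h3 : {h : ℝ | I.ell h x = 0}.Finite := by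
    refine (Set.finite_singleton (I.U x)).subset ?_
    intro h hh
    have h4 : (h - I.U x) / I.mu x = 0 := hh
    have h5 := (I.mupos x).ne'
    rw [div_eq_zero_iff] at h4
    rcases h4 with h4 | h4
    · exact sub_eq_zero.mp h4
    · exact absurd h4 h5
  have h6 : {h : ℝ | pa.eval (h : ℂ) ≠ 0 ∧ I.ell h x ≠ 0} =
      ({h : ℝ | pa.eval (h : ℂ) = 0} ∪ {h : ℝ | I.ell h x = 0})ᶜ := by
    ext h
    simp only [Set.mem_ofPred_eq, Set.mem_compl_iff, Set.mem_union, not_or, ne_eq]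
  rw [h6]
  exact (h1.union h3).infinite_compl

/-- TASK FinA (2).  `A_{j+2} = θ l² A_j` for all `j`, if this holds for large `j`.

Proof.  It is enough to prove it for good `h` (`pa.eval h ≠ 0`, `l = ell h x ≠ 0`; infinitely many)
and then use `HP.ext_at` (`A_{j+2}`, `l² A_j` are in `HP (j+3)`).  For such `h`, `V.rel` with
`m ≤ -M-1` (`m = -M-1-s`, `s : ℕ`) reads `0 = ∑_j (m+j+1) Bt (m+j+1) A_j`: only the indices
`-M ≤ m+j+1 ≤ M` contribute (`hbig`, `Bt_neg`), i.e. with `k' = m + j + 1 + M`, `j = k' + s`: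
`∑_{k'=0}^{2M} (k'-M) Bt (k'-M) A_{k'+s} = 0`.  The sequence `δ_j = A_{j+2} - θ l² A_j` satisfies the
same recursion (take `s + 2`), `γ_0 = -M Bt(-M) = -M l^(2M) conj(pa h) ≠ 0`, and `δ_j = 0` for large
`j`.  So `back_rec` applies. -/
theorem A_rec (I : ID) (N : ℕ) (hN : I.n = 2 * N) (V : Uni I) (M : ℕ) (pa : ℂ[X])
    (hM : 1 ≤ M) (hMN : M ≤ N) (hpa : pa ≠ 0)
    (htop : ∀ (h : ℝ) (x : V2), Bt I h M x = pa.eval (h : ℂ))
    (hbig : ∀ (k : ℤ) (h : ℝ) (x : V2), (M : ℤ) < k → Bt I h k x = 0)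
    (x : V2) (θ : ℂ) (K : ℕ)
    (hK : ∀ j, K ≤ j → ∀ h : ℝ, V.A (j + 2) h x = θ * (I.ell h x : ℂ) ^ 2 * V.A j h x) :
    ∀ j (h : ℝ), V.A (j + 2) h x = θ * (I.ell h x : ℂ) ^ 2 * V.A j h x := by
  intro j
  have hg : HP (2 + (j + 1)) (fun h x => θ * (I.ell h x : ℂ) ^ 2 * V.A j h x) :=
    ((HPops_pow I 2).smul θ).mul (V.AHP j)
  have hf : HP (2 + (j + 1)) (V.A (j + 2)) := HP.mono (by omega) (V.AHP (j + 2))
  refine HP.ext_at hf hg x _ (FinA_good I pa hpa x) ?_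
  rintro h ⟨h1, h2⟩
  have h3 := back_rec M (fun k => ((k : ℂ) - M) * Bt I h ((k : ℤ) - M) x) (by
    have e1 : (((0 : ℕ) : ℤ) - (M : ℤ)) = -(M : ℤ) := by simp
    rw [e1, Bt_neg, htop]
    have hM0 : (M : ℂ) ≠ 0 := Nat.cast_ne_zero.mpr (by omega)
    refine mul_ne_zero ?_ (mul_ne_zero ?_ ?_)
    · rw [Nat.cast_zero, zero_sub]
      exact neg_ne_zero.mpr hM0
    · exact pow_ne_zero _ (Complex.ofReal_ne_zero.mpr h2)
    · exact (_root_.map_ne_zero _).mpr h1)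
    (fun j => V.A (j + 2) h x - θ * (I.ell h x : ℂ) ^ 2 * V.A j h x) (by
      intro s
      have h4 := FinA_sum I N hN V M hMN hbig x h s
      have h5 := FinA_sum I N hN V M hMN hbig x h (s + 2)
      have h6 : ∑ k ∈ Finset.range (2 * M + 1), (((k : ℂ) - M) * Bt I h ((k : ℤ) - M) x) *
          (V.A (k + s + 2) h x - θ * (I.ell h x : ℂ) ^ 2 * V.A (k + s) h x) =
        ∑ k ∈ Finset.range (2 * M + 1), (((k : ℂ) - M) * Bt I h ((k : ℤ) - M) x) *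
          V.A (k + (s + 2)) h x - θ * (I.ell h x : ℂ) ^ 2 *
          ∑ k ∈ Finset.range (2 * M + 1), (((k : ℂ) - M) * Bt I h ((k : ℤ) - M) x) *
            V.A (k + s) h x := by
        rw [Finset.mul_sum, ← Finset.sum_sub_distrib]
        refine Finset.sum_congr rfl fun k _ => ?_
        rw [← add_assoc]
        ring
      rw [h6, h4, h5, mul_zero, sub_zero]) K (by
      intro j hj
      rw [hK j hj h, sub_self]) j
  exact sub_eq_zero.mp h3

/-- `dd (Bt m) = (m+1) Bt (m+1) A_0 + (m+2) Bt (m+2) A_1 + θ l² dd (Bt (m+2))`. -/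
theorem FinA_S (I : ID) (V : Uni I) (x : V2) (θ : ℂ) (h : ℝ)
    (hrec : ∀ j, V.A (j + 2) h x = θ * (I.ell h x : ℂ) ^ 2 * V.A j h x) (m : ℤ) :
    dd I.al (Bt I h m) x = ((m : ℂ) + 1) * Bt I h (m + 1) x * V.A 0 h x
      + ((m : ℂ) + 2) * Bt I h (m + 2) x * V.A 1 h x
      + θ * (I.ell h x : ℂ) ^ 2 * dd I.al (Bt I h (m + 2)) x := by
  obtain ⟨K, hK⟩ : ∃ K : ℕ, (I.n : ℤ) ≤ m + K := ⟨((I.n : ℤ) - m).toNat, by omega⟩
  rw [V.rel h m x (K + 1 + 1) (by push_cast; omega), V.rel h (m + 2) x K (by omega),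
    Finset.sum_range_succ', Finset.sum_range_succ', Finset.mul_sum]
  have e : ∀ k ∈ Finset.range K, ((m : ℂ) + ((k + 1 + 1 : ℕ) : ℂ) + 1) *
      Bt I h (m + ((k + 1 + 1 : ℕ) : ℤ) + 1) x * V.A (k + 1 + 1) h x =
      θ * (I.ell h x : ℂ) ^ 2 * (((((m + 2 : ℤ) : ℂ)) + k + 1) * Bt I h (m + 2 + k + 1) x *
        V.A k h x) := by
    intro k _
    have e1 : m + ((k + 1 + 1 : ℕ) : ℤ) + 1 = m + 2 + k + 1 := by
      push_cast
      ring
    have e2 : (m : ℂ) + ((k + 1 + 1 : ℕ) : ℂ) + 1 = (((m + 2 : ℤ) : ℂ)) + k + 1 := by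
      push_cast
      ring
    rw [e1, e2, show k + 1 + 1 = k + 2 from rfl, hrec k]
    ring
  rw [Finset.sum_congr rfl e]
  have e3 : m + ((0 + 1 : ℕ) : ℤ) + 1 = m + 2 := by
    push_cast
    ring
  have e4 : m + ((0 : ℕ) : ℤ) + 1 = m + 1 := by simp
  rw [e3, e4]
  push_cast
  ring

theorem FinA_ofReal_diff (I : ID) (h : ℝ) (x : V2) :
    DifferentiableAt ℝ (fun y => (I.ell h y : ℂ)) x :=
  BetaA_diff (I.ell_smooth h) x

/-- `dd (Bt (-k)) = 2k l^(2k-1) dd l conj (Bt k) + l^(2k) conj (db (Bt k))`. -/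
theorem FinA_dd_neg (I : ID) (h : ℝ) (k : ℕ) (x : V2) :
    dd I.al (Bt I h (-(k : ℤ))) x = ((2 * k : ℕ) : ℂ) * (I.ell h x : ℂ) ^ (2 * k - 1)
        * ddr I.al (I.ell h) x * (starRingEnd ℂ) (Bt I h k x)
      + (I.ell h x : ℂ) ^ (2 * k) * (starRingEnd ℂ) (dd (cj I.al) (Bt I h k) x) := by
  have h1 : Bt I h (-(k : ℤ)) = fun y => (I.ell h y : ℂ) ^ (2 * k) *
      (starRingEnd ℂ) (Bt I h k y) := by
    funext y
    exact Bt_neg I h k y
  have hB : DifferentiableAt ℝ (Bt I h k) x :=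
    ((Bt_smooth I h k).differentiable (by simp)).differentiableAt
  have hcB : DifferentiableAt ℝ (fun y => (starRingEnd ℂ) (Bt I h k y)) x :=
    (Complex.conjCLE : ℂ →L[ℝ] ℂ).differentiableAt.comp x hB
  have hcj : cj (cj I.al) = I.al := by
    funext i
    unfold cj
    exact Complex.conj_conj _
  have h2 : dd I.al (fun y => (starRingEnd ℂ) (Bt I h k y)) x =
      (starRingEnd ℂ) (dd (cj I.al) (Bt I h k) x) := by
    have h3 := dd_conj (cj I.al) (f := Bt I h k) (x := x) hB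
    rw [hcj] at h3
    exact h3
  rw [h1, dd_mul I.al ((FinA_ofReal_diff I h x).fun_pow (2 * k)) hcB, h2,
    dd_pow I.al (FinA_ofReal_diff I h x) (2 * k)]
  rfl

/-- TASK FinA (3).  The values of `A_1` and `A_0`.

Proof.  Again it is enough to prove it for good `h` with `l ≠ 0`.  Put
`S_m = ∑_{j} (m+j+1) Bt (m+j+1) A_j = dd (Bt m)` (`V.rel`, large `K`).  Because of the recursion
`S_m = (m+1) Bt(m+1) A_0 + (m+2) Bt(m+2) A_1 + θ l² S_{m+2}`.
`m = -M-2`: `dd Bt(-M-2) = 0`, `Bt(-M-1) = 0`, so `0 = -M Bt(-M) A_1 + θ l² dd Bt(-M)`, where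
`Bt(-M) = l^(2M) conj a`, `a = pa h` constant in `x`, `dd Bt(-M) = 2 M l^(2M-1) dd l conj a`; so
`A_1 = 2 θ l dd l`.
`m = -M-1`: `0 = -M Bt(-M) A_0 - (M-1) Bt(-(M-1)) A_1 + θ l² dd Bt(-(M-1))`, where
`Bt(-(M-1)) = l^(2M-2) conj Bt(M-1)`,
`dd Bt(-(M-1)) = (2M-2) l^(2M-3) dd l conj Bt(M-1) + l^(2M-2) conj (db Bt(M-1))` (`dd_conj`), and
`db Bt(M-1) = - 2 M a dd l` (`Bt_trans` with `k = M-1`, `dd Bt(M) = 0`), so
`conj (db Bt(M-1)) = - 2 M conj(a) db l` (`ddr_conj`).  With the value of `A_1` the terms with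
`Bt(M-1)` cancel and `A_0 = - 2 θ db l`. (For `M = 1`: the term `(2M-2) l^(2M-3)` is `0`.) -/
theorem A_01 (I : ID) (N : ℕ) (hN : I.n = 2 * N) (V : Uni I) (M : ℕ) (pa : ℂ[X])
    (hM : 1 ≤ M) (hMN : M ≤ N) (hpa : pa ≠ 0)
    (htop : ∀ (h : ℝ) (x : V2), Bt I h M x = pa.eval (h : ℂ))
    (hbig : ∀ (k : ℤ) (h : ℝ) (x : V2), (M : ℤ) < k → Bt I h k x = 0)
    (x : V2) (θ : ℂ)
    (hrec : ∀ j (h : ℝ), V.A (j + 2) h x = θ * (I.ell h x : ℂ) ^ 2 * V.A j h x) :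
    ∀ h : ℝ, V.A 1 h x = 2 * θ * (I.ell h x : ℂ) * ddr I.al (I.ell h) x ∧
      V.A 0 h x = -2 * θ * ddr (cj I.al) (I.ell h) x := by
  obtain ⟨m, rfl⟩ : ∃ m, M = m + 1 := ⟨M - 1, by omega⟩
  have key : ∀ h ∈ {h : ℝ | pa.eval (h : ℂ) ≠ 0 ∧ I.ell h x ≠ 0},
      V.A 1 h x = 2 * θ * (I.ell h x : ℂ) * ddr I.al (I.ell h) x ∧
      V.A 0 h x = -2 * θ * ddr (cj I.al) (I.ell h) x := by
    rintro h ⟨ha, hl⟩
    have hl' : (I.ell h x : ℂ) ≠ 0 := Complex.ofReal_ne_zero.mpr hl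
    have ha' : (starRingEnd ℂ) (pa.eval (h : ℂ)) ≠ 0 := (_root_.map_ne_zero _).mpr ha
    have hm : ((m : ℂ) + 1) ≠ 0 := Nat.cast_add_one_ne_zero m
    have hr : ∀ j, V.A (j + 2) h x = θ * (I.ell h x : ℂ) ^ 2 * V.A j h x := fun j => hrec j h
    -- derivatives of the top coefficient
    have hconst : Bt I h ((m + 1 : ℕ) : ℤ) = fun _ => pa.eval (h : ℂ) := by
      funext y
      exact htop h y
    have hd1 : ∀ a : Fin 2 → ℂ, dd a (Bt I h ((m + 1 : ℕ) : ℤ)) x = 0 := by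
      intro a
      rw [hconst]
      exact BetaA_const a _ x
    have hT := Bt_trans I h (m : ℤ) x
    have e0 : ((m : ℤ) + 1) = ((m + 1 : ℕ) : ℤ) := by push_cast; ring
    rw [e0, hd1, htop, mul_zero, add_zero] at hT
    -- first relation
    have hS1 := FinA_S I V x θ h hr (-((m + 1 : ℕ) : ℤ) - 2)
    rw [FinA_dd_low I (m + 1) hbig _ (by omega),
      FinA_Bt_low I (m + 1) hbig (-((m + 1 : ℕ) : ℤ) - 2 + 1) (by omega),
      show -((m + 1 : ℕ) : ℤ) - 2 + 2 = -((m + 1 : ℕ) : ℤ) by ring, FinA_dd_neg, Bt_neg, hd1,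
      map_zero, mul_zero, mul_zero, zero_mul, add_zero, zero_add, htop] at hS1
    have hS2 := FinA_S I V x θ h hr (-((m + 1 : ℕ) : ℤ) - 1)
    rw [FinA_dd_low I (m + 1) hbig _ (by omega),
      show -((m + 1 : ℕ) : ℤ) - 1 + 1 = -((m + 1 : ℕ) : ℤ) by ring,
      show -((m + 1 : ℕ) : ℤ) - 1 + 2 = -(m : ℤ) by push_cast; ring, FinA_dd_neg, Bt_neg, Bt_neg,
      htop] at hS2
    have hT' : dd (cj I.al) (Bt I h (m : ℤ)) x =
        -(2 * ((m : ℂ) + 1) * ddr I.al (I.ell h) x * pa.eval (h : ℂ)) := by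
      push_cast at hT
      linear_combination hT
    have hcj : (starRingEnd ℂ) (ddr I.al (I.ell h) x) = ddr (cj I.al) (I.ell h) x :=
      (ddr_conj I.al (((I.ell_smooth h).differentiable (by simp)).differentiableAt)).symm
    have hT2 : (starRingEnd ℂ) (dd (cj I.al) (Bt I h (m : ℤ)) x) =
        -(2 * ((m : ℂ) + 1) * ddr (cj I.al) (I.ell h) x * (starRingEnd ℂ) (pa.eval (h : ℂ))) := by
      rw [hT', map_neg, map_mul, map_mul, map_mul, hcj, map_add, map_one, Complex.conj_natCast]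
      congr 4
      exact Complex.conj_ofNat 2
    rw [hT2] at hS2
    have hA1 : V.A 1 h x = 2 * θ * (I.ell h x : ℂ) * ddr I.al (I.ell h) x := by
      have h1 : ((m : ℂ) + 1) * (I.ell h x : ℂ) ^ (2 * (m + 1)) *
          (starRingEnd ℂ) (pa.eval (h : ℂ)) * (V.A 1 h x -
            2 * θ * (I.ell h x : ℂ) * ddr I.al (I.ell h) x) = 0 := by
        have e1 : (I.ell h x : ℂ) ^ (2 * (m + 1)) = (I.ell h x : ℂ) ^ (2 * m) *
          (I.ell h x : ℂ) ^ 2 := by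
          rw [← pow_add, Nat.mul_add, Nat.mul_one]
        have e2 : (I.ell h x : ℂ) ^ (2 * (m + 1) - 1) = (I.ell h x : ℂ) ^ (2 * m) *
          (I.ell h x : ℂ) := by
          rw [← pow_succ]
          rfl
        rw [e1, e2] at hS1
        rw [e1]
        push_cast at hS1
        linear_combination hS1
      have h2 : ((m : ℂ) + 1) * (I.ell h x : ℂ) ^ (2 * (m + 1)) *
          (starRingEnd ℂ) (pa.eval (h : ℂ)) ≠ 0 :=
        mul_ne_zero (mul_ne_zero hm (pow_ne_zero _ hl')) ha'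
      exact sub_eq_zero.mp ((mul_eq_zero.mp h1).resolve_left h2)
    refine ⟨hA1, ?_⟩
    rw [hA1] at hS2
    have e3 : ((2 * m : ℕ) : ℂ) * (I.ell h x : ℂ) ^ (2 * m - 1) * (I.ell h x : ℂ) =
        ((2 * m : ℕ) : ℂ) * (I.ell h x : ℂ) ^ (2 * m) := by
      rcases m with _ | m
      · simp
      · rw [mul_assoc, ← pow_succ]
        congr 2
    have h1 : ((m : ℂ) + 1) * (I.ell h x : ℂ) ^ (2 * m) * (I.ell h x : ℂ) ^ 2 *
        (starRingEnd ℂ) (pa.eval (h : ℂ)) * (V.A 0 h x -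
          (-2 * θ * ddr (cj I.al) (I.ell h) x)) = 0 := by
      have e1 : (I.ell h x : ℂ) ^ (2 * (m + 1)) = (I.ell h x : ℂ) ^ (2 * m) *
        (I.ell h x : ℂ) ^ 2 := by
        rw [← pow_add, Nat.mul_add, Nat.mul_one]
      rw [e1] at hS2
      push_cast at hS2 e3
      linear_combination hS2 + θ * (I.ell h x : ℂ) * ddr I.al (I.ell h) x *
        (starRingEnd ℂ) (Bt I h m x) * e3
    have h2 : ((m : ℂ) + 1) * (I.ell h x : ℂ) ^ (2 * m) * (I.ell h x : ℂ) ^ 2 *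
        (starRingEnd ℂ) (pa.eval (h : ℂ)) ≠ 0 :=
      mul_ne_zero (mul_ne_zero (mul_ne_zero hm (pow_ne_zero _ hl')) (pow_ne_zero _ hl')) ha'
    exact sub_eq_zero.mp ((mul_eq_zero.mp h1).resolve_left h2)
  intro h
  constructor
  · refine HP.ext_at (f := V.A 1) (g := fun h x => 2 * θ * (I.ell h x : ℂ) *
      ddr I.al (I.ell h) x) (m := 1 + 1) (V.AHP 1)
      (((HP.ell I).smul (2 * θ)).mul (HP.ddr_ell I I.al)) x _ (FinA_good I pa hpa x)
      (fun t ht => (key t ht).1) h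
  · refine HP.ext_at (f := V.A 0) (g := fun h x => -2 * θ * ddr (cj I.al) (I.ell h) x)
      (m := 0 + 1) (V.AHP 0) ((HP.ddr_ell I (cj I.al)).smul (-2 * θ)) x _
      (FinA_good I pa hpa x) (fun t ht => (key t ht).2) h

end Pool.W4b1b5d.E
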