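import Pool.Agent.W_4b1b5d_h78.RedE

set_option autoImplicit false

namespace Pool.W4b1b5d.E

open Pool.W4b1b5d.H3 Pool.Agent.U4b

/-- The quadratic integral `K = 2 Re(k P²) + w1 H + w0` as a polynomial in the momenta. -/
noncomputable def KF (G : Matrix (Fin 2) (Fin 2) ℝ) (al : Fin 2 → ℂ) (mu U : V2 → ℝ) (k : ℂ)
    (w1 w0 : V2 → ℝ) (x : V2) : MvPolynomial (Fin 2) ℝ :=
  (∑ i, ∑ j, MvPolynomial.C (2 * (k * al i * al j).re) * MvPolynomial.X i * MvPolynomial.X j)
    + MvPolynomial.C (w1 x) * (MvPolynomial.C (mu x / 2)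
        * (∑ i, ∑ j, MvPolynomial.C (G i j) * MvPolynomial.X i * MvPolynomial.X j)
        + MvPolynomial.C (U x))
    + MvPolynomial.C (w0 x)

theorem OutQ_PC (al : Fin 2 → ℂ) (p : V2) :
    PC al p = al 0 * (p 0 : ℂ) + al 1 * (p 1 : ℂ) := by
  simp [PC, Fin.sum_univ_two]

/-- TASK OutQ (1).  The value. -/
theorem KF_eval (G : Matrix (Fin 2) (Fin 2) ℝ) (al : Fin 2 → ℂ) (mu U : V2 → ℝ) (k : ℂ)
    (w1 w0 : V2 → ℝ) (x p : V2) :
    MvPolynomial.eval p (KF G al mu U k w1 w0 x) =
      2 * (k * PC al p ^ 2).re + w1 x * Ham (fun x => mu x • G) U x p + w0 x := by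
  simp only [KF, Ham, map_add, map_mul, MvPolynomial.eval_C, MvPolynomial.eval_X,
    Fin.sum_univ_two, OutQ_PC, Matrix.smul_apply, smul_eq_mul]
  simp only [pow_two, Complex.add_re, Complex.mul_re, Complex.mul_im, Complex.add_im,
    Complex.ofReal_re, Complex.ofReal_im]
  ring

/-- TASK OutQ (2).  Degree at most two. -/
theorem KF_deg (G : Matrix (Fin 2) (Fin 2) ℝ) (al : Fin 2 → ℂ) (mu U : V2 → ℝ) (k : ℂ)
    (w1 w0 : V2 → ℝ) (x : V2) : (KF G al mu U k w1 w0 x).totalDegree ≤ 2 := by
  have hC : ∀ c : ℝ, (MvPolynomial.C c : MvPolynomial (Fin 2) ℝ).totalDegree = 0 :=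
    fun c => MvPolynomial.totalDegree_C c
  have hX : ∀ i : Fin 2, (MvPolynomial.X i : MvPolynomial (Fin 2) ℝ).totalDegree = 1 :=
    fun i => MvPolynomial.totalDegree_X i
  have hm : ∀ (c : ℝ) (i j : Fin 2), (MvPolynomial.C c * MvPolynomial.X i * MvPolynomial.X j :
      MvPolynomial (Fin 2) ℝ).totalDegree ≤ 2 := by
    intro c i j
    refine (MvPolynomial.totalDegree_mul _ _).trans ?_
    have h := MvPolynomial.totalDegree_mul (MvPolynomial.C c : MvPolynomial (Fin 2) ℝ)
      (MvPolynomial.X i)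
    rw [hC, hX] at h
    rw [hX]
    omega
  have hs : ∀ c : Fin 2 → Fin 2 → ℝ, (∑ i, ∑ j, MvPolynomial.C (c i j) * MvPolynomial.X i *
      MvPolynomial.X j : MvPolynomial (Fin 2) ℝ).totalDegree ≤ 2 := by
    intro c
    refine MvPolynomial.totalDegree_finsetSum_le fun i _ => ?_
    exact MvPolynomial.totalDegree_finsetSum_le fun j _ => hm _ _ _
  unfold KF
  refine (MvPolynomial.totalDegree_add _ _).trans (max_le ?_ (by rw [hC]; omega))
  refine (MvPolynomial.totalDegree_add _ _).trans (max_le (hs _) ?_)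
  refine (MvPolynomial.totalDegree_mul _ _).trans ?_
  rw [hC, zero_add]
  refine (MvPolynomial.totalDegree_add _ _).trans (max_le ?_ (by rw [hC]; omega))
  refine (MvPolynomial.totalDegree_mul _ _).trans ?_
  rw [hC, zero_add]
  exact hs _

/-- auxiliary: the kinetic energy in the complex momentum -/
theorem OutQ_ham (G : Matrix (Fin 2) (Fin 2) ℝ) (al : Fin 2 → ℂ)
    (hal : ∀ i j, ((G i j : ℝ) : ℂ)
        = al i * (starRingEnd ℂ) (al j) + al j * (starRingEnd ℂ) (al i))
    (mu U : V2 → ℝ) (x p : V2) :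
    Ham (fun x => mu x • G) U x p = mu x * Complex.normSq (PC al p) + U x := by
  have hG : ∀ i j, G i j = 2 * ((al i).re * (al j).re + (al i).im * (al j).im) := by
    intro i j
    have h := congrArg Complex.re (hal i j)
    simp only [Complex.ofReal_re, Complex.add_re, Complex.mul_re, Complex.conj_re,
      Complex.conj_im] at h
    rw [h]
    ring
  simp only [Ham, Fin.sum_univ_two, Matrix.smul_apply, smul_eq_mul, OutQ_PC, hG,
    Complex.normSq_apply, Complex.add_re, Complex.mul_re, Complex.mul_im, Complex.add_im,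
    Complex.ofReal_re, Complex.ofReal_im]
  ring

theorem OutQ_surj (al : Fin 2 → ℂ) (hal : ((starRingEnd ℂ) (al 0) * al 1).im ≠ 0) (P : ℂ) :
    ∃ p : V2, PC al p = P := by
  have hδ : (al 0).re * (al 1).im - (al 0).im * (al 1).re ≠ 0 := by
    intro h
    apply hal
    simp only [Complex.mul_im, Complex.conj_re, Complex.conj_im]
    linarith
  set δ := (al 0).re * (al 1).im - (al 0).im * (al 1).re with hd
  refine ⟨![(P.re * (al 1).im - P.im * (al 1).re) / δ,
    ((al 0).re * P.im - (al 0).im * P.re) / δ], ?_⟩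
  rw [OutQ_PC]
  apply Complex.ext
  · simp only [Matrix.cons_val_zero, Matrix.cons_val_one, Complex.add_re, Complex.mul_re,
      Complex.ofReal_re, Complex.ofReal_im, mul_zero, sub_zero]
    field_simp
    rw [hd]
    ring
  · simp only [Matrix.cons_val_zero, Matrix.cons_val_one, Complex.add_im, Complex.mul_im,
      Complex.ofReal_re, Complex.ofReal_im, mul_zero, zero_add]
    field_simp
    rw [hd]
    ring

/-- TASK OutQ (3).  It is not a polynomial in `H` if `k ≠ 0`.

Proof.  Suppose `K = q(H)`.  Fix `x = 0` (say), `m = mu 0 > 0`, `u = U 0`, and use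
`½ ∑ G_ij p_i p_j = |P|²`, `P = PC al p` (all complex numbers `P` occur: `p ↦ PC al p` is onto because
`Im(conj(al 0) al 1) ≠ 0`): `2 Re(k P²) + w1 (m |P|² + u) + w0 = q(m |P|² + u)` for all `P ∈ ℂ`.
Replace `P` by `i P`: the right side and the other terms do not change, `Re(k P²)` changes sign, so
`Re(k P²) = 0` for all `P`, i.e. `k = 0`. -/
theorem KF_ne (G : Matrix (Fin 2) (Fin 2) ℝ) (al : Fin 2 → ℂ)
    (hal0 : ((starRingEnd ℂ) (al 0) * al 1).im ≠ 0)
    (hal : ∀ i j, ((G i j : ℝ) : ℂ)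
        = al i * (starRingEnd ℂ) (al j) + al j * (starRingEnd ℂ) (al i))
    (mu U : V2 → ℝ) (k : ℂ) (hk : k ≠ 0) (w1 w0 : V2 → ℝ) :
    ¬ ∃ q : Polynomial ℝ, ∀ x p, MvPolynomial.eval p (KF G al mu U k w1 w0 x)
      = q.eval (Ham (fun x => mu x • G) U x p) := by
  rintro ⟨q, hq⟩
  have key : ∀ P : ℂ, (k * P ^ 2).re = 0 := by
    intro P
    obtain ⟨p, hp⟩ := OutQ_surj al hal0 P
    obtain ⟨p', hp'⟩ := OutQ_surj al hal0 (Complex.I * P)
    have h1 := hq 0 p
    have h2 := hq 0 p'
    rw [KF_eval, OutQ_ham G al hal, hp] at h1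
    rw [KF_eval, OutQ_ham G al hal, hp'] at h2
    have e1 : Complex.normSq (Complex.I * P) = Complex.normSq P := by
      rw [map_mul, Complex.normSq_I, one_mul]
    have e2 : k * (Complex.I * P) ^ 2 = - (k * P ^ 2) := by
      rw [mul_pow, Complex.I_sq]
      ring
    rw [e1, e2, Complex.neg_re] at h2
    linarith
  apply hk
  have k1 := key 1
  have k2 := key (1 + Complex.I)
  have e3 : k * (1 + Complex.I) ^ 2 = k * (2 * Complex.I) := by
    have : (1 + Complex.I) ^ 2 = 2 * Complex.I := by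
      linear_combination Complex.I_sq
    rw [this]
  rw [e3] at k2
  apply Complex.ext
  · simpa using k1
  · have : (k * (2 * Complex.I)).re = -2 * k.im := by
      simp [Complex.mul_re]
      ring
    rw [this] at k2
    have : k.im = 0 := by linarith
    simpa using this

theorem OutQ_upd (al : Fin 2 → ℂ) (p : V2) (i : Fin 2) (t : ℝ) :
    PC al (Function.update p i t) = PC al p + al i * ((t - p i : ℝ) : ℂ) := by
  rw [OutQ_PC, OutQ_PC]
  fin_cases i
  · simp [Function.update]
    ring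
  · simp [Function.update]
    ring

theorem OutQ_quad (A B C c : ℝ) :
    HasDerivAt (fun t : ℝ => A + B * (t - c) + C * (t - c) ^ 2) B c := by
  have h1 : HasDerivAt (fun t : ℝ => t - c) 1 c := (hasDerivAt_id c).sub_const c
  have h2 := ((h1.const_mul B).const_add A).add ((h1.fun_pow 2).const_mul C)
  have e : B * 1 + C * (((2 : ℕ) : ℝ) * (c - c) ^ (2 - 1) * 1) = B := by simp
  rw [e] at h2
  exact h2

theorem OutQ_dN (al : Fin 2 → ℂ) (p : V2) (i : Fin 2) :
    HasDerivAt (fun t => Complex.normSq (PC al (Function.update p i t)))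
      (2 * ((starRingEnd ℂ) (PC al p) * al i).re) (p i) := by
  have h := OutQ_quad (Complex.normSq (PC al p)) (2 * ((starRingEnd ℂ) (PC al p) * al i).re)
    (Complex.normSq (al i)) (p i)
  refine h.congr_of_eventuallyEq (Filter.Eventually.of_forall fun t => ?_)
  simp only [OutQ_upd, Complex.normSq_apply, Complex.add_re, Complex.mul_re, Complex.mul_im,
    Complex.add_im, Complex.ofReal_re, Complex.ofReal_im, Complex.conj_re, Complex.conj_im]
  ring

theorem OutQ_dA (al : Fin 2 → ℂ) (k : ℂ) (p : V2) (i : Fin 2) :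
    HasDerivAt (fun t => (k * PC al (Function.update p i t) ^ 2).re)
      (2 * (k * PC al p * al i).re) (p i) := by
  have h := OutQ_quad (k * PC al p ^ 2).re (2 * (k * PC al p * al i).re)
    (k * al i ^ 2).re (p i)
  refine h.congr_of_eventuallyEq (Filter.Eventually.of_forall fun t => ?_)
  simp only [OutQ_upd, pow_two, Complex.add_re, Complex.mul_re, Complex.mul_im,
    Complex.add_im, Complex.ofReal_re, Complex.ofReal_im]
  ring

theorem OutQ_dX {g : V2 → ℝ} (hg : ContDiff ℝ (⊤ : ℕ∞) g) (x : V2) (i : Fin 2) :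
    HasDerivAt (fun t => g (Function.update x i t)) (pd i g x) (x i) := by
  have h1 : HasDerivAt (fun t => Function.update x i t) (Pi.single i (1 : ℝ)) (x i) :=
    hasDerivAt_update x i (x i)
  have h2 : HasFDerivAt g (fderiv ℝ g x) (Function.update x i (x i)) := by
    rw [Function.update_eq_self]
    exact (hg.differentiable (by simp)).differentiableAt.hasFDerivAt
  exact HasFDerivAt.comp_hasDerivAt (x i) h2 h1

theorem OutQ_sm (P Q : MvPolynomial (Fin 2) ℝ) {w1 w0 mu U : V2 → ℝ}
    (h1 : ContDiff ℝ (⊤ : ℕ∞) w1) (h0 : ContDiff ℝ (⊤ : ℕ∞) w0)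
    (hmu : ContDiff ℝ (⊤ : ℕ∞) mu) (hU : ContDiff ℝ (⊤ : ℕ∞) U) (m : Fin 2 →₀ ℕ) :
    ContDiff ℝ (⊤ : ℕ∞) (fun x => (P + MvPolynomial.C (w1 x) * (MvPolynomial.C (mu x / 2) * Q
      + MvPolynomial.C (U x)) + MvPolynomial.C (w0 x)).coeff m) := by
  have e : (fun x => (P + MvPolynomial.C (w1 x) * (MvPolynomial.C (mu x / 2) * Q
      + MvPolynomial.C (U x)) + MvPolynomial.C (w0 x)).coeff m) = fun x =>
      P.coeff m + w1 x * (mu x / 2 * Q.coeff m + U x * (if 0 = m then 1 else 0))
        + w0 x * (if 0 = m then 1 else 0) := by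
    funext x
    simp only [MvPolynomial.coeff_add, MvPolynomial.coeff_C_mul, MvPolynomial.coeff_C]
    split_ifs <;> simp
  rw [e]
  exact (contDiff_const.add (h1.mul (((hmu.div_const 2).mul contDiff_const).add
    (hU.mul contDiff_const)))).add (h0.mul contDiff_const)

/-- TASK OutQ (4).  It is an integral.

Proof.  Coefficients smooth and periodic, degree bound: `KF_deg`.  The bracket: with
`A(p) = 2 Re(k P²)` and `E = H(x,p)` fixed, `∂_{x_i} K = (∂_i w1) E + w1 ∂_i H + ∂_i w0`,
`∂_{p_i} K = ∂_{p_i} A + w1 ∂_{p_i} H`, so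
`{H,K} = ∑_i [∂_{p_i}H (E ∂_i w1 + ∂_i w0) - ∂_i H ∂_{p_i} A]`.
`∂_{p_i} H = mu ∑_j G_ij p_j = mu (al_i conj P + conj(al_i) P)` and `∂_{p_i} A = 2 Re(2 k P al_i)`,
`∂_i H = |P|² ∂_i mu + ∂_i U`.  Hence
`{H,K} = 2 Re[ mu P (E db w1 + db w0) - 2 k P (|P|² dd mu + dd U) ]`, and by `hK` with `h = E`:
`E db w1 + db w0 = - 2 k dd l`, where `mu dd l = - dd U - l dd mu` (`ID.ddr_ell`) and
`l = ell E x = |P|²`.  So the bracket in `[ ]` is `2 k P (dd U + |P|² dd mu) - 2 k P (...) = 0`. -/
theorem KF_int (G : Matrix (Fin 2) (Fin 2) ℝ) (I : ID)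
    (hal : ∀ i j, ((G i j : ℝ) : ℂ)
        = I.al i * (starRingEnd ℂ) (I.al j) + I.al j * (starRingEnd ℂ) (I.al i))
    (k : ℂ) (w1 w0 : V2 → ℝ) (h1 : ContDiff ℝ (⊤ : ℕ∞) w1) (h0 : ContDiff ℝ (⊤ : ℕ∞) w0)
    (hp1 : Per w1) (hp0 : Per w0)
    (hK : ∀ (h : ℝ) (x : V2),
        (h : ℂ) * ddr (cj I.al) w1 x + ddr (cj I.al) w0 x = -2 * k * ddr I.al (I.ell h) x) :
    Pool.Agent.U4b.IsInt (Ham (fun x => I.mu x • G) I.U) (KF G I.al I.mu I.U k w1 w0) := by
  refine ⟨?_, ?_, ⟨2, fun x => KF_deg G I.al I.mu I.U k w1 w0 x⟩, ?_⟩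
  · intro m
    exact OutQ_sm _ _ h1 h0 I.musm I.Usm m
  · intro x n
    have e1 := hp1 x n
    have e2 := hp0 x n
    have e3 := I.muper x n
    have e4 := I.Uper x n
    simp only [KF, e1, e2, e3, e4]
  · intro x p
    set P := PC I.al p with hP
    set E := Ham (fun x => I.mu x • G) I.U x p with hE
    have hEv : E = I.mu x * Complex.normSq P + I.U x := OutQ_ham G I.al hal I.mu I.U x p
    have a1 : ∀ i, deriv (fun t => Ham (fun x => I.mu x • G) I.U x (Function.update p i t)) (p i)
        = I.mu x * (2 * ((starRingEnd ℂ) P * I.al i).re) := by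
      intro i
      have h := ((OutQ_dN I.al p i).const_mul (I.mu x)).add_const (I.U x)
      have e : (fun t => Ham (fun x => I.mu x • G) I.U x (Function.update p i t)) = fun t =>
          I.mu x * Complex.normSq (PC I.al (Function.update p i t)) + I.U x := by
        funext t
        exact OutQ_ham G I.al hal I.mu I.U x _
      rw [e]
      exact h.deriv
    have a2' : ∀ i, HasDerivAt (fun t => Ham (fun x => I.mu x • G) I.U (Function.update x i t) p)
        (pd i I.mu x * Complex.normSq P + pd i I.U x) (x i) := by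
      intro i
      have h := ((OutQ_dX I.musm x i).mul_const (Complex.normSq P)).add (OutQ_dX I.Usm x i)
      refine h.congr_of_eventuallyEq (Filter.Eventually.of_forall fun t => ?_)
      exact OutQ_ham G I.al hal I.mu I.U _ p
    have a3 : ∀ i, deriv (fun t => MvPolynomial.eval p (KF G I.al I.mu I.U k w1 w0
        (Function.update x i t))) (x i)
        = pd i w1 x * E + w1 x * (pd i I.mu x * Complex.normSq P + pd i I.U x) + pd i w0 x := by
      intro i
      have h := ((((OutQ_dX h1 x i).mul (a2' i))).const_add (2 * (k * P ^ 2).re)).add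
        (OutQ_dX h0 x i)
      have e : (fun t => MvPolynomial.eval p (KF G I.al I.mu I.U k w1 w0
        (Function.update x i t))) = fun t => 2 * (k * P ^ 2).re + w1 (Function.update x i t) *
          Ham (fun x => I.mu x • G) I.U (Function.update x i t) p
          + w0 (Function.update x i t) := by
        funext t
        exact KF_eval G I.al I.mu I.U k w1 w0 _ p
      rw [e]
      have h' := h.deriv
      simp only [Function.update_eq_self] at h'
      exact h'
    have a4 : ∀ i, deriv (fun t => MvPolynomial.eval (Function.update p i t)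
        (KF G I.al I.mu I.U k w1 w0 x)) (p i)
        = 2 * (2 * (k * P * I.al i).re) +
          w1 x * (I.mu x * (2 * ((starRingEnd ℂ) P * I.al i).re)) := by
      intro i
      have h := ((((OutQ_dA I.al k p i).const_mul 2).add
        ((((OutQ_dN I.al p i).const_mul (I.mu x)).add_const (I.U x)).const_mul
          (w1 x))).add_const (w0 x))
      have e : (fun t => MvPolynomial.eval (Function.update p i t)
        (KF G I.al I.mu I.U k w1 w0 x)) = fun t =>
          2 * (k * PC I.al (Function.update p i t) ^ 2).re +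
          w1 x * (I.mu x * Complex.normSq (PC I.al (Function.update p i t)) + I.U x) + w0 x := by
        funext t
        rw [KF_eval, OutQ_ham G I.al hal I.mu I.U x _]
      rw [e]
      exact h.deriv
    simp only [a1, (a2' _).deriv, a3, a4]
    -- the relation
    have hm : I.mu x ≠ 0 := (I.mupos x).ne'
    have hl : I.ell E x = Complex.normSq P := by
      unfold ID.ell
      rw [hEv]
      field_simp
      ring
    have d1 : ∀ {g : V2 → ℝ}, ContDiff ℝ (⊤ : ℕ∞) g → DifferentiableAt ℝ g x := fun hg =>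
      (hg.differentiable (by simp)).differentiableAt
    have hKx := hK E x
    have hel := I.ddr_ell E I.al x
    rw [hl] at hel
    rw [ddr_eq _ (d1 h1), ddr_eq _ (d1 h0)] at hKx
    rw [ddr_eq _ (d1 I.Usm), ddr_eq _ (d1 I.musm)] at hel
    have hC : (I.mu x : ℂ) * ((E : ℂ) * (cj I.al 0 * (pd 0 w1 x : ℂ) + cj I.al 1 * (pd 1 w1 x : ℂ))
        + (cj I.al 0 * (pd 0 w0 x : ℂ) + cj I.al 1 * (pd 1 w0 x : ℂ))) * P
        = 2 * k * P * ((I.al 0 * (pd 0 I.U x : ℂ) + I.al 1 * (pd 1 I.U x : ℂ))
          + ((Complex.normSq P : ℝ) : ℂ) *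
            (I.al 0 * (pd 0 I.mu x : ℂ) + I.al 1 * (pd 1 I.mu x : ℂ))) := by
      linear_combination (I.mu x : ℂ) * P * hKx - 2 * k * P * hel
    have hR := congrArg Complex.re hC
    simp only [cj, Complex.add_re, Complex.mul_re, Complex.mul_im,
      Complex.add_im, Complex.ofReal_re, Complex.ofReal_im, Complex.conj_re, Complex.conj_im,
      Complex.re_ofNat, Complex.im_ofNat] at hR
    simp only [Fin.sum_univ_two, Complex.add_re, Complex.mul_re, Complex.mul_im,
      Complex.add_im, Complex.conj_re, Complex.conj_im]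
    linear_combination 2 * hR

end Pool.W4b1b5d.E
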