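import Pool.Agent.W_4b1b5d_h78.RedE

set_option autoImplicit false

namespace Pool.W4b1b5d.E

open Pool.W4b1b5d.H3 Pool.Agent.U4b

/-- TASK RedF (1).  The square of an integral is an integral (`IsInt`): smoothness and periodicity of
the coefficients of `F x * F x` (`MvPolynomial.coeff_mul`), degree at most `2 N`, and the bracket is a
derivation (`deriv_fun_pow`/`deriv_fun_mul`; the functions `t ↦ eval p (F (update x i t))`,
`t ↦ eval (update p i t) (F x)` are differentiable: `contDiff_eval` in `W_4b1b5d_h76.TrA`). -/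
theorem isInt_sq {H : V2 → V2 → ℝ} {F : V2 → MvPolynomial (Fin 2) ℝ}
    (hF : Pool.Agent.U4b.IsInt H F) : Pool.Agent.U4b.IsInt H (fun x => F x * F x) := by
  obtain ⟨h1, h2, ⟨N, hN⟩, h4⟩ := hF
  refine ⟨CoefSm.mul h1 h1, fun x k => ?_, ⟨N + N, fun x => ?_⟩, fun x p => ?_⟩
  · show F _ * F _ = F x * F x
    rw [h2 x k]
  · exact (MvPolynomial.totalDegree_mul _ _).trans (Nat.add_le_add (hN x) (hN x))
  · have hs := contDiff_eval h1 hN
    have hd1 : ∀ i, DifferentiableAt ℝ
        (fun t => MvPolynomial.eval p (F (Function.update x i t))) (x i) := by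
      intro i
      have h5 : ContDiff ℝ (⊤ : ℕ∞) (fun t : ℝ => ((Function.update x i t, p) : V2 × V2)) :=
        (contDiff_update _ x i).prodMk contDiff_const
      exact (hs.comp h5).differentiable (by simp) (x i)
    have hd2 : ∀ i, DifferentiableAt ℝ
        (fun t => MvPolynomial.eval (Function.update p i t) (F x)) (p i) := by
      intro i
      have h5 : ContDiff ℝ (⊤ : ℕ∞) (fun t : ℝ => ((x, Function.update p i t) : V2 × V2)) :=
        contDiff_const.prodMk (contDiff_update _ p i)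
      exact (hs.comp h5).differentiable (by simp) (p i)
    have e1 : ∀ i, deriv (fun t => MvPolynomial.eval p (F (Function.update x i t)
        * F (Function.update x i t))) (x i) = 2 * MvPolynomial.eval p (F x) *
          deriv (fun t => MvPolynomial.eval p (F (Function.update x i t))) (x i) := by
      intro i
      simp only [map_mul]
      rw [deriv_fun_mul (hd1 i) (hd1 i), Function.update_eq_self]
      ring
    have e2 : ∀ i, deriv (fun t => MvPolynomial.eval (Function.update p i t) (F x * F x)) (p i)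
        = 2 * MvPolynomial.eval p (F x) *
          deriv (fun t => MvPolynomial.eval (Function.update p i t) (F x)) (p i) := by
      intro i
      simp only [map_mul]
      rw [deriv_fun_mul (hd2 i) (hd2 i), Function.update_eq_self]
      ring
    have h6 := h4 x p
    have h7 : ∀ i : Fin 2, (deriv (fun t => H x (Function.update p i t)) (p i) *
        deriv (fun t => MvPolynomial.eval p (F (Function.update x i t)
          * F (Function.update x i t))) (x i) -
      deriv (fun t => H (Function.update x i t) p) (x i) *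
        deriv (fun t => MvPolynomial.eval (Function.update p i t) (F x * F x)) (p i)) =
      2 * MvPolynomial.eval p (F x) * (deriv (fun t => H x (Function.update p i t)) (p i) *
        deriv (fun t => MvPolynomial.eval p (F (Function.update x i t))) (x i) -
      deriv (fun t => H (Function.update x i t) p) (x i) *
        deriv (fun t => MvPolynomial.eval (Function.update p i t) (F x)) (p i)) := by
      intro i
      rw [e1 i, e2 i]
      ring
    rw [Finset.sum_congr rfl fun i _ => h7 i, ← Finset.mul_sum, h6, mul_zero]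

/-- TASK RedF (2).  Reduction: a polynomial integral which is not a polynomial in `H` gives data `ID`
of even degree with some `beta h s ≠ 0`, `s ≥ 1`.

Proof.  Apply `exists_ID` to `F` and to `F * F`.  If one of the two has some `beta h s x ≠ 0` with
`s ≥ 1` we are done.  Otherwise by `poly_of_beta` there are `q1, q2` with
`(F(x,p) + F(x,-p))/2 = q1(H)` and `(F(x,p)² + F(x,-p)²)/2 = q2(H)` for all `x, p`.  At `p = 0`:
`q2(U x) = F(x,0)² = q1(U x)²` for all `x`.  `U` is not constant and continuous, so it takes infinitely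
many values (`IsPreconnected` / intermediate value theorem) and `q2 = q1²`.  Then
`((F(x,p) - F(x,-p))/2)² = q2(H) - q1(H)² = 0` for all `x, p`, so `F(x,p) = q1(H)`: contradiction. -/
theorem exists_ID_even (G : Matrix (Fin 2) (Fin 2) ℝ) (hG : G.PosDef) (mu U : V2 → ℝ)
    (hmu0 : ∀ x, 0 < mu x) (hmu : ContDiff ℝ (⊤ : ℕ∞) mu) (hU : ContDiff ℝ (⊤ : ℕ∞) U)
    (hmuper : Per mu) (hUper : Per U) (hUn : ∃ x y, U x ≠ U y)
    (F : V2 → MvPolynomial (Fin 2) ℝ)
    (hF : Pool.Agent.U4b.IsInt (Ham (fun x => mu x • G) U) F)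
    (hq : ¬ ∃ q : Polynomial ℝ, ∀ x p,
      MvPolynomial.eval p (F x) = q.eval (Ham (fun x => mu x • G) U x p)) :
    ∃ (I : ID) (N : ℕ), I.n = 2 * N ∧ I.U = U ∧ I.mu = mu ∧
      (∀ i j, ((G i j : ℝ) : ℂ)
        = I.al i * (starRingEnd ℂ) (I.al j) + I.al j * (starRingEnd ℂ) (I.al i)) ∧
      ∃ (h : ℝ) (s : ℤ) (x : V2), 1 ≤ s ∧ I.beta h s x ≠ 0 := by
  obtain ⟨I1, N1, hn1, hU1, hm1, ha1, hs1⟩ := exists_ID G hG mu U hmu0 hmu hU hmuper hUper F hF
  by_cases hc1 : ∃ (h : ℝ) (s : ℤ) (x : V2), 1 ≤ s ∧ I1.beta h s x ≠ 0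
  · exact ⟨I1, N1, hn1, hU1, hm1, ha1, hc1⟩
  obtain ⟨I2, N2, hn2, hU2, hm2, ha2, hs2⟩ :=
    exists_ID G hG mu U hmu0 hmu hU hmuper hUper (fun x => F x * F x) (isInt_sq hF)
  by_cases hc2 : ∃ (h : ℝ) (s : ℤ) (x : V2), 1 ≤ s ∧ I2.beta h s x ≠ 0
  · exact ⟨I2, N2, hn2, hU2, hm2, ha2, hc2⟩
  exfalso
  push Not at hc1 hc2
  obtain ⟨q1, hq1⟩ := poly_of_beta G I1 N1 hn1 ha1 (fun h s x hs => hc1 h s x hs)
  obtain ⟨q2, hq2⟩ := poly_of_beta G I2 N2 hn2 ha2 (fun h s x hs => hc2 h s x hs)
  set Hm : V2 → V2 → ℝ := Ham (fun x => mu x • G) U with hHm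
  have k1 : ∀ x p, (MvPolynomial.eval p (F x) + MvPolynomial.eval (-p) (F x)) / 2
      = q1.eval (Hm x p) := by
    intro x p
    have h1 := hq1 x p
    rw [hs1 x p, hU1, hm1] at h1
    exact_mod_cast h1
  have k2 : ∀ x p, (MvPolynomial.eval p (F x) ^ 2 + MvPolynomial.eval (-p) (F x) ^ 2) / 2
      = q2.eval (Hm x p) := by
    intro x p
    have h1 := hq2 x p
    rw [hs2 x p, hU2, hm2] at h1
    simp only [map_mul] at h1
    rw [sq, sq]
    exact_mod_cast h1
  have hH0 : ∀ x, Hm x 0 = U x := by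
    intro x
    rw [hHm]
    unfold Ham
    simp
  have k3 : ∀ x, q2.eval (U x) = (q1 ^ 2).eval (U x) := by
    intro x
    have h1 := k1 x 0
    have h2 := k2 x 0
    rw [neg_zero, hH0] at h1 h2
    rw [Polynomial.eval_pow, ← h1, ← h2]
    ring
  have hinf : (Set.range U).Infinite := by
    obtain ⟨x, y, hxy⟩ := hUn
    have hpc : IsPreconnected (Set.range U) := isPreconnected_range hU.continuous
    have hnt : (Set.range U).Nontrivial := ⟨U x, ⟨x, rfl⟩, U y, ⟨y, rfl⟩, hxy⟩
    exact hpc.infinite_of_nontrivial hnt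
  have k4 : q2 = q1 ^ 2 := by
    refine Polynomial.eq_of_infinite_eval_eq q2 (q1 ^ 2) (hinf.mono ?_)
    rintro _ ⟨x, rfl⟩
    exact k3 x
  apply hq
  refine ⟨q1, fun x p => ?_⟩
  have h1 := k1 x p
  have h2 := k2 x p
  rw [k4, Polynomial.eval_pow, ← h1] at h2
  have h3 : (MvPolynomial.eval p (F x) - MvPolynomial.eval (-p) (F x)) ^ 2 = 0 := by
    nlinarith [h2]
  have h4 : MvPolynomial.eval p (F x) - MvPolynomial.eval (-p) (F x) = 0 := by
    exact pow_eq_zero_iff (two_ne_zero) |>.1 h3
  rw [← h1]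
  linarith

end Pool.W4b1b5d.E
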