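import Pool.Agent.W_4b1b5d_h78.GlueC
import Pool.Agent.W_4b1b5d_h78.RedF
import Pool.Agent.W_4b1b5d_h78.OutQ

set_option autoImplicit false

namespace Pool.W4b1b5d.E

open Pool.W4b1b5d.H3 Pool.Agent.U4b

/-- If one number `θ0` works everywhere, there is a quadratic integral. -/
theorem quad_of_theta0 (G : Matrix (Fin 2) (Fin 2) ℝ) (I : ID)
    (hal : ∀ i j, ((G i j : ℝ) : ℂ)
        = I.al i * (starRingEnd ℂ) (I.al j) + I.al j * (starRingEnd ℂ) (I.al i))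
    (V : Uni I) (θ0 : ℂ) (hθ : ‖θ0‖ = 1) (h0 : ∀ x, GA I V θ0 x) :
    ∃ F : V2 → MvPolynomial (Fin 2) ℝ,
      Pool.Agent.U4b.IsInt (Ham (fun x => I.mu x • G) I.U) F ∧
      (∀ x, (F x).totalDegree ≤ 2) ∧
      ¬ ∃ q : Polynomial ℝ, ∀ x p, MvPolynomial.eval p (F x)
        = q.eval (Ham (fun x => I.mu x • G) I.U x p) := by
  obtain ⟨k, w1, w0, hk, h1, h2, h3, h4, h5⟩ := kcore I V θ0 hθ h0
  exact ⟨KF G I.al I.mu I.U k w1 w0, KF_int G I hal k w1 w0 h1 h2 h3 h4 h5,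
    fun x => KF_deg G I.al I.mu I.U k w1 w0 x, KF_ne G I.al I.hal hal I.mu I.U k hk w1 w0⟩

/-- Part (ii) in isothermal coordinates, for `U` not constant on any nonempty open set. -/
theorem isoII_dense (μ : V2 → ℝ) (G : Matrix (Fin 2) (Fin 2) ℝ) (U : V2 → ℝ)
    (hμ : ContDiff ℝ (⊤ : ℕ∞) μ) (hμ0 : ∀ x, 0 < μ x) (hμp : Per μ) (hG : G.PosDef)
    (hU : ContDiff ℝ (⊤ : ℕ∞) U) (hUp : Per U) (hUn : ∃ x y, U x ≠ U y)
    (hd : ∀ x, x ∈ closure {y : V2 | fderiv ℝ U y ≠ 0}) :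
    PartII (Ham (fun x => μ x • G) U) := by
  rintro ⟨F, n, hF, -, -, -, hq⟩
  obtain ⟨I, N, hN, hIU, hImu, hal, hb⟩ :=
    exists_ID_even G hG μ U hμ0 hμ hU hμp hUp hUn F hF hq
  obtain ⟨V⟩ := exists_uni I N hN hb
  obtain ⟨θ0, hθ, h0⟩ := theta0 I N hN hb V (fun x => by rw [hIU]; exact hd x)
  have h1 := quad_of_theta0 G I hal V θ0 hθ h0
  rw [hIU, hImu] at h1
  exact h1

end Pool.W4b1b5d.E
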