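import Pool.Agent.W_MP_4b1b5d_an.Stmt

set_option autoImplicit false

/-!
# MP_4b1b5d_an, part (ii) for all flat metrics outside countably many conformal classes
-/

namespace Pool.Agent.Results.MP_4b1b5d_an.FlatEven

open Pool.Agent.W_MP_4b1b5d_an

/-- There is a countable set `E` of constant metrics (normalized to determinant 1), not containing any
(normalized) rational metric `Q` with `3 det Q` not a square, such that part (ii) holds for every smooth
nonconstant potential on every flat torus outside `E` (after normalization), and also on the flat tori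
in `E` for the potentials with frequencies on at most three lines. -/
theorem result :
    ∃ E : Set (Matrix (Fin 2) (Fin 2) ℝ), E.Countable ∧
      (∀ Q : Matrix (Fin 2) (Fin 2) ℚ, (Q.map (fun q : ℚ => (q : ℝ))).PosDef →
        ¬ IsSquare (3 * Q.det) →
        (√(Q.map (fun q : ℚ => (q : ℝ))).det)⁻¹ • Q.map (fun q : ℚ => (q : ℝ)) ∉ E) ∧
      ∀ (G : Matrix (Fin 2) (Fin 2) ℝ) (U : (Fin 2 → ℝ) → ℝ) (H : (Fin 2 → ℝ) → (Fin 2 → ℝ) → ℝ)
        (IsInt : ((Fin 2 → ℝ) → MvPolynomial (Fin 2) ℝ) → Prop),
        G.PosDef → Data G U H IsInt → ((√G.det)⁻¹ • G ∉ E ∨ ThreeLines U) → EvenPart H IsInt := by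
  refine ⟨{G : M2 | G.PosDef ∧ G.det = 1 ∧ ¬ C4 G}, c4_countable, ?_, ?_⟩
  · rintro Q hQ hsq ⟨-, -, hC⟩
    exact hC (c4_smul _ hQ _ (inv_pos.mpr (Real.sqrt_pos.mpr (det_pos _ hQ)))
      (c4_rational _ hQ Q (fun i j => rfl) hsq))
  · rintro G U H I hG hD (hE | h3)
    · have hd := det_pos G hG
      have hs : 0 < √G.det := Real.sqrt_pos.mpr hd
      have hG' : ((√G.det)⁻¹ • G).PosDef := hG.smul (inv_pos.mpr hs)
      have hC' : C4 ((√G.det)⁻¹ • G) := by
        by_contra hC
        apply hE
        refine ⟨hG', ?_, hC⟩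
        rw [Matrix.det_smul]
        simp only [Fintype.card_fin]
        rw [inv_pow, Real.sq_sqrt hd.le]
        exact inv_mul_cancel₀ hd.ne'
      have hC : C4 G := by
        have := c4_smul _ hG' (√G.det) hs hC'
        rwa [smul_smul, mul_inv_cancel₀ hs.ne', one_smul] at this
      exact evenPart G U H I hG hD (fun k _ => hC k)
    · exact evenPart G U H I hG hD (c4on_of_threeLines G U h3)

end Pool.Agent.Results.MP_4b1b5d_an.FlatEven
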