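import Pool.Agent.W_MP_4b1b5d_an.Stmt

set_option autoImplicit false

/-!
# MP_4b1b5d_an, part (i) for all flat metrics and all odd degrees
-/

namespace Pool.Agent.Results.MP_4b1b5d_an.FlatOdd

open Pool.Agent.W_MP_4b1b5d_an

/-- For every flat metric on the 2-torus (constant positive definite inverse metric `G` on `ℝ²/ℤ²`) and
every smooth nonconstant potential, a polynomial integral of odd degree forces a linear one. -/
theorem result (G : Matrix (Fin 2) (Fin 2) ℝ) (U : (Fin 2 → ℝ) → ℝ)
    (H : (Fin 2 → ℝ) → (Fin 2 → ℝ) → ℝ)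
    (IsInt : ((Fin 2 → ℝ) → MvPolynomial (Fin 2) ℝ) → Prop)
    (hG : G.PosDef) (hD : Data G U H IsInt) : OddPart IsInt :=
  oddPart G U H IsInt hG hD

end Pool.Agent.Results.MP_4b1b5d_an.FlatOdd
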