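import Pool.Agent.W_4b1b5d_h78.MaxPB

set_option autoImplicit false

namespace Pool.W4b1b5d.E

open Pool.W4b1b5d.H3

/-- `GA τ x`: the relation for `A_0` with the number `τ` holds at `x`. -/
def GA (I : ID) (V : Uni I) (τ : ℂ) (x : V2) : Prop :=
  ∀ h : ℝ, V.A 0 h x = -2 * τ * ddr (cj I.al) (I.ell h) x

/-- The set where the relation holds and some `d ell_h` is not zero (then `τ` is unique). -/
def CS (I : ID) (V : Uni I) (τ : ℂ) : Set V2 :=
  {x | GA I V τ x ∧ ∃ h : ℝ, ddr I.al (I.ell h) x ≠ 0}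

theorem gluea_ne (I : ID) (h : ℝ) (x : V2) : ddr (cj I.al) (I.ell h) x ≠ 0 ↔
    ddr I.al (I.ell h) x ≠ 0 := by
  have hd : DifferentiableAt ℝ (I.ell h) x := (I.ell_smooth h).differentiable (by simp) x
  rw [ddr_conj I.al hd, Ne, map_eq_zero]

theorem gluea_b_smooth (I : ID) (a : Fin 2 → ℂ) (h : ℝ) :
    ContDiff ℝ (⊤ : ℕ∞) (fun x => ddr a (I.ell h) x) :=
  dd_contDiff a (Complex.ofRealCLM.contDiff.comp (I.ell_smooth h))

theorem gluea_HP_smooth {m : ℕ} {f : ℝ → V2 → ℂ} (hf : HP m f) (h : ℝ) :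
    ContDiff ℝ (⊤ : ℕ∞) (f h) := by
  obtain ⟨c, hc, _, he⟩ := hf
  have h1 : f h = fun x => ∑ k ∈ Finset.range (m + 1), c k x * (h : ℂ) ^ k := by
    funext x
    exact he h x
  rw [h1]
  exact ContDiff.sum fun k _ => (hc k).mul contDiff_const

/-- TASK GlueA (1).  Uniqueness. -/
theorem CS_unique (I : ID) (V : Uni I) (τ τ' : ℂ) (x : V2) (h : x ∈ CS I V τ)
    (h' : GA I V τ' x) : τ = τ' := by
  obtain ⟨h1, k, hk⟩ := h
  have h2 := h1 k
  rw [h' k] at h2
  have h3 := (gluea_ne I k x).2 hk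
  have h4 := mul_right_cancel₀ h3 h2
  have h5 : (-2 : ℂ) ≠ 0 := by norm_num
  exact (mul_left_cancel₀ h5 h4).symm

/-- TASK GlueA (2).  `CS τ` is open, if `{dU ≠ 0}` is dense.

Proof.  Let `x0 ∈ CS τ`, choose `h` with `dd l(x0) ≠ 0` (`l = ell h`); then `db l ≠ 0` near `x0` and
`ϑ(y) = - A_0(h,y) / (2 db l(y))` is smooth near `x0`, `ϑ(x0) = τ`.  At points `y` near `x0` with
`dU(y) ≠ 0`: `ϑ = th` near `y` (`hGC`, `GC_th`), so `dϑ(y) = 0` by `th_const`.  By density and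
continuity `dϑ = 0` near `x0`, so `ϑ = τ` on a ball around `x0`.  For `y` in this ball take `θ` with
`GC I V y θ` (`hall`): then `A_0(h,y) = - 2 θ db l(y)` so `θ = ϑ(y) = τ`, and `GA τ y`. -/
theorem CS_open (I : ID) (V : Uni I) (hall : ∀ x, ∃ θ, GC I V x θ)
    (hd : ∀ x, x ∈ closure {y : V2 | fderiv ℝ I.U y ≠ 0}) (τ : ℂ) : IsOpen (CS I V τ) := by
  rw [isOpen_iff_mem_nhds]
  intro x0 hx0
  obtain ⟨hga, h, hh⟩ := hx0
  have hb0 := (gluea_ne I h x0).2 hh
  have hbs := gluea_b_smooth I (cj I.al) h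
  have hAs := gluea_HP_smooth (V.AHP 0) h
  have hWo : IsOpen {y : V2 | ddr (cj I.al) (I.ell h) y ≠ 0} :=
    isOpen_ne_fun hbs.continuous continuous_const
  obtain ⟨r, hr, hball⟩ := Metric.isOpen_iff.1 hWo x0 hb0
  set ϑ : V2 → ℂ := fun y => V.A 0 h y / (-2 * ddr (cj I.al) (I.ell h) y) with hϑ
  have hϑd : ∀ y ∈ Metric.ball x0 r, ContDiffAt ℝ (⊤ : ℕ∞) ϑ y := by
    intro y hy
    have h1 : -2 * ddr (cj I.al) (I.ell h) y ≠ 0 := mul_ne_zero (by norm_num) (hball hy)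
    have h2 : ContDiffAt ℝ (⊤ : ℕ∞) (fun z => -2 * ddr (cj I.al) (I.ell h) z) y :=
      contDiffAt_const.mul hbs.contDiffAt
    have h3 := hAs.contDiffAt.mul (h2.inv h1)
    refine h3.congr_of_eventuallyEq (Filter.Eventually.of_forall fun z => ?_)
    exact div_eq_mul_inv _ _
  have hth : ∀ y ∈ Metric.ball x0 r, ∀ θ, GC I V y θ → ϑ y = θ := by
    intro y hy θ hθ
    have h1 : -2 * ddr (cj I.al) (I.ell h) y ≠ 0 := mul_ne_zero (by norm_num) (hball hy)
    rw [hϑ]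
    simp only
    rw [div_eq_iff h1, (hθ.2 h).1]
    ring
  have hO : IsOpen {x : V2 | fderiv ℝ I.U x ≠ 0} := maxpb_open I
  -- the derivative vanishes where `dU ≠ 0`
  have hf0 : ∀ y ∈ Metric.ball x0 r, fderiv ℝ I.U y ≠ 0 → fderiv ℝ ϑ y = 0 := by
    intro y hy hUy
    have h1 : ϑ =ᶠ[nhds y] th I V := by
      filter_upwards [hO.mem_nhds hUy, Metric.isOpen_ball.mem_nhds hy] with z hz hz2
      obtain ⟨θ, hθ⟩ := hall z
      rw [hth z hz2 θ hθ, GC_th I V z θ hθ hz]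
    have h2 := th_const I V (fun x _ => hall x) y hUy
    refine fderiv_zero_of_dd I.al I.hal ((hϑd y hy).differentiableAt (by simp)) ?_ ?_
    · rw [dd_congr I.al h1]
      exact h2.2
    · rw [dd_congr (cj I.al) h1]
      exact h2.1
  have hf1 : ∀ y ∈ Metric.ball x0 r, fderiv ℝ ϑ y = 0 := by
    intro y hy
    by_contra hne
    have hc : ContinuousOn (fun z => fderiv ℝ ϑ z) (Metric.ball x0 r) := by
      have h1 : ContDiffOn ℝ (⊤ : ℕ∞) ϑ (Metric.ball x0 r) := fun z hz =>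
        (hϑd z hz).contDiffWithinAt
      exact h1.continuousOn_fderiv_of_isOpen Metric.isOpen_ball (by simp)
    have hN : {z | fderiv ℝ ϑ z ≠ 0} ∈ nhds y :=
      (hc.continuousAt (Metric.isOpen_ball.mem_nhds hy)).eventually_ne hne
    have h2 := mem_closure_iff_nhds.1 (hd y) _
      (Filter.inter_mem hN (Metric.isOpen_ball.mem_nhds hy))
    obtain ⟨z, ⟨hz1, hz2⟩, hz3⟩ := h2
    exact hz1 (hf0 z hz2 hz3)
  have hconst : ∀ y ∈ Metric.ball x0 r, ϑ y = ϑ x0 := by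
    intro y hy
    refine (convex_ball x0 r).is_const_of_fderivWithin_eq_zero (𝕜 := ℝ) (f := ϑ) ?_ ?_ hy
      (Metric.mem_ball_self hr)
    · intro z hz
      exact ((hϑd z hz).differentiableAt (by simp)).differentiableWithinAt
    · intro z hz
      rw [fderivWithin_of_isOpen Metric.isOpen_ball hz, hf1 z hz]
  have hτ : ϑ x0 = τ := by
    have h1 : -2 * ddr (cj I.al) (I.ell h) x0 ≠ 0 := mul_ne_zero (by norm_num) hb0
    rw [hϑ]
    simp only
    rw [div_eq_iff h1, hga h]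
    ring
  refine Filter.mem_of_superset (Metric.ball_mem_nhds x0 hr) ?_
  intro y hy
  obtain ⟨θ, hθ⟩ := hall y
  have h1 : θ = τ := by
    rw [← hth y hy θ hθ, hconst y hy, hτ]
  refine ⟨fun k => ?_, h, (gluea_ne I h y).1 (hball hy)⟩
  rw [← h1]
  exact (hθ.2 k).1

/-- TASK GlueA (3).  The wave equation on `CS τ`: `dd dd l = τ db db l`.

Proof.  On the open set `CS τ`: `A_0(h,·) = -2 τ db l`; apply `db`:
`db A_0 = - 2 τ db db l`, and `db A_0 = db dd b_0 = dd db b_0 = - 2 dd dd l` (`V.A0`, `V.db0`,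
`dd_comm`). -/
theorem CS_wave (I : ID) (V : Uni I) (τ : ℂ) (hop : IsOpen (CS I V τ)) (x : V2)
    (hx : x ∈ CS I V τ) (h : ℝ) :
    dd I.al (fun y => ddr I.al (I.ell h) y) x
      = τ * dd (cj I.al) (fun y => ddr (cj I.al) (I.ell h) y) x := by
  have hb := gluea_HP_smooth (V.bHP 0) h
  have e1 : V.A 0 h =ᶠ[nhds x] fun y => (-2 * τ) * ddr (cj I.al) (I.ell h) y := by
    filter_upwards [hop.mem_nhds hx] with y hy
    exact hy.1 h
  have h1 := dd_congr (cj I.al) e1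
  have h2 : V.A 0 h = fun y => dd I.al (V.b 0 h) y := by
    funext y
    exact V.A0 h y
  rw [h2, dd_comm (cj I.al) I.al (hb.contDiffAt.of_le (WithTop.coe_le_coe.2 (le_top : (2 : ℕ∞) ≤ ⊤)))] at h1
  have h3 : (fun y => dd (cj I.al) (V.b 0 h) y) = fun y => -2 * ddr I.al (I.ell h) y := by
    funext y
    exact V.db0 h y
  rw [h3, dd_mul I.al (f := fun _ => (-2 : ℂ)) (differentiableAt_const _)
    ((gluea_b_smooth I I.al h).differentiable (by simp) x), BetaA_const,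
    dd_mul (cj I.al) (f := fun _ => (-2 * τ : ℂ)) (differentiableAt_const _)
    ((gluea_b_smooth I (cj I.al) h).differentiable (by simp) x), BetaA_const] at h1
  have h4 : (-2 : ℂ) ≠ 0 := by norm_num
  apply mul_left_cancel₀ h4
  linear_combination h1

end Pool.W4b1b5d.E
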