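import Pool.Agent.W_4b1b5d_h78.GlueA

set_option autoImplicit false

namespace Pool.W4b1b5d.E

open Pool.W4b1b5d.H3

/-- The real vector of direction `lam`: `fderiv f x (vl lam) = lam dd f + conj lam db f`. -/
noncomputable def vl (al : Fin 2 → ℂ) (lam : ℂ) : V2 := fun i => 2 * (lam * al i).re

/-- TASK GlueB (1). -/
theorem fderiv_vl (al : Fin 2 → ℂ) (lam : ℂ) (f : V2 → ℂ) (x : V2) :
    fderiv ℝ f x (vl al lam) = lam * dd al f x + (starRingEnd ℂ) lam * dd (cj al) f x := by
  have h1 : vl al lam = ∑ i, (vl al lam i) • (Pi.single i (1 : ℝ) : V2) := by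
    funext j
    simp [Finset.sum_apply, Pi.single_apply]
  have h2 : ∀ i, ((vl al lam i : ℝ) : ℂ) = lam * al i + (starRingEnd ℂ) lam * (starRingEnd ℂ) (al i) := by
    intro i
    rw [← map_mul, Complex.add_conj]
    unfold vl
    push_cast
    ring
  have h3 : fderiv ℝ f x (vl al lam) = ∑ i, ((vl al lam i : ℝ) : ℂ) * fderiv ℝ f x (Pi.single i 1) := by
    conv_lhs => rw [h1]
    rw [map_sum]
    refine Finset.sum_congr rfl fun i _ => ?_
    rw [map_smul]
    simp
  rw [h3]
  unfold dd cj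
  rw [Finset.mul_sum, Finset.mul_sum, ← Finset.sum_add_distrib]
  refine Finset.sum_congr rfl fun i _ => ?_
  rw [h2 i]
  ring

theorem glueB_ellC (I : ID) (h : ℝ) : ContDiff ℝ (⊤ : ℕ∞) (fun z => (I.ell h z : ℂ)) :=
  Complex.ofRealCLM.contDiff.comp (I.ell_smooth h)

theorem glueB_ddr_diff (I : ID) (a : Fin 2 → ℂ) (h : ℝ) (x : V2) :
    DifferentiableAt ℝ (fun y => ddr a (I.ell h) y) x :=
  (dd_contDiffAt a (glueB_ellC I h).contDiffAt).differentiableAt (by simp)

theorem glueB_dd_lin (a : Fin 2 → ℂ) (c d : ℂ) {f g : V2 → ℂ} {x : V2}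
    (hf : DifferentiableAt ℝ f x) (hg : DifferentiableAt ℝ g x) :
    dd a (fun y => c * f y + d * g y) x = c * dd a f x + d * dd a g x := by
  have h1 : fderiv ℝ (fun y => c * f y + d * g y) x = c • fderiv ℝ f x + d • fderiv ℝ g x :=
    ((hf.hasFDerivAt.const_mul c).add (hg.hasFDerivAt.const_mul d)).fderiv
  unfold dd
  rw [h1, Finset.mul_sum, Finset.mul_sum, ← Finset.sum_add_distrib]
  refine Finset.sum_congr rfl fun i _ => ?_
  simp only [add_apply, smul_apply, smul_eq_mul]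
  ring

/-- TASK GlueB (2).  The wave equation in the two directions `lam`, `i lam`, where
`conj lam² = τ lam²`:
`D_{i lam} D_lam l = i (lam² dd dd l - conj(lam)² db db l) = i lam² (dd dd l - τ db db l) = 0`. -/
theorem wave_dir (I : ID) (V : Uni I) (τ : ℂ) (hop : IsOpen (CS I V τ)) (lam : ℂ)
    (hlam : (starRingEnd ℂ) lam ^ 2 = τ * lam ^ 2) (x : V2) (hx : x ∈ CS I V τ) (h : ℝ) :
    fderiv ℝ (fun y => fderiv ℝ (fun z => (I.ell h z : ℂ)) y (vl I.al lam)) x
      (vl I.al (Complex.I * lam)) = 0 := by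
  have e1 : (fun y => fderiv ℝ (fun z => (I.ell h z : ℂ)) y (vl I.al lam)) =
      fun y => lam * ddr I.al (I.ell h) y + (starRingEnd ℂ) lam * ddr (cj I.al) (I.ell h) y := by
    funext y
    rw [fderiv_vl]
    rfl
  rw [e1, fderiv_vl, glueB_dd_lin _ _ _ (glueB_ddr_diff I _ h x) (glueB_ddr_diff I _ h x),
    glueB_dd_lin _ _ _ (glueB_ddr_diff I _ h x) (glueB_ddr_diff I _ h x)]
  have e2 : dd I.al (fun y => ddr (cj I.al) (I.ell h) y) x
      = dd (cj I.al) (fun y => ddr I.al (I.ell h) y) x :=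
    dd_comm I.al (cj I.al) ((glueB_ellC I h).contDiffAt.of_le (WithTop.coe_le_coe.mpr (le_top : (2 : ℕ∞) ≤ ⊤)))
  have e3 := CS_wave I V τ hop x hx h
  rw [e2, e3, map_mul, Complex.conj_I]
  linear_combination (-Complex.I * dd (cj I.al) (fun y => ddr (cj I.al) (I.ell h) y) x) * hlam

/-- TASK GlueB (3).  A complete line.  Let `x ∈ CS τ`, `conj lam² = τ lam²`, and
`D_lam l (x) ≠ 0`, `l = ell h`.  Then the whole line `x + s vl(i lam)` lies in `CS τ`.

Proof.  Let `φ(s) = D_lam l (x + s v)`, `v = vl(i lam)`, and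
`T = {s | x + s v ∈ CS τ ∧ φ(s) = φ(0)}`.  `0 ∈ T`.  `T` is open: `CS τ` is open and on it `φ` is
locally constant by `wave_dir`.  `T` is closed: let `s_n → s`, `y = x + s v`; `φ(s) = φ(0) ≠ 0` so
`dl(y) ≠ 0`, hence some `ddr I.al (I.ell h) y ≠ 0`; take `θ` with `GC I V y θ` (`hall`), so
`y ∈ CS θ`, which is open and so contains points `x + s_n v ∈ CS τ`; by uniqueness `θ = τ`.
`ℝ` is connected, so `T = ℝ` (`IsClopen.eq_univ`). -/
theorem line_in (I : ID) (V : Uni I) (hall : ∀ x, ∃ θ, GC I V x θ)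
    (hop : ∀ τ, IsOpen (CS I V τ)) (τ lam : ℂ)
    (hlam : (starRingEnd ℂ) lam ^ 2 = τ * lam ^ 2) (x : V2) (hx : x ∈ CS I V τ) (h : ℝ)
    (hne : fderiv ℝ (fun z => (I.ell h z : ℂ)) x (vl I.al lam) ≠ 0) (s : ℝ) :
    x + s • vl I.al (Complex.I * lam) ∈ CS I V τ := by
  set v : V2 := vl I.al (Complex.I * lam) with hv
  set G : V2 → ℂ := fun y => fderiv ℝ (fun z => (I.ell h z : ℂ)) y (vl I.al lam) with hG
  have hGsm : ContDiff ℝ (⊤ : ℕ∞) G := by
    have h1 : ContDiff ℝ (⊤ : ℕ∞) (fderiv ℝ (fun z => (I.ell h z : ℂ))) :=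
      (glueB_ellC I h).fderiv_right (by simp)
    exact h1.clm_apply contDiff_const
  have hline : Continuous (fun r : ℝ => x + r • v) := by fun_prop
  have hφc : Continuous (fun r : ℝ => G (x + r • v)) := hGsm.continuous.comp hline
  have hder : ∀ r : ℝ, x + r • v ∈ CS I V τ →
      HasDerivAt (fun r : ℝ => G (x + r • v)) 0 r := by
    intro r hr
    have h1 : HasFDerivAt G (fderiv ℝ G (x + r • v)) (x + r • v) :=
      (hGsm.differentiable (by simp) _).hasFDerivAt
    have h2 : HasDerivAt (fun r : ℝ => x + r • v) v r := by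
      have := ((hasDerivAt_id r).smul_const v).const_add x
      simpa using this
    have h3 := h1.comp_hasDerivAt r h2
    have h4 : fderiv ℝ G (x + r • v) v = 0 := wave_dir I V τ (hop τ) lam hlam _ hr h
    rw [h4] at h3
    exact h3
  let T : Set ℝ := {r | x + r • v ∈ CS I V τ ∧ G (x + r • v) = G x}
  have hO : IsOpen {r : ℝ | x + r • v ∈ CS I V τ} := (hop τ).preimage hline
  have hTo : IsOpen T := by
    rw [Metric.isOpen_iff]
    intro r hr
    obtain ⟨e, he, hsub⟩ := Metric.isOpen_iff.mp hO r hr.1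
    refine ⟨e, he, fun r' hr' => ⟨hsub hr', ?_⟩⟩
    have h1 : G (x + r' • v) = G (x + r • v) := by
      have := IsOpen.is_const_of_deriv_eq_zero (𝕜 := ℝ) (f := fun r : ℝ => G (x + r • v))
        Metric.isOpen_ball (convex_ball r e).isPreconnected
        (fun q hq => (hder q (hsub hq)).differentiableAt.differentiableWithinAt)
        (fun q hq => (hder q (hsub hq)).deriv) hr' (Metric.mem_ball_self he)
      exact this
    rw [h1]
    exact hr.2
  have hTc : IsClosed T := by
    rw [← closure_subset_iff_isClosed]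
    intro r hr
    have h1 : G (x + r • v) = G x := by
      have h2 : T ⊆ {r : ℝ | G (x + r • v) = G x} := fun q hq => hq.2
      have h3 : IsClosed {r : ℝ | G (x + r • v) = G x} := isClosed_eq hφc continuous_const
      exact (closure_minimal h2 h3) hr
    have h2 : ddr I.al (I.ell h) (x + r • v) ≠ 0 := by
      intro h0
      have h3 : ddr (cj I.al) (I.ell h) (x + r • v) = 0 := by
        rw [ddr_conj I.al ((I.ell_smooth h).differentiable (by simp) _), h0, map_zero]
      apply hne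
      have h4 : G x = 0 := by
        rw [← h1, hG]
        show fderiv ℝ (fun z => (I.ell h z : ℂ)) (x + r • v) (vl I.al lam) = 0
        rw [fderiv_vl]
        have h5 : dd I.al (fun z => (I.ell h z : ℂ)) (x + r • v) = 0 := h0
        have h6 : dd (cj I.al) (fun z => (I.ell h z : ℂ)) (x + r • v) = 0 := h3
        rw [h5, h6]
        simp
      exact h4
    obtain ⟨θ, hθ⟩ := hall (x + r • v)
    have h3 : x + r • v ∈ CS I V θ := ⟨fun h' => (hθ.2 h').1, h, h2⟩
    have h4 : IsOpen {r : ℝ | x + r • v ∈ CS I V θ} := (hop θ).preimage hline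
    obtain ⟨r', hr'1, hr'2⟩ := mem_closure_iff.mp hr _ h4 h3
    have h5 : θ = τ := CS_unique I V θ τ _ hr'1 hr'2.1.1
    rw [h5] at h3
    exact ⟨h3, h1⟩
  have hTu : T = Set.univ := by
    apply IsClopen.eq_univ ⟨hTc, hTo⟩
    refine ⟨0, ?_, ?_⟩
    · simpa using hx
    · simp
  have : s ∈ T := by rw [hTu]; trivial
  exact this.1

/-- TASK GlueB (4).  If `CS τ` is not empty, it contains a complete line in a direction `vl lam` with
`lam ≠ 0` and `conj lam² = τ lam²`.

Proof.  `|τ| = 1` (compare `GA` with `GC` by uniqueness).  Choose `lam0` with `|lam0| = 1`,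
`lam0⁴ = conj τ`, so `conj lam0² = lam0⁻² = τ lam0²`; the same holds for `i lam0`
(`conj(i lam0)² = - conj(lam0)²`, `(i lam0)² = - lam0²`).  At `x ∈ CS τ` there is `h` with
`dd l(x) ≠ 0`; so one of `D_{lam0} l`, `D_{i lam0} l` is not zero at `x` (`fderiv_vl`: if both vanish
then `dd l = 0`).  Apply `line_in` with `lam = lam0` or `lam = i lam0`; the direction is `i lam0` or
`- lam0`. -/
theorem exists_line (I : ID) (V : Uni I) (hall : ∀ x, ∃ θ, GC I V x θ)
    (hop : ∀ τ, IsOpen (CS I V τ)) (τ : ℂ) (x : V2) (hx : x ∈ CS I V τ) :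
    ∃ lam : ℂ, lam ≠ 0 ∧ (starRingEnd ℂ) lam ^ 2 = τ * lam ^ 2 ∧
      ∀ s : ℝ, x + s • vl I.al lam ∈ CS I V τ := by
  obtain ⟨h, hh⟩ := hx.2
  obtain ⟨θ, hθ⟩ := hall x
  have hτθ : τ = θ := CS_unique I V τ θ x hx fun h' => (hθ.2 h').1
  have hn : ‖τ‖ = 1 := by rw [hτθ]; exact hθ.1
  obtain ⟨l0, hl0⟩ := IsAlgClosed.exists_pow_nat_eq ((starRingEnd ℂ) τ) (n := 4) (by norm_num)
  have hl1 : ‖l0‖ = 1 := by
    have h1 : ‖l0‖ ^ 4 = 1 := by
      rw [← norm_pow, hl0, RCLike.norm_conj, hn]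
    exact (pow_eq_one_iff_of_nonneg (norm_nonneg _) (by norm_num)).mp h1
  have hl2 : l0 ≠ 0 := by
    intro h0
    rw [h0] at hl1
    simp at hl1
  have hl3 : l0 * (starRingEnd ℂ) l0 = 1 := by
    rw [Complex.mul_conj, Complex.normSq_eq_norm_sq, hl1]
    norm_num
  have hτ : τ * (starRingEnd ℂ) τ = 1 := by
    rw [Complex.mul_conj, Complex.normSq_eq_norm_sq, hn]
    norm_num
  have hA : (starRingEnd ℂ) l0 ^ 2 = τ * l0 ^ 2 := by
    have h1 : l0 ^ 2 * (starRingEnd ℂ) l0 ^ 2 = l0 ^ 2 * (τ * l0 ^ 2) := by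
      have e1 : l0 ^ 2 * (starRingEnd ℂ) l0 ^ 2 = (l0 * (starRingEnd ℂ) l0) ^ 2 := by ring
      have e2 : l0 ^ 2 * (τ * l0 ^ 2) = τ * l0 ^ 4 := by ring
      rw [e1, e2, hl3, hl0, hτ]
      norm_num
    exact mul_left_cancel₀ (pow_ne_zero 2 hl2) h1
  have hB : (starRingEnd ℂ) (Complex.I * l0) ^ 2 = τ * (Complex.I * l0) ^ 2 := by
    rw [map_mul, Complex.conj_I]
    linear_combination (Complex.I ^ 2) * hA
  by_cases hc : fderiv ℝ (fun z => (I.ell h z : ℂ)) x (vl I.al l0) = 0
  · have hd : fderiv ℝ (fun z => (I.ell h z : ℂ)) x (vl I.al (Complex.I * l0)) ≠ 0 := by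
      intro hd
      apply hh
      rw [fderiv_vl] at hc hd
      rw [map_mul, Complex.conj_I] at hd
      have h1 : (2 * l0) * dd I.al (fun z => (I.ell h z : ℂ)) x = 0 := by
        have hI : Complex.I * Complex.I = -1 := Complex.I_mul_I
        linear_combination hc - Complex.I * hd -
          (l0 * dd I.al (fun z => (I.ell h z : ℂ)) x
            - (starRingEnd ℂ) l0 * dd (cj I.al) (fun z => (I.ell h z : ℂ)) x) * (-hI)
      exact (mul_eq_zero.mp h1).resolve_left (mul_ne_zero two_ne_zero hl2)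
    refine ⟨Complex.I * (Complex.I * l0), ?_, ?_, fun s => line_in I V hall hop τ _ hB x hx h hd s⟩
    · exact mul_ne_zero Complex.I_ne_zero (mul_ne_zero Complex.I_ne_zero hl2)
    · rw [map_mul, Complex.conj_I]
      linear_combination (Complex.I ^ 2) * hB
  · exact ⟨Complex.I * l0, mul_ne_zero Complex.I_ne_zero hl2, hB,
      fun s => line_in I V hall hop τ _ hA x hx h hc s⟩

/-- TASK GlueB (5).  Two nonparallel lines meet: if `vl lam`, `vl lam'` are linearly dependent
(the lines `x + s vl lam`, `y + s vl lam'` are disjoint) then `lam' = r lam` with `r` real.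

Proof.  If `Im (conj lam lam') ≠ 0` then `vl lam`, `vl lam'` are a basis of the plane (the
determinant is `4 Im(conj lam lam') Im(conj(al 0) al 1)` up to sign), so the lines meet.  So
`conj lam lam'` is real and `lam' = (conj lam lam') / |lam|² lam`. -/
theorem lines_parallel (al : Fin 2 → ℂ) (hal : ((starRingEnd ℂ) (al 0) * al 1).im ≠ 0)
    (lam lam' : ℂ) (hl : lam ≠ 0) (x y : V2)
    (hd : ∀ s t : ℝ, x + s • vl al lam ≠ y + t • vl al lam') : ∃ r : ℝ, lam' = (r : ℂ) * lam := by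
  by_cases him : ((starRingEnd ℂ) lam * lam').im = 0
  · have h1 : (starRingEnd ℂ) lam * lam' = ((((starRingEnd ℂ) lam * lam').re : ℝ) : ℂ) := by
      apply Complex.ext
      · simp
      · rw [him]; simp
    refine ⟨((starRingEnd ℂ) lam * lam').re / Complex.normSq lam, ?_⟩
    have h2 : (Complex.normSq lam : ℂ) ≠ 0 := by
      exact_mod_cast (Complex.normSq_pos.mpr hl).ne'
    push_cast
    rw [div_mul_eq_mul_div, eq_div_iff h2]
    have h3 : (Complex.normSq lam : ℂ) = lam * (starRingEnd ℂ) lam := (Complex.mul_conj lam).symm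
    rw [h3, ← h1]
    ring
  · exfalso
    set v := vl al lam with hv
    set w := vl al lam' with hw
    have hD : v 0 * w 1 - v 1 * w 0 ≠ 0 := by
      have e : v 0 * w 1 - v 1 * w 0
          = -4 * ((starRingEnd ℂ) lam * lam').im * ((starRingEnd ℂ) (al 0) * al 1).im := by
        rw [hv, hw]
        unfold vl
        simp only [Complex.mul_re, Complex.mul_im, Complex.conj_re, Complex.conj_im]
        ring
      rw [e]
      exact mul_ne_zero (mul_ne_zero (by norm_num) him) hal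
    set D := v 0 * w 1 - v 1 * w 0 with hDd
    set c := y - x with hc
    refine hd ((c 0 * w 1 - w 0 * c 1) / D) ((v 1 * c 0 - v 0 * c 1) / D) ?_
    have hc0 : c 0 = y 0 - x 0 := by rw [hc]; rfl
    have hc1 : c 1 = y 1 - x 1 := by rw [hc]; rfl
    funext i
    fin_cases i
    · show x 0 + ((c 0 * w 1 - w 0 * c 1) / D) * v 0 = y 0 + ((v 1 * c 0 - v 0 * c 1) / D) * w 0
      have : c 0 = ((c 0 * w 1 - w 0 * c 1) / D) * v 0 - ((v 1 * c 0 - v 0 * c 1) / D) * w 0 := by
        field_simp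
        rw [hDd]
        ring
      rw [hc0] at this
      rw [← hc0] at this
      linarith
    · show x 1 + ((c 0 * w 1 - w 0 * c 1) / D) * v 1 = y 1 + ((v 1 * c 0 - v 0 * c 1) / D) * w 1
      have : c 1 = ((c 0 * w 1 - w 0 * c 1) / D) * v 1 - ((v 1 * c 0 - v 0 * c 1) / D) * w 1 := by
        field_simp
        rw [hDd]
        ring
      linarith

end Pool.W4b1b5d.E
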