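import Pool.Agent.W_4b1b5d_h78.GlueB
import Pool.Agent.W_4b1b5d_h78.GoodC
import Pool.Agent.W_4b1b5d_h78.UniA

set_option autoImplicit false

namespace Pool.W4b1b5d.E

open Pool.W4b1b5d.H3

/-- TASK GlueC (1).  `θ` is the same everywhere.

Proof.  Let `x ∈ CS τ`, `y ∈ CS τ'`, `τ ≠ τ'`.  By `exists_line` there are complete lines
`x + s vl lam ⊆ CS τ`, `y + t vl lam' ⊆ CS τ'`, disjoint by uniqueness, so by `lines_parallel`
`lam' = r lam`, `r ≠ 0`, and `conj lam'² = τ' lam'²` gives `conj lam² = τ' lam²`, so `τ = τ'`. -/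
theorem CS_same (I : ID) (V : Uni I) (hall : ∀ x, ∃ θ, GC I V x θ)
    (hop : ∀ τ, IsOpen (CS I V τ)) (τ τ' : ℂ) (x y : V2) (hx : x ∈ CS I V τ)
    (hy : y ∈ CS I V τ') : τ = τ' := by
  by_contra hne
  obtain ⟨lam, hl0, hl, hline⟩ := exists_line I V hall hop τ x hx
  obtain ⟨lam', hl0', hl', hline'⟩ := exists_line I V hall hop τ' y hy
  obtain ⟨r, hr⟩ := lines_parallel I.al I.hal lam lam' hl0 x y (by
    intro s t hst
    have h1 := hline s
    have h2 := hline' t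
    rw [← hst] at h2
    exact hne (CS_unique I V τ τ' _ h1 h2.1))
  have hr0 : (r : ℂ) ≠ 0 := by
    intro h0
    rw [h0, zero_mul] at hr
    exact hl0' hr
  rw [hr, map_mul, Complex.conj_ofReal, mul_pow, mul_pow, hl] at hl'
  have h3 : (r : ℂ) ^ 2 * lam ^ 2 ≠ 0 := mul_ne_zero (pow_ne_zero 2 hr0) (pow_ne_zero 2 hl0)
  apply hne
  apply mul_right_cancel₀ h3
  linear_combination hl'

/-- TASK GlueC (2).  The structure theorem when `{dU ≠ 0}` is dense: one `θ0` for all points.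

Proof.  `hall` by `GC_of_closure`.  If there is `x0` with `dU(x0) ≠ 0`, take `θ0` with `GC x0 θ0`;
`x0 ∈ CS θ0` (`h = U x0`, `ID.ddr_ell`).  For any `x`: take `θ` with `GC x θ`.  If some
`ddr I.al (I.ell h) x ≠ 0`, then `x ∈ CS θ` and `θ = θ0` by `CS_same`; otherwise both sides of the claim
are `0` (`ddr_conj`).  (A point with `dU ≠ 0` exists because the closure is everything.) -/
theorem theta0 (I : ID) (N : ℕ) (hN : I.n = 2 * N)
    (hF : ∃ (h : ℝ) (s : ℤ) (x : V2), 1 ≤ s ∧ I.beta h s x ≠ 0) (V : Uni I)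
    (hd : ∀ x, x ∈ closure {y : V2 | fderiv ℝ I.U y ≠ 0}) :
    ∃ θ0 : ℂ, ‖θ0‖ = 1 ∧ ∀ x, GA I V θ0 x := by
  have hall : ∀ x, ∃ θ, GC I V x θ := fun x => GC_of_closure I N hN hF V x (hd x)
  have hop := CS_open I V hall hd
  obtain ⟨x0, hx0⟩ : ∃ x0 : V2, fderiv ℝ I.U x0 ≠ 0 := by
    have h1 := hd 0
    have h2 : {y : V2 | fderiv ℝ I.U y ≠ 0}.Nonempty := closure_nonempty_iff.1 ⟨0, h1⟩
    exact h2
  obtain ⟨θ0, hθ0⟩ := hall x0
  have hcs : x0 ∈ CS I V θ0 := by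
    refine ⟨fun h => (hθ0.2 h).1, I.U x0, ?_⟩
    intro h0
    have h1 := I.ddr_ell (I.U x0) I.al x0
    have h2 : I.ell (I.U x0) x0 = 0 := by
      unfold ID.ell
      rw [sub_self, zero_div]
    rw [h0, h2, Complex.ofReal_zero, zero_mul, mul_zero, sub_zero] at h1
    have hdf : DifferentiableAt ℝ I.U x0 := I.Usm.differentiable (by simp) x0
    exact ddr_ne I.al I.hal I.U x0 hdf hx0 (neg_eq_zero.1 h1.symm)
  refine ⟨θ0, hθ0.1, fun x => ?_⟩
  obtain ⟨θ, hθ⟩ := hall x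
  by_cases hx : ∃ h : ℝ, ddr I.al (I.ell h) x ≠ 0
  · have h1 : x ∈ CS I V θ := ⟨fun h => (hθ.2 h).1, hx⟩
    have h2 := CS_same I V hall hop θ θ0 x x0 h1 hcs
    rw [← h2]
    exact fun h => (hθ.2 h).1
  · push Not at hx
    intro h
    have h1 : ddr (cj I.al) (I.ell h) x = 0 := by
      by_contra h2
      exact (gluea_ne I h x).1 h2 (hx h)
    rw [(hθ.2 h).1, h1, mul_zero, mul_zero]

theorem gluec_cmul (a : Fin 2 → ℂ) (c : ℂ) {f : V2 → ℂ} {x : V2}
    (hf : DifferentiableAt ℝ f x) : dd a (fun y => c * f y) x = c * dd a f x := by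
  rw [dd_mul a (f := fun _ => c) (differentiableAt_const c) hf, BetaA_const]
  ring

/-- TASK GlueC (3).  The quadratic integral in complex form.

Proof.  Let `b 0 h x = c0 x + c1 x h` (`V.bHP 0`).  `db (b 0 h) = - 2 dd l`,
`dd (b 0 h) = A_0 = - 2 θ0 db l`.  Choose `k` with `|k| = 1`, `k² = conj θ0`, so `conj k = θ0 k`.  Put
`w1 = Re (k c1)`, `w0 = Re (k c0)`.  Then for every `h`, with `B = k b 0 h`: `db B = - 2 k dd l` and
`db (conj B) = conj (dd B) = conj (- 2 k θ0 db l) = - 2 k dd l`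
(`conj (k θ0) = conj(conj k) = k`, `conj (db l) = dd l`), so `db (Re B) = - 2 k dd l`. -/
theorem kcore (I : ID) (V : Uni I) (θ0 : ℂ) (hθ : ‖θ0‖ = 1) (h0 : ∀ x, GA I V θ0 x) :
    ∃ (k : ℂ) (w1 w0 : V2 → ℝ), k ≠ 0 ∧ ContDiff ℝ (⊤ : ℕ∞) w1 ∧ ContDiff ℝ (⊤ : ℕ∞) w0 ∧
      Per w1 ∧ Per w0 ∧ ∀ (h : ℝ) (x : V2),
        (h : ℂ) * ddr (cj I.al) w1 x + ddr (cj I.al) w0 x = -2 * k * ddr I.al (I.ell h) x := by
  obtain ⟨c, hc, hcp, hb⟩ := V.bHP 0
  obtain ⟨k, hk⟩ := IsAlgClosed.exists_pow_nat_eq ((starRingEnd ℂ) θ0) (n := 2) (by norm_num)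
  have hkn : ‖k‖ = 1 := by
    have h1 := congrArg norm hk
    rw [norm_pow, RCLike.norm_conj, hθ] at h1
    exact (pow_eq_one_iff_of_nonneg (norm_nonneg k) (by norm_num)).1 h1
  have hk0 : k ≠ 0 := by
    intro h
    rw [h, norm_zero] at hkn
    exact zero_ne_one hkn
  have hkk : k * (starRingEnd ℂ) k = 1 := by
    rw [Complex.mul_conj', hkn]
    simp
  have hθθ : θ0 * (starRingEnd ℂ) θ0 = 1 := by
    rw [Complex.mul_conj', hθ]
    simp
  have hck : (starRingEnd ℂ) k = θ0 * k := by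
    apply mul_left_cancel₀ hk0
    rw [hkk, ← hθθ, ← hk]
    ring
  have hW : ∀ j, ContDiff ℝ (⊤ : ℕ∞) (fun x => (k * c j x).re) := fun j =>
    Complex.reCLM.contDiff.comp (contDiff_const.mul (hc j))
  have hWp : ∀ j, Per (fun x => (k * c j x).re) := fun j x m => by
    show (k * c j _).re = (k * c j x).re
    rw [hcp j x m]
  refine ⟨k, fun x => (k * c 1 x).re, fun x => (k * c 0 x).re, hk0, hW 1, hW 0, hWp 1, hWp 0,
    fun h x => ?_⟩
  have hbs : ContDiff ℝ (⊤ : ℕ∞) (V.b 0 h) := gluea_HP_smooth (V.bHP 0) h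
  have hbd : DifferentiableAt ℝ (V.b 0 h) x := hbs.differentiable (by simp) x
  have hBd : DifferentiableAt ℝ (fun y => k * V.b 0 h y) x := (differentiableAt_const k).mul hbd
  have hd1 : DifferentiableAt ℝ (fun y => (((k * c 1 y).re : ℝ) : ℂ)) x :=
    (Complex.ofRealCLM.contDiff.comp (hW 1)).differentiable (by simp) x
  have hd0 : DifferentiableAt ℝ (fun y => (((k * c 0 y).re : ℝ) : ℂ)) x :=
    (Complex.ofRealCLM.contDiff.comp (hW 0)).differentiable (by simp) x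
  have hcB : DifferentiableAt ℝ (fun y => (starRingEnd ℂ) (k * V.b 0 h y)) x :=
    (Complex.conjCLE : ℂ →L[ℝ] ℂ).differentiableAt.comp x hBd
  -- the real part of `k b_0`
  have e1 : (fun y => (h : ℂ) * (((k * c 1 y).re : ℝ) : ℂ) + (((k * c 0 y).re : ℝ) : ℂ)) =
      fun y => (1 / 2 : ℂ) * (k * V.b 0 h y + (starRingEnd ℂ) (k * V.b 0 h y)) := by
    funext y
    rw [hb h y, Finset.sum_range_succ, Finset.sum_range_one]
    have h3 : ∀ z : ℂ, ((z.re : ℝ) : ℂ) = (1 / 2 : ℂ) * (z + (starRingEnd ℂ) z) := by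
      intro z
      rw [Complex.add_conj]
      push_cast
      ring
    rw [h3, h3]
    simp only [map_mul, map_add, Complex.conj_ofReal, pow_zero, pow_one, mul_one]
    ring
  have e2 := congrArg (fun f => dd (cj I.al) f x) e1
  rw [dd_add (cj I.al) (f := fun y => (h : ℂ) * (((k * c 1 y).re : ℝ) : ℂ))
      (g := fun y => (((k * c 0 y).re : ℝ) : ℂ)) (hd1.const_mul (h : ℂ)) hd0,
    gluec_cmul (cj I.al) (h : ℂ) hd1,
    gluec_cmul (cj I.al) (f := fun y => k * V.b 0 h y + (starRingEnd ℂ) (k * V.b 0 h y)) (1 / 2)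
      (hBd.add hcB),
    dd_add (cj I.al) (f := fun y => k * V.b 0 h y)
      (g := fun y => (starRingEnd ℂ) (k * V.b 0 h y)) hBd hcB, dd_conj I.al hBd,
    gluec_cmul (cj I.al) k hbd, gluec_cmul I.al k hbd] at e2
  have e3 := h0 x h
  rw [V.A0 h x] at e3
  have hld : DifferentiableAt ℝ (I.ell h) x := (I.ell_smooth h).differentiable (by simp) x
  rw [V.db0 h x, e3, ddr_conj I.al hld] at e2
  unfold ddr at e2 ⊢
  simp only [map_mul, map_add, Complex.conj_conj, map_neg, zero_mul, zero_add, map_ofNat] at e2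
  rw [e2]
  have h5 : (starRingEnd ℂ) θ0 * (starRingEnd ℂ) k = k := by
    rw [← map_mul, ← hck, Complex.conj_conj]
  linear_combination (-1 : ℂ) * (dd I.al (fun y => (I.ell h y : ℂ)) x) * h5

end Pool.W4b1b5d.E
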