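import Pool.Agent.W_4b1b5d_h78.Coef

set_option autoImplicit false

namespace Pool.W4b1b5d.E

open Pool.W4b1b5d.H3 Polynomial

theorem Urec_eh_coeff (I : ID) (N : ℕ) (hN : I.n = 2 * N) (i t : ℕ) (x : V2) :
    (eh I N i x).coeff t = eps I i ((N : ℤ) - t) x := by
  unfold eh
  rw [Polynomial.finsetSum_coeff]
  simp only [Polynomial.coeff_C_mul, Polynomial.coeff_X_pow]
  rcases Nat.lt_or_ge t (2 * N + 1) with h | h
  · rw [Finset.sum_eq_single t]
    · rw [if_pos rfl, mul_one]
    · intro b _ hb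
      rw [if_neg (Ne.symm hb), mul_zero]
    · intro h'
      exact absurd (Finset.mem_range.mpr h) h'
  · rw [Finset.sum_eq_zero]
    · symm
      apply eps_zero I N hN
      by_cases hi : N < i
      · left
        exact_mod_cast hi
      · right
        left
        rw [abs_of_nonpos (by omega)]
        omega
    · intro b hb
      rw [Finset.mem_range] at hb
      rw [if_neg (by omega), mul_zero]

theorem Urec_nn_low (I : ID) (N : ℕ) (hN : I.n = 2 * N) (i : ℕ) (m : ℤ) (hm : m ≤ -(N : ℤ) - 1)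
    (x : V2) : nn I i m x = 0 := by
  have h1 : ∀ y, I.f ((i : ℤ) + m) ((i : ℤ) - m) y = 0 := by
    intro y
    by_cases h : (i : ℤ) + m < 0
    · exact I.f_neg _ _ y h
    · apply I.f_big
      rw [hN]
      push_cast
      omega
  have h2 : ∀ y, I.f ((i : ℤ) + 1 + m) ((i : ℤ) + 1 - m) y = 0 := by
    intro y
    by_cases h : (i : ℤ) + 1 + m < 0
    · exact I.f_neg _ _ y h
    · apply I.f_big
      rw [hN]
      push_cast
      omega
  unfold nn
  rw [Build_dd_zero I.al h1 x, h1 x, h2 x]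
  ring

theorem Urec_nh_coeff (I : ID) (N : ℕ) (hN : I.n = 2 * N) (i t : ℕ) (x : V2) :
    (nh I N i x).coeff t = nn I i ((N : ℤ) - 1 - t) x := by
  unfold nh
  rw [Polynomial.finsetSum_coeff]
  simp only [Polynomial.coeff_C_mul, Polynomial.coeff_X_pow]
  rcases Nat.lt_or_ge t (2 * N) with h | h
  · rw [Finset.sum_eq_single t]
    · rw [if_pos rfl, mul_one]
    · intro b _ hb
      rw [if_neg (Ne.symm hb), mul_zero]
    · intro h'
      exact absurd (Finset.mem_range.mpr h) h'
  · rw [Finset.sum_eq_zero]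
    · symm
      exact Urec_nn_low I N hN i _ (by omega) x
    · intro b hb
      rw [Finset.mem_range] at hb
      rw [if_neg (by omega), mul_zero]

theorem Urec_poly_ext (I : ID) (x : V2) (p q : Polynomial ℂ)
    (h : ∀ t : ℝ, I.ell t x ≠ 0 → p.eval (I.ell t x : ℂ) = q.eval (I.ell t x : ℂ)) : p = q := by
  refine Polynomial.eq_of_infinite_eval_eq p q ?_
  have h2 : ((fun t : ℝ => (t : ℂ)) '' (Set.Ioi (0 : ℝ))).Infinite :=
    (Set.Ioi_infinite (0 : ℝ)).image (Complex.ofReal_injective.injOn)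
  refine h2.mono ?_
  rintro z ⟨t, ht, rfl⟩
  have hmu : I.mu x ≠ 0 := (I.mupos x).ne'
  have h3 : I.ell (I.U x + I.mu x * t) x = t := by
    unfold ID.ell
    field_simp
    ring
  have h4 := h (I.U x + I.mu x * t) (by rw [h3]; exact (Set.mem_Ioi.mp ht).ne')
  rw [h3] at h4
  exact h4

theorem Urec_key (I : ID) (N : ℕ) (hN : I.n = 2 * N) (V : Uni I) (x : V2)
    (a a' : ℕ → ℂ)
    (hA : ∀ (j : ℕ) (h : ℝ), V.A j h x =
      (I.ell h x : ℂ) ^ j * (a j + (I.ell h x : ℂ) * a' j))
    (m : ℤ) (K : ℕ) (hK : (I.n : ℤ) ≤ m + K) (i : ℕ) :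
    nn I i m x = ∑ j ∈ Finset.range K,
      (eps I (i + 1) (m + j + 1) x * a j + eps I i (m + j + 1) x * a' j) := by
  have hpoly : (∑ i ∈ Finset.range (N + 1), Polynomial.C (nn I i m x) * Polynomial.X ^ (i + 1)) =
      ∑ j ∈ Finset.range K, ∑ i ∈ Finset.range (N + 1),
        (Polynomial.C (eps I i (m + j + 1) x * a j) * Polynomial.X ^ i
          + Polynomial.C (eps I i (m + j + 1) x * a' j) * Polynomial.X ^ (i + 1)) := by
    refine Urec_poly_ext I x _ _ fun h hl => ?_
    have hlc : (I.ell h x : ℂ) ≠ 0 := Complex.ofReal_ne_zero.mpr hl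
    simp only [Polynomial.eval_finsetSum, Polynomial.eval_add, Polynomial.eval_mul,
      Polynomial.eval_C, Polynomial.eval_pow, Polynomial.eval_X]
    have h1 := ddBt_nn I N hN h x hl m
    rw [V.rel h m x K hK] at h1
    have h2 : ∑ i ∈ Finset.range (N + 1), nn I i m x * (I.ell h x : ℂ) ^ (i + 1) =
        (∑ i ∈ Finset.range (N + 1), nn I i m x * (I.ell h x : ℂ) ^ i) * (I.ell h x : ℂ) := by
      rw [Finset.sum_mul]
      refine Finset.sum_congr rfl fun i _ => ?_
      rw [pow_succ]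
      ring
    rw [h2, ← h1, Finset.sum_mul, Finset.sum_mul]
    refine Finset.sum_congr rfl fun j _ => ?_
    rw [hA j h]
    have h3 := Bt_eps I N hN h x hl (m + j + 1)
    have h4 : (I.ell h x : ℂ) ^ (m + j + 1 - 1) = (I.ell h x : ℂ) ^ m * (I.ell h x : ℂ) ^ j := by
      rw [show m + (j : ℤ) + 1 - 1 = m + (j : ℤ) by ring, zpow_add₀ hlc, zpow_natCast]
    rw [h4] at h3
    have h5 : ∑ i ∈ Finset.range (N + 1), eps I i (m + j + 1) x * (I.ell h x : ℂ) ^ i =
        (∑ i ∈ Finset.range (N + 1), eps I i (m + j + 1) x * (I.ell h x : ℂ) ^ ((i : ℤ) - 1))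
          * (I.ell h x : ℂ) := by
      rw [Finset.sum_mul]
      refine Finset.sum_congr rfl fun i _ => ?_
      rw [mul_assoc, ← zpow_add_one₀ hlc, sub_add_cancel, zpow_natCast]
    have h6 : ∑ i ∈ Finset.range (N + 1),
        (eps I i (m + j + 1) x * a j * (I.ell h x : ℂ) ^ i
          + eps I i (m + j + 1) x * a' j * (I.ell h x : ℂ) ^ (i + 1)) =
        (∑ i ∈ Finset.range (N + 1), eps I i (m + j + 1) x * (I.ell h x : ℂ) ^ i)
          * (a j + (I.ell h x : ℂ) * a' j) := by
      rw [Finset.sum_mul]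
      refine Finset.sum_congr rfl fun i _ => ?_
      rw [pow_succ]
      ring
    rw [h6, h5, ← h3]
    push_cast
    ring
  have hc := congrArg (fun p => Polynomial.coeff p (i + 1)) hpoly
  simp only [Polynomial.finsetSum_coeff, Polynomial.coeff_add, Polynomial.coeff_C_mul,
    Polynomial.coeff_X_pow] at hc
  have hL : ∑ b ∈ Finset.range (N + 1), nn I b m x * (if i + 1 = b + 1 then (1 : ℂ) else 0) =
      nn I i m x := by
    by_cases hi : i < N + 1
    · rw [Finset.sum_eq_single i]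
      · rw [if_pos rfl, mul_one]
      · intro b _ hb
        rw [if_neg (by omega), mul_zero]
      · intro h'
        exact absurd (Finset.mem_range.mpr hi) h'
    · rw [nn_zero I N hN i m x (Or.inl (by omega))]
      refine Finset.sum_eq_zero fun b hb => ?_
      rw [Finset.mem_range] at hb
      rw [if_neg (by omega), mul_zero]
  rw [hL] at hc
  rw [hc]
  refine Finset.sum_congr rfl fun j _ => ?_
  rw [Finset.sum_add_distrib]
  congr 1
  · by_cases hi : i + 1 < N + 1
    · rw [Finset.sum_eq_single (i + 1)]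
      · rw [if_pos rfl, mul_one]
      · intro b _ hb
        rw [if_neg (by omega), mul_zero]
      · intro h'
        exact absurd (Finset.mem_range.mpr hi) h'
    · rw [eps_zero I N hN (i + 1) _ x (Or.inl (by push_cast; omega)), zero_mul]
      refine Finset.sum_eq_zero fun b hb => ?_
      rw [Finset.mem_range] at hb
      rw [if_neg (by omega), mul_zero]
  · by_cases hi : i < N + 1
    · rw [Finset.sum_eq_single i]
      · rw [if_pos rfl, mul_one]
      · intro b _ hb
        rw [if_neg (by omega), mul_zero]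
      · intro h'
        exact absurd (Finset.mem_range.mpr hi) h'
    · rw [eps_zero I N hN i _ x (Or.inl (by omega)), zero_mul]
      refine Finset.sum_eq_zero fun b hb => ?_
      rw [Finset.mem_range] at hb
      rw [if_neg (by omega), mul_zero]

/-- TASK Urec.  The relations between the coefficients of the powers of `l`.

Proof.  Let `s : ℕ` and compare the coefficients of `w^s`.  With `m = N - 1 - s` the claim is
`nn i m = ∑_{j ≤ s} (eps (i+1) (m+j+1) al_j + eps i (m+j+1) al'_j)`: indeed the coefficient of `w^t`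
in `eh i` is `eps i (N - t)` for `t ≤ 2 N` and for `t > 2N` we have `eps i (N-t) = 0` as well
(`eps_zero`); `N - (s - j) = m + j + 1`; the coefficient of `w^s` in `nh i` is `nn i m` for
`s < 2 N`, and for `s ≥ 2 N`, `m ≤ -N-1`, `nn i m = 0` (`nn_zero`; for `m = -N-1` only `i = N` needs
care: then `f` has total degree `> n`).
For every `h` with `l = ell h x ≠ 0` multiply `V.rel h m x K` (with `K = s + 1`; if necessary enlarge
`K` so that `n ≤ m + K`, the added terms have `Bt` index `> N` and vanish) by `l^m` and use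
`ddBt_nn`, `Bt_eps` with `k = m + j + 1` (`l^m = l^(k-1) l^(-j)`) and `hA`:
`∑_i nn i m l^i = ∑_j (∑_i eps i (m+j+1) l^(i-1)) (al_j + l al'_j)`.
Both sides are polynomials in `l` (`eps 0 = 0`), equal for all real `l ≠ 0`; compare the
coefficients of `l^i`. -/
theorem urec (I : ID) (N : ℕ) (hN : I.n = 2 * N) (V : Uni I) (x : V2)
    (al al' : PowerSeries ℂ)
    (hA : ∀ (j : ℕ) (h : ℝ), V.A j h x =
      (I.ell h x : ℂ) ^ j * (PowerSeries.coeff j al + (I.ell h x : ℂ) * PowerSeries.coeff j al')) :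
    ∀ i, (eh I N (i + 1) x : PowerSeries ℂ) * al + (eh I N i x : PowerSeries ℂ) * al'
      = (nh I N i x : PowerSeries ℂ) := by
  intro i
  ext s
  rw [map_add, mul_comm _ al, mul_comm _ al', PowerSeries.coeff_mul, PowerSeries.coeff_mul,
    Polynomial.coeff_coe, Urec_nh_coeff I N hN,
    Finset.Nat.sum_antidiagonal_eq_sum_range_succ_mk,
    Finset.Nat.sum_antidiagonal_eq_sum_range_succ_mk]
  rw [Urec_key I N hN V x (fun j => PowerSeries.coeff j al) (fun j => PowerSeries.coeff j al') hA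
    ((N : ℤ) - 1 - s) (s + 1 + N) (by rw [hN]; push_cast; omega) i]
  rw [← Finset.sum_add_distrib]
  symm
  rw [← Finset.sum_subset (Finset.range_subset_range.mpr (by omega : s + 1 ≤ s + 1 + N))]
  · refine Finset.sum_congr rfl fun j hj => ?_
    rw [Finset.mem_range] at hj
    rw [Polynomial.coeff_coe, Polynomial.coeff_coe, Urec_eh_coeff I N hN, Urec_eh_coeff I N hN]
    have e1 : (N : ℤ) - 1 - (s : ℤ) + (j : ℤ) + 1 = (N : ℤ) - ((s - j : ℕ) : ℤ) := by omega
    rw [e1]
    ring
  · intro j _ hj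
    rw [Finset.mem_range] at hj
    have e2 : ∀ i' : ℕ, eps I i' ((N : ℤ) - 1 - (s : ℤ) + (j : ℤ) + 1) x = 0 := by
      intro i'
      apply eps_zero I N hN
      by_cases hi : N < i'
      · left
        exact_mod_cast hi
      · right
        left
        rw [abs_of_nonneg (by omega)]
        omega
    rw [e2, e2, zero_mul, zero_mul, add_zero]

/-- TASK Urec (2).  `e_i = 0` for `i = 0` and for `i > N`. -/
theorem eh_zero (I : ID) (N : ℕ) (hN : I.n = 2 * N) (i : ℕ) (x : V2) (h : i = 0 ∨ N < i) :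
    eh I N i x = 0 := by
  unfold eh
  refine Finset.sum_eq_zero fun t _ => ?_
  rw [eps_zero I N hN i _ x ?_, Polynomial.C_0, zero_mul]
  rcases h with h | h
  · exact Or.inr (Or.inr h)
  · left
    exact_mod_cast h

/-- TASK Urec (3).  If `Bt h M x ≠ 0` for some `h` (`M ≥ 1`) then some `e_i(x) ≠ 0`, `1 ≤ i ≤ N`.
(`Bt h M x` is a nonzero polynomial in `h`, so it is nonzero for some `h` with `ell h x ≠ 0`;
then `Bt_eps`.) -/
theorem exists_eh_ne (I : ID) (N : ℕ) (hN : I.n = 2 * N) (M : ℕ) (hM : 1 ≤ M) (hMN : M ≤ N)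
    (pa : ℂ[X]) (hpa : pa ≠ 0) (htop : ∀ (h : ℝ) (x : V2), Bt I h M x = pa.eval (h : ℂ))
    (x : V2) : ∃ i, 1 ≤ i ∧ i ≤ N ∧ eh I N i x ≠ 0 := by
  have hq : pa * (Polynomial.X - Polynomial.C (I.U x : ℂ)) ≠ 0 :=
    mul_ne_zero hpa (Polynomial.X_sub_C_ne_zero _)
  obtain ⟨h, hh⟩ : ∃ h : ℝ, (pa * (Polynomial.X - Polynomial.C (I.U x : ℂ))).eval (h : ℂ) ≠ 0 := by
    by_contra hcon
    push Not at hcon
    apply hq
    refine Polynomial.eq_of_infinite_eval_eq _ 0 ?_
    have h2 : ((fun t : ℝ => (t : ℂ)) '' (Set.univ : Set ℝ)).Infinite :=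
      Set.infinite_univ.image (Complex.ofReal_injective.injOn)
    refine h2.mono ?_
    rintro z ⟨t, -, rfl⟩
    change Polynomial.eval (t : ℂ) _ = Polynomial.eval (t : ℂ) 0
    rw [Polynomial.eval_zero]
    exact hcon t
  rw [Polynomial.eval_mul] at hh
  have hpe : pa.eval (h : ℂ) ≠ 0 := left_ne_zero_of_mul hh
  have hle := right_ne_zero_of_mul hh
  rw [Polynomial.eval_sub, Polynomial.eval_X, Polynomial.eval_C] at hle
  have hl : I.ell h x ≠ 0 := by
    unfold ID.ell
    refine div_ne_zero ?_ (I.mupos x).ne'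
    intro h0
    apply hle
    rw [← Complex.ofReal_sub, h0, Complex.ofReal_zero]
  have hlc : (I.ell h x : ℂ) ≠ 0 := Complex.ofReal_ne_zero.mpr hl
  have h1 := Bt_eps I N hN h x hl (M : ℤ)
  have h2 : (((M : ℕ) : ℤ) : ℂ) * Bt I h M x * (I.ell h x : ℂ) ^ ((M : ℤ) - 1) ≠ 0 := by
    refine mul_ne_zero (mul_ne_zero ?_ ?_) (zpow_ne_zero _ hlc)
    · rw [Int.cast_natCast]
      exact Nat.cast_ne_zero.mpr (by omega)
    · rw [htop]
      exact hpe
  rw [h1] at h2
  obtain ⟨i, hi, hne⟩ := Finset.exists_ne_zero_of_sum_ne_zero h2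
  rw [Finset.mem_range] at hi
  have hne' : eps I i (M : ℤ) x ≠ 0 := left_ne_zero_of_mul hne
  have hi0 : i ≠ 0 := fun h0 => hne' (eps_zero I N hN i _ x (Or.inr (Or.inr h0)))
  refine ⟨i, by omega, by omega, fun h0 => hne' ?_⟩
  have h3 := Urec_eh_coeff I N hN i (N - M) x
  rw [h0, Polynomial.coeff_zero] at h3
  have e1 : (N : ℤ) - ((N - M : ℕ) : ℤ) = M := by omega
  rw [e1] at h3
  exact h3.symm

end Pool.W4b1b5d.E
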