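import Pool.Agent.W_4b1b5d_h78.FinA
import Pool.Agent.W_4b1b5d_h78.ABd
import Pool.Agent.W_4b1b5d_h78.Urec
import Pool.Agent.W_4b1b5d_h78.Den

set_option autoImplicit false

namespace Pool.W4b1b5d.E

open Pool.W4b1b5d.H3 Polynomial

/-- The local structure at `x`: the three relations, with the number `θ` of modulus one. -/
def GC (I : ID) (V : Uni I) (x : V2) (θ : ℂ) : Prop :=
  ‖θ‖ = 1 ∧ ∀ h : ℝ, V.A 0 h x = -2 * θ * ddr (cj I.al) (I.ell h) x ∧
    V.A 1 h x = 2 * θ * (I.ell h x : ℂ) * ddr I.al (I.ell h) x ∧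
    ∀ j : ℕ, V.A (j + 2) h x = θ * (I.ell h x : ℂ) ^ 2 * V.A j h x

theorem gooda_coeff_rec (c d : ℂ) (hc : c ≠ 0) (hd : d ≠ 0) (K : ℕ) (Z P : ℂ[X])
    (al : PowerSeries ℂ) (hZ : Z = C c * X ^ K * (X ^ 2 - C d))
    (hP : (Z : PowerSeries ℂ) * al = (P : PowerSeries ℂ)) (j : ℕ) (hj : P.natDegree < K + j + 2) :
    PowerSeries.coeff (j + 2) al = d⁻¹ * PowerSeries.coeff j al := by
  have h1 : (Z : PowerSeries ℂ) * al = PowerSeries.X ^ K * (PowerSeries.X ^ 2 *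
      (PowerSeries.C c * al) - PowerSeries.C (c * d) * al) := by
    rw [hZ, Polynomial.coe_mul, Polynomial.coe_mul, Polynomial.coe_sub, Polynomial.coe_pow,
      Polynomial.coe_pow, Polynomial.coe_C, Polynomial.coe_C, Polynomial.coe_X, map_mul]
    ring
  have h2 : PowerSeries.coeff (j + 2 + K) ((Z : PowerSeries ℂ) * al) = 0 := by
    rw [hP, Polynomial.coeff_coe]
    exact Polynomial.coeff_eq_zero_of_natDegree_lt (by omega)
  rw [h1, PowerSeries.coeff_X_pow_mul, map_sub, PowerSeries.coeff_X_pow_mul,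
    PowerSeries.coeff_C_mul, PowerSeries.coeff_C_mul] at h2
  have h3 : c * (PowerSeries.coeff j al - d * PowerSeries.coeff (j + 2) al) = 0 := by
    rw [← h2]
    ring
  rcases mul_eq_zero.1 h3 with h4 | h4
  · exact absurd h4 hc
  · rw [sub_eq_zero] at h4
    rw [h4]
    field_simp

theorem gooda_eh_one (I : ID) (N : ℕ) (hN : I.n = 2 * N) (hN1 : 1 ≤ N) (x : V2) :
    eh I N 1 x = C (I.f 2 0 x) * X ^ (N - 1) - C ((starRingEnd ℂ) (I.f 2 0 x)) * X ^ (N + 1) := by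
  unfold eh
  have hsub : ({N - 1, N + 1} : Finset ℕ) ⊆ Finset.range (2 * N + 1) := by
    intro t ht
    rw [Finset.mem_insert, Finset.mem_singleton] at ht
    rw [Finset.mem_range]
    omega
  rw [← Finset.sum_subset hsub]
  · rw [Finset.sum_pair (by omega)]
    have e1 : eps I 1 ((N : ℤ) - (N - 1 : ℕ)) x = I.f 2 0 x := by
      have h1 : (N : ℤ) - (N - 1 : ℕ) = 1 := by omega
      rw [h1]
      unfold eps
      norm_num
    have e2 : eps I 1 ((N : ℤ) - (N + 1 : ℕ)) x = -(starRingEnd ℂ) (I.f 2 0 x) := by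
      have h1 : (N : ℤ) - (N + 1 : ℕ) = -1 := by omega
      rw [h1]
      unfold eps
      rw [← I.conj 2 0 x]
      norm_num
    rw [e1, e2, C_neg]
    ring
  · intro t ht ht2
    rw [Finset.mem_range] at ht
    rw [Finset.mem_insert, Finset.mem_singleton, not_or] at ht2
    have h0 : eps I 1 ((N : ℤ) - t) x = 0 := by
      by_cases h : t = N
      · subst h
        unfold eps
        simp
      · apply eps_zero I N hN
        right
        left
        rw [lt_abs]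
        omega
    rw [h0, C_0, zero_mul]

/-- TASK GoodA (1).  If `w^K (w² - ω²)` times `al` and `al'` are polynomials then `GC` holds with
`θ = ω⁻²`.

Proof.  The coefficient of `w^(K+j+2)` of `w^K (w² - ω²) al` is `al_j - ω² al_{j+2}`, which vanishes
for large `j` because the product is a polynomial (`c ≠ 0`).  So `al_{j+2} = θ al_j`,
`al'_{j+2} = θ al'_j` for large `j`, and `A_{j+2} = θ l² A_j` for large `j` by `hA`.  Now `A_rec` and
`A_01`. -/
theorem GC_of_poly (I : ID) (N : ℕ) (hN : I.n = 2 * N) (V : Uni I) (M : ℕ) (pa : ℂ[X])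
    (hM : 1 ≤ M) (hMN : M ≤ N) (hpa : pa ≠ 0)
    (htop : ∀ (h : ℝ) (x : V2), Bt I h M x = pa.eval (h : ℂ))
    (hbig : ∀ (k : ℤ) (h : ℝ) (x : V2), (M : ℤ) < k → Bt I h k x = 0)
    (x : V2) (al al' : PowerSeries ℂ)
    (hA : ∀ (j : ℕ) (h : ℝ), V.A j h x =
      (I.ell h x : ℂ) ^ j * (PowerSeries.coeff j al + (I.ell h x : ℂ) * PowerSeries.coeff j al'))
    (c ω : ℂ) (hc : c ≠ 0) (hω : ‖ω‖ = 1) (K : ℕ) (Z P P' : ℂ[X])
    (hZ : Z = C c * X ^ K * (X ^ 2 - C (ω ^ 2)))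
    (hP : (Z : PowerSeries ℂ) * al = (P : PowerSeries ℂ))
    (hP' : (Z : PowerSeries ℂ) * al' = (P' : PowerSeries ℂ)) :
    ∃ θ, GC I V x θ := by
  have hω0 : ω ≠ 0 := by
    intro h0
    rw [h0, norm_zero] at hω
    exact zero_ne_one hω
  have hω2 : ω ^ 2 ≠ 0 := pow_ne_zero 2 hω0
  set θ : ℂ := (ω ^ 2)⁻¹ with hθ
  have hθ1 : ‖θ‖ = 1 := by
    rw [hθ, norm_inv, norm_pow, hω, one_pow, inv_one]
  have hr1 : ∀ j, P.natDegree ≤ j → PowerSeries.coeff (j + 2) al = θ * PowerSeries.coeff j al := by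
    intro j hj
    exact gooda_coeff_rec c (ω ^ 2) hc hω2 K Z P al hZ hP j (by omega)
  have hr2 : ∀ j, P'.natDegree ≤ j →
      PowerSeries.coeff (j + 2) al' = θ * PowerSeries.coeff j al' := by
    intro j hj
    exact gooda_coeff_rec c (ω ^ 2) hc hω2 K Z P' al' hZ hP' j (by omega)
  have hrec : ∀ j (h : ℝ), V.A (j + 2) h x = θ * (I.ell h x : ℂ) ^ 2 * V.A j h x := by
    refine A_rec I N hN V M pa hM hMN hpa htop hbig x θ (max P.natDegree P'.natDegree) ?_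
    intro j hj h
    rw [hA, hA, hr1 j (le_trans (le_max_left _ _) hj), hr2 j (le_trans (le_max_right _ _) hj),
      pow_add]
    ring
  refine ⟨θ, hθ1, fun h => ?_⟩
  have h01 := A_01 I N hN V M pa hM hMN hpa htop hbig x θ hrec h
  exact ⟨h01.2, h01.1, fun j => hrec j h⟩

/-- TASK GoodA (2).  The points with `f_20 ≠ 0`.

Proof.  `e_1(x) = f_20 w^(N-1) - conj(f_20) w^(N+1) = c w^(N-1) (w² - ω²)` with `c = - conj f_20`,
`ω² = f_20 / conj f_20` (choose a square root), `‖ω‖ = 1` (`eps 1 1 = f_{2,0}`,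
`eps 1 (-1) = - f_{0,2}`, `I.conj`, all other `eps 1 k` are `0`).  `A_lin` with `J = 1` (`e_0 = 0`, no
condition on `ν`), then `urec`, `den` with `J = 1`: `D ∣ e_1`, so `e_1 al`, `e_1 al'` are
polynomials.  Apply `GC_of_poly` with `Z = e_1`. -/
theorem good_J1 (I : ID) (N : ℕ) (hN : I.n = 2 * N) (V : Uni I) (M : ℕ) (pa : ℂ[X])
    (hM : 1 ≤ M) (hMN : M ≤ N) (hpa : pa ≠ 0)
    (htop : ∀ (h : ℝ) (x : V2), Bt I h M x = pa.eval (h : ℂ))
    (hbig : ∀ (k : ℤ) (h : ℝ) (x : V2), (M : ℤ) < k → Bt I h k x = 0)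
    (x : V2) (h20 : eh I N 1 x ≠ 0) : ∃ θ, GC I V x θ := by
  have hN1 : 1 ≤ N := hM.trans hMN
  have he := gooda_eh_one I N hN hN1 x
  set f : ℂ := I.f 2 0 x with hf
  have hf0 : f ≠ 0 := by
    intro h0
    apply h20
    rw [he, h0]
    simp
  have hnf : (‖f‖ : ℂ) ≠ 0 := by
    rw [Complex.ofReal_ne_zero]
    exact norm_ne_zero_iff.2 hf0
  have hcf : (starRingEnd ℂ) f ≠ 0 := by
    rw [Ne, map_eq_zero]
    exact hf0
  set ω : ℂ := f / (‖f‖ : ℂ) with hω
  have hω1 : ‖ω‖ = 1 := by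
    rw [hω, norm_div, Complex.norm_real, norm_norm, div_self (norm_ne_zero_iff.2 hf0)]
  have hω2 : (starRingEnd ℂ) f * ω ^ 2 = f := by
    have h1 : (starRingEnd ℂ) f * f = (‖f‖ : ℂ) ^ 2 := by
      rw [Complex.conj_mul']
    rw [hω, div_pow]
    have h5 : (starRingEnd ℂ) f * (f ^ 2 / (‖f‖ : ℂ) ^ 2)
        = ((starRingEnd ℂ) f * f) * f / (‖f‖ : ℂ) ^ 2 := by ring
    rw [h5, h1, mul_div_assoc, mul_div_cancel₀]
    exact pow_ne_zero 2 hnf
  have hZ : eh I N 1 x = C (-(starRingEnd ℂ) f) * X ^ (N - 1) * (X ^ 2 - C (ω ^ 2)) := by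
    have h2 : N + 1 = (N - 1) + 2 := by omega
    rw [he, h2, pow_add]
    nth_rewrite 1 [← hω2]
    rw [C_mul, C_neg]
    ring
  have hJ : ∀ w : ℂ, ‖w‖ = 1 / 2 → (eh I N 1 x).eval w ≠ 0 := by
    intro w hw
    rw [hZ]
    simp only [eval_mul, eval_C, eval_pow, eval_X, eval_sub]
    have hw0 : w ≠ 0 := by
      intro h0
      rw [h0, norm_zero] at hw
      norm_num at hw
    refine mul_ne_zero (mul_ne_zero (neg_ne_zero.2 hcf) (pow_ne_zero _ hw0)) ?_
    intro h0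
    have h1 : w ^ 2 = ω ^ 2 := sub_eq_zero.1 h0
    have h2 := congrArg norm h1
    rw [norm_pow, norm_pow, hw, hω1] at h2
    norm_num at h2
  have hlow : ∀ i, i < 1 → eh I N i x = 0 := by
    intro i hi
    exact eh_zero I N hN i x (Or.inl (by omega))
  obtain ⟨al, al', hA⟩ := A_lin I N hN V M pa hM hMN hpa htop hbig x 1 le_rfl hlow hJ
    (fun i hi => by omega)
  have hu := urec I N hN V x al al' hA
  obtain ⟨D, P, P', _, hP, hP', hD, _⟩ := den (fun i => eh I N i x) (fun i => nh I N i x) 1 N le_rfl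
    hlow h20 (fun i hi => eh_zero I N hN i x (Or.inr hi)) al al' hu
  obtain ⟨q, hq⟩ := hD 1
  have hq' : eh I N 1 x = D * q := hq
  refine GC_of_poly I N hN V M pa hM hMN hpa htop hbig x al al' hA (-(starRingEnd ℂ) f) ω
    (neg_ne_zero.2 hcf) hω1 (N - 1) (eh I N 1 x) (q * P) (q * P') hZ ?_ ?_
  · rw [hq', Polynomial.coe_mul, Polynomial.coe_mul, ← hP]
    ring
  · rw [hq', Polynomial.coe_mul, Polynomial.coe_mul, ← hP']
    ring

end Pool.W4b1b5d.E
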