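import Pool.Agent.W_4b1b5d_h78.LowE
import Pool.Agent.W_4b1b5d_h3.Lowest

set_option autoImplicit false

namespace Pool.W4b1b5d.E

open Pool.W4b1b5d.H3 Polynomial

theorem LowF_coeff_sum (a : ℕ → ℂ) (n k : ℕ) :
    (∑ t ∈ Finset.range n, C (a t) * X ^ t : Polynomial ℂ).coeff k = if k < n then a k else 0 := by
  rw [Polynomial.finsetSum_coeff]
  simp only [Polynomial.coeff_C_mul_X_pow]
  rw [Finset.sum_ite_eq]
  simp only [Finset.mem_range]

theorem LowF_rec (J : ℕ) (ω : ℂ) (φ : ℤ → ℂ)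
    (hrec : ∀ m : ℤ, -(J : ℤ) ≤ m → m < J →
      ((J : ℂ) + m + 1) * φ (m + 1) + ((J : ℂ) - m) * ω * φ m = 0) (u : ℕ) (hu : u ≤ 2 * J) :
    φ (-(J : ℤ) + u) = φ (-(J : ℤ)) * ((-ω) ^ u * ((2 * J).choose u : ℕ)) := by
  induction u with
  | zero => simp
  | succ u ih =>
    have ih' := ih (by omega)
    have h1 := hrec (-(J : ℤ) + u) (by omega) (by omega)
    rw [ih'] at h1
    have h2 : -(J : ℤ) + ((u + 1 : ℕ) : ℤ) = -(J : ℤ) + u + 1 := by
      push_cast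
      ring
    rw [h2]
    have h3 : (((2 * J).choose (u + 1) : ℕ) : ℂ) * ((u : ℂ) + 1) =
        (((2 * J).choose u : ℕ) : ℂ) * (2 * (J : ℂ) - u) := by
      have h4 := Nat.choose_succ_right_eq (2 * J) u
      have h5 : (((2 * J).choose (u + 1) * (u + 1) : ℕ) : ℂ) =
          (((2 * J).choose u * (2 * J - u) : ℕ) : ℂ) := by rw [h4]
      rw [Nat.cast_mul, Nat.cast_mul, Nat.cast_sub (by omega)] at h5
      push_cast at h5
      exact h5
    have h6 : ((u : ℂ) + 1) ≠ 0 := by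
      have : ((u + 1 : ℕ) : ℂ) ≠ 0 := Nat.cast_ne_zero.mpr (by omega)
      push_cast at this
      exact this
    apply mul_left_cancel₀ h6
    push_cast at h1
    rw [pow_succ]
    linear_combination h1 - φ (-(J : ℤ)) * (-ω) ^ u * (-ω) * h3

/-- TASK LowF (1).  A recursion.  If `φ : ℤ → ℂ` satisfies
`(J+m+1) φ_{m+1} + (J-m) ω φ_m = 0` for `-J ≤ m < J`, then
`∑_t φ_{J-t} w^t = c (w - ω)^(2J)`, `c = φ_{-J}`.

Proof.  Let `Φ = ∑_{t ≤ 2J} φ_{J-t} w^t`.  With `m = J - t - 1`: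
`(2J - t) Φ_t + (t+1) ω Φ_{t+1} = 0`, and the same recursion holds for the coefficients of
`(w - ω)^(2J)` (it is `(w - ω) Φ' = 2J Φ`).  The difference `Δ = Φ - Φ_{2J} (w - ω)^(2J)` satisfies the
recursion and `Δ_{2J} = 0`, so by descending induction `Δ_t = 0` for all `t ≤ 2J`. -/
theorem phi_poly (J : ℕ) (ω : ℂ) (φ : ℤ → ℂ)
    (hrec : ∀ m : ℤ, -(J : ℤ) ≤ m → m < J →
      ((J : ℂ) + m + 1) * φ (m + 1) + ((J : ℂ) - m) * ω * φ m = 0) :
    ∑ t ∈ Finset.range (2 * J + 1), C (φ ((J : ℤ) - t)) * X ^ t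
      = C (φ (-(J : ℤ))) * (X - C ω) ^ (2 * J) := by
  ext n
  rw [LowF_coeff_sum (fun t => φ ((J : ℤ) - t)), Polynomial.coeff_C_mul]
  have h0 : (X - C ω : Polynomial ℂ) = X + C (-ω) := by
    rw [map_neg, sub_eq_add_neg]
  rw [h0, Polynomial.coeff_X_add_C_pow]
  by_cases hn : n < 2 * J + 1
  · rw [if_pos hn]
    have h1 := LowF_rec J ω φ hrec (2 * J - n) (by omega)
    have h2 : -(J : ℤ) + ((2 * J - n : ℕ) : ℤ) = (J : ℤ) - n := by
      rw [Nat.cast_sub (by omega)]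
      push_cast
      ring
    rw [h2, Nat.choose_symm (by omega)] at h1
    exact h1
  · rw [if_neg hn, Nat.choose_eq_zero_of_lt (by omega)]
    simp

theorem LowF_der (n : ℕ) (a : ℕ → ℂ) (r : ℂ) :
    (∑ t ∈ Finset.range n, C ((r - t) * a t) * X ^ t : Polynomial ℂ) =
      C r * (∑ t ∈ Finset.range n, C (a t) * X ^ t) -
        X * derivative (∑ t ∈ Finset.range n, C (a t) * X ^ t) := by
  rw [Polynomial.derivative_sum, Finset.mul_sum, Finset.mul_sum, ← Finset.sum_sub_distrib]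
  refine Finset.sum_congr rfl fun t _ => ?_
  rw [Polynomial.derivative_C_mul_X_pow]
  rcases Nat.eq_zero_or_pos t with h | h
  · subst h
    simp
  · have h1 : (X : Polynomial ℂ) * (C (a t * (t : ℂ)) * X ^ (t - 1)) = C (a t * t) * X ^ t := by
      have h2 : (X : Polynomial ℂ) ^ t = X ^ (t - 1) * X := by
        rw [← pow_succ]
        congr 1
        omega
      rw [h2]
      ring
    rw [h1, ← mul_assoc, ← map_mul, ← sub_mul, ← map_sub]
    congr 2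
    ring

theorem LowF_conj_l0 (I : ID) (x : V2) (hdU : fderiv ℝ I.U x ≠ 0) :
    l0 I x ≠ 0 ∧ (starRingEnd ℂ) (l0 I x) = om I x * l0 I x := by
  have hd : DifferentiableAt ℝ I.U x := I.Usm.differentiable (by simp) x
  have h1 : ddr I.al I.U x ≠ 0 := ddr_ne I.al I.hal I.U x hd hdU
  have h2 : (I.mu x : ℂ) ≠ 0 := by
    exact_mod_cast (I.mupos x).ne'
  constructor
  · unfold l0
    exact div_ne_zero (neg_ne_zero.mpr h1) h2
  · unfold l0 om
    rw [map_div₀, map_neg, Complex.conj_ofReal]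
    field_simp

theorem LowF_T (I : ID) (N : ℕ) (hN : I.n = 2 * N) (S : Set V2) (hS : IsOpen S) (j : ℕ)
    (hj : 1 ≤ j) (hlow : ∀ i, i < j + 1 → ∀ y ∈ S, eh I N i y = 0) (x : V2)
    (hx : x ∈ S) (hdU : fderiv ℝ I.U x ≠ 0) :
    ∃ τ : ℝ, ∀ m : ℤ, ((j : ℂ) + 1 + m + 1) * l0 I x *
        (I.f ((j : ℤ) + 1 + (m + 1)) ((j : ℤ) + 1 - (m + 1)) x +
          if m + 1 = 0 then (τ : ℂ) / ((j : ℂ) + 1) else 0) +
      ((j : ℂ) + 1 - m) * (starRingEnd ℂ) (l0 I x) *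
        (I.f ((j : ℤ) + 1 + m) ((j : ℤ) + 1 - m) x +
          if m = 0 then (τ : ℂ) / ((j : ℂ) + 1) else 0) = 0 := by
  obtain ⟨τ, hτ⟩ := low_real I N hN S hS (j + 1) (by omega) hlow x hx hdU
  have e1 : (((j + 1 : ℕ) : ℤ) - 1) = (j : ℤ) := by
    push_cast
    ring
  have e2 : (((j + 1 : ℕ) : ℂ) - 1) = (j : ℂ) := by
    push_cast
    ring
  rw [e1, e2] at hτ
  have hj1 : ((j : ℂ) + 1) ≠ 0 := by
    have : ((j + 1 : ℕ) : ℂ) ≠ 0 := Nat.cast_ne_zero.mpr (by omega)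
    push_cast at this
    exact this
  -- the functions off the diagonal vanish
  have hz : ∀ k : ℤ, k ≠ 0 → ∀ y ∈ S, I.f ((j : ℤ) + k) ((j : ℤ) - k) y = 0 :=
    fun k hk y hy => f_zero_of_eh I N hN j y (hlow j (by omega) y hy) k hk
  have hdz : ∀ (a : Fin 2 → ℂ) (k : ℤ), k ≠ 0 →
      dd a (I.f ((j : ℤ) + k) ((j : ℤ) - k)) x = 0 :=
    fun a k hk => dd_zero_of_open a hS (hz k hk) x hx
  have hconj : ∀ y, (starRingEnd ℂ) (I.f (j : ℤ) (j : ℤ) y) = I.f (j : ℤ) (j : ℤ) y :=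
    fun y => (I.conj (j : ℤ) (j : ℤ) y).symm
  have hdc : dd (cj I.al) (I.f (j : ℤ) (j : ℤ)) x =
      (starRingEnd ℂ) (dd I.al (I.f (j : ℤ) (j : ℤ)) x) := by
    have h1 := dd_conj I.al (f := I.f (j : ℤ) (j : ℤ)) (x := x)
      ((I.fsm (j : ℤ) (j : ℤ)).differentiable (by simp) x)
    have h2 : (fun y => (starRingEnd ℂ) (I.f (j : ℤ) (j : ℤ) y)) = I.f (j : ℤ) (j : ℤ) :=
      funext hconj
    rw [h2] at h1
    exact h1
  have hτc : dd (cj I.al) (I.f (j : ℤ) (j : ℤ)) x +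
      (j : ℂ) * (starRingEnd ℂ) (l1 I x) * I.f (j : ℤ) (j : ℤ) x =
        (τ : ℂ) * (starRingEnd ℂ) (l0 I x) := by
    have h1 := congrArg (starRingEnd ℂ) hτ
    rw [map_add, map_mul, map_mul, map_mul, Complex.conj_ofReal, hconj, map_natCast, ← hdc] at h1
    exact h1
  refine ⟨τ, fun m => ?_⟩
  have hT := T_rel I j m x
  unfold nn nb eps at hT
  have c1 : ((j + 1 : ℕ) : ℤ) = (j : ℤ) + 1 := by push_cast; ring
  rw [c1] at hT
  by_cases h0 : m = 0
  · subst h0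
    rw [hdz I.al (0 + 1) (by norm_num), hz (0 + 1) (by norm_num) x hx] at hT
    simp only [zero_add, add_zero, sub_zero, Int.cast_zero, Int.cast_one, mul_zero,
      one_ne_zero, if_false, if_true] at hT ⊢
    linear_combination hT + (-(1 : ℂ)) * hτc + (τ : ℂ) * (starRingEnd ℂ) (l0 I x) *
      (mul_div_cancel₀ (1 : ℂ) hj1)
  · by_cases h1 : m = -1
    · subst h1
      rw [hdz (cj I.al) (-1) (by norm_num), hz (-1) (by norm_num) x hx] at hT
      have e3 : (-1 + 1 : ℤ) = 0 := by norm_num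
      have e4 : ((-1 : ℤ) = 0) = False := by simp
      rw [e3] at hT ⊢
      simp only [zero_add, add_zero, sub_zero, Int.cast_zero, Int.cast_neg, Int.cast_one,
        mul_zero, zero_mul, e4, if_false, if_true] at hT ⊢
      linear_combination hT + (-(1 : ℂ)) * hτ + (τ : ℂ) * l0 I x * (mul_div_cancel₀ (1 : ℂ) hj1)
    · have h2 : m + 1 ≠ 0 := fun h => h1 (by omega)
      rw [hdz I.al (m + 1) h2, hdz (cj I.al) m h0, hz (m + 1) h2 x hx, hz m h0 x hx] at hT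
      rw [if_neg h0, if_neg h2]
      push_cast at hT ⊢
      linear_combination hT

/-- TASK LowF (2).  The explicit form of `e_J`.  Let `2 ≤ J ≤ N`, `e_i = 0` on the open set `S` for
`i < J`, `x ∈ S`, `dU(x) ≠ 0`.  Then `e_J(x) = c w^(N-J) (w - om)^(2J-1) (w + om)`.

Proof.  Write `φ_k = f_{J+k,J-k}(x)`.  `T_rel I (J-1) m x`: the functions `f_{J-1+k,J-1-k}`, `k ≠ 0`,
vanish on `S`, with their derivatives, and `eps (J-1) k = 0`.  So for `m ≠ 0, -1`: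
`l0 (J-1-m) φ_{m+1} + conj l0 (J-m) φ_m + 2 l0 (m+1) φ_{m+1} = 0`, i.e.
`(J+m+1) l0 φ_{m+1} + (J-m) conj(l0) φ_m = 0`.
For `m = 0` there is in addition `conj c_*`, and for `m = -1` there is `c_*`, where
`c_* = dd f_{J-1,J-1} + (J-1) l1 f_{J-1,J-1} = τ l0` (`low_real`).  So with
`φ'_0 = φ_0 + τ/J`, `φ'_k = φ_k` for `k ≠ 0`, the recursion
`(J+m+1) l0 φ'_{m+1} + (J-m) conj(l0) φ'_m = 0` holds for all `m`, and `conj(l0)/l0 = om` (`l0 = - dd U/mu`, `mu` real), `l0 ≠ 0`.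
By `phi_poly` `Φ := ∑_t φ'_{J-t} w^t = c (w - om)^(2J)`.
`e_J = ∑_k k φ'_k w^(N-k) = w^(N-J) (J Φ - w Φ') = w^(N-J) c (w - om)^(2J-1) (J (w - om) - 2J w)
= - J c w^(N-J) (w - om)^(2J-1) (w + om)`. -/
theorem eh_form (I : ID) (N : ℕ) (hN : I.n = 2 * N) (S : Set V2) (hS : IsOpen S) (J : ℕ)
    (hJ : 2 ≤ J) (hJN : J ≤ N) (hlow : ∀ i, i < J → ∀ y ∈ S, eh I N i y = 0) (x : V2)
    (hx : x ∈ S) (hdU : fderiv ℝ I.U x ≠ 0) :
    ∃ c : ℂ, eh I N J x =
      C c * X ^ (N - J) * (X - C (om I x)) ^ (2 * J - 1) * (X + C (om I x)) := by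
  obtain ⟨j, rfl⟩ : ∃ j, J = j + 1 := ⟨J - 1, by omega⟩
  obtain ⟨τ, hτ⟩ := LowF_T I N hN S hS j (by omega) hlow x hx hdU
  obtain ⟨hl0, hcl⟩ := LowF_conj_l0 I x hdU
  obtain ⟨φ, hφ⟩ : ∃ φ : ℤ → ℂ, φ = fun k => I.f ((j : ℤ) + 1 + k) ((j : ℤ) + 1 - k) x +
      if k = 0 then (τ : ℂ) / ((j : ℂ) + 1) else 0 := ⟨_, rfl⟩
  have hphi := phi_poly (j + 1) (om I x) φ (by
    intro m _ _
    have h1 := hτ m
    rw [hcl] at h1
    apply mul_left_cancel₀ hl0
    rw [mul_zero, hφ]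
    push_cast
    linear_combination h1)
  refine ⟨-(((j + 1 : ℕ) : ℂ)) * φ (-((j + 1 : ℕ) : ℤ)), ?_⟩
  have hsum := LowF_der (2 * (j + 1) + 1) (fun t => φ (((j + 1 : ℕ) : ℤ) - t)) ((j + 1 : ℕ) : ℂ)
  have heh : eh I N (j + 1) x = X ^ (N - (j + 1)) *
      ∑ t ∈ Finset.range (2 * (j + 1) + 1),
        C ((((j + 1 : ℕ) : ℂ) - t) * φ (((j + 1 : ℕ) : ℤ) - t)) * X ^ t := by
    ext n
    rw [Polynomial.coeff_X_pow_mul', LowF_coeff_sum (fun t => (((j + 1 : ℕ) : ℂ) - t) *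
      φ (((j + 1 : ℕ) : ℤ) - t))]
    unfold eh
    rw [LowF_coeff_sum (fun t => eps I (j + 1) ((N : ℤ) - t) x)]
    have hepsφ : ∀ k : ℤ, eps I (j + 1) k x = (k : ℂ) * φ k := by
      intro k
      rw [hφ]
      unfold eps
      have c1 : ((j + 1 : ℕ) : ℤ) = (j : ℤ) + 1 := by push_cast; ring
      rw [c1]
      by_cases hk : k = 0
      · subst hk
        simp
      · simp only [if_neg hk, add_zero]
    by_cases h1 : N - (j + 1) ≤ n
    · rw [if_pos h1]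
      by_cases h2 : n - (N - (j + 1)) < 2 * (j + 1) + 1
      · rw [if_pos h2, if_pos (by omega), hepsφ]
        have h3 : ((N : ℤ) - n) = ((j + 1 : ℕ) : ℤ) - ((n - (N - (j + 1)) : ℕ) : ℤ) := by
          omega
        rw [h3]
        push_cast
        ring
      · rw [if_neg h2]
        split_ifs with h3
        · refine eps_zero I N hN (j + 1) _ x (Or.inr (Or.inl ?_))
          rw [lt_abs]
          right
          omega
        · rfl
    · rw [if_neg h1]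
      split_ifs with h3
      · refine eps_zero I N hN (j + 1) _ x (Or.inr (Or.inl ?_))
        rw [lt_abs]
        left
        omega
      · rfl
  rw [heh, hsum, hphi, Polynomial.derivative_C_mul, Polynomial.derivative_X_sub_C_pow]
  have h5 : (X - C (om I x) : Polynomial ℂ) ^ (2 * (j + 1)) =
      (X - C (om I x)) ^ (2 * (j + 1) - 1) * (X - C (om I x)) := by
    rw [← pow_succ]
    congr 1
  rw [h5]
  simp only [map_mul, map_neg, Nat.cast_mul, Nat.cast_ofNat, Polynomial.C_ofNat]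
  ring

/-- TASK LowF (3).  `‖om‖ = 1` where `dU ≠ 0` (`ddr_ne` of `Lowest`). -/
theorem om_norm (I : ID) (x : V2) (hdU : fderiv ℝ I.U x ≠ 0) : ‖om I x‖ = 1 := by
  have hd : DifferentiableAt ℝ I.U x := I.Usm.differentiable (by simp) x
  have h1 : ddr I.al I.U x ≠ 0 := ddr_ne I.al I.hal I.U x hd hdU
  unfold om
  rw [norm_div, Complex.norm_conj, div_self (norm_ne_zero_iff.mpr h1)]

end Pool.W4b1b5d.E
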