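import Pool.Agent.W_4b1b5d_h78.Defs
import Pool.Agent.W_4b1b5d_h3.BetaA

set_option autoImplicit false

namespace Pool.W4b1b5d.E

open Pool.W4b1b5d.H3 Polynomial

/-- `(X - C ω) ^ k ∣ p` in terms of Hasse derivatives. -/
theorem MultA_iff (p : ℂ[X]) (ω : ℂ) (k : ℕ) :
    (X - C ω) ^ k ∣ p ↔ ∀ r < k, (hasseDeriv r p).eval ω = 0 := by
  rw [X_sub_C_pow_dvd_iff, X_pow_dvd_iff]
  have h : p.comp (X + C ω) = taylor ω p := rfl
  rw [h]
  simp only [taylor_coeff]

theorem MultA_eval (n r : ℕ) (c : ℕ → ℂ) (ω : ℂ) :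
    (hasseDeriv r (∑ t ∈ Finset.range n, C (c t) * X ^ t)).eval ω =
      ∑ t ∈ Finset.range n, c t * ((t.choose r : ℂ) * ω ^ (t - r)) := by
  rw [map_sum, eval_finsetSum]
  refine Finset.sum_congr rfl fun t _ => ?_
  rw [C_mul_X_pow_eq_monomial, hasseDeriv_monomial, eval_monomial]
  ring

/-- TASK MultA (1).  If `(w - ω(y))^k` divides the polynomial `∑_t c_t(y) w^t` for all `y` near `x`,
then `(w - ω(x))^(k-1)` divides `∑_t dd a c_t(x) w^t`.

Proof.  `(X - C ω)^k ∣ P` iff the values at `ω` of the derivatives (`Polynomial.hasseDeriv r`, or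
`iterate derivative`) of order `r < k` vanish (Taylor expansion, `Polynomial.taylor`,
`Polynomial.sum_taylor_eq`,
or `Polynomial.lt_rootMultiplicity_iff_isRoot_iterate_derivative`).  For `r < k`, the function
`y ↦ (P_y^{(r)})(ω(y)) = ∑_t c_t(y) (t)_r ω(y)^(t-r)` vanishes near `x`; its `dd a` at `x` is
`(dd P)^{(r)}(ω) + P^{(r+1)}(ω) dd a ω = 0` (`dd_sum`, `dd_mul`, `dd_pow`).  For `r < k - 1` the second
term is zero. -/
theorem dvd_dd (a : Fin 2 → ℂ) (n k : ℕ) (c : ℕ → V2 → ℂ) (ω : V2 → ℂ) (x : V2)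
    (hc : ∀ t, DifferentiableAt ℝ (c t) x) (hω : DifferentiableAt ℝ ω x)
    (h : ∀ᶠ y in nhds x, (X - C (ω y)) ^ k ∣ ∑ t ∈ Finset.range n, C (c t y) * X ^ t) :
    (X - C (ω x)) ^ (k - 1) ∣ ∑ t ∈ Finset.range n, C (dd a (c t) x) * X ^ t := by
  rw [MultA_iff]
  intro r hr
  rw [MultA_eval]
  set E : ℕ → V2 → ℂ := fun r y =>
    ∑ t ∈ Finset.range n, c t y * ((t.choose r : ℂ) * ω y ^ (t - r)) with hE
  have h0 : ∀ r < k, ∀ᶠ y in nhds x, E r y = 0 := by
    intro r hr
    filter_upwards [h] with y hy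
    rw [MultA_iff] at hy
    have h1 := hy r hr
    rw [MultA_eval] at h1
    exact h1
  have h1 : E (r + 1) x = 0 := (h0 (r + 1) (by omega)).self_of_nhds
  have h2 : dd a (E r) x = 0 := by
    have h3 : E r =ᶠ[nhds x] fun _ => 0 := h0 r (by omega)
    unfold dd
    rw [h3.fderiv_eq]
    simp
  have hpw : ∀ t, DifferentiableAt ℝ (fun y => (t.choose r : ℂ) * ω y ^ (t - r)) x := fun t =>
    (hω.fun_pow (t - r)).const_mul _
  have h4 : dd a (E r) x = ∑ t ∈ Finset.range n, (dd a (c t) x * ((t.choose r : ℂ) * ω x ^ (t - r)) +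
      ((r : ℂ) + 1) * dd a ω x * (c t x * ((t.choose (r + 1) : ℂ) * ω x ^ (t - (r + 1))))) := by
    rw [hE]
    rw [dd_sum a (Finset.range n) (fun t y => c t y * ((t.choose r : ℂ) * ω y ^ (t - r)))
      (fun t _ => (hc t).fun_mul (hpw t))]
    refine Finset.sum_congr rfl fun t _ => ?_
    rw [dd_mul a (hc t) (hpw t)]
    have h5 : dd a (fun y => (t.choose r : ℂ) * ω y ^ (t - r)) x =
        (t.choose r : ℂ) * (((t - r : ℕ) : ℂ) * ω x ^ (t - r - 1) * dd a ω x) := by
      rw [dd_mul a (differentiableAt_const _) (hω.fun_pow (t - r)), BetaA_const, zero_mul,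
        zero_add, dd_pow a hω]
    rw [h5]
    have h6 : ((t.choose (r + 1) : ℕ) : ℂ) * ((r : ℂ) + 1) =
        ((t.choose r : ℕ) : ℂ) * ((t - r : ℕ) : ℂ) := by
      have := Nat.choose_succ_right_eq t r
      exact_mod_cast this
    have h7 : t - r - 1 = t - (r + 1) := by omega
    rw [h7]
    linear_combination (-(c t x * ω x ^ (t - (r + 1)) * dd a ω x)) * h6
  rw [h4, Finset.sum_add_distrib, ← Finset.mul_sum] at h2
  have h8 : ∑ t ∈ Finset.range n, (c t x * ((t.choose (r + 1) : ℂ) * ω x ^ (t - (r + 1)))) = 0 := h1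
  rw [h8, mul_zero, add_zero] at h2
  exact h2

/-- TASK MultA (2).  If `(w - ω)^k`, divides `N p - w p'` (`ω ≠ 0`) then `(w - ω)^(k+1)` divides
`p - c w^N` for some constant `c`.

Proof.  `c = p(ω)/ω^N`, `q = p - c w^N`; `N q - w q' = N p - w p'` and `q(ω) = 0`.  If `q = 0` done.
Otherwise let `r ≥ 1` be the multiplicity of `ω` in `q`: `q = (w - ω)^r s`, `s(ω) ≠ 0`,
`N q - w q' = (w - ω)^(r-1) (N (w - ω) s - r w s - w (w - ω) s')`, and the last factor is
`- r ω s(ω) ≠ 0` at `ω`.  So `k ≤ r - 1`. -/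
theorem dvd_euler (N k : ℕ) (p : ℂ[X]) (ω : ℂ) (hω : ω ≠ 0)
    (h : (X - C ω) ^ k ∣ C (N : ℂ) * p - X * derivative p) :
    ∃ c : ℂ, (X - C ω) ^ (k + 1) ∣ p - C c * X ^ N := by
  refine ⟨p.eval ω / ω ^ N, ?_⟩
  set c := p.eval ω / ω ^ N with hc
  set q := p - C c * X ^ N with hq
  have hq0 : q.eval ω = 0 := by
    rw [hq, eval_sub, eval_mul, eval_C, eval_pow, eval_X, hc,
      div_mul_cancel₀ _ (pow_ne_zero N hω), sub_self]
  have hE : C (N : ℂ) * q - X * derivative q = C (N : ℂ) * p - X * derivative p := by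
    have h1 : X * derivative (C c * X ^ N : ℂ[X]) = C (N : ℂ) * (C c * X ^ N) := by
      rw [derivative_C_mul, derivative_X_pow]
      rcases N with _ | N
      · simp
      · rw [Nat.add_sub_cancel, pow_succ]
        ring
    rw [hq, derivative_sub, mul_sub, mul_sub, h1]
    ring
  rw [← hE] at h
  have key : ∀ j, j ≤ k → (X - C ω) ^ (j + 1) ∣ q := by
    intro j
    induction j with
    | zero =>
      intro _
      rw [zero_add, pow_one]
      exact dvd_iff_isRoot.2 hq0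
    | succ j ih =>
      intro hj
      obtain ⟨s, hs⟩ := ih (by omega)
      have h1 : C (N : ℂ) * q - X * derivative q = (X - C ω) ^ j *
          (C (N : ℂ) * (X - C ω) * s - C ((j : ℂ) + 1) * X * s -
            X * (X - C ω) * derivative s) := by
        have h2 : derivative ((X - C ω : ℂ[X]) ^ (j + 1)) = C ((j : ℂ) + 1) * (X - C ω) ^ j := by
          rw [derivative_X_sub_C_pow, Nat.add_sub_cancel]
          push_cast
          rfl
        rw [hs, derivative_mul, h2, pow_succ]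
        ring
      have h3 : (X - C ω) ^ (j + 1) ∣ C (N : ℂ) * q - X * derivative q :=
        (pow_dvd_pow _ hj).trans h
      rw [h1, pow_succ] at h3
      have h4 : (X - C ω) ∣ (C (N : ℂ) * (X - C ω) * s - C ((j : ℂ) + 1) * X * s -
            X * (X - C ω) * derivative s) :=
        (mul_dvd_mul_iff_left (pow_ne_zero j (X_sub_C_ne_zero ω))).1 h3
      have h5 := dvd_iff_isRoot.1 h4
      rw [IsRoot.def] at h5
      simp only [eval_sub, eval_mul, eval_C, eval_X, sub_self, mul_zero, zero_mul, sub_zero,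
        zero_sub, neg_eq_zero] at h5
      have h6 : s.eval ω = 0 := by
        have h7 : ((j : ℂ) + 1) * ω ≠ 0 := mul_ne_zero (by exact_mod_cast Nat.succ_ne_zero j) hω
        exact (mul_eq_zero.1 h5).resolve_left h7
      obtain ⟨s', hs'⟩ := dvd_iff_isRoot.2 h6
      rw [hs, hs']
      exact ⟨s', by rw [pow_succ (X - C ω) (j + 1)]; ring⟩
  exact key k le_rfl

/-- TASK MultA (3).  If `(w - ω)^2` divides `w^N (s w + t)` and `ω ≠ 0` then `s = 0` and `t = 0`. -/
theorem lin_zero (N : ℕ) (s t ω : ℂ) (hω : ω ≠ 0)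
    (h : (X - C ω) ^ 2 ∣ X ^ N * (C s * X + C t)) : s = 0 ∧ t = 0 := by
  have h1 : s * ω + t = 0 := by
    have h2 : (X - C ω) ∣ X ^ N * (C s * X + C t) := (dvd_pow_self _ two_ne_zero).trans h
    have h3 := dvd_iff_isRoot.1 h2
    rw [IsRoot.def] at h3
    simp only [eval_mul, eval_pow, eval_X, eval_add, eval_C] at h3
    exact (mul_eq_zero.1 h3).resolve_left (pow_ne_zero N hω)
  have h4 : (C s * X + C t : ℂ[X]) = (X - C ω) * C s := by
    have h5 : t = -(s * ω) := by linear_combination h1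
    rw [h5, C_neg, C_mul]
    ring
  rw [h4, sq, ← mul_assoc, mul_comm (X ^ N) (X - C ω), mul_assoc] at h
  have h5 := (mul_dvd_mul_iff_left (X_sub_C_ne_zero ω)).1 h
  have h6 := dvd_iff_isRoot.1 h5
  rw [IsRoot.def] at h6
  simp only [eval_mul, eval_pow, eval_X, eval_C] at h6
  have h7 : s = 0 := (mul_eq_zero.1 h6).resolve_left (pow_ne_zero N hω)
  refine ⟨h7, ?_⟩
  rw [h7, zero_mul, zero_add] at h1
  exact h1

end Pool.W4b1b5d.E
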