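import Pool.Agent.W_4b1b5d_h78.LowE
import Pool.Agent.W_4b1b5d_h78.MultA

set_option autoImplicit false

namespace Pool.W4b1b5d.E

open Pool.W4b1b5d.H3 Polynomial

/-- polynomial with given coefficients -/
noncomputable def MultE_pl (n : ℕ) (c : ℕ → ℂ) : ℂ[X] := ∑ t ∈ Finset.range n, C (c t) * X ^ t

theorem MultE_coeff (n : ℕ) (c : ℕ → ℂ) (s : ℕ) :
    (MultE_pl n c).coeff s = if s < n then c s else 0 := by
  unfold MultE_pl
  simp only [Polynomial.finsetSum_coeff, Polynomial.coeff_C_mul, Polynomial.coeff_X_pow]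
  rw [Finset.sum_congr rfl (g := fun t => if t = s then c t else 0)
    (fun t _ => by by_cases h : s = t <;> simp [h, eq_comm])]
  rw [Finset.sum_ite_eq']
  simp

theorem MultE_ddr_ne (al : Fin 2 → ℂ) (hal : ((starRingEnd ℂ) (al 0) * al 1).im ≠ 0)
    (U : V2 → ℝ) (x : V2) (hU : DifferentiableAt ℝ U x) (h : fderiv ℝ U x ≠ 0) :
    ddr al U x ≠ 0 := by
  intro h0
  rw [ddr_eq al hU] at h0
  have h1 : (al 0).re * pd 0 U x + (al 1).re * pd 1 U x = 0 := by
    have := congrArg Complex.re h0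
    simpa [Complex.add_re, Complex.mul_re] using this
  have h2 : (al 0).im * pd 0 U x + (al 1).im * pd 1 U x = 0 := by
    have := congrArg Complex.im h0
    simpa [Complex.add_im, Complex.mul_im] using this
  have hD : (al 0).re * (al 1).im - (al 0).im * (al 1).re ≠ 0 := by
    intro h3
    apply hal
    simp only [Complex.mul_im, Complex.conj_re, Complex.conj_im]
    linarith
  have h4 : ((al 0).re * (al 1).im - (al 0).im * (al 1).re) * pd 0 U x = 0 := by
    linear_combination (al 1).im * h1 - (al 1).re * h2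
  have h5 : ((al 0).re * (al 1).im - (al 0).im * (al 1).re) * pd 1 U x = 0 := by
    linear_combination (al 0).re * h2 - (al 0).im * h1
  have h6 : pd 0 U x = 0 := by
    rcases mul_eq_zero.mp h4 with h | h
    · exact absurd h hD
    · exact h
  have h7 : pd 1 U x = 0 := by
    rcases mul_eq_zero.mp h5 with h | h
    · exact absurd h hD
    · exact h
  apply h
  ext v
  have h8 : v = ∑ i, v i • (Pi.single i 1 : V2) := by
    ext j
    simp [Finset.sum_apply, Pi.single_apply]
  rw [h8, map_sum, Fin.sum_univ_two, map_smul, map_smul]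
  unfold pd at h6 h7
  rw [h6, h7]
  simp

theorem MultE_om (I : ID) (x : V2) (h : fderiv ℝ I.U x ≠ 0) :
    DifferentiableAt ℝ (om I) x ∧ om I x ≠ 0 := by
  have hU : DifferentiableAt ℝ I.U x := I.Usm.differentiable (by simp) x
  have h0 := MultE_ddr_ne I.al I.hal I.U x hU h
  have h1 : DifferentiableAt ℝ (fun y => ddr I.al I.U y) x := by
    have h2 : ContDiff ℝ (⊤ : ℕ∞) (dd I.al (fun y => (I.U y : ℂ))) :=
      dd_contDiff I.al (Complex.ofRealCLM.contDiff.comp I.Usm)
    exact h2.differentiable (by simp) x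
  refine ⟨?_, ?_⟩
  · have h3 : DifferentiableAt ℝ (fun y => (starRingEnd ℂ) (ddr I.al I.U y)) x :=
      ((Complex.conjCLE : ℂ →L[ℝ] ℂ).differentiableAt).comp x h1
    have h4 : om I = fun y => (starRingEnd ℂ) (ddr I.al I.U y) * (ddr I.al I.U y)⁻¹ := by
      funext y
      exact div_eq_mul_inv _ _
    rw [h4]
    exact h3.fun_mul (h1.fun_inv h0)
  · unfold om
    exact div_ne_zero (by simpa using h0) h0

/-- `(X - ω)^k` is coprime to `X`. -/
theorem MultE_cancel (ω : ℂ) (hω : ω ≠ 0) (k : ℕ) (p : ℂ[X]) (h : (X - C ω) ^ k ∣ X * p) :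
    (X - C ω) ^ k ∣ p := by
  have h1 : IsCoprime (X - C ω) (X : ℂ[X]) := by
    have h2 := Polynomial.isCoprime_X_sub_C_of_isUnit_sub (R := ℂ) (a := ω) (b := 0)
      (by simpa using hω)
    simpa using h2
  exact (h1.pow_left).dvd_of_dvd_mul_left h

/-- coefficient functions of `g_i`. -/
noncomputable def MultE_gc (I : ID) (N i : ℕ) (t : ℕ) (x : V2) : ℂ :=
  I.f ((i : ℤ) + ((N : ℤ) - t)) ((i : ℤ) - ((N : ℤ) - t)) x

theorem MultE_a (I : ID) (N i : ℕ) (x : V2) :
    eh I N i x = C (N : ℂ) * MultE_pl (2 * N + 1) (fun t => MultE_gc I N i t x)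
      - X * derivative (MultE_pl (2 * N + 1) (fun t => MultE_gc I N i t x)) := by
  have h1 : eh I N i x = MultE_pl (2 * N + 1) (fun t => eps I i ((N : ℤ) - t) x) := rfl
  rw [h1]
  ext s
  rw [Polynomial.coeff_sub, Polynomial.coeff_C_mul, MultE_coeff, MultE_coeff]
  rcases s with _ | s
  · rw [Polynomial.coeff_X_mul_zero]
    simp [eps, MultE_gc]
  · rw [Polynomial.coeff_X_mul, Polynomial.coeff_derivative, MultE_coeff]
    by_cases hs : s + 1 < 2 * N + 1
    · rw [if_pos hs, if_pos hs]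
      unfold eps MultE_gc
      push_cast
      ring
    · rw [if_neg hs, if_neg hs]
      simp

/-- the same identity for any coefficients -/
theorem MultE_euler (N n : ℕ) (c : ℕ → ℂ) :
    MultE_pl n (fun t => ((N : ℂ) - t) * c t) = C (N : ℂ) * MultE_pl n c
      - X * derivative (MultE_pl n c) := by
  ext s
  rw [Polynomial.coeff_sub, Polynomial.coeff_C_mul, MultE_coeff, MultE_coeff]
  rcases s with _ | s
  · rw [Polynomial.coeff_X_mul_zero]
    simp
  · rw [Polynomial.coeff_X_mul, Polynomial.coeff_derivative, MultE_coeff]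
    by_cases hs : s + 1 < n
    · rw [if_pos hs, if_pos hs]
      push_cast
      ring
    · rw [if_neg hs, if_neg hs]
      simp

theorem MultE_nnN (I : ID) (N : ℕ) (hN : I.n = 2 * N) (i : ℕ) (x : V2) :
    nn I i (N : ℤ) x = 0 := by
  rcases lt_trichotomy i N with h | h | h
  · apply nn_zero I N hN i N x
    right
    rw [abs_of_nonneg (by omega)]
    omega
  · subst h
    exact nn_top I i hN x
  · apply nn_zero I N hN i N x
    left
    omega

theorem MultE_b (I : ID) (N : ℕ) (hN : I.n = 2 * N) (i : ℕ) (x : V2) :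
    X * nh I N i x = MultE_pl (2 * N + 1) (fun t => dd I.al (MultE_gc I N i t) x)
      + C (l0 I x) * (C ((i : ℂ) + 1) * MultE_pl (2 * N + 1) (fun t => MultE_gc I N (i + 1) t x)
          - eh I N (i + 1) x)
      + C (l1 I x) * (C (i : ℂ) * MultE_pl (2 * N + 1) (fun t => MultE_gc I N i t x)
          - eh I N i x) := by
  have h1 : ∀ i, eh I N i x = MultE_pl (2 * N + 1) (fun t => eps I i ((N : ℤ) - t) x) :=
    fun i => rfl
  have h2 : nh I N i x = MultE_pl (2 * N) (fun t => nn I i ((N : ℤ) - 1 - t) x) := rfl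
  rw [h1, h1, h2]
  ext s
  simp only [Polynomial.coeff_add, Polynomial.coeff_C_mul, Polynomial.coeff_sub, MultE_coeff]
  rcases s with _ | s
  · rw [Polynomial.coeff_X_mul_zero, if_pos (by omega), if_pos (by omega), if_pos (by omega),
      if_pos (by omega), if_pos (by omega)]
    have h3 := MultE_nnN I N hN i x
    unfold nn at h3
    unfold eps
    have e1 : MultE_gc I N i 0 = I.f ((i : ℤ) + N) ((i : ℤ) - N) := by
      funext y
      unfold MultE_gc
      simp
    have e2 : MultE_gc I N (i + 1) 0 x = I.f ((i : ℤ) + 1 + N) ((i : ℤ) + 1 - N) x := by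
      unfold MultE_gc
      simp
    rw [e1, e2]
    push_cast
    simp only [sub_zero]
    push_cast at h3
    linear_combination -h3
  · rw [Polynomial.coeff_X_mul, MultE_coeff]
    by_cases hs : s + 1 < 2 * N + 1
    · rw [if_pos hs, if_pos hs, if_pos hs, if_pos hs, if_pos hs, if_pos (by omega)]
      have e0 : (N : ℤ) - 1 - s = (N : ℤ) - ((s + 1 : ℕ) : ℤ) := by
        push_cast
        ring
      rw [e0]
      unfold nn eps
      have e1 : MultE_gc I N i (s + 1) = I.f ((i : ℤ) + ((N : ℤ) - ((s + 1 : ℕ) : ℤ)))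
          ((i : ℤ) - ((N : ℤ) - ((s + 1 : ℕ) : ℤ))) := rfl
      have e2 : MultE_gc I N (i + 1) (s + 1) x = I.f ((i : ℤ) + 1 + ((N : ℤ) - ((s + 1 : ℕ) : ℤ)))
          ((i : ℤ) + 1 - ((N : ℤ) - ((s + 1 : ℕ) : ℤ))) x := by
        unfold MultE_gc
        push_cast
        rfl
      rw [e1, e2]
      push_cast
      ring
    · rw [if_neg hs, if_neg hs, if_neg hs, if_neg hs, if_neg hs, if_neg (by omega)]
      simp

theorem MultE_nb (I : ID) (N : ℕ) (i : ℕ) (x : V2) :
    MultE_pl (2 * N + 1) (fun t => nb I i ((N : ℤ) - t) x) =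
      MultE_pl (2 * N + 1) (fun t => dd (cj I.al) (MultE_gc I N i t) x)
      + C ((starRingEnd ℂ) (l0 I x)) *
        (C ((i : ℂ) + 1) * MultE_pl (2 * N + 1) (fun t => MultE_gc I N (i + 1) t x)
          - eh I N (i + 1) x)
      + C ((starRingEnd ℂ) (l1 I x)) *
        (C (i : ℂ) * MultE_pl (2 * N + 1) (fun t => MultE_gc I N i t x)
          - eh I N i x) := by
  have h1 : ∀ i, eh I N i x = MultE_pl (2 * N + 1) (fun t => eps I i ((N : ℤ) - t) x) :=
    fun i => rfl
  rw [h1, h1]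
  ext s
  simp only [Polynomial.coeff_add, Polynomial.coeff_C_mul, Polynomial.coeff_sub, MultE_coeff]
  by_cases hs : s < 2 * N + 1
  · rw [if_pos hs, if_pos hs, if_pos hs, if_pos hs, if_pos hs, if_pos hs]
    unfold nb eps
    have e1 : MultE_gc I N i s = I.f ((i : ℤ) + ((N : ℤ) - (s : ℤ)))
        ((i : ℤ) - ((N : ℤ) - (s : ℤ))) := rfl
    have e2 : MultE_gc I N (i + 1) s x = I.f ((i : ℤ) + 1 + ((N : ℤ) - (s : ℤ)))
        ((i : ℤ) + 1 - ((N : ℤ) - (s : ℤ))) x := by
      unfold MultE_gc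
      push_cast
      rfl
    rw [e1, e2]
    push_cast
    ring
  · rw [if_neg hs, if_neg hs, if_neg hs, if_neg hs, if_neg hs, if_neg hs]
    simp

theorem MultE_nbN (I : ID) (N : ℕ) (hN : I.n = 2 * N) (i : ℕ) (x : V2) :
    nb I i (N : ℤ) x = 0 := by
  have h1 := T_rel I i (N : ℤ) x
  have h2 : nn I i ((N : ℤ) + 1) x = 0 := by
    apply nn_zero I N hN
    rcases lt_trichotomy i N with h | h | h
    · right; left
      rw [abs_of_nonneg (by omega)]
      omega
    · right; right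
      omega
    · left
      omega
  have h3 : eps I (i + 1) ((N : ℤ) + 1) x = 0 := by
    apply eps_zero I N hN
    rcases lt_or_ge N (i + 1) with h | h
    · left
      exact_mod_cast h
    · right; left
      rw [abs_of_nonneg (by omega)]
      push_cast
      omega
  have h4 : eps I i ((N : ℤ) + 1) x = 0 := by
    apply eps_zero I N hN
    rcases lt_or_ge N i with h | h
    · left
      exact_mod_cast h
    · right; left
      rw [abs_of_nonneg (by omega)]
      omega
  rw [h2, h3, h4] at h1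
  simpa using h1

theorem MultE_nbneg (I : ID) (N : ℕ) (hN : I.n = 2 * N) (i : ℕ) (x : V2) :
    nb I i (-(N : ℤ) - 1) x = 0 := by
  have h1 : ∀ y, I.f ((i : ℤ) + (-(N : ℤ) - 1)) ((i : ℤ) - (-(N : ℤ) - 1)) y = 0 := by
    intro y
    rcases lt_or_ge N i with h | h
    · apply I.f_big
      rw [hN]
      push_cast
      omega
    · apply I.f_neg
      omega
  have h2 : ∀ y, I.f ((i : ℤ) + 1 + (-(N : ℤ) - 1)) ((i : ℤ) + 1 - (-(N : ℤ) - 1)) y = 0 := by
    intro y
    rcases lt_or_ge i N with h | h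
    · apply I.f_neg
      omega
    · apply I.f_big
      rw [hN]
      push_cast
      omega
  have h3 : dd (cj I.al) (I.f ((i : ℤ) + (-(N : ℤ) - 1)) ((i : ℤ) - (-(N : ℤ) - 1))) x = 0 := by
    have h4 : I.f ((i : ℤ) + (-(N : ℤ) - 1)) ((i : ℤ) - (-(N : ℤ) - 1)) = fun _ => 0 := funext h1
    rw [h4]
    exact BetaA_const _ _ _
  unfold nb
  rw [h3, h1 x, h2 x]
  simp

theorem MultE_c (I : ID) (N : ℕ) (hN : I.n = 2 * N) (i : ℕ) (x : V2) :
    X * (X * nh I N i x) + MultE_pl (2 * N + 1) (fun t => nb I i ((N : ℤ) - t) x)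
      + X * (C (2 * l0 I x) * eh I N (i + 1) x + C (2 * l1 I x) * eh I N i x) = 0 := by
  have h1 : ∀ i, eh I N i x = MultE_pl (2 * N + 1) (fun t => eps I i ((N : ℤ) - t) x) :=
    fun i => rfl
  have h2 : nh I N i x = MultE_pl (2 * N) (fun t => nn I i ((N : ℤ) - 1 - t) x) := rfl
  rw [h1, h1, h2]
  ext s
  simp only [Polynomial.coeff_add, MultE_coeff, Polynomial.coeff_zero]
  rcases s with _ | s
  · rw [Polynomial.coeff_X_mul_zero, Polynomial.coeff_X_mul_zero, if_pos (by omega)]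
    have h3 := MultE_nbN I N hN i x
    simpa using h3
  · rw [Polynomial.coeff_X_mul, Polynomial.coeff_X_mul]
    simp only [Polynomial.coeff_add, Polynomial.coeff_C_mul, MultE_coeff]
    have h3 : (X * MultE_pl (2 * N) (fun t => nn I i ((N : ℤ) - 1 - t) x)).coeff s =
        if s < 2 * N + 1 then nn I i ((N : ℤ) - s) x else 0 := by
      rcases s with _ | s
      · rw [Polynomial.coeff_X_mul_zero, if_pos (by omega)]
        have := MultE_nnN I N hN i x
        simpa using this.symm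
      · rw [Polynomial.coeff_X_mul, MultE_coeff]
        by_cases hs : s < 2 * N
        · rw [if_pos hs, if_pos (by omega)]
          congr 1
          push_cast
          ring
        · rw [if_neg hs, if_neg (by omega)]
    rw [h3]
    rcases lt_trichotomy s (2 * N) with hs | hs | hs
    · rw [if_pos (by omega), if_pos (by omega), if_pos (by omega), if_pos (by omega)]
      have h4 := T_rel I i ((N : ℤ) - ((s + 1 : ℕ) : ℤ)) x
      have e1 : (N : ℤ) - ((s + 1 : ℕ) : ℤ) + 1 = (N : ℤ) - s := by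
        push_cast
        ring
      rw [e1] at h4
      linear_combination h4
    · rw [if_pos (by omega), if_neg (by omega), if_pos (by omega), if_pos (by omega)]
      have h4 := T_rel I i (-(N : ℤ) - 1) x
      have e1 : -(N : ℤ) - 1 + 1 = (N : ℤ) - s := by
        rw [hs]
        push_cast
        ring
      rw [e1, MultE_nbneg I N hN i x] at h4
      linear_combination h4
    · rw [if_neg (by omega), if_neg (by omega), if_neg (by omega), if_neg (by omega)]
      simp

/-- TASK MultE.  Persistent multiple critical points do not move.  Let `S` be open, `dU ≠ 0` on `S`,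
`k ≥ 2` and `(w - om(y))^k ∣ e_i(y)` for all `i` and all `y ∈ S`.  Then `(w - om(x))^k ∣ ν_i(x)`.

Proof.  Let `g_i = ∑_t f_{i+m,i-m} w^t` with `m = N - t`, `t ≤ 2N`.  Then:
(a) `e_i = N g_i - w g_i'`;
(b) `w ν_i = dd g_i + l0 ((i+1) g_{i+1} - e_{i+1}) + l1 (i g_i - e_i)` (coefficient of `w^(N-m)` is
`nn i m`, for `-N ≤ m ≤ N - 1`; for `m = N` it is `nn i N = 0`: `nn_zero` for `i < N` and `i > N`,
`nn_top` for `i = N`), `dd g_i` means `dd` of the coefficients;
(c) let `b_i = db g_i + conj l0 ((i+1) g_{i+1} - e_{i+1}) + conj l1 (i g_i - e_i)`, with coefficients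
`nb i m`; `T_rel` says `w (w ν_i) + b_i + 2 w (l0 e_{i+1} + l1 e_i) = 0` (coefficient of `w^(N-m)`,
`-N ≤ m ≤ N`; and the coefficient of `w^(2N+1)`, `m = -N-1`: there `nn i (-N)` ... use `T_rel` as well,
with `nb i (-N-1) = 0`).
By `dvd_dd` `(w - om)^(k-1)` divides `dd e_i = N dd g_i - w (dd g_i)'` and the same for `db`; by
`dvd_euler` there are constants with `dd g_i ≡ c_i w^N`, `db g_i ≡ c'_i w^N`, `g_i ≡ γ_i w^N` modulo
`(w - om)^k`.  So `w ν_i ≡ s w^N`, `b_i ≡ s' w^N` modulo `(w - om)^k`, and (c) gives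
`(w - om)^k ∣ w^N (s w + s')`; as `k ≥ 2`, `s = 0` by `lin_zero`.  So `(w - om)^k ∣ w ν_i`, hence
`∣ ν_i` (`om ≠ 0`, coprime to `w`). -/
theorem mult (I : ID) (N : ℕ) (hN : I.n = 2 * N) (S : Set V2) (hS : IsOpen S)
    (hdU : ∀ y ∈ S, fderiv ℝ I.U y ≠ 0) (k : ℕ) (hk : 2 ≤ k)
    (h : ∀ i, ∀ y ∈ S, (X - C (om I y)) ^ k ∣ eh I N i y) (x : V2) (hx : x ∈ S) (i : ℕ) :
    (X - C (om I x)) ^ k ∣ nh I N i x := by
  obtain ⟨hod, ho⟩ := MultE_om I x (hdU x hx)
  obtain ⟨ω, hω⟩ : ∃ ω : ℂ, ω = om I x := ⟨_, rfl⟩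
  rw [← hω] at ho ⊢
  have hk1 : k - 1 + 1 = k := by omega
  have hgd : ∀ (i t : ℕ), DifferentiableAt ℝ (MultE_gc I N i t) x := fun i t =>
    (I.fsm _ _).differentiable (by simp) x
  -- derivatives
  have hder : ∀ (a : Fin 2 → ℂ) (i : ℕ), ∃ c : ℂ, (X - C ω) ^ k ∣
      MultE_pl (2 * N + 1) (fun t => dd a (MultE_gc I N i t) x) - C c * X ^ N := by
    intro a i
    have h1 := dvd_dd a (2 * N + 1) k (fun t y => eps I i ((N : ℤ) - t) y) (om I) x
      (fun t => ((I.fsm _ _).differentiable (by simp) x).const_mul _) hod (by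
        filter_upwards [hS.mem_nhds hx] with y hy
        exact h i y hy)
    rw [← hω] at h1
    have h2 : ∑ t ∈ Finset.range (2 * N + 1),
        C (dd a (fun y => eps I i ((N : ℤ) - t) y) x) * X ^ t =
        C (N : ℂ) * MultE_pl (2 * N + 1) (fun t => dd a (MultE_gc I N i t) x)
          - X * derivative (MultE_pl (2 * N + 1) (fun t => dd a (MultE_gc I N i t) x)) := by
      rw [← MultE_euler]
      unfold MultE_pl
      refine Finset.sum_congr rfl fun t _ => ?_
      congr 2
      have h3 : (fun y => eps I i ((N : ℤ) - t) y) =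
          fun y => (fun _ => ((N : ℂ) - t)) y * MultE_gc I N i t y := by
        funext y
        unfold eps MultE_gc
        push_cast
        rfl
      rw [h3, dd_mul a (differentiableAt_const _) (hgd i t), BetaA_const]
      ring
    have h4 : (X - C ω) ^ (k - 1) ∣
        C (N : ℂ) * MultE_pl (2 * N + 1) (fun t => dd a (MultE_gc I N i t) x)
          - X * derivative (MultE_pl (2 * N + 1) (fun t => dd a (MultE_gc I N i t) x)) := by
      rw [← h2]
      exact h1
    obtain ⟨c, hc⟩ := dvd_euler N (k - 1) _ ω ho h4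
    rw [hk1] at hc
    exact ⟨c, hc⟩
  have hg : ∀ i : ℕ, ∃ c : ℂ, (X - C ω) ^ k ∣
      MultE_pl (2 * N + 1) (fun t => MultE_gc I N i t x) - C c * X ^ N := by
    intro i
    have h1 := h i x hx
    rw [← hω, MultE_a] at h1
    obtain ⟨c, hc⟩ := dvd_euler N k _ ω ho h1
    exact ⟨c, (pow_dvd_pow _ (Nat.le_succ k)).trans hc⟩
  have he : ∀ i : ℕ, (X - C ω) ^ k ∣ eh I N i x := by
    intro i
    rw [hω]
    exact h i x hx
  obtain ⟨c, hc⟩ := hder I.al i
  obtain ⟨c', hc'⟩ := hder (cj I.al) i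
  obtain ⟨γ, hγ⟩ := hg i
  obtain ⟨γ', hγ'⟩ := hg (i + 1)
  have hs : (X - C ω) ^ k ∣ X * nh I N i x
      - C (c + l0 I x * (((i : ℂ) + 1) * γ') + l1 I x * ((i : ℂ) * γ)) * X ^ N := by
    rw [MultE_b I N hN i x]
    have e : MultE_pl (2 * N + 1) (fun t => dd I.al (MultE_gc I N i t) x)
      + C (l0 I x) * (C ((i : ℂ) + 1) * MultE_pl (2 * N + 1) (fun t => MultE_gc I N (i + 1) t x)
          - eh I N (i + 1) x)
      + C (l1 I x) * (C (i : ℂ) * MultE_pl (2 * N + 1) (fun t => MultE_gc I N i t x)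
          - eh I N i x)
      - C (c + l0 I x * (((i : ℂ) + 1) * γ') + l1 I x * ((i : ℂ) * γ)) * X ^ N =
      (MultE_pl (2 * N + 1) (fun t => dd I.al (MultE_gc I N i t) x) - C c * X ^ N)
      + C (l0 I x) * C ((i : ℂ) + 1) *
        (MultE_pl (2 * N + 1) (fun t => MultE_gc I N (i + 1) t x) - C γ' * X ^ N)
      + C (l1 I x) * C (i : ℂ) *
        (MultE_pl (2 * N + 1) (fun t => MultE_gc I N i t x) - C γ * X ^ N)
      - (C (l0 I x) * eh I N (i + 1) x + C (l1 I x) * eh I N i x) := by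
      simp only [C_add, C_mul]
      ring
    rw [e]
    exact dvd_sub (dvd_add (dvd_add hc (hγ'.mul_left _)) (hγ.mul_left _))
      (dvd_add ((he _).mul_left _) ((he _).mul_left _))
  have hs' : (X - C ω) ^ k ∣ MultE_pl (2 * N + 1) (fun t => nb I i ((N : ℤ) - t) x)
      - C (c' + (starRingEnd ℂ) (l0 I x) * (((i : ℂ) + 1) * γ')
        + (starRingEnd ℂ) (l1 I x) * ((i : ℂ) * γ)) * X ^ N := by
    rw [MultE_nb I N i x]
    have e : MultE_pl (2 * N + 1) (fun t => dd (cj I.al) (MultE_gc I N i t) x)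
      + C ((starRingEnd ℂ) (l0 I x)) *
        (C ((i : ℂ) + 1) * MultE_pl (2 * N + 1) (fun t => MultE_gc I N (i + 1) t x)
          - eh I N (i + 1) x)
      + C ((starRingEnd ℂ) (l1 I x)) *
        (C (i : ℂ) * MultE_pl (2 * N + 1) (fun t => MultE_gc I N i t x)
          - eh I N i x)
      - C (c' + (starRingEnd ℂ) (l0 I x) * (((i : ℂ) + 1) * γ')
        + (starRingEnd ℂ) (l1 I x) * ((i : ℂ) * γ)) * X ^ N =
      (MultE_pl (2 * N + 1) (fun t => dd (cj I.al) (MultE_gc I N i t) x) - C c' * X ^ N)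
      + C ((starRingEnd ℂ) (l0 I x)) * C ((i : ℂ) + 1) *
        (MultE_pl (2 * N + 1) (fun t => MultE_gc I N (i + 1) t x) - C γ' * X ^ N)
      + C ((starRingEnd ℂ) (l1 I x)) * C (i : ℂ) *
        (MultE_pl (2 * N + 1) (fun t => MultE_gc I N i t x) - C γ * X ^ N)
      - (C ((starRingEnd ℂ) (l0 I x)) * eh I N (i + 1) x
        + C ((starRingEnd ℂ) (l1 I x)) * eh I N i x) := by
      simp only [C_add, C_mul]
      ring
    rw [e]
    exact dvd_sub (dvd_add (dvd_add hc' (hγ'.mul_left _)) (hγ.mul_left _))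
      (dvd_add ((he _).mul_left _) ((he _).mul_left _))
  obtain ⟨s, hsd⟩ : ∃ s : ℂ, s = c + l0 I x * (((i : ℂ) + 1) * γ') + l1 I x * ((i : ℂ) * γ) :=
    ⟨_, rfl⟩
  obtain ⟨s', hsd'⟩ : ∃ s' : ℂ, s' = c' + (starRingEnd ℂ) (l0 I x) * (((i : ℂ) + 1) * γ')
        + (starRingEnd ℂ) (l1 I x) * ((i : ℂ) * γ) := ⟨_, rfl⟩
  rw [← hsd] at hs
  rw [← hsd'] at hs'
  have hc3 := MultE_c I N hN i x
  have h5 : (X - C ω) ^ k ∣ X ^ N * (C s * X + C s') := by
    have e : X ^ N * (C s * X + C s') =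
        - (X * (X * nh I N i x - C s * X ^ N)
          + (MultE_pl (2 * N + 1) (fun t => nb I i ((N : ℤ) - t) x) - C s' * X ^ N)
          + X * (C (2 * l0 I x) * eh I N (i + 1) x + C (2 * l1 I x) * eh I N i x)) := by
      linear_combination hc3
    rw [e, dvd_neg]
    exact dvd_add (dvd_add (hs.mul_left _) hs')
      ((dvd_add ((he _).mul_left _) ((he _).mul_left _)).mul_left _)
  obtain ⟨h6, -⟩ := lin_zero N s s' ω ho ((pow_dvd_pow _ hk).trans h5)
  rw [h6] at hs
  apply MultE_cancel ω ho k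
  simpa using hs

end Pool.W4b1b5d.E
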