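import Pool.Agent.W_4b1b5d_h78.GoodA
import Pool.Agent.W_4b1b5d_h78.DenM
import Pool.Agent.W_4b1b5d_h78.LowF
import Pool.Agent.W_4b1b5d_h78.MultE

set_option autoImplicit false

namespace Pool.W4b1b5d.E

open Pool.W4b1b5d.H3 Polynomial

/-- Removing the multiple factor. -/
theorem goodb_dvd (D q : ℂ[X]) (ω : ℂ) (m : ℕ) (hD : D ≠ 0) (h2 : ¬ (X - C ω) ^ 2 ∣ D)
    (h : D ∣ q * (X - C ω) ^ m) : D ∣ q * (X - C ω) := by
  obtain ⟨D', hD', hnd⟩ := exists_eq_pow_rootMultiplicity_mul_and_not_dvd D hD ω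
  have ht : D.rootMultiplicity ω ≤ 1 := by
    by_contra hcon
    apply h2
    exact (pow_dvd_pow _ (by omega)).trans (pow_rootMultiplicity_dvd D ω)
  have hco : IsCoprime (X - C ω) D' := (irreducible_X_sub_C ω).coprime_iff_not_dvd.mpr hnd
  have hco2 : IsCoprime D' ((X - C ω) ^ m) := (hco.pow_left).symm
  have h3 : D' ∣ D := ⟨(X - C ω) ^ D.rootMultiplicity ω, by rw [mul_comm]; exact hD'⟩
  have h4 : D' ∣ q := hco2.dvd_of_dvd_mul_right (h3.trans h)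
  have h5 : (X - C ω) ^ D.rootMultiplicity ω ∣ (X - C ω) := by
    calc (X - C ω) ^ D.rootMultiplicity ω ∣ (X - C ω) ^ 1 := pow_dvd_pow _ ht
      _ = X - C ω := pow_one _
  rw [hD', mul_comm q]
  exact mul_dvd_mul h5 h4

/-- TASK GoodB.  The points with `J ≥ 2`.

Proof.  `eh_form`: `e_J(x) = c w^(N-J) (w - ω)^(2J-1) (w + ω)` with `ω = om(x)`, `‖ω‖ = 1`
(`om_norm`), `c ≠ 0` as `e_J(x) ≠ 0`; so `J ≤ N` and `e_J` has no zero on `‖w‖ = 1/2`.
`nh_zero` gives the condition on `ν`.  `A_lin`, `urec`, `den`: `D, P, P'` with `D ∣ e_i`.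
* If `k ≥ 2`: `mult` gives `(w - ω)^k ∣ ν_i`, and if `D(ω) = 0` then (last property in `den`)
  `P(ω) ≠ 0` or `P'(ω) ≠ 0` and `den_mult` gives a contradiction.  So `D(ω) ≠ 0`.
* If `k ≤ 1`: `D ∣ e_{i0}` and `(w - ω)^2 ∤ e_{i0}` (as `k + 1 ≤ 2`), so `(w - ω)^2 ∤ D`.
In both cases, from `D ∣ c w^(N-J) (w - ω)^(2J-1) (w + ω)` we get
`D ∣ Z := w^(N-J) (w - ω)(w + ω) = w^(N-J) (w² - ω²)` (`(w - ω)^(2J-2)` can be removed: write
`D = (w - ω)^t D'`, `t ≤ 1`, `D'(ω) ≠ 0`, `D'` is coprime to `w - ω`).  So `Z al`, `Z al'` are polynomials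
and `GC_of_poly` (with `c = 1`) applies. -/
theorem good_J2 (I : ID) (N : ℕ) (hN : I.n = 2 * N) (V : Uni I) (M : ℕ) (pa : ℂ[X])
    (hM : 1 ≤ M) (hMN : M ≤ N) (hpa : pa ≠ 0)
    (htop : ∀ (h : ℝ) (x : V2), Bt I h M x = pa.eval (h : ℂ))
    (hbig : ∀ (k : ℤ) (h : ℝ) (x : V2), (M : ℤ) < k → Bt I h k x = 0)
    (S : Set V2) (hS : IsOpen S) (hdU : ∀ y ∈ S, fderiv ℝ I.U y ≠ 0)
    (J : ℕ) (hJ : 2 ≤ J) (hlow : ∀ i, i < J → ∀ y ∈ S, eh I N i y = 0)
    (k : ℕ) (hk : ∀ i, ∀ y ∈ S, (X - C (om I y)) ^ k ∣ eh I N i y)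
    (x : V2) (hx : x ∈ S) (hJx : eh I N J x ≠ 0)
    (i0 : ℕ) (hi0 : ¬ (X - C (om I x)) ^ (k + 1) ∣ eh I N i0 x) : ∃ θ, GC I V x θ := by
  have hJN : J ≤ N := by
    by_contra hcon
    exact hJx (eh_zero I N hN J x (Or.inr (by omega)))
  obtain ⟨c, hc⟩ := eh_form I N hN S hS J hJ hJN hlow x hx (hdU x hx)
  have hc0 : c ≠ 0 := by
    intro h0
    apply hJx
    rw [hc, h0]
    simp
  have hω := om_norm I x (hdU x hx)
  obtain ⟨ω, hωdef⟩ : ∃ ω, ω = om I x := ⟨_, rfl⟩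
  rw [← hωdef] at hc hω hi0
  have hJe : ∀ w : ℂ, ‖w‖ = 1 / 2 → (eh I N J x).eval w ≠ 0 := by
    intro w hw
    rw [hc]
    simp only [eval_mul, eval_C, eval_pow, eval_X, eval_sub, eval_add]
    have hw0 : w ≠ 0 := by
      intro h0
      rw [h0, norm_zero] at hw
      norm_num at hw
    refine mul_ne_zero (mul_ne_zero (mul_ne_zero hc0 (pow_ne_zero _ hw0)) (pow_ne_zero _ ?_)) ?_
    · intro h0
      rw [sub_eq_zero.1 h0, hω] at hw
      norm_num at hw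
    · intro h0
      rw [add_eq_zero_iff_eq_neg.1 h0, norm_neg, hω] at hw
      norm_num at hw
  have hlowx : ∀ i, i < J → eh I N i x = 0 := fun i hi => hlow i hi x hx
  obtain ⟨al, al', hA⟩ := A_lin I N hN V M pa hM hMN hpa htop hbig x J (by omega) hlowx hJe
    (fun i hi => nh_zero I N hN S hS J hlow x hx i hi)
  have hu := urec I N hN V x al al' hA
  obtain ⟨D, P, P', hDm, hP, hP', hD, hlast⟩ := den (fun i => eh I N i x) (fun i => nh I N i x) J N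
    (by omega) hlowx hJx (fun i hi => eh_zero I N hN i x (Or.inr hi)) al al' hu
  have hnd : ¬ (X - C ω) ^ 2 ∣ D := by
    intro hdvd
    by_cases hk2 : 2 ≤ k
    · have hDω : D.eval ω = 0 := by
        have h1 : (X - C ω) ∣ D := (dvd_pow_self _ two_ne_zero).trans hdvd
        exact dvd_iff_isRoot.mp h1
      refine den_mult (fun i => eh I N i x) (fun i => nh I N i x) N
        (eh_zero I N hN 0 x (Or.inl rfl)) (fun i hi => eh_zero I N hN i x (Or.inr hi)) al al' hu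
        D P P' hP hP' ω (hlast ω hDω) k ?_ ?_ i0 hi0 hDω
      · intro i
        rw [hωdef]
        exact hk i x hx
      · intro i
        rw [hωdef]
        exact mult I N hN S hS hdU k hk2 hk x hx i
    · apply hi0
      exact ((pow_dvd_pow _ (by omega)).trans hdvd).trans (hD i0)
  have hDJ : D ∣ (C c * X ^ (N - J) * (X + C ω)) * (X - C ω) ^ (2 * J - 1) := by
    have h1 : D ∣ eh I N J x := hD J
    rw [hc] at h1
    have h2 : C c * X ^ (N - J) * (X - C ω) ^ (2 * J - 1) * (X + C ω) =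
        (C c * X ^ (N - J) * (X + C ω)) * (X - C ω) ^ (2 * J - 1) := by ring
    rwa [h2] at h1
  have hDZ := goodb_dvd D _ ω _ hDm.ne_zero hnd hDJ
  have hZ : (C c * X ^ (N - J) * (X + C ω)) * (X - C ω) =
      C c * X ^ (N - J) * (X ^ 2 - C (ω ^ 2)) := by
    rw [C_pow]
    ring
  rw [hZ] at hDZ
  obtain ⟨q, hq⟩ := hDZ
  refine GC_of_poly I N hN V M pa hM hMN hpa htop hbig x al al' hA c ω hc0 hω (N - J)
    (C c * X ^ (N - J) * (X ^ 2 - C (ω ^ 2))) (q * P) (q * P') rfl ?_ ?_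
  · rw [hq, Polynomial.coe_mul, Polynomial.coe_mul, ← hP]
    ring
  · rw [hq, Polynomial.coe_mul, Polynomial.coe_mul, ← hP']
    ring

end Pool.W4b1b5d.E
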