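import Pool.Agent.W_4b1b5d_h78.HPops

set_option autoImplicit false

namespace Pool.W4b1b5d.E

open Pool.W4b1b5d.H3

theorem Lag_dd_const_mul (a : Fin 2 → ℂ) (c : ℂ) {f : V2 → ℂ} {x : V2}
    (hf : DifferentiableAt ℝ f x) : dd a (fun y => c * f y) x = c * dd a f x := by
  have h := dd_mul a (f := fun _ => c) (g := f) (x := x) (differentiableAt_const c) hf
  rw [h, BetaA_const]
  ring

/-- TASK Lag.  Interpolation in `h`: if `db e = g h` is solvable (smooth, periodic) for infinitely
many `h`, then there is a solution for all `h` which is polynomial in `h` of the same degree as `g`.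

Proof.  Choose `m + 1` distinct `h_0, ..., h_m` in `T` with solutions `e_i`, and let `L_i` be the
Lagrange basis polynomials (degree `m`).  Put `e h x = ∑_i L_i(h) e_i x`; this is in `HP m`.
`db (e h) = ∑_i L_i(h) g(h_i) = g(h)`, because for every `k ≤ m`, `∑_i L_i(h) h_i^k = h^k`
(`Lagrange.interpolate` of a polynomial of degree `≤ m` is that polynomial,
`Lagrange.eq_interpolate`). -/
theorem lag (al : Fin 2 → ℂ) (m : ℕ) (g : ℝ → V2 → ℂ) (hg : HP m g) (T : Set ℝ)
    (hT : T.Infinite)
    (hs : ∀ h ∈ T, ∃ e : V2 → ℂ, ContDiff ℝ (⊤ : ℕ∞) e ∧ Per e ∧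
      ∀ x, dd (cj al) e x = g h x) :
    ∃ e : ℝ → V2 → ℂ, HP m e ∧ ∀ h x, dd (cj al) (e h) x = g h x := by
  classical
  obtain ⟨F, hFT, hFc⟩ := hT.exists_subset_card_eq (m + 1)
  choose! e he using hs
  obtain ⟨c, hc1, hc2, hc3⟩ := hg
  set v : ℝ → ℂ := fun t => (t : ℂ) with hv
  have hinj : Set.InjOn v F := fun a _ b _ hab => Complex.ofReal_injective hab
  have hdeg : ∀ t ∈ F, (Lagrange.basis F v t).natDegree < m + 1 := by
    intro t ht
    have h1 := Lagrange.degree_basis hinj ht
    rw [hFc] at h1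
    have h2 := Polynomial.natDegree_eq_of_degree_eq_some h1
    omega
  have hesm : ∀ t ∈ F, ContDiff ℝ (⊤ : ℕ∞) (e t) := fun t ht => (he t (hFT ht)).1
  have heper : ∀ t ∈ F, Per (e t) := fun t ht => (he t (hFT ht)).2.1
  have hedd : ∀ t ∈ F, ∀ x, dd (cj al) (e t) x = g t x := fun t ht => (he t (hFT ht)).2.2
  refine ⟨fun h x => ∑ t ∈ F, (Lagrange.basis F v t).eval (h : ℂ) * e t x, ?_, ?_⟩
  · refine ⟨fun k x => ∑ t ∈ F, (Lagrange.basis F v t).coeff k * e t x, ?_, ?_, ?_⟩
    · intro k
      exact ContDiff.sum fun t ht => contDiff_const.mul (hesm t ht)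
    · intro k x z
      refine Finset.sum_congr rfl fun t ht => ?_
      rw [heper t ht x z]
    · intro h x
      have h1 : ∀ t ∈ F, (Lagrange.basis F v t).eval (h : ℂ) * e t x
          = ∑ k ∈ Finset.range (m + 1), (Lagrange.basis F v t).coeff k * e t x * (h : ℂ) ^ k := by
        intro t ht
        rw [Polynomial.eval_eq_sum_range' (hdeg t ht), Finset.sum_mul]
        refine Finset.sum_congr rfl fun k _ => ?_
        ring
      beta_reduce
      rw [Finset.sum_congr rfl h1, Finset.sum_comm]
      refine Finset.sum_congr rfl fun k _ => ?_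
      rw [Finset.sum_mul]
  · intro h x
    have hd : ∀ t ∈ F, DifferentiableAt ℝ (e t) x := fun t ht =>
      ((hesm t ht).differentiable (by simp)).differentiableAt
    rw [dd_sum (cj al) F (fun t y => (Lagrange.basis F v t).eval (h : ℂ) * e t y)
      (fun t ht => (differentiableAt_const _).mul (hd t ht))]
    have h1 : ∀ t ∈ F, dd (cj al) (fun y => (Lagrange.basis F v t).eval (h : ℂ) * e t y) x
        = (Lagrange.basis F v t).eval (h : ℂ) * g t x := by
      intro t ht
      rw [Lag_dd_const_mul _ _ (hd t ht), hedd t ht]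
    rw [Finset.sum_congr rfl h1]
    set P : Polynomial ℂ := ∑ k ∈ Finset.range (m + 1), Polynomial.C (c k x) * Polynomial.X ^ k
      with hP
    have hPe : ∀ s : ℝ, P.eval (s : ℂ) = g s x := by
      intro s
      rw [hP, hc3, Polynomial.eval_finsetSum]
      refine Finset.sum_congr rfl fun k _ => ?_
      simp
    have hPd : P.degree < F.card := by
      rw [hFc, hP]
      refine lt_of_le_of_lt (Polynomial.degree_sum_le _ _) ?_
      refine (Finset.sup_lt_iff ?_).2 ?_
      · exact WithBot.bot_lt_coe _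
      · intro k hk
        refine lt_of_le_of_lt (Polynomial.degree_C_mul_X_pow_le _ _) ?_
        exact_mod_cast Finset.mem_range.1 hk
    have h2 := Lagrange.eq_interpolate (f := P) hinj hPd
    have h3 := congrArg (fun q : Polynomial ℂ => q.eval (h : ℂ)) h2
    simp only [Lagrange.interpolate_apply, Polynomial.eval_finsetSum, Polynomial.eval_mul,
      Polynomial.eval_C] at h3
    rw [← hPe h, h3]
    refine Finset.sum_congr rfl fun t _ => ?_
    rw [hv]
    simp only
    rw [hPe t]
    ring

end Pool.W4b1b5d.E
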