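import Pool.Agent.W_4b1b5d_h78.Coef

set_option autoImplicit false

namespace Pool.W4b1b5d.E

open Pool.W4b1b5d.H3 Polynomial

/-- The direction `om = conj (dd U) / dd U` (a number of modulus one where `dU ≠ 0`). -/
noncomputable def om (I : ID) (x : V2) : ℂ :=
  (starRingEnd ℂ) (ddr I.al I.U x) / ddr I.al I.U x

/-- TASK LowE (0).  `eh i = 0` iff all `eps i k = 0`, i.e. `f_{i+k,i-k} = 0` for `k ≠ 0`. -/
theorem f_zero_of_eh (I : ID) (N : ℕ) (hN : I.n = 2 * N) (i : ℕ) (x : V2)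
    (h : eh I N i x = 0) (k : ℤ) (hk : k ≠ 0) : I.f ((i : ℤ) + k) ((i : ℤ) - k) x = 0 := by
  by_cases hkN : |k| ≤ (N : ℤ)
  · obtain ⟨t, ht⟩ : ∃ t : ℕ, (t : ℤ) = N - k := by
      have h1 : 0 ≤ (N : ℤ) - k := by
        have := le_abs_self k
        omega
      exact ⟨((N : ℤ) - k).toNat, Int.toNat_of_nonneg h1⟩
    have ht2 : t < 2 * N + 1 := by
      have := neg_abs_le k
      omega
    have h2 : (eh I N i x).coeff t = eps I i ((N : ℤ) - t) x := by
      unfold eh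
      rw [Polynomial.finsetSum_coeff, Finset.sum_eq_single t]
      · rw [Polynomial.coeff_C_mul_X_pow, if_pos rfl]
      · intro s _ hs
        rw [Polynomial.coeff_C_mul_X_pow, if_neg (fun h3 => hs h3.symm)]
      · intro h3
        exact absurd (Finset.mem_range.mpr ht2) h3
    rw [h, Polynomial.coeff_zero] at h2
    have e : (N : ℤ) - t = k := by omega
    rw [e] at h2
    unfold eps at h2
    exact (mul_eq_zero.mp h2.symm).resolve_left (Int.cast_ne_zero.mpr hk)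
  · rcases lt_or_ge ((i : ℤ) + k) 0 with h1 | h1
    · exact I.f_neg _ _ x h1
    · rcases lt_or_ge ((i : ℤ) - k) 0 with h2 | h2
      · exact I.f_neg' _ _ x h2
      · apply I.f_big
        have h3 : |k| ≤ (i : ℤ) := abs_le.mpr ⟨by omega, by omega⟩
        rw [hN]
        push_cast
        omega

theorem LowE_nn (I : ID) (N : ℕ) (hN : I.n = 2 * N) (S : Set V2) (hS : IsOpen S) (J : ℕ)
    (hlow : ∀ i, i < J → ∀ y ∈ S, eh I N i y = 0) (x : V2) (hx : x ∈ S) (i : ℕ)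
    (hi : i + 1 < J) (m : ℤ) : nn I i m x = 0 := by
  have h1 : ∀ j : ℕ, j < J → ∀ k : ℤ, k ≠ 0 → ∀ y ∈ S, I.f ((j : ℤ) + k) ((j : ℤ) - k) y = 0 :=
    fun j hj k hk y hy => f_zero_of_eh I N hN j y (hlow j hj y hy) k hk
  by_cases hm : m = 0
  · have h2 := T_rel I i (-1) x
    rw [neg_add_cancel] at h2
    have h3 : eps I (i + 1) 0 x = 0 := by
      unfold eps
      simp
    have h4 : eps I i 0 x = 0 := by
      unfold eps
      simp
    have h5 : nb I i (-1) x = 0 := by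
      unfold nb
      have h6 := dd_zero_of_open (cj I.al) hS (h1 i (by omega) (-1) (by decide)) x hx
      have h7 := h1 i (by omega) (-1) (by decide) x hx
      have h8 := h1 (i + 1) hi (-1) (by decide) x hx
      have e1 : ((i + 1 : ℕ) : ℤ) + -1 = (i : ℤ) + 1 + -1 := by push_cast; ring
      have e2 : ((i + 1 : ℕ) : ℤ) - -1 = (i : ℤ) + 1 - -1 := by push_cast; ring
      rw [e1, e2] at h8
      rw [h6, h7, h8]
      ring
    rw [hm]
    rw [h3, h4, h5] at h2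
    linear_combination h2
  · unfold nn
    have h6 := dd_zero_of_open I.al hS (h1 i (by omega) m hm) x hx
    have h7 := h1 i (by omega) m hm x hx
    have h8 := h1 (i + 1) hi m hm x hx
    have e1 : ((i + 1 : ℕ) : ℤ) + m = (i : ℤ) + 1 + m := by push_cast; ring
    have e2 : ((i + 1 : ℕ) : ℤ) - m = (i : ℤ) + 1 - m := by push_cast; ring
    rw [e1, e2] at h8
    rw [h6, h7, h8]
    ring

/-- TASK LowE (1).  If `e_i = 0` on the open set `S` for all `i < J`, then `ν_i = 0` on `S` for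
`i + 1 < J`.

Proof.  For `i < J` all `f_{i+k,i-k}`, `k ≠ 0`, vanish on `S`, and so do their derivatives.  For
`m ≠ 0` this gives `nn i m = 0`.  For `m = 0`:
`nn i 0 = dd f_ii + (i+1) l0 f_{i+1,i+1} + i l1 f_ii`, and this is zero by `T_rel I i (-1) x`
(`eps (i+1) 0 = eps i 0 = 0`; in `nb i (-1)` only functions `f_{i-1,i+1}` and `f_{i,i+2}` occur, which
are zero on `S` as `i + 1 < J`; if `i = 0` use `f_neg`). -/
theorem nh_zero (I : ID) (N : ℕ) (hN : I.n = 2 * N) (S : Set V2) (hS : IsOpen S) (J : ℕ)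
    (hlow : ∀ i, i < J → ∀ y ∈ S, eh I N i y = 0) (x : V2) (hx : x ∈ S) (i : ℕ)
    (hi : i + 1 < J) : nh I N i x = 0 := by
  unfold nh
  refine Finset.sum_eq_zero fun t _ => ?_
  rw [LowE_nn I N hN S hS J hlow x hx i hi, Polynomial.C_0, zero_mul]

theorem LowE_congr (a : Fin 2 → ℂ) {f g : V2 → ℂ} {x : V2} (h : f =ᶠ[nhds x] g) :
    dd a f x = dd a g x := by
  unfold dd
  rw [h.fderiv_eq]

theorem LowE_comm (a b : Fin 2 → ℂ) {f : V2 → ℂ} (hf : ContDiff ℝ (⊤ : ℕ∞) f) (x : V2) :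
    dd a (fun y => dd b f y) x = dd b (fun y => dd a f y) x := by
  have h1 : ContDiff ℝ (⊤ : ℕ∞) (fderiv ℝ f) := hf.fderiv_right (m := (⊤ : ℕ∞)) (by simp)
  have h2 : DifferentiableAt ℝ (fderiv ℝ f) x := (h1.differentiable (by simp)).differentiableAt
  have h3 : ∀ v w : V2, fderiv ℝ (fun y => fderiv ℝ f y w) x v = fderiv ℝ (fderiv ℝ f) x v w := by
    intro v w
    have h4 := (h2.hasFDerivAt.clm_apply (hasFDerivAt_const w x)).fderiv
    rw [h4]
    simp
  have h5 : IsSymmSndFDerivAt ℝ f x := by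
    refine hf.contDiffAt.isSymmSndFDerivAt ?_
    rw [minSmoothness_of_isRCLikeNormedField]
    exact WithTop.coe_le_coe.mpr (le_top : (2 : ℕ∞) ≤ ⊤)
  have h6 : ∀ c d : Fin 2 → ℂ, dd c (fun y => dd d f y) x =
      ∑ i, ∑ j, c i * (d j * fderiv ℝ (fderiv ℝ f) x (Pi.single i 1) (Pi.single j 1)) := by
    intro c d
    have hd : ∀ j : Fin 2, DifferentiableAt ℝ (fun y => fderiv ℝ f y (Pi.single j 1)) x :=
      fun j => (h2.hasFDerivAt.clm_apply (hasFDerivAt_const _ x)).differentiableAt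
    have e1 : (fun y => dd d f y) = fun y => ∑ j, d j * fderiv ℝ f y (Pi.single j 1) := rfl
    rw [e1, dd_sum c _ (fun j y => d j * fderiv ℝ f y (Pi.single j 1))
      (fun j _ => (differentiableAt_const _).mul (hd j))]
    have e2 : ∀ j : Fin 2, dd c (fun y => d j * fderiv ℝ f y (Pi.single j 1)) x =
        ∑ i, c i * (d j * fderiv ℝ (fderiv ℝ f) x (Pi.single i 1) (Pi.single j 1)) := by
      intro j
      rw [dd_mul c (differentiableAt_const _) (hd j), BetaA_const, zero_mul, zero_add]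
      unfold dd
      rw [Finset.mul_sum]
      refine Finset.sum_congr rfl fun i _ => ?_
      rw [h3]
      ring
    rw [Finset.sum_congr rfl fun j _ => e2 j, Finset.sum_comm]
  rw [h6, h6, Finset.sum_comm]
  refine Finset.sum_congr rfl fun i _ => Finset.sum_congr rfl fun j _ => ?_
  rw [h5.eq (Pi.single j 1) (Pi.single i 1)]
  ring

theorem LowE_u_smooth (I : ID) : ContDiff ℝ (⊤ : ℕ∞) (fun y => ((I.mu y : ℂ))⁻¹) := by
  have h1 : ContDiff ℝ (⊤ : ℕ∞) (fun y => (I.mu y : ℂ)) := Complex.ofRealCLM.contDiff.comp I.musm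
  exact h1.inv fun y => Complex.ofReal_ne_zero.mpr (I.mupos y).ne'

theorem LowE_dd_u (I : ID) (x : V2) :
    dd I.al (fun y => ((I.mu y : ℂ))⁻¹) x = l1 I x * ((I.mu x : ℂ))⁻¹ := by
  have hne : ∀ y, (I.mu y : ℂ) ≠ 0 := fun y => Complex.ofReal_ne_zero.mpr (I.mupos y).ne'
  have hmu := BetaA_diff I.musm x
  have hu : DifferentiableAt ℝ (fun y => ((I.mu y : ℂ))⁻¹) x :=
    ((LowE_u_smooth I).differentiable (by simp)).differentiableAt
  have h1 := dd_mul I.al hmu hu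
  have h2 : (fun y => (I.mu y : ℂ) * ((I.mu y : ℂ))⁻¹) = fun _ => (1 : ℂ) := by
    funext y
    exact mul_inv_cancel₀ (hne y)
  rw [h2, BetaA_const] at h1
  unfold l1 ddr
  have h3 := hne x
  generalize dd I.al (fun y => ((I.mu y : ℂ))⁻¹) x = D at h1 ⊢
  generalize dd I.al (fun y => (I.mu y : ℂ)) x = M at h1 ⊢
  have h4 : (I.mu x : ℂ) * D = -(M * ((I.mu x : ℂ))⁻¹) := by linear_combination -h1
  apply mul_left_cancel₀ h3
  rw [h4]
  field_simp

theorem LowE_dd_fu (I : ID) {f : V2 → ℂ} (hf : ContDiff ℝ (⊤ : ℕ∞) f) (i : ℕ) (x : V2) :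
    dd I.al (fun y => f y * (((I.mu y : ℂ))⁻¹) ^ i) x =
      (((I.mu x : ℂ))⁻¹) ^ i * (dd I.al f x + (i : ℂ) * l1 I x * f x) := by
  have hu : DifferentiableAt ℝ (fun y => ((I.mu y : ℂ))⁻¹) x :=
    ((LowE_u_smooth I).differentiable (by simp)).differentiableAt
  have hfd : DifferentiableAt ℝ f x := (hf.differentiable (by simp)).differentiableAt
  rw [dd_mul I.al hfd (hu.fun_pow i), dd_pow I.al hu i, LowE_dd_u]
  rcases i with _ | i
  · simp
  · simp only [Nat.add_sub_cancel]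
    rw [pow_succ]
    ring

theorem LowE_real (I : ID) {g : V2 → ℂ} (hg : ∀ y, (starRingEnd ℂ) (g y) = g y) {x : V2}
    (hd : DifferentiableAt ℝ g x) :
    dd (cj I.al) g x = (starRingEnd ℂ) (dd I.al g x) := by
  have h1 := dd_conj I.al hd
  have h2 : (fun y => (starRingEnd ℂ) (g y)) = g := funext hg
  rw [h2] at h1
  exact h1

/-- TASK LowE (2).  Reality.  Let `J ≥ 2`, `e_i = 0` on the open set `S` for `i < J`, `x ∈ S`,
`dU(x) ≠ 0`.  Then `dd f_{J-1,J-1} + (J-1) l1 f_{J-1,J-1} = τ l0` at `x`, with `τ` real.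

Proof.  `f_ii` is real (`I.conj`).  Put `g_i = f_ii / mu^i`; then
`dd g_i = mu^(-i) (dd f_ii + i l1 f_ii)` (`l1 = - dd mu / mu`).  By (1) for `i = J - 2`:
`dd g_{J-2} = - mu^(-(J-2)) (J-1) l0 f_{J-1,J-1} = (J-1) g_{J-1} dd U` on `S`.  Also the conjugate
equation.  Differentiate and use the symmetry of second derivatives
(`db dd g = dd db g`, both for `g_{J-2}` and for `U`): `db g_{J-1} dd U = dd g_{J-1} db U` at `x`, i.e.
`dd g_{J-1} / dd U` is real.  Multiply by `mu^(J-1)` and use `l0 = - dd U / mu`. -/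
theorem low_real (I : ID) (N : ℕ) (hN : I.n = 2 * N) (S : Set V2) (hS : IsOpen S) (J : ℕ)
    (hJ : 2 ≤ J) (hlow : ∀ i, i < J → ∀ y ∈ S, eh I N i y = 0) (x : V2) (hx : x ∈ S)
    (hdU : fderiv ℝ I.U x ≠ 0) :
    ∃ τ : ℝ, dd I.al (I.f ((J : ℤ) - 1) ((J : ℤ) - 1)) x
      + ((J : ℂ) - 1) * l1 I x * I.f ((J : ℤ) - 1) ((J : ℤ) - 1) x = (τ : ℂ) * l0 I x := by
  obtain ⟨i, rfl⟩ : ∃ i : ℕ, J = i + 2 := ⟨J - 2, by omega⟩
  have hne : ∀ y, (I.mu y : ℂ) ≠ 0 := fun y => Complex.ofReal_ne_zero.mpr (I.mupos y).ne'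
  have eJ : (((i + 2 : ℕ) : ℤ)) - 1 = (i : ℤ) + 1 := by push_cast; ring
  have eJ' : (((i + 2 : ℕ) : ℂ)) - 1 = (i : ℂ) + 1 := by push_cast; ring
  rw [eJ, eJ']
  have hf0 : ContDiff ℝ (⊤ : ℕ∞) (I.f i i) := I.fsm i i
  have hf1 : ContDiff ℝ (⊤ : ℕ∞) (I.f ((i : ℤ) + 1) ((i : ℤ) + 1)) := I.fsm _ _
  have hus := LowE_u_smooth I
  obtain ⟨G, hG⟩ : ∃ G : V2 → ℂ, G = fun y => I.f i i y * (((I.mu y : ℂ))⁻¹) ^ i := ⟨_, rfl⟩
  obtain ⟨H, hH⟩ : ∃ H : V2 → ℂ, H = fun y => I.f ((i : ℤ) + 1) ((i : ℤ) + 1) y *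
    (((I.mu y : ℂ))⁻¹) ^ (i + 1) := ⟨_, rfl⟩
  have hGs : ContDiff ℝ (⊤ : ℕ∞) G := by
    rw [hG]
    exact hf0.mul (hus.pow i)
  have hHs : ContDiff ℝ (⊤ : ℕ∞) H := by
    rw [hH]
    exact hf1.mul (hus.pow (i + 1))
  have hGr : ∀ y, (starRingEnd ℂ) (G y) = G y := by
    intro y
    rw [hG]
    simp only [map_mul, map_pow, map_inv₀, Complex.conj_ofReal]
    rw [← I.conj i i y]
  have hHr : ∀ y, (starRingEnd ℂ) (H y) = H y := by
    intro y
    rw [hH]
    simp only [map_mul, map_pow, map_inv₀, Complex.conj_ofReal]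
    rw [← I.conj ((i : ℤ) + 1) ((i : ℤ) + 1) y]
  have hUs : ContDiff ℝ (⊤ : ℕ∞) (fun y => (I.U y : ℂ)) := Complex.ofRealCLM.contDiff.comp I.Usm
  have hUr : ∀ y, (starRingEnd ℂ) ((fun y => (I.U y : ℂ)) y) = (fun y => (I.U y : ℂ)) y :=
    fun y => Complex.conj_ofReal _
  have dG : ∀ y, DifferentiableAt ℝ G y := fun y => (hGs.differentiable (by simp)).differentiableAt
  have dH : ∀ y, DifferentiableAt ℝ H y := fun y => (hHs.differentiable (by simp)).differentiableAt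
  have dU : ∀ y, DifferentiableAt ℝ (fun y => (I.U y : ℂ)) y :=
    fun y => (hUs.differentiable (by simp)).differentiableAt
  have key : ∀ y ∈ S, dd I.al G y = ((i : ℂ) + 1) * (H y * dd I.al (fun y => (I.U y : ℂ)) y) := by
    intro y hy
    have h1 := LowE_nn I N hN S hS (i + 2) hlow y hy i (by omega) 0
    unfold nn at h1
    have e1 : (i : ℤ) + 0 = i := add_zero _
    have e2 : (i : ℤ) - 0 = i := sub_zero _
    have e3 : (i : ℤ) + 1 + 0 = (i : ℤ) + 1 := add_zero _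
    have e4 : (i : ℤ) + 1 - 0 = (i : ℤ) + 1 := sub_zero _
    rw [e1, e2, e3, e4] at h1
    have h2 : l0 I y = -(dd I.al (fun y => (I.U y : ℂ)) y * ((I.mu y : ℂ))⁻¹) := by
      unfold l0 ddr
      rw [neg_div, div_eq_mul_inv]
    rw [h2] at h1
    rw [hG, hH, LowE_dd_fu I hf0 i y]
    push_cast at h1
    beta_reduce
    rw [pow_succ]
    linear_combination ((((I.mu y : ℂ))⁻¹) ^ i) * h1
  have key' : ∀ y ∈ S, dd (cj I.al) G y =
      ((i : ℂ) + 1) * (H y * dd (cj I.al) (fun y => (I.U y : ℂ)) y) := by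
    intro y hy
    rw [LowE_real I hGr (dG y), LowE_real I hUr (dU y), key y hy]
    simp only [map_mul, map_add, map_one, map_natCast]
    rw [hHr y]
  have hnhds : S ∈ nhds x := hS.mem_nhds hx
  have hA : ContDiff ℝ (⊤ : ℕ∞) (dd I.al (fun y => (I.U y : ℂ))) := dd_contDiff _ hUs
  have hB : ContDiff ℝ (⊤ : ℕ∞) (dd (cj I.al) (fun y => (I.U y : ℂ))) := dd_contDiff _ hUs
  have dA : DifferentiableAt ℝ (dd I.al (fun y => (I.U y : ℂ))) x :=
    (hA.differentiable (by simp)).differentiableAt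
  have dB : DifferentiableAt ℝ (dd (cj I.al) (fun y => (I.U y : ℂ))) x :=
    (hB.differentiable (by simp)).differentiableAt
  have c1 : dd (cj I.al) (fun y => dd I.al G y) x = ((i : ℂ) + 1) *
      (dd (cj I.al) H x * dd I.al (fun y => (I.U y : ℂ)) x +
        H x * dd (cj I.al) (fun y => dd I.al (fun y => (I.U y : ℂ)) y) x) := by
    have e : (fun y => dd I.al G y) =ᶠ[nhds x]
        fun y => ((i : ℂ) + 1) * (H y * dd I.al (fun y => (I.U y : ℂ)) y) :=
      Filter.eventually_of_mem hnhds key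
    rw [LowE_congr _ e, dd_mul _ (differentiableAt_const _) ((dH x).fun_mul dA), BetaA_const,
      dd_mul _ (dH x) dA]
    ring
  have c2 : dd I.al (fun y => dd (cj I.al) G y) x = ((i : ℂ) + 1) *
      (dd I.al H x * dd (cj I.al) (fun y => (I.U y : ℂ)) x +
        H x * dd I.al (fun y => dd (cj I.al) (fun y => (I.U y : ℂ)) y) x) := by
    have e : (fun y => dd (cj I.al) G y) =ᶠ[nhds x]
        fun y => ((i : ℂ) + 1) * (H y * dd (cj I.al) (fun y => (I.U y : ℂ)) y) :=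
      Filter.eventually_of_mem hnhds key'
    rw [LowE_congr _ e, dd_mul _ (differentiableAt_const _) ((dH x).fun_mul dB), BetaA_const,
      dd_mul _ (dH x) dB]
    ring
  have c3 := LowE_comm (cj I.al) I.al hGs x
  have c4 := LowE_comm (cj I.al) I.al hUs x
  have hi1 : ((i : ℂ) + 1) ≠ 0 := by exact_mod_cast Nat.succ_ne_zero i
  have c5 : dd (cj I.al) H x * dd I.al (fun y => (I.U y : ℂ)) x =
      dd I.al H x * dd (cj I.al) (fun y => (I.U y : ℂ)) x := by
    rw [c1, c2, c4] at c3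
    have := mul_left_cancel₀ hi1 c3
    exact add_right_cancel this
  rw [LowE_real I hHr (dH x), LowE_real I hUr (dU x)] at c5
  have hA0 : dd I.al (fun y => (I.U y : ℂ)) x ≠ 0 := by
    intro h0
    apply hdU
    refine ContinuousLinearMap.ext fun v => ?_
    obtain ⟨lam, _, hl⟩ := dir_decomp I.al I.hal v
    have h1 := hl (fun y => (I.U y : ℂ)) x (dU x)
    rw [LowE_real I hUr (dU x), h0, map_zero, mul_zero, mul_zero, add_zero,
      BetaA_ofReal ((I.Usm.differentiable (by simp)).differentiableAt) v] at h1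
    simpa using h1
  obtain ⟨r, hr⟩ : ∃ r : ℝ, dd I.al H x / dd I.al (fun y => (I.U y : ℂ)) x = (r : ℂ) := by
    rw [← Complex.conj_eq_iff_real, map_div₀]
    have h1 : (starRingEnd ℂ) (dd I.al (fun y => (I.U y : ℂ)) x) ≠ 0 :=
      (_root_.map_ne_zero _).mpr hA0
    rw [div_eq_div_iff h1 hA0]
    exact c5
  rw [div_eq_iff hA0] at hr
  have hH2 : dd I.al H x = (((I.mu x : ℂ))⁻¹) ^ (i + 1) *
      (dd I.al (I.f ((i : ℤ) + 1) ((i : ℤ) + 1)) x +
        ((i + 1 : ℕ) : ℂ) * l1 I x * I.f ((i : ℤ) + 1) ((i : ℤ) + 1) x) := by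
    rw [hH, LowE_dd_fu I hf1 (i + 1) x]
  refine ⟨-(r * I.mu x ^ (i + 2)), ?_⟩
  have h9 : l0 I x * (I.mu x : ℂ) = -(dd I.al (fun y => (I.U y : ℂ)) x) := by
    unfold l0 ddr
    rw [div_mul_cancel₀ _ (hne x)]
  have h10 : (I.mu x : ℂ) ^ (i + 1) * dd I.al H x =
      dd I.al (I.f ((i : ℤ) + 1) ((i : ℤ) + 1)) x +
        ((i : ℂ) + 1) * l1 I x * I.f ((i : ℤ) + 1) ((i : ℤ) + 1) x := by
    rw [hH2, ← mul_assoc, ← mul_pow, mul_inv_cancel₀ (hne x), one_pow, one_mul]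
    push_cast
    ring
  rw [← h10, hr]
  push_cast
  rw [pow_succ (I.mu x : ℂ) (i + 1)]
  linear_combination ((r : ℂ) * (I.mu x : ℂ) ^ (i + 1)) * h9

end Pool.W4b1b5d.E
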