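import Pool.Agent.W_4b1b5d_h78.Comm
import Pool.Agent.W_4b1b5d_h3.Lowest

set_option autoImplicit false

namespace Pool.W4b1b5d.E

open Pool.W4b1b5d.H3

/-- auxiliary: the final algebra at the maximum -/
theorem MaxPA_alg (a ab t s θ P Mm Pb taa tab tbb : ℂ) (ha : a ≠ 0) (hab : ab ≠ 0) (ht : t ≠ 0)
    (r1 : t * a = s * ab) (e0 : θ * ab ^ 2 = a ^ 2)
    (d1 : s * ab ^ 2 + θ * (2 * ab * Mm) = 2 * a * P)
    (d2 : t * ab ^ 2 + θ * (2 * ab * Pb) = 2 * a * Mm)
    (d3 : tab * a + t * P = taa * ab + s * Mm)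
    (d4 : tbb * a + t * Mm = tab * ab + s * Pb)
    (hD : ab * (2 * a * P * ab ^ 2 * (t * s) + a ^ 2 * (2 * ab * Mm) * (t * s)
        + a ^ 2 * ab ^ 2 * (tab * s + t * taa))
      - a * (2 * a * Mm * ab ^ 2 * (t * s) + a ^ 2 * (2 * ab * Pb) * (t * s)
        + a ^ 2 * ab ^ 2 * (tbb * s + t * tab)) = 0) : False := by
  have hs0 : s ≠ 0 := by
    intro h
    rw [h, zero_mul] at r1
    exact mul_ne_zero ht ha r1
  -- the four derivatives
  have k1 : 2 * (ab * P - a * Mm) = t * ab ^ 2 := by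
    have h2 : a * (2 * (ab * P - a * Mm)) = a * (t * ab ^ 2) := by
      linear_combination (-ab) * d1 - ab ^ 2 * r1 + 2 * Mm * e0
    exact mul_left_cancel₀ ha h2
  have k2 : 2 * a * (ab * Mm - a * Pb) = t * ab ^ 3 := by
    linear_combination (-ab) * d2 + 2 * Pb * e0
  have k3 : ab * (ab * tab - a * tbb) = t * (ab * Mm - a * Pb) := by
    linear_combination (-ab) * d4 + Pb * r1
  have k4 : ab * (ab * taa - a * tab) = t * (ab * P - a * Mm) := by
    linear_combination (-ab) * d3 + Mm * r1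
  have k5 : 3 * (a * ab ^ 5 * t ^ 2 * s) = 0 := by
    linear_combination ab * hD - a * ab ^ 3 * t * s * k1 - a * ab ^ 2 * t * s * k2
      - 1 / 2 * a * ab ^ 2 * s * t * k2 - 1 / 2 * a ^ 2 * ab ^ 2 * t ^ 2 * k1
      - a ^ 2 * ab ^ 2 * s * k3 - a ^ 2 * ab ^ 2 * t * k4 - 1 / 2 * a * ab ^ 4 * t ^ 2 * r1
  have k6 : (3 : ℂ) * (a * ab ^ 5 * t ^ 2 * s) ≠ 0 :=
    mul_ne_zero (by norm_num) (mul_ne_zero (mul_ne_zero (mul_ne_zero ha (pow_ne_zero 5 hab))
      (pow_ne_zero 2 ht)) hs0)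
  exact k6 k5

/-- `cj (cj al) = al` -/
theorem MaxPA_cj (al : Fin 2 → ℂ) : cj (cj al) = al := by
  funext i
  simp [cj]

/-- TASK MaxPA.  The local computation at a maximum.  Let `U` be a smooth real function and `θ` a
function smooth near `x0` with `|θ| = 1`, and near `x0` the relations (R1) and (R2).  If
`dU(x0) ≠ 0` and `db θ (x0) ≠ 0` then `G(y) = |db U(y)|⁴ |db θ(y)|²` has no local maximum at `x0`.

Proof.  Notation at points near `x0`: `a = dd U`, `ab = db U = conj a`, `t = db θ`, `s = dd θ`.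
(R1) `t a = s ab`, (R2) `θ t ab = s a`.  Near `x0`, `a ≠ 0`, `t ≠ 0`, and (R1), (R2) give
`θ ab² = a²` (multiply (R2) by `ab`, use (R1), divide by `t`).
Differentiate `θ ab² = a²`, (R1) at `x0`; with `P = dd dd U`, `Mm = dd db U`, `Pb = db db U`:
`s ab² + 2 θ ab Mm = 2 a P`, `t ab² + 2 θ ab Pb = 2 a Mm`,
`P t + a θ_ab = Mm s + ab θ_aa`, `Mm t + a θ_bb = Pb s + ab θ_ab`
(`θ_ab = dd db θ = db dd θ`, `θ_aa = dd dd θ`, `θ_bb = db db θ`; `dd_comm`).
Let `D f = i (ab(x0) dd f - a(x0) db f)` (a constant coefficient operator, evaluated at `x0`) and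
`q = i t ab² / (2 a)` at `x0`.  Then, using `θ = a²/ab²`, `s = a t / ab`:
`D a = i (ab P - a Mm) = q a`, `D ab = i (ab Mm - a Pb) = q ab`, `D t = i (ab θ_ab - a θ_bb)
= i (Mm t - Pb s) = q t`, `D s = i (ab θ_aa - a θ_ab) = i (P t - Mm s) = q s`,
`D θ = i (ab s - a t) = 0`.
Since `conj θ = 1/θ` near `x0`, `conj t = dd (conj θ) = - s / θ²`, so as a complex function
`G = a² ab² t conj t = - a² ab² t s / θ²` near `x0`, and `D G = 6 q G` at `x0`, which is not zero.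
But `D G = i (ab dd G - a db G)` is a combination of directional derivatives of `G`, which vanish at a
local maximum (`IsLocalMax.fderiv_eq_zero`).  Contradiction. -/
theorem no_max (al : Fin 2 → ℂ) (hal : ((starRingEnd ℂ) (al 0) * al 1).im ≠ 0) (U : V2 → ℝ)
    (hU : ContDiff ℝ (⊤ : ℕ∞) U) (θ : V2 → ℂ) (x0 : V2) (hdU : fderiv ℝ U x0 ≠ 0)
    (hθ : ContDiffAt ℝ (⊤ : ℕ∞) θ x0) (hn : ∀ᶠ y in nhds x0, ‖θ y‖ = 1)
    (h1 : ∀ᶠ y in nhds x0, dd (cj al) θ y * ddr al U y = dd al θ y * ddr (cj al) U y)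
    (h2 : ∀ᶠ y in nhds x0, θ y * dd (cj al) θ y * ddr (cj al) U y = dd al θ y * ddr al U y)
    (hne : dd (cj al) θ x0 ≠ 0) :
    ¬ IsLocalMax (fun y => ‖ddr (cj al) U y‖ ^ 4 * ‖dd (cj al) θ y‖ ^ 2) x0 := by
  intro hmax
  set Uc : V2 → ℂ := fun y => (U y : ℂ) with hUc
  have hUcs : ContDiff ℝ (⊤ : ℕ∞) Uc := Complex.ofRealCLM.contDiff.comp hU
  have hUd : ∀ y, DifferentiableAt ℝ U y := fun y =>
    (hU.differentiable (by simp)).differentiableAt
  set a : V2 → ℂ := fun y => dd al Uc y with ha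
  set ab : V2 → ℂ := fun y => dd (cj al) Uc y with hab
  set t : V2 → ℂ := fun y => dd (cj al) θ y with ht
  set s : V2 → ℂ := fun y => dd al θ y with hs
  have hda : ∀ y, DifferentiableAt ℝ a y := fun y =>
    ((dd_contDiff al hUcs).differentiable (by simp)).differentiableAt
  have hdab : ∀ y, DifferentiableAt ℝ ab y := fun y =>
    ((dd_contDiff (cj al) hUcs).differentiable (by simp)).differentiableAt
  have hdθ : DifferentiableAt ℝ θ x0 := hθ.differentiableAt (by simp)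
  have hdt : DifferentiableAt ℝ t x0 := (dd_contDiffAt (cj al) hθ).differentiableAt (by simp)
  have hds : DifferentiableAt ℝ s x0 := (dd_contDiffAt al hθ).differentiableAt (by simp)
  have hconj : ∀ y, ab y = (starRingEnd ℂ) (a y) := fun y => ddr_conj al (hUd y)
  have ha0 : a x0 ≠ 0 := ddr_ne al hal U x0 (hUd x0) hdU
  have hab0 : ab x0 ≠ 0 := by
    rw [hconj]
    simpa using ha0
  -- near `x0`
  have ena : ∀ᶠ y in nhds x0, a y ≠ 0 := (hda x0).continuousAt.eventually_ne ha0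
  have ent : ∀ᶠ y in nhds x0, t y ≠ 0 := hdt.continuousAt.eventually_ne hne
  have h1' : (fun y => t y * a y) =ᶠ[nhds x0] fun y => s y * ab y := h1
  have e0 : (fun y => θ y * ab y ^ 2) =ᶠ[nhds x0] fun y => a y ^ 2 := by
    filter_upwards [h1, h2, ent] with y q1 q2 q3
    have q1' : t y * a y = s y * ab y := q1
    have q2' : θ y * t y * ab y = s y * a y := q2
    have : t y * (θ y * ab y ^ 2) = t y * a y ^ 2 := by
      linear_combination ab y * q2' - a y * q1'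
    exact mul_left_cancel₀ q3 this
  -- symmetric second derivatives
  have hθ2 : ContDiffAt ℝ 2 θ x0 := hθ.of_le (WithTop.coe_le_coe.2 le_top)
  have hU2 : ContDiffAt ℝ 2 Uc x0 := hUcs.contDiffAt.of_le (WithTop.coe_le_coe.2 le_top)
  have sθ : dd al t x0 = dd (cj al) s x0 := dd_comm al (cj al) hθ2
  have sU : dd al ab x0 = dd (cj al) a x0 := dd_comm al (cj al) hU2
  -- differentiate
  have D1 : ∀ c : Fin 2 → ℂ, dd c θ x0 * ab x0 ^ 2 + θ x0 * (2 * ab x0 * dd c ab x0)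
      = 2 * a x0 * dd c a x0 := by
    intro c
    have h := dd_congr c e0
    rw [dd_mul c hdθ ((hdab x0).fun_pow 2), dd_pow c (hdab x0) 2, dd_pow c (hda x0) 2] at h
    simpa using h
  have D3 : ∀ c : Fin 2 → ℂ, dd c t x0 * a x0 + t x0 * dd c a x0
      = dd c s x0 * ab x0 + s x0 * dd c ab x0 := by
    intro c
    have h := dd_congr c h1'
    rwa [dd_mul c hdt (hda x0), dd_mul c hds (hdab x0)] at h
  -- the function `G` as a complex function
  set Gc : V2 → ℂ := fun y => ((‖ddr (cj al) U y‖ ^ 4 * ‖dd (cj al) θ y‖ ^ 2 : ℝ) : ℂ) with hGc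
  have hG1 : ∀ y, Gc y = (a y * ab y) ^ 2 * (t y * (starRingEnd ℂ) (t y)) := by
    intro y
    have e1 : ddr (cj al) U y = ab y := rfl
    have e2 : dd (cj al) θ y = t y := rfl
    have e3 : a y * ab y = ((‖ab y‖ ^ 2 : ℝ) : ℂ) := by
      have : a y = (starRingEnd ℂ) (ab y) := by rw [hconj]; simp
      rw [this, mul_comm, Complex.mul_conj, Complex.normSq_eq_norm_sq]
    have e4 : t y * (starRingEnd ℂ) (t y) = ((‖t y‖ ^ 2 : ℝ) : ℂ) := by
      rw [Complex.mul_conj, Complex.normSq_eq_norm_sq]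
    rw [hGc]
    simp only [e1, e2]
    rw [e3, e4]
    push_cast
    ring
  have hGd : DifferentiableAt ℝ Gc x0 := by
    have : Gc = fun y => (a y * ab y) ^ 2 * (t y * (starRingEnd ℂ) (t y)) := funext hG1
    rw [this]
    have hct : DifferentiableAt ℝ (fun y => (starRingEnd ℂ) (t y)) x0 :=
      ((Complex.conjCLE : ℂ →L[ℝ] ℂ).hasFDerivAt (x := t x0)).comp x0 hdt.hasFDerivAt
        |>.differentiableAt
    exact (((hda x0).mul (hdab x0)).fun_pow 2).mul (hdt.mul hct)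
  have hGr : DifferentiableAt ℝ (fun y => ‖ddr (cj al) U y‖ ^ 4 * ‖dd (cj al) θ y‖ ^ 2) x0 := by
    have h := (Complex.reCLM.hasFDerivAt (x := Gc x0)).comp x0 hGd.hasFDerivAt
    have e : (fun y => ‖ddr (cj al) U y‖ ^ 4 * ‖dd (cj al) θ y‖ ^ 2)
        = fun y => Complex.reCLM (Gc y) := by
      funext y
      simp only [hGc, Complex.reCLM_apply, Complex.ofReal_re]
    rw [e]
    exact h.differentiableAt
  have hG0 : fderiv ℝ Gc x0 = 0 := by
    ext v
    have h : fderiv ℝ Gc x0 v = (((fderiv ℝ (fun y => ‖ddr (cj al) U y‖ ^ 4 *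
        ‖dd (cj al) θ y‖ ^ 2) x0 v) : ℝ) : ℂ) := BetaA_ofReal hGr v
    rw [h, hmax.fderiv_eq_zero]
    simp
  have hGdd : ∀ c : Fin 2 → ℂ, dd c Gc x0 = 0 := by
    intro c
    unfold dd
    rw [hG0]
    simp
  -- `G θ² = - a² ab² t s`
  have hnn : (fun y => (starRingEnd ℂ) (θ y) * θ y) =ᶠ[nhds x0] fun _ => (1 : ℂ) := by
    filter_upwards [hn] with y hy
    rw [mul_comm, Complex.mul_conj, Complex.normSq_eq_norm_sq, hy]
    norm_num
  have hct : ∀ᶠ y in nhds x0, (starRingEnd ℂ) (t y) * θ y ^ 2 = - s y := by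
    have hsm : ∀ᶠ y in nhds x0, DifferentiableAt ℝ θ y := by
      have h1c : ContDiffAt ℝ 1 θ x0 := hθ.of_le (by exact_mod_cast (le_top : (1 : ℕ∞) ≤ ⊤))
      exact (h1c.eventually (by simp)).mono fun y hy => hy.differentiableAt (by simp)
    filter_upwards [hnn.eventuallyEq_nhds, hsm] with y hy hθy
    have hcθ : DifferentiableAt ℝ (fun z => (starRingEnd ℂ) (θ z)) y :=
      ((Complex.conjCLE : ℂ →L[ℝ] ℂ).hasFDerivAt (x := θ y)).comp y hθy.hasFDerivAt
        |>.differentiableAt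
    have h := dd_congr al hy
    rw [dd_mul al hcθ hθy, BetaA_const] at h
    have h3 := dd_conj (cj al) hθy
    rw [MaxPA_cj] at h3
    rw [h3] at h
    have h4 : (starRingEnd ℂ) (θ y) * θ y = 1 := hy.eq_of_nhds
    have h5 : (starRingEnd ℂ) (t y) * θ y + (starRingEnd ℂ) (θ y) * s y = 0 := h
    linear_combination θ y * h5 - s y * h4
  have hGθ : (fun y => Gc y * θ y ^ 2) =ᶠ[nhds x0]
      fun y => (-1 : ℂ) * (a y ^ 2 * ab y ^ 2 * (t y * s y)) := by
    filter_upwards [hct] with y hy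
    rw [hG1]
    linear_combination (a y * ab y) ^ 2 * t y * hy
  have DG : ∀ c : Fin 2 → ℂ, Gc x0 * (2 * θ x0 * dd c θ x0) =
      (-1 : ℂ) * (2 * a x0 * dd c a x0 * ab x0 ^ 2 * (t x0 * s x0)
        + a x0 ^ 2 * (2 * ab x0 * dd c ab x0) * (t x0 * s x0)
        + a x0 ^ 2 * ab x0 ^ 2 * (dd c t x0 * s x0 + t x0 * dd c s x0)) := by
    intro c
    have h := dd_congr c hGθ
    rw [dd_mul c hGd (hdθ.fun_pow 2), hGdd, dd_pow c hdθ 2,
      dd_mul c (differentiableAt_const _) ((((hda x0).fun_pow 2).fun_mul ((hdab x0).fun_pow 2)).fun_mul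
        (hdt.fun_mul hds)), BetaA_const,
      dd_mul c (((hda x0).fun_pow 2).fun_mul ((hdab x0).fun_pow 2)) (hdt.fun_mul hds),
      dd_mul c ((hda x0).fun_pow 2) ((hdab x0).fun_pow 2), dd_mul c hdt hds,
      dd_pow c (hda x0) 2, dd_pow c (hdab x0) 2] at h
    simp only [Nat.cast_ofNat, Nat.add_one_sub_one, pow_one, zero_mul, zero_add] at h
    linear_combination h
  have hR1 : t x0 * a x0 = s x0 * ab x0 := h1'.eq_of_nhds
  have hE0 : θ x0 * ab x0 ^ 2 = a x0 ^ 2 := e0.eq_of_nhds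
  refine MaxPA_alg (a x0) (ab x0) (t x0) (s x0) (θ x0) (dd al a x0) (dd al ab x0)
    (dd (cj al) ab x0) (dd al s x0) (dd al t x0) (dd (cj al) t x0) ha0 hab0 hne hR1 hE0
    (D1 al) ?_ (D3 al) ?_ ?_
  · rw [sU]
    exact D1 (cj al)
  · rw [sU, sθ]
    exact D3 (cj al)
  · have g1 := DG al
    have g2 := DG (cj al)
    rw [← sU, ← sθ] at g2
    have hθs : dd al θ x0 = s x0 := rfl
    have hθt : dd (cj al) θ x0 = t x0 := rfl
    rw [hθs] at g1
    rw [hθt] at g2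
    linear_combination ab x0 * g1 - a x0 * g2 + Gc x0 * 2 * θ x0 * hR1

end Pool.W4b1b5d.E
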