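import Pool.Agent.W_4b1b5d_h78.R12
import Pool.Agent.W_4b1b5d_h78.MaxPA

set_option autoImplicit false

namespace Pool.W4b1b5d.E

open Pool.W4b1b5d.H3

open Classical in
/-- `|db U|⁴ |db θ|²` on `{dU ≠ 0}`, extended by zero. -/
noncomputable def Gf (I : ID) (V : Uni I) (x : V2) : ℝ :=
  if fderiv ℝ I.U x ≠ 0 then ‖ddr (cj I.al) I.U x‖ ^ 4 * ‖dd (cj I.al) (th I V) x‖ ^ 2 else 0

theorem maxpb_open (I : ID) : IsOpen {x : V2 | fderiv ℝ I.U x ≠ 0} := by
  have hc : Continuous (fun x => fderiv ℝ I.U x) := I.Usm.continuous_fderiv (by simp)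
  exact isOpen_ne_fun hc continuous_const

theorem maxpb_a_smooth (I : ID) : ContDiff ℝ (⊤ : ℕ∞) (fun x => ddr (cj I.al) I.U x) :=
  dd_contDiff (cj I.al) (Complex.ofRealCLM.contDiff.comp I.Usm)

theorem maxpb_a_ne (I : ID) (x : V2) (h : fderiv ℝ I.U x ≠ 0) : ddr (cj I.al) I.U x ≠ 0 := by
  have hd : DifferentiableAt ℝ I.U x := I.Usm.differentiable (by simp) x
  rw [ddr_conj I.al hd]
  intro h2
  exact ddr_ne I.al I.hal I.U x hd h ((map_eq_zero _).1 h2)

theorem maxpb_a_zero (I : ID) (x : V2) (h : fderiv ℝ I.U x = 0) : ddr (cj I.al) I.U x = 0 := by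
  have hd : DifferentiableAt ℝ I.U x := I.Usm.differentiable (by simp) x
  rw [ddr_eq (cj I.al) hd]
  unfold pd
  rw [h]
  simp

theorem maxpb_norm_th (I : ID) (V : Uni I) (hGC : ∀ x, fderiv ℝ I.U x ≠ 0 → ∃ θ, GC I V x θ)
    (x : V2) (h : fderiv ℝ I.U x ≠ 0) : ‖th I V x‖ = 1 := by
  obtain ⟨θ, hθ⟩ := hGC x h
  rw [← GC_th I V x θ hθ h]
  exact hθ.1

/-- the continuous extension of `(db U)² db θ`. -/
noncomputable def Psf (I : ID) (V : Uni I) (x : V2) : ℂ :=
  ddr (cj I.al) I.U x * dd (cj I.al) (Xt I V) x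
    - Xt I V x * dd (cj I.al) (fun y => ddr (cj I.al) I.U y) x

theorem Psf_cont (I : ID) (V : Uni I) : Continuous (Psf I V) := by
  have h1 := maxpb_a_smooth I
  have h2 := (Xt_smooth I V).1
  unfold Psf
  exact (h1.continuous.mul (dd_contDiff (cj I.al) h2).continuous).sub
    (h2.continuous.mul (dd_contDiff (cj I.al) h1).continuous)

theorem Psf_eq (I : ID) (V : Uni I) (x : V2) (h : fderiv ℝ I.U x ≠ 0) :
    (ddr (cj I.al) I.U x) ^ 2 * dd (cj I.al) (th I V) x = Psf I V x := by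
  have h1 : Xt I V =ᶠ[nhds x] fun y => th I V y * ddr (cj I.al) I.U y := by
    filter_upwards [(maxpb_open I).mem_nhds h] with y hy
    unfold th
    rw [div_mul_cancel₀ _ (maxpb_a_ne I y hy)]
  have h2 := dd_congr (cj I.al) h1
  have h3 := th_smooth I V x h
  rw [dd_mul (cj I.al) (f := th I V) (g := fun y => ddr (cj I.al) I.U y)
    (h3.differentiableAt (by simp))
    ((maxpb_a_smooth I).differentiable (by simp) x)] at h2
  unfold Psf
  rw [h2, h1.self_of_nhds]
  ring

theorem Gf_eq (I : ID) (V : Uni I) (x : V2) (h : fderiv ℝ I.U x ≠ 0) :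
    Gf I V x = ‖Psf I V x‖ ^ 2 := by
  unfold Gf
  rw [if_pos h, ← Psf_eq I V x h, norm_mul, norm_pow]
  ring

/-- TASK MaxPB (1).  `Gf` is continuous.

Proof.  On `O = {dU ≠ 0}`: `θ = X / db U`, `X = Xt`, so
`(db U)² db θ = db U db X - X db db U`, the restriction of a continuous function `Ψ` on the plane, and
`Gf = ‖Ψ‖²` on the open set `O`.  As `|θ| = 1` on `O`, `|X| = |db U|` on `O`, so
`‖Ψ‖ ≤ |db U| (|db X| + |db db U|)` on `O`.  At a point `x ∉ O`: `Gf x = 0` and for `y → x` either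
`Gf y = 0` or `Gf y ≤ |db U(y)|² (...)² → 0` because `db U(x) = 0`. -/
theorem Gf_cont (I : ID) (V : Uni I) (hGC : ∀ x, fderiv ℝ I.U x ≠ 0 → ∃ θ, GC I V x θ) :
    Continuous (Gf I V) := by
  classical
  rw [continuous_iff_continuousAt]
  intro x
  by_cases hx : fderiv ℝ I.U x ≠ 0
  · have h1 : Gf I V =ᶠ[nhds x] fun y => ‖Psf I V y‖ ^ 2 := by
      filter_upwards [(maxpb_open I).mem_nhds hx] with y hy
      exact Gf_eq I V y hy
    rw [continuousAt_congr h1]
    exact ((Psf_cont I V).norm.pow 2).continuousAt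
  · push Not at hx
    have h0 : Gf I V x = 0 := by
      unfold Gf
      rw [if_neg (by simpa using hx)]
    set B : V2 → ℝ := fun y => (‖ddr (cj I.al) I.U y‖ * (‖dd (cj I.al) (Xt I V) y‖
      + ‖dd (cj I.al) (fun z => ddr (cj I.al) I.U z) y‖)) ^ 2 with hB
    have hBc : Continuous B := by
      have h1 := maxpb_a_smooth I
      have h2 := (Xt_smooth I V).1
      exact (h1.continuous.norm.mul ((dd_contDiff (cj I.al) h2).continuous.norm.add
        (dd_contDiff (cj I.al) h1).continuous.norm)).pow 2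
    have hB0 : B x = 0 := by
      rw [hB]
      simp only
      rw [maxpb_a_zero I x hx]
      simp
    have hle : ∀ y, Gf I V y ≤ B y := by
      intro y
      by_cases hy : fderiv ℝ I.U y ≠ 0
      · rw [Gf_eq I V y hy, hB]
        refine pow_le_pow_left₀ (norm_nonneg _) ?_ 2
        unfold Psf
        refine (norm_sub_le _ _).trans ?_
        rw [norm_mul, norm_mul]
        have h3 : ‖Xt I V y‖ = ‖ddr (cj I.al) I.U y‖ := by
          have h4 := maxpb_norm_th I V hGC y hy
          unfold th at h4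
          rw [norm_div, div_eq_one_iff_eq (norm_ne_zero_iff.2 (maxpb_a_ne I y hy))] at h4
          exact h4
        rw [h3]
        exact le_of_eq (by ring)
      · unfold Gf
        rw [if_neg hy]
        exact sq_nonneg _
    have hge : ∀ y, 0 ≤ Gf I V y := by
      intro y
      unfold Gf
      split_ifs
      · positivity
      · exact le_rfl
    rw [ContinuousAt, h0]
    have h5 : Filter.Tendsto B (nhds x) (nhds 0) := by
      have := hBc.continuousAt (x := x)
      rw [ContinuousAt, hB0] at this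
      exact this
    exact squeeze_zero hge hle h5

theorem th_per (I : ID) (V : Uni I) : Per (th I V) := by
  intro x k
  unfold th
  rw [(Xt_smooth I V).2 x k]
  congr 1
  exact dd_per (cj I.al) (f := fun y => (I.U y : ℂ)) (fun y j => congrArg (fun r : ℝ => (r : ℂ)) (I.Uper y j)) x k

/-- TASK MaxPB (2).  `Gf` is periodic. -/
theorem Gf_per (I : ID) (V : Uni I) : Per (Gf I V) := by
  classical
  intro x k
  have h1 : fderiv ℝ I.U (x + fun i => (k i : ℝ)) = fderiv ℝ I.U x := by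
    have h1 := fderiv_comp_add_right (𝕜 := ℝ) (f := I.U) (x := x) (fun i => (k i : ℝ))
    rw [← h1]
    congr 1
    funext y
    exact I.Uper y k
  have h2 : ddr (cj I.al) I.U (x + fun i => (k i : ℝ)) = ddr (cj I.al) I.U x :=
    dd_per (cj I.al) (f := fun y => (I.U y : ℂ)) (fun y j => congrArg (fun r : ℝ => (r : ℂ)) (I.Uper y j)) x k
  unfold Gf
  rw [h1, h2, dd_per (cj I.al) (th_per I V) x k]

theorem Gf_max (I : ID) (V : Uni I) (hc : Continuous (Gf I V)) :
    ∃ x0, ∀ y, Gf I V y ≤ Gf I V x0 := by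
  have hne : (Set.Icc (0 : V2) 1).Nonempty := ⟨0, by simp⟩
  obtain ⟨x0, _, hx0⟩ := isCompact_Icc.exists_isMaxOn hne hc.continuousOn
  refine ⟨x0, fun y => ?_⟩
  have h1 : y + (fun i => (((-⌊y i⌋ : ℤ)) : ℝ)) ∈ Set.Icc (0 : V2) 1 := by
    constructor
    · intro i
      have := Int.floor_le (y i)
      change (0 : ℝ) ≤ y i + ((-⌊y i⌋ : ℤ) : ℝ)
      push_cast
      linarith
    · intro i
      have := Int.lt_floor_add_one (y i)
      change y i + ((-⌊y i⌋ : ℤ) : ℝ) ≤ (1 : ℝ)
      push_cast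
      linarith
  have h2 := hx0 h1
  have h3 := Gf_per I V y (fun i => -⌊y i⌋)
  rw [← h3]
  exact h2

/-- TASK MaxPB (3).  `dθ = 0` on `{dU ≠ 0}`.

Proof.  `Gf` is continuous and periodic, so it attains its maximum at some `x0` (compact cube).  If
`db θ (x) ≠ 0` at some `x ∈ O` then `Gf x > 0` (`ddr (cj al) U x ≠ 0`), so `Gf x0 > 0`, `x0 ∈ O`,
`db θ (x0) ≠ 0`, and near `x0` `Gf` is the function of `no_max` (`O` is open), which would have a local
maximum at `x0`: contradiction (the hypotheses of `no_max` hold by `th_smooth`, `R12`, `GC_th`).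
So `db θ = 0` on `O`, and then `dd θ = 0` by (R1) (`ddr (cj al) U ≠ 0`). -/
theorem th_const (I : ID) (V : Uni I) (hGC : ∀ x, fderiv ℝ I.U x ≠ 0 → ∃ θ, GC I V x θ)
    (x : V2) (hdU : fderiv ℝ I.U x ≠ 0) :
    dd (cj I.al) (th I V) x = 0 ∧ dd I.al (th I V) x = 0 := by
  classical
  have key : dd (cj I.al) (th I V) x = 0 := by
    by_contra hne
    obtain ⟨x0, hx0⟩ := Gf_max I V (Gf_cont I V hGC)
    have hpos : 0 < Gf I V x := by
      unfold Gf
      rw [if_pos hdU]
      have h1 := norm_pos_iff.2 (maxpb_a_ne I x hdU)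
      have h2 := norm_pos_iff.2 hne
      positivity
    have hpos0 : 0 < Gf I V x0 := lt_of_lt_of_le hpos (hx0 x)
    have hd0 : fderiv ℝ I.U x0 ≠ 0 := by
      intro h
      unfold Gf at hpos0
      rw [if_neg (by simpa using h)] at hpos0
      exact lt_irrefl _ hpos0
    have hne0 : dd (cj I.al) (th I V) x0 ≠ 0 := by
      intro h
      unfold Gf at hpos0
      rw [if_pos hd0, h] at hpos0
      simp at hpos0
    have hO := (maxpb_open I).mem_nhds hd0
    refine no_max I.al I.hal I.U I.Usm (th I V) x0 hd0 (th_smooth I V x0 hd0) ?_ ?_ ?_ hne0 ?_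
    · filter_upwards [hO] with y hy
      exact maxpb_norm_th I V hGC y hy
    · filter_upwards [hO] with y hy
      exact (R12 I V hGC y hy).1
    · filter_upwards [hO] with y hy
      exact (R12 I V hGC y hy).2
    · have e : ∀ y, fderiv ℝ I.U y ≠ 0 →
          ‖ddr (cj I.al) I.U y‖ ^ 4 * ‖dd (cj I.al) (th I V) y‖ ^ 2 = Gf I V y := by
        intro y hy
        unfold Gf
        rw [if_pos hy]
      show ∀ᶠ y in nhds x0, _
      filter_upwards [hO] with y hy
      show ‖ddr (cj I.al) I.U y‖ ^ 4 * ‖dd (cj I.al) (th I V) y‖ ^ 2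
        ≤ ‖ddr (cj I.al) I.U x0‖ ^ 4 * ‖dd (cj I.al) (th I V) x0‖ ^ 2
      rw [e y hy, e x0 hd0]
      exact hx0 y
  refine ⟨key, ?_⟩
  have h1 := (R12 I V hGC x hdU).1
  rw [key, zero_mul] at h1
  exact (mul_eq_zero.1 h1.symm).resolve_right (maxpb_a_ne I x hdU)

end Pool.W4b1b5d.E
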