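import Pool.Agent.W_4b1b5d_h78.GoodA
import Pool.Agent.W_4b1b5d_h78.Comm
import Pool.Agent.W_4b1b5d_h78.HPops
import Pool.Agent.W_4b1b5d_h3.Lowest

set_option autoImplicit false

namespace Pool.W4b1b5d.E

open Pool.W4b1b5d.H3

/-- The numerator of `θ`: a smooth periodic function. -/
noncomputable def Xt (I : ID) (V : Uni I) (x : V2) : ℂ := V.A 0 (I.U x) x * (I.mu x : ℂ) / 2

/-- The function `θ` on `{dU ≠ 0}`. -/
noncomputable def th (I : ID) (V : Uni I) (x : V2) : ℂ := Xt I V x / ddr (cj I.al) I.U x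

/-- TASK R12 (1).  `Xt` is smooth and periodic (`A 0 h x = c_0(x) + c_1(x) h` by `AHP`, put
`h = U x`). -/
theorem Xt_smooth (I : ID) (V : Uni I) : ContDiff ℝ (⊤ : ℕ∞) (Xt I V) ∧ Per (Xt I V) := by
  obtain ⟨c, hc, hp, he⟩ := V.AHP 0
  have h1 : Xt I V = fun x => (∑ k ∈ Finset.range (0 + 1 + 1), c k x * (I.U x : ℂ) ^ k)
      * (I.mu x : ℂ) / 2 := by
    funext x
    unfold Xt
    rw [he]
  constructor
  · rw [h1]
    have hU : ContDiff ℝ (⊤ : ℕ∞) (fun x => (I.U x : ℂ)) :=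
      Complex.ofRealCLM.contDiff.comp I.Usm
    have hmu : ContDiff ℝ (⊤ : ℕ∞) (fun x => (I.mu x : ℂ)) :=
      Complex.ofRealCLM.contDiff.comp I.musm
    have h2 : ContDiff ℝ (⊤ : ℕ∞)
        (fun x => ∑ k ∈ Finset.range (0 + 1 + 1), c k x * (I.U x : ℂ) ^ k) :=
      ContDiff.sum fun k _ => (hc k).mul (hU.pow k)
    exact (h2.mul hmu).div_const 2
  · intro x j
    rw [h1]
    beta_reduce
    rw [I.Uper x j, I.muper x j]
    congr 2
    refine Finset.sum_congr rfl fun k _ => ?_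
    rw [hp k x j]

theorem R12_Ud (I : ID) (x : V2) : DifferentiableAt ℝ I.U x :=
  (I.Usm.differentiable (by simp)).differentiableAt

theorem R12_ddU_ne (I : ID) (x : V2) (hdU : fderiv ℝ I.U x ≠ 0) :
    ddr (cj I.al) I.U x ≠ 0 := by
  rw [ddr_conj I.al (R12_Ud I x)]
  intro h2
  exact ddr_ne I.al I.hal I.U x (R12_Ud I x) hdU ((map_eq_zero _).1 h2)

/-- TASK R12 (2).  `θ = th` where `dU ≠ 0`: at `h = U x` we have `ell = 0`,
`ddr (cj al) (ell h) x = - ddr (cj al) U x / mu x` (`ID.ddr_ell`), and `ddr (cj al) U x ≠ 0`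
(`ddr_conj`, `ddr_ne`). -/
theorem GC_th (I : ID) (V : Uni I) (x : V2) (θ : ℂ) (h : GC I V x θ)
    (hdU : fderiv ℝ I.U x ≠ 0) : θ = th I V x := by
  have h1 := (h.2 (I.U x)).1
  have h2 := I.ddr_ell (I.U x) (cj I.al) x
  have h3 : I.ell (I.U x) x = 0 := by
    unfold ID.ell
    rw [sub_self, zero_div]
  rw [h3, Complex.ofReal_zero, zero_mul, sub_zero] at h2
  have h4 := R12_ddU_ne I x hdU
  unfold th Xt
  rw [h1, eq_div_iff h4]
  linear_combination θ * h2

/-- TASK R12 (3).  `th` is smooth at the points with `dU ≠ 0`. -/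
theorem th_smooth (I : ID) (V : Uni I) (x : V2) (hdU : fderiv ℝ I.U x ≠ 0) :
    ContDiffAt ℝ (⊤ : ℕ∞) (th I V) x := by
  have hU : ContDiff ℝ (⊤ : ℕ∞) (fun x => (I.U x : ℂ)) :=
    Complex.ofRealCLM.contDiff.comp I.Usm
  have h1 : ContDiffAt ℝ (⊤ : ℕ∞) (fun y => ddr (cj I.al) I.U y) x :=
    dd_contDiffAt (cj I.al) hU.contDiffAt
  have h2 : th I V = fun y => Xt I V y * (ddr (cj I.al) I.U y)⁻¹ := by
    funext y
    unfold th
    rw [div_eq_mul_inv]
  rw [h2]
  exact (Xt_smooth I V).1.contDiffAt.mul (h1.inv (R12_ddU_ne I x hdU))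

theorem R12_open (I : ID) (x : V2) (hdU : fderiv ℝ I.U x ≠ 0) :
    ∀ᶠ y in nhds x, fderiv ℝ I.U y ≠ 0 := by
  have h1 : Continuous (fderiv ℝ I.U) := I.Usm.continuous_fderiv (by simp)
  exact h1.continuousAt.eventually_ne hdU

theorem R12_two : (2 : WithTop ℕ∞) ≤ ((⊤ : ℕ∞) : WithTop ℕ∞) := WithTop.coe_le_coe.mpr le_top

/-- The relations at a fixed level `h` different from `U x`. -/
theorem R12_level (I : ID) (V : Uni I) (hGC : ∀ x, fderiv ℝ I.U x ≠ 0 → ∃ θ, GC I V x θ) (x : V2)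
    (hdU : fderiv ℝ I.U x ≠ 0) (h : ℝ) (hl : (I.ell h x : ℂ) ≠ 0) :
    dd (cj I.al) (th I V) x * ddr I.al (I.ell h) x
      = dd I.al (th I V) x * ddr (cj I.al) (I.ell h) x ∧
    th I V x * dd (cj I.al) (th I V) x * ddr (cj I.al) (I.ell h) x
      = dd I.al (th I V) x * ddr I.al (I.ell h) x := by
  set a := I.al with ha
  set b := cj I.al with hb
  set T := th I V with hT
  set L : V2 → ℂ := fun y => (I.ell h y : ℂ) with hL
  have hLs : ContDiff ℝ (⊤ : ℕ∞) L := Complex.ofRealCLM.contDiff.comp (I.ell_smooth h)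
  have hLa : ∀ y, ContDiffAt ℝ (⊤ : ℕ∞) L y := fun y => hLs.contDiffAt
  have hTs : ContDiffAt ℝ (⊤ : ℕ∞) T x := th_smooth I V x hdU
  set p : V2 → ℂ := fun y => dd a L y with hp
  set q : V2 → ℂ := fun y => dd b L y with hq
  have hps : ContDiffAt ℝ (⊤ : ℕ∞) p x := dd_contDiffAt a (hLa x)
  have hqs : ContDiffAt ℝ (⊤ : ℕ∞) q x := dd_contDiffAt b (hLa x)
  have hb0s := (V.bHP 0).smooth h
  have hb1s := (V.bHP 1).smooth h
  have hb2s := (V.bHP 2).smooth h
  have hbs : ∀ j, ContDiffAt ℝ (⊤ : ℕ∞) (V.b j h) x := fun j => ((V.bHP j).smooth h).contDiffAt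
  have df : ∀ {g : V2 → ℂ}, ContDiffAt ℝ (⊤ : ℕ∞) g x → DifferentiableAt ℝ g x :=
    fun hg => hg.differentiableAt (by simp)
  have c2 : ∀ {g : V2 → ℂ}, ContDiffAt ℝ (⊤ : ℕ∞) g x → ContDiffAt ℝ 2 g x :=
    fun hg => hg.of_le R12_two
  have hO := R12_open I x hdU
  have hrel : ∀ᶠ y in nhds x, V.A 0 h y = -2 * T y * q y ∧ V.A 1 h y = 2 * T y * L y * p y ∧
      V.A 2 h y = T y * L y ^ 2 * V.A 0 h y := by
    filter_upwards [hO] with y hy
    obtain ⟨θ, hθ⟩ := hGC y hy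
    have h1 := GC_th I V y θ hθ hy
    have h2 := hθ.2 h
    rw [h1] at h2
    exact ⟨h2.1, h2.2.1, h2.2.2 0⟩
  have hrelx := hrel.self_of_nhds
  -- derivatives of `b 1`
  have e1 : (fun y => dd a (V.b 1 h) y) =ᶠ[nhds x] fun y => 2 * (T y * (L y * p y)) := by
    filter_upwards [hrel] with y hy
    rw [← V.A1 h y, hy.2.1]
    ring
  have e2 : (fun y => dd b (V.b 1 h) y) =ᶠ[nhds x] fun y => 2 * (T y * (L y * q y)) := by
    filter_upwards [hrel] with y hy
    have h3 := V.dbs 0 h y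
    rw [← V.A0 h y, hy.1] at h3
    simp only [Nat.cast_zero, mul_zero, zero_mul, add_zero, zero_add] at h3
    rw [h3]
    ring
  have dc : ∀ (v : Fin 2 → ℂ) (r : ℂ) {g : V2 → ℂ}, DifferentiableAt ℝ g x →
      dd v (fun y => r * g y) x = r * dd v g x := by
    intro v r g hg
    rw [dd_mul v (differentiableAt_const r) hg, BetaA_const, zero_mul, zero_add]
  have hpq : dd b p x = dd a q x := dd_comm b a (c2 (hLa x))
  have k1 := dd_comm b a (c2 (hbs 1))
  rw [dd_congr b e1, dd_congr a e2, dc b 2 ((df hTs).fun_mul ((df (hLa x)).fun_mul (df hps))),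
    dc a 2 ((df hTs).fun_mul ((df (hLa x)).fun_mul (df hqs))),
    dd_mul b (df hTs) ((df (hLa x)).fun_mul (df hps)), dd_mul a (df hTs) ((df (hLa x)).fun_mul (df hqs)),
    dd_mul b (df (hLa x)) (df hps), dd_mul a (df (hLa x)) (df hqs), hpq] at k1
  have k2 : L x * (dd b T x * p x - dd a T x * q x) = 0 := by
    have hpx : dd a L x = p x := rfl
    have hqx : dd b L x = q x := rfl
    rw [hpx, hqx] at k1
    linear_combination k1 / 2
  have r1 : dd b T x * p x = dd a T x * q x := sub_eq_zero.1 ((mul_eq_zero.1 k2).resolve_left hl)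
  refine ⟨r1, ?_⟩
  -- derivatives of `b 2`
  set c : V2 → ℂ := fun y => T y * L y ^ 2 - V.b 1 h y with hc
  have hL2 : ContDiffAt ℝ (⊤ : ℕ∞) (fun y => L y ^ 2) x := (hLa x).pow 2
  have hcs : ContDiffAt ℝ (⊤ : ℕ∞) c x := (hTs.mul hL2).sub (hbs 1)
  have hA0s : ContDiffAt ℝ (⊤ : ℕ∞) (V.A 0 h) x := ((V.AHP 0).smooth h).contDiffAt
  have e3 : (fun y => dd a (V.b 2 h) y) =ᶠ[nhds x] fun y => c y * V.A 0 h y := by
    filter_upwards [hrel] with y hy
    have h3 := V.A2 h y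
    rw [hy.2.2] at h3
    show dd a (V.b 2 h) y = (T y * L y ^ 2 - V.b 1 h y) * V.A 0 h y
    linear_combination -h3
  have e4 : (fun y => dd b (V.b 2 h) y) =ᶠ[nhds x] fun y => (-2) * (c y * p y) := by
    filter_upwards [hrel] with y hy
    have h3 := V.dbs 1 h y
    have h4 : dd a (V.b 1 h) y = 2 * T y * L y * p y := by rw [← V.A1 h y, hy.2.1]
    have h5 : ddr I.al (I.ell h) y = p y := rfl
    show dd b (V.b 2 h) y = (-2) * ((T y * L y ^ 2 - V.b 1 h y) * p y)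
    have h6 : dd b (V.b (1 + 1) h) y = dd b (V.b 2 h) y := rfl
    rw [← ha, ← hb, h4, h6] at h3
    rw [← ha] at h5
    rw [h5] at h3
    rw [h3]
    show -(L y) * (2 * T y * L y * p y) + 2 * ((1 : ℕ) : ℂ) * p y * V.b 1 h y = _
    push_cast
    ring
  have k3 := dd_comm b a (c2 (hbs 2))
  rw [dd_congr b e3, dd_congr a e4, dc a (-2) ((df hcs).fun_mul (df hps)),
    dd_mul b (df hcs) (df hA0s), dd_mul a (df hcs) (df hps)] at k3
  have k4 : dd b (V.A 0 h) x = -2 * dd a p x := by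
    have h3 : V.A 0 h = fun y => dd a (V.b 0 h) y := funext fun y => V.A0 h y
    have h4 : (fun y => dd b (V.b 0 h) y) = fun y => (-2) * p y := funext fun y => V.db0 h y
    rw [h3, dd_comm b a (c2 (hbs 0)), h4, dc a (-2) (df hps)]
  have hsub : ∀ (v : Fin 2 → ℂ), dd v c x = dd v T x * L x ^ 2 + T x * (2 * L x * dd v L x)
      - dd v (V.b 1 h) x := by
    intro v
    have h3 : c = fun y => T y * L y ^ 2 + (-1) * V.b 1 h y := by
      funext y
      rw [hc]
      ring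
    rw [h3, dd_add v ((df hTs).fun_mul (df hL2)) ((df (hbs 1)).const_mul (-1)),
      dd_mul v (df hTs) (df hL2), dd_pow v (df (hLa x)) 2, dc v (-1) (df (hbs 1))]
    push_cast
    ring
  have k5 : dd a c x = dd a T x * L x ^ 2 := by
    have h3 : dd a (V.b 1 h) x = 2 * (T x * (L x * p x)) := e1.self_of_nhds
    have h4 : dd a L x = p x := rfl
    rw [hsub a, h3, h4]
    ring
  have k6 : dd b c x = dd b T x * L x ^ 2 := by
    have h3 : dd b (V.b 1 h) x = 2 * (T x * (L x * q x)) := e2.self_of_nhds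
    have h4 : dd b L x = q x := rfl
    rw [hsub b, h3, h4]
    ring
  rw [k4, k5, k6, hrelx.1] at k3
  have k7 : L x ^ 2 * (T x * dd b T x * q x - dd a T x * p x) = 0 := by
    linear_combination -k3 / 2
  exact sub_eq_zero.1 ((mul_eq_zero.1 k7).resolve_left (pow_ne_zero 2 hl))

/-- TASK R12 (4).  The two relations for `dθ`.  Let `O = {dU ≠ 0}` (open) and suppose `GC` holds on
`O`.  Write `θ = th`, `l = ell h`.

Proof of (R1).  On `O`: `dd (b 1 h) = A_1 = 2 θ l dd l`, `db (b 1 h) = - l dd (b 0 h) = - l A_0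
= 2 θ l db l`.  `dd_comm` for `b 1 h`: `db (2 θ l dd l) = dd (2 θ l db l)`, and since
`db (l dd l) = dd (l db l)` we get `l (db θ dd l - dd θ db l) = 0`.  For `h ≠ U x` divide by `l`;
`db θ dd l_h - dd θ db l_h` is an affine function of `h`, zero for `h ≠ U x`, so also for `h = U x`,
where `dd l = - dd U / mu`.
Proof of (R2).  Put `c = θ l² - b 1 h`.  Then `dd c = dd θ l²`, `db c = db θ l²`,
`dd (b 2 h) = A_2 - b_1 A_0 = c A_0`, `db (b 2 h) = - l dd b_1 + 2 dd l b_1 = - 2 c dd l`.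
`db A_0 = db dd b_0 = dd db b_0 = - 2 dd dd l`.  `dd_comm` for `b 2 h`:
`db θ l² A_0 - 2 c dd dd l = - 2 dd θ l² dd l - 2 c dd dd l`, so for `l ≠ 0`
`db θ A_0 = - 2 dd θ dd l`, i.e. `θ db θ db l = dd θ dd l`; again affine in `h`, let `h = U x`. -/
theorem R12 (I : ID) (V : Uni I) (hGC : ∀ x, fderiv ℝ I.U x ≠ 0 → ∃ θ, GC I V x θ) (x : V2)
    (hdU : fderiv ℝ I.U x ≠ 0) :
    dd (cj I.al) (th I V) x * ddr I.al I.U x = dd I.al (th I V) x * ddr (cj I.al) I.U x ∧
    th I V x * dd (cj I.al) (th I V) x * ddr (cj I.al) I.U x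
      = dd I.al (th I V) x * ddr I.al I.U x := by
  have hmu := I.mupos x
  have hmuc : (I.mu x : ℂ) ≠ 0 := by exact_mod_cast hmu.ne'
  have l1 : I.ell (I.U x + I.mu x) x = 1 := by
    unfold ID.ell
    field_simp
    ring
  have l2 : I.ell (I.U x - I.mu x) x = -1 := by
    unfold ID.ell
    field_simp
    ring
  obtain ⟨a1, b1⟩ := R12_level I V hGC x hdU (I.U x + I.mu x) (by rw [l1]; simp)
  obtain ⟨a2, b2⟩ := R12_level I V hGC x hdU (I.U x - I.mu x) (by rw [l2]; simp)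
  have p1 := I.ddr_ell (I.U x + I.mu x) I.al x
  have p2 := I.ddr_ell (I.U x - I.mu x) I.al x
  have q1 := I.ddr_ell (I.U x + I.mu x) (cj I.al) x
  have q2 := I.ddr_ell (I.U x - I.mu x) (cj I.al) x
  rw [l1] at p1 q1
  rw [l2] at p2 q2
  push_cast at p1 p2 q1 q2
  generalize ddr I.al (I.ell (I.U x + I.mu x)) x = P1 at *
  generalize ddr I.al (I.ell (I.U x - I.mu x)) x = P2 at *
  generalize ddr (cj I.al) (I.ell (I.U x + I.mu x)) x = Q1 at *
  generalize ddr (cj I.al) (I.ell (I.U x - I.mu x)) x = Q2 at *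
  generalize dd (cj I.al) (th I V) x = B at *
  generalize dd I.al (th I V) x = D at *
  generalize th I V x = T at *
  generalize ddr I.al I.U x = u at *
  generalize ddr (cj I.al) I.U x = v at *
  generalize ddr I.al I.mu x = m at *
  generalize ddr (cj I.al) I.mu x = n at *
  generalize (I.mu x : ℂ) = M at *
  have hu : u = -(M * (P1 + P2)) / 2 := by linear_combination (p1 + p2) / 2
  have hv : v = -(M * (Q1 + Q2)) / 2 := by linear_combination (q1 + q2) / 2
  rw [hu, hv]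
  constructor
  · linear_combination -(M / 2) * (a1 + a2)
  · linear_combination -(M / 2) * (b1 + b2)

end Pool.W4b1b5d.E
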