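import Pool.Agent.W_4b1b5d_h78.Top
import Pool.Agent.W_4b1b5d_h3.ToID
import Pool.Agent.W_4b1b5d_h76.TrC

set_option autoImplicit false

namespace Pool.W4b1b5d.E

open Pool.W4b1b5d.H3 Pool.Agent.U4b

/-- The complex momentum `P = ∑ al_i p_i`. -/
noncomputable def PC (al : Fin 2 → ℂ) (p : V2) : ℂ := ∑ i, al i * (p i : ℂ)

theorem rede_box (n : ℕ) (P : CP) (h : ∀ a b, n < a + b → P.coeff (mk2 a b) = 0) :
    P = ∑ q ∈ Finset.range (n + 1) ×ˢ Finset.range (n + 1),
      MvPolynomial.monomial (mk2 q.1 q.2) (P.coeff (mk2 q.1 q.2)) := by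
  ext m
  rw [MvPolynomial.coeff_sum]
  simp only [MvPolynomial.coeff_monomial]
  rw [RealId_eq_mk2 m]
  by_cases hm : m 0 ≤ n ∧ m 1 ≤ n
  · rw [Finset.sum_eq_single (m 0, m 1)]
    · simp
    · intro q _ hq
      rw [if_neg]
      intro h'
      obtain ⟨h1, h2⟩ := RealId_mk2_inj h'
      exact hq (by ext <;> simp [h1, h2])
    · intro h'
      exfalso
      apply h'
      simp only [Finset.mem_product, Finset.mem_range]
      omega
  · rw [h _ _ (by omega)]
    symm
    apply Finset.sum_eq_zero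
    intro q hq
    rw [if_neg]
    intro h'
    obtain ⟨h1, h2⟩ := RealId_mk2_inj h'
    simp only [Finset.mem_product, Finset.mem_range] at hq
    omega

theorem rede_eval (n : ℕ) (P : CP) (h : ∀ a b, n < a + b → P.coeff (mk2 a b) = 0) (u v : ℂ) :
    MvPolynomial.eval ![u, v] P = ∑ a ∈ Finset.range (n + 1), ∑ b ∈ Finset.range (n + 1),
      P.coeff (mk2 a b) * u ^ a * v ^ b := by
  conv_lhs => rw [rede_box n P h]
  rw [map_sum, Finset.sum_product]
  refine Finset.sum_congr rfl fun a _ => Finset.sum_congr rfl fun b _ => ?_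
  rw [MvPolynomial.eval_monomial, Finsupp.prod_fintype _ _ (fun i => pow_zero _),
    Fin.prod_univ_two]
  unfold mk2
  simp
  ring

theorem rede_Ph (al om : Fin 2 → ℂ)
    (h3 : ∀ i j, om i * al j + (starRingEnd ℂ) (om i * al j) = if i = j then 1 else 0)
    (p : V2) (F : RP) :
    MvPolynomial.eval ![PC al p, (starRingEnd ℂ) (PC al p)] (Ph om F)
      = ((MvPolynomial.eval p F : ℝ) : ℂ) := by
  have h : ((MvPolynomial.eval ![PC al p, (starRingEnd ℂ) (PC al p)] : CP →+* ℂ).comp
      (Ph om).toRingHom : RP →+* ℂ) = Complex.ofRealHom.comp (MvPolynomial.eval p) := by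
    refine MvPolynomial.ringHom_ext ?_ ?_
    · intro r
      have h1 : (Ph om).toRingHom (MvPolynomial.C r) = MvPolynomial.C (r : ℂ) := Subst_C om r
      rw [RingHom.comp_apply, h1]
      simp
    · intro i
      have h1 : (Ph om).toRingHom (MvPolynomial.X i) = MvPolynomial.C (om i) * MvPolynomial.X 0
        + MvPolynomial.C ((starRingEnd ℂ) (om i)) * MvPolynomial.X 1 := Subst_X om i
      rw [RingHom.comp_apply, h1]
      simp only [map_add, map_mul, MvPolynomial.eval_C, MvPolynomial.eval_X,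
        Matrix.cons_val_zero, Matrix.cons_val_one, RingHom.comp_apply, Complex.ofRealHom_eq_coe]
      unfold PC
      rw [map_sum, Finset.mul_sum, Finset.mul_sum, ← Finset.sum_add_distrib]
      have h2 : ∀ j : Fin 2, om i * (al j * (p j : ℂ))
          + (starRingEnd ℂ) (om i) * (starRingEnd ℂ) (al j * (p j : ℂ))
          = (if i = j then 1 else 0) * (p j : ℂ) := by
        intro j
        rw [← h3 i j, map_mul, map_mul, Complex.conj_ofReal]
        ring
      rw [Finset.sum_congr rfl fun j _ => h2 j]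
      simp
  exact congrArg (fun g : RP →+* ℂ => g F) h

theorem rede_PC_neg (al : Fin 2 → ℂ) (p : V2) : PC al (-p) = - PC al p := by
  unfold PC
  rw [← Finset.sum_neg_distrib]
  refine Finset.sum_congr rfl fun i _ => ?_
  rw [Pi.neg_apply]
  push_cast
  ring

/-- TASK RedE (1).  The data `ID` of the even part of a polynomial integral.

Proof.  As `toID`, with `n = 2 N` (a bound of the degree): `al` from `exists_alpha`, `om` from
`exists_dual`, `f = fco om (2 N) F`, the fields as in the proof of `toID` (copy it; the hypothesis on the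
top degree is not needed for them).  Last statement: `Ph om (F x)` evaluated at `(P, conj P)` is
`eval p (F x)` (see `Subst`, `Ph` is the substitution `X_i ↦ om_i X_0 + conj(om_i) X_1` and
`om_i P + conj(om_i P) = p_i` by the third property of `om`); taking the average with `-p` keeps the
terms with `a + b` even, which are the `f a b` (`2N` is even), so
`∑_{a,b ≤ 2N} f a b P^a conj(P)^b = (eval p (F x) + eval (-p) (F x)) / 2`. -/
theorem exists_ID (G : Matrix (Fin 2) (Fin 2) ℝ) (hG : G.PosDef) (mu U : V2 → ℝ)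
    (hmu0 : ∀ x, 0 < mu x) (hmu : ContDiff ℝ (⊤ : ℕ∞) mu) (hU : ContDiff ℝ (⊤ : ℕ∞) U)
    (hmuper : Per mu) (hUper : Per U) (F : V2 → MvPolynomial (Fin 2) ℝ)
    (hF : Pool.Agent.U4b.IsInt (Ham (fun x => mu x • G) U) F) :
    ∃ (I : ID) (N : ℕ), I.n = 2 * N ∧ I.U = U ∧ I.mu = mu ∧
      (∀ i j, ((G i j : ℝ) : ℂ)
        = I.al i * (starRingEnd ℂ) (I.al j) + I.al j * (starRingEnd ℂ) (I.al i)) ∧
      ∀ x p : V2, ∑ a ∈ Finset.range (2 * N + 1), ∑ b ∈ Finset.range (2 * N + 1),
          I.f a b x * PC I.al p ^ a * (starRingEnd ℂ) (PC I.al p) ^ b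
        = (((MvPolynomial.eval p (F x) + MvPolynomial.eval (-p) (F x)) / 2 : ℝ) : ℂ) := by
  obtain ⟨hF1, hF2, ⟨N, hN0⟩, hbr⟩ := hF
  have hdeg : ∀ x, (F x).totalDegree ≤ 2 * N := fun x => (hN0 x).trans (by omega)
  obtain ⟨al, hal0, hal⟩ := exists_alpha G hG
  obtain ⟨om, h1, h2, h3⟩ := exists_dual al hal0
  have hH : ∀ x p, Ham (fun x => mu x • G) U x p
      = (1 / 2 : ℝ) * ∑ i, ∑ j, (mu x * G i j) * p i * p j + U x := by
    intro x p
    unfold Ham
    simp only [Matrix.smul_apply, smul_eq_mul]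
  refine ⟨{
    al := al
    hal := hal0
    n := 2 * N
    mu := mu
    U := U
    f := fco om (2 * N) F
    mupos := hmu0
    musm := hmu
    Usm := hU
    muper := hmuper
    Uper := hUper
    fsm := fco_smooth om (2 * N) F hF1 hdeg
    fper := ?_
    f_neg := ?_
    f_neg' := ?_
    f_big := ?_
    conj := ?_
    par := ?_
    eqn := fco_eqn G hG mu U hmu hU (Ham (fun x => mu x • G) U) hH F hF1 (2 * N) hdeg hbr al om
      hal h1 h2 h3 }, N, rfl, rfl, rfl, hal, ?_⟩
  · intro a b x k
    unfold fco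
    rw [hF2 x k]
  · intro a b x ha
    rw [ToID_fco_zero om (2 * N) F a b fun h => by omega]
  · intro a b x hb
    rw [ToID_fco_zero om (2 * N) F a b fun h => by omega]
  · intro a b x hab
    unfold fco
    split_ifs with h
    · exact Ph_degree om (F x) (2 * N) (hdeg x) _ _ (by omega)
    · rfl
  · intro a b x
    unfold fco
    by_cases h : 0 ≤ a ∧ 0 ≤ b ∧ Even (a + b + (2 * N : ℕ))
    · rw [if_pos h, if_pos ⟨h.2.1, h.1, by rw [add_comm b a]; exact h.2.2⟩]
      exact Ph_conj om (F x) _ _
    · rw [if_neg h, if_neg fun h' => h ⟨h'.2.1, h'.1, by rw [add_comm a b]; exact h'.2.2⟩,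
        map_zero]
  · intro a b x hab
    rw [ToID_fco_zero om (2 * N) F a b fun h => by
      have h4 := h.2.2
      rw [← Int.not_odd_iff_even] at h4
      exact h4 (by exact_mod_cast hab)]
  · intro x p
    show ∑ a ∈ Finset.range (2 * N + 1), ∑ b ∈ Finset.range (2 * N + 1),
      fco om (2 * N) F a b x * PC al p ^ a * (starRingEnd ℂ) (PC al p) ^ b = _
    have e1 := rede_Ph al om h3 p (F x)
    have e2 := rede_Ph al om h3 (-p) (F x)
    have hc : ∀ a b, 2 * N < a + b → (Ph om (F x)).coeff (mk2 a b) = 0 :=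
      fun a b hab => Ph_degree om (F x) (2 * N) (hdeg x) a b hab
    rw [rede_eval (2 * N) _ hc] at e1 e2
    rw [Complex.ofReal_div, Complex.ofReal_add, ← e1, ← e2, ← Finset.sum_add_distrib]
    simp only [← Finset.sum_add_distrib]
    rw [Finset.sum_div]
    refine Finset.sum_congr rfl fun a _ => ?_
    rw [Finset.sum_div]
    refine Finset.sum_congr rfl fun b _ => ?_
    rw [rede_PC_neg, map_neg]
    by_cases hab : Even (a + b)
    · have h4 : Even ((a : ℤ) + b + (2 * N : ℕ)) := by
        rw [show (a : ℤ) + b + (2 * N : ℕ) = ((a + b : ℕ) : ℤ) + 2 * (N : ℤ) by push_cast; ring]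
        exact (by exact_mod_cast hab : Even ((a + b : ℕ) : ℤ)).add (even_two_mul _)
      rw [ToID_fco om (2 * N) F a b x h4, ToID_cz_nat]
      have h5 : (-PC al p) ^ a * (-(starRingEnd ℂ) (PC al p)) ^ b
          = PC al p ^ a * (starRingEnd ℂ) (PC al p) ^ b := by
        rw [neg_pow (PC al p), neg_pow ((starRingEnd ℂ) (PC al p))]
        have h6 : ((-1 : ℂ)) ^ a * (-1) ^ b = 1 := by
          rw [← pow_add]
          exact hab.neg_one_pow
        linear_combination (PC al p ^ a * (starRingEnd ℂ) (PC al p) ^ b) * h6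
      push_cast
      linear_combination (-(1 / 2 : ℂ)) * MvPolynomial.coeff (mk2 a b) (Ph om (F x)) * h5
    · have h4 : ¬ (0 ≤ (a : ℤ) ∧ 0 ≤ (b : ℤ) ∧ Even ((a : ℤ) + b + (2 * N : ℕ))) := by
        rintro ⟨-, -, h5⟩
        apply hab
        have h6 : Even (((a + b : ℕ) : ℤ) + 2 * (N : ℤ)) := by
          rw [show ((a + b : ℕ) : ℤ) + 2 * (N : ℤ) = (a : ℤ) + b + (2 * N : ℕ) by push_cast; ring]
          exact h5
        have h7 : Even ((a + b : ℕ) : ℤ) := (Int.even_add.1 h6).2 (even_two_mul _)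
        exact_mod_cast h7
      rw [ToID_fco_zero om (2 * N) F a b h4]
      have h5 : (-PC al p) ^ a * (-(starRingEnd ℂ) (PC al p)) ^ b
          = -(PC al p ^ a * (starRingEnd ℂ) (PC al p) ^ b) := by
        rw [neg_pow (PC al p), neg_pow ((starRingEnd ℂ) (PC al p))]
        have h6 : ((-1 : ℂ)) ^ a * (-1) ^ b = -1 := by
          rw [← pow_add]
          exact (Nat.not_even_iff_odd.1 hab).neg_one_pow
        linear_combination (PC al p ^ a * (starRingEnd ℂ) (PC al p) ^ b) * h6
      push_cast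
      linear_combination (-(1 / 2 : ℂ)) * MvPolynomial.coeff (mk2 a b) (Ph om (F x)) * h5

/-- TASK RedE (2).  If all `beta h s` with `s ≥ 1` vanish then the even part of `F` is a polynomial
in `H`.

Proof.  All `beta h s` with `s ≠ 0` vanish (`beta_conj`).  `beta h 0` does not depend on `x`
(`beta_trans` with `s = 1`: `db beta_0 = 0`; `liou`).  Fix `x0`: `beta h 0 x0 = ∑_b f_bb(x0) l^b` is a
polynomial in `h` with real coefficients (`f_bb` is real by `I.conj`): `= q(h)`.
For `x`, `p` with `P = PC al p`, put `l = |P|²`, `h = mu l + U x = H(x,p)` (use the formula for `G`: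
`½ ∑ G_ij p_i p_j = |P|²`), `l = ell h x`.  If `P ≠ 0`:
`∑ f a b P^a conj(P)^b = ∑_s beta_s P^s` (`conj P = l / P`; `s = a - b`) `= beta_0 = q(H)`.
If `P = 0` then `p = 0`, only `a = b = 0` remains, `f_00 = beta (U x) 0 x = q(U x)`
(or continuity in `p`). -/
theorem poly_of_beta (G : Matrix (Fin 2) (Fin 2) ℝ) (I : ID) (N : ℕ) (hN : I.n = 2 * N)
    (hal : ∀ i j, ((G i j : ℝ) : ℂ)
        = I.al i * (starRingEnd ℂ) (I.al j) + I.al j * (starRingEnd ℂ) (I.al i))
    (hb : ∀ (h : ℝ) (s : ℤ) (x : V2), 1 ≤ s → I.beta h s x = 0) :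
    ∃ q : Polynomial ℝ, ∀ x p : V2,
      ∑ a ∈ Finset.range (2 * N + 1), ∑ b ∈ Finset.range (2 * N + 1),
          I.f a b x * PC I.al p ^ a * (starRingEnd ℂ) (PC I.al p) ^ b
        = ((q.eval (Ham (fun x => I.mu x • G) I.U x p) : ℝ) : ℂ) := by
  have hU0 : ∀ (h : ℝ) (x : V2), I.beta h 0 x = I.beta h 0 0 := by
    intro h x
    obtain ⟨c, hc⟩ := liou I.al I.hal (I.beta h 0) (I.beta_smooth h 0) (I.beta_per h 0) (by
      intro y
      have h1 := I.beta_trans h 1 y
      have h2 : I.beta h (1 + 1) = fun _ => 0 := by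
        funext z
        exact hb h (1 + 1) z (by norm_num)
      rw [h2, BetaA_const, mul_zero, add_zero, mul_zero, add_zero, sub_self] at h1
      exact h1)
    rw [hc x, hc 0]
  have hreal : ∀ (b : ℕ) (x : V2), (((I.f b b x).re : ℝ) : ℂ) = I.f b b x := by
    intro b x
    exact Complex.conj_eq_iff_re.1 (I.conj b b x).symm
  refine ⟨∑ b ∈ Finset.range (I.n + 1), Polynomial.C ((I.f b b 0).re) *
    (Polynomial.C ((I.mu 0)⁻¹) * (Polynomial.X - Polynomial.C (I.U 0))) ^ b, fun x p => ?_⟩
  set P : ℂ := PC I.al p with hP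
  set h : ℝ := Ham (fun x => I.mu x • G) I.U x p with hh
  have hq : ((Polynomial.eval h (∑ b ∈ Finset.range (I.n + 1), Polynomial.C ((I.f b b 0).re) *
      (Polynomial.C ((I.mu 0)⁻¹) * (Polynomial.X - Polynomial.C (I.U 0))) ^ b) : ℝ) : ℂ)
      = I.beta h 0 0 := by
    rw [Polynomial.eval_finsetSum]
    unfold ID.beta
    push_cast
    refine Finset.sum_congr rfl fun b _ => ?_
    simp only [Polynomial.eval_mul, Polynomial.eval_pow, Polynomial.eval_C, Polynomial.eval_sub,
      Polynomial.eval_X]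
    rw [zero_add]
    push_cast
    rw [hreal b 0]
    congr 2
    unfold ID.ell
    push_cast
    rw [div_eq_mul_inv, mul_comm]
  rw [hq, ← hU0 h x]
  -- the Hamiltonian in complex form
  have hell : (I.ell h x : ℂ) = P * (starRingEnd ℂ) P := by
    have hm : (I.mu x : ℂ) ≠ 0 := by exact_mod_cast (I.mupos x).ne'
    have h1 : ((h : ℝ) : ℂ) = (I.mu x : ℂ) * (P * (starRingEnd ℂ) P) + (I.U x : ℂ) := by
      rw [hh, hP]
      unfold Ham PC
      simp only [Matrix.smul_apply, smul_eq_mul, Fin.sum_univ_two]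
      push_cast
      rw [hal 0 0, hal 0 1, hal 1 0, hal 1 1]
      simp only [map_add, map_mul, Complex.conj_ofReal]
      ring
    unfold ID.ell
    push_cast
    rw [h1]
    field_simp
    ring
  by_cases hP0 : P = 0
  · rw [hP0] at hell ⊢
    have h1 : I.beta h 0 x = I.f 0 0 x := by
      have h2 : I.ell h x = 0 := by
        rw [map_zero, mul_zero] at hell
        exact_mod_cast hell
      unfold ID.beta
      rw [h2, Finset.sum_eq_single 0]
      · simp
      · intro b _ hb0
        rw [Complex.ofReal_zero, zero_pow hb0, mul_zero]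
      · intro h3
        exact absurd (Finset.mem_range.2 (Nat.succ_pos _)) h3
    rw [h1, Finset.sum_eq_single 0, Finset.sum_eq_single 0]
    · simp
    · intro b _ hb0
      rw [map_zero, zero_pow hb0, mul_zero]
    · intro h3
      exact absurd (Finset.mem_range.2 (Nat.succ_pos _)) h3
    · intro a _ ha0
      refine Finset.sum_eq_zero fun b _ => ?_
      rw [zero_pow ha0, mul_zero, zero_mul]
    · intro h3
      exact absurd (Finset.mem_range.2 (Nat.succ_pos _)) h3
  · have hbz : ∀ s : ℤ, s ≠ 0 → I.beta h s x = 0 := by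
      intro s hs
      rcases lt_or_ge 0 s with h1 | h1
      · exact hb h s x (by omega)
      · have h2 := I.beta_conj h s.natAbs x
        have h3 : -(s.natAbs : ℤ) = s := by omega
        rw [h3, hb h s.natAbs x (by omega), map_zero, mul_zero] at h2
        exact h2
    rw [Finset.sum_comm]
    have h1 : ∀ b ∈ Finset.range (2 * N + 1), ∑ a ∈ Finset.range (2 * N + 1),
        I.f a b x * P ^ a * (starRingEnd ℂ) P ^ b =
        ∑ s ∈ Finset.Icc (-(2 * N : ℤ)) (2 * N), P ^ s * (I.f (s + b) b x * (I.ell h x : ℂ) ^ b) := by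
      intro b hb1
      rw [Finset.mem_range] at hb1
      refine Finset.sum_of_injOn (fun a : ℕ => (a : ℤ) - b) ?_ ?_ ?_ ?_
      · intro a _ a' _ haa
        simp only at haa
        omega
      · intro a ha
        simp only [Finset.coe_range, Set.mem_Iio] at ha
        simp only [Finset.coe_Icc, Set.mem_Icc]
        omega
      · intro s hs hns
        have h2 : I.f (s + b) b x = 0 := by
          rcases lt_or_ge (s + b) 0 with h3 | h3
          · exact I.f_neg _ _ x h3
          · refine I.f_big _ _ x ?_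
            rw [hN]
            by_contra hcon
            apply hns
            refine ⟨(s + b).toNat, ?_, ?_⟩
            · simp only [Finset.coe_range, Set.mem_Iio]
              omega
            · simp only
              omega
        rw [h2, zero_mul, mul_zero]
      · intro a _
        rw [hell, mul_pow, sub_add_cancel, zpow_sub₀ hP0, zpow_natCast, zpow_natCast]
        have h3 : P ^ b ≠ 0 := pow_ne_zero b hP0
        field_simp
    rw [Finset.sum_congr rfl h1, Finset.sum_comm]
    have h2 : ∀ s ∈ Finset.Icc (-(2 * N : ℤ)) (2 * N), ∑ b ∈ Finset.range (2 * N + 1),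
        P ^ s * (I.f (s + b) b x * (I.ell h x : ℂ) ^ b) = P ^ s * I.beta h s x := by
      intro s _
      rw [← Finset.mul_sum]
      unfold ID.beta
      rw [hN]
    rw [Finset.sum_congr rfl h2, Finset.sum_eq_single 0]
    · rw [zpow_zero, one_mul]
    · intro s _ hs
      rw [hbz s hs, mul_zero]
    · intro h3
      exfalso
      apply h3
      rw [Finset.mem_Icc]
      omega

end Pool.W4b1b5d.E
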