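import Pool.Agent.W_4b1b5d_h78.Top
import Pool.Agent.W_4b1b5d_h78.AlgT

set_option autoImplicit false

namespace Pool.W4b1b5d.E

open Pool.W4b1b5d.H3

/-- TASK Step (1).  For `h` with `a = Bt h M ≠ 0` the equation `db e = -2 dd l` has a solution:
`e = Bt (M-1) / (M a)` (`Bt_trans` with `k = M - 1`, and `dd (Bt M) = 0` because it is
constant). -/
theorem step0 (I : ID) (M : ℕ) (hM : 1 ≤ M) (h : ℝ) (a : ℂ) (ha : a ≠ 0)
    (htop : ∀ x, Bt I h M x = a) :
    ∃ e : V2 → ℂ, ContDiff ℝ (⊤ : ℕ∞) e ∧ Per e ∧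
      ∀ x, dd (cj I.al) e x = -2 * ddr I.al (I.ell h) x := by
  have hMc : (M : ℂ) ≠ 0 := by
    have : M ≠ 0 := by omega
    exact_mod_cast this
  refine ⟨fun x => ((M : ℂ) * a)⁻¹ * Bt I h ((M : ℤ) - 1) x,
    contDiff_const.mul (Bt_smooth I h _), ?_, ?_⟩
  · intro x k
    show ((M : ℂ) * a)⁻¹ * Bt I h ((M : ℤ) - 1) _ = ((M : ℂ) * a)⁻¹ * Bt I h ((M : ℤ) - 1) x
    rw [Bt_per I h _ x k]
  · intro x
    have hd : DifferentiableAt ℝ (Bt I h ((M : ℤ) - 1)) x :=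
      (Bt_smooth I h _).differentiable (by simp) x
    rw [dd_mul (cj I.al) (differentiableAt_const _) hd, BetaA_const, zero_mul, zero_add]
    have h1 := Bt_trans I h ((M : ℤ) - 1) x
    have e1 : (M : ℤ) - 1 + 1 = M := by ring
    rw [e1] at h1
    have h2 : Bt I h M = fun _ => a := funext htop
    rw [h2, BetaA_const] at h1
    push_cast at h1
    have h3 : dd (cj I.al) (Bt I h ((M : ℤ) - 1)) x =
        -(2 * (M : ℂ) * ddr I.al (I.ell h) x * a) := by
      linear_combination h1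
    rw [h3]
    field_simp

section

variable {S : Type*} [CommRing S] [Algebra ℂ S]

/-- the series `1 + ∑ B i w^(i+1)` -/
noncomputable def Step_q (B : ℕ → S) : PowerSeries S :=
  PowerSeries.mk fun t => Nat.casesOn t 1 B

omit [Algebra ℂ S] in
theorem Step_q_zero (B : ℕ → S) : PowerSeries.coeff 0 (Step_q B) = 1 :=
  PowerSeries.coeff_mk 0 _

omit [Algebra ℂ S] in
theorem Step_q_succ (B : ℕ → S) (t : ℕ) : PowerSeries.coeff (t + 1) (Step_q B) = B t :=
  PowerSeries.coeff_mk (t + 1) _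

theorem Step_LK_zero (d1 d2 : Derivation ℂ S S) (l u : S) (B : ℕ → S) :
    PowerSeries.coeff 0 (LK d1 d2 l u 1 (Step_q B)) = 0 := by
  unfold LK
  rw [map_add, coeff_cmap, PowerSeries.coeff_zero_X_mul, add_zero, Step_q_zero,
    Derivation.map_one_eq_zero]

theorem Step_LK_succ (d1 d2 : Derivation ℂ S S) (l u : S) (q : PowerSeries S) (t : ℕ) :
    PowerSeries.coeff (t + 1) (LK d1 d2 l u 1 q) = d2 (PowerSeries.coeff (t + 1) q)
      + (l * d1 (PowerSeries.coeff t q) + 2 * u * (PowerSeries.coeff t q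
        - (t : S) * PowerSeries.coeff t q)) := by
  unfold LK
  rw [map_add, coeff_cmap, PowerSeries.coeff_succ_X_mul, map_add, PowerSeries.coeff_C_mul,
    PowerSeries.coeff_C_mul, map_sub, coeff_cmap, coeff_eul, Nat.cast_one, one_mul]

theorem Step_LK_one (d1 d2 : Derivation ℂ S S) (l u : S) (B : ℕ → S) :
    PowerSeries.coeff 1 (LK d1 d2 l u 1 (Step_q B)) = d2 (B 0) + 2 * u := by
  have h := Step_LK_succ d1 d2 l u (Step_q B) 0
  rw [zero_add, Step_q_zero, Derivation.map_one_eq_zero] at h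
  have h2 := Step_q_succ B 0
  rw [zero_add] at h2
  rw [h, h2, Nat.cast_zero]
  ring

theorem Step_LK_two (d1 d2 : Derivation ℂ S S) (l u : S) (B : ℕ → S) (t : ℕ) :
    PowerSeries.coeff (t + 2) (LK d1 d2 l u 1 (Step_q B)) =
      d2 (B (t + 1)) + (l * d1 (B t) - 2 * (t : S) * u * B t) := by
  have h := Step_LK_succ d1 d2 l u (Step_q B) (t + 1)
  rw [h, Step_q_succ, Step_q_succ]
  push_cast
  ring

end

/-- TASK Step (2).  For `h` with `a = Bt h M ≠ 0`: if `b 0, ..., b j` are smooth periodic solutions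
of the recursion, the next equation is solvable.

Proof.  Apply `solv` to `S = Sm`, `d1 = ddS al`, `d2 = ddS (cj al)`, `l = lS`, `u = uS`, `hinj = Sm_inj`,
`hker = ker_ddS`, `r = ∑ BS (M - i) w^i` (`rs_LK`), and
`q = 1 + ∑_{i ≤ j} b_i w^(i+1)` (`PowerSeries.mk fun t => if t = 0 then 1 else if t ≤ j + 1 then b (t-1)
else 0`).  The coefficients of `LK 1 q` are: `0` at `w^0`; `db b_0 + 2 u` at `w^1`;
`db b_i + l dd b_{i-1} + 2 u (1 - i) b_{i-1}` at `w^(i+1)` for `1 ≤ i ≤ j`, all zero by the recursion;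
and at `w^(j+2)`: `l dd b_j + 2 u (1 - (j+1)) b_j = - g`, `g = - l dd b_j + 2 j u b_j`. -/
theorem step1 (I : ID) (M : ℕ) (hM : 1 ≤ M) (h : ℝ) (a : ℂ) (ha : a ≠ 0)
    (htop : ∀ x, Bt I h M x = a) (hbig : ∀ x, Bt I h ((M : ℤ) + 1) x = 0)
    (j : ℕ) (b : ℕ → V2 → ℂ)
    (hsm : ∀ i, i ≤ j → ContDiff ℝ (⊤ : ℕ∞) (b i)) (hper : ∀ i, i ≤ j → Per (b i))
    (hb0 : ∀ x, dd (cj I.al) (b 0) x = -2 * ddr I.al (I.ell h) x)
    (hbs : ∀ i, i < j → ∀ x, dd (cj I.al) (b (i + 1)) x =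
      - (I.ell h x : ℂ) * dd I.al (b i) x + 2 * (i : ℂ) * ddr I.al (I.ell h) x * b i x) :
    ∃ e : V2 → ℂ, ContDiff ℝ (⊤ : ℕ∞) e ∧ Per e ∧
      ∀ x, dd (cj I.al) e x =
        - (I.ell h x : ℂ) * dd I.al (b j) x + 2 * (j : ℂ) * ddr I.al (I.ell h) x * b j x := by
  classical
  set B : ℕ → Sm := fun i => if hi : i ≤ j then ⟨b i, hsm i hi, hper i hi⟩ else 0 with hB
  have hBle : ∀ i, i ≤ j → ∀ x, (B i : V2 → ℂ) x = b i x := by
    intro i hi x
    rw [hB]
    simp only [dif_pos hi]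
  have hBdd : ∀ (α : Fin 2 → ℂ) i, i ≤ j → ∀ x, (ddS α (B i) : V2 → ℂ) x = dd α (b i) x := by
    intro α i hi x
    rw [ddS_apply]
    have : (B i : V2 → ℂ) = b i := funext (hBle i hi)
    rw [this]
  have hBgt : B (j + 1) = 0 := by
    rw [hB]
    simp only [dif_neg (show ¬ (j + 1 ≤ j) by omega)]
  have hr0 : PowerSeries.coeff 0 (PowerSeries.mk fun i => BS I h ((M : ℤ) - (i : ℕ))) =
      algebraMap ℂ Sm a := by
    rw [PowerSeries.coeff_mk]
    refine Sm_ext fun x => ?_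
    rw [BS_apply]
    have e0 : (M : ℤ) - ((0 : ℕ) : ℤ) = M := by simp
    rw [e0, htop]
    rfl
  obtain ⟨e, he⟩ := solv (ddS I.al) (ddS (cj I.al)) (lS I h) (uS I h) Sm_inj
    (ker_ddS I.al I.hal) M hM (PowerSeries.mk fun i => BS I h ((M : ℤ) - i)) a ha hr0
    (rs_LK I M h hbig) j (Step_q B) (Step_q_zero B)
    (-(lS I h * ddS I.al (B j) - 2 * (j : Sm) * uS I h * B j)) (by
      intro i hi
      rcases i with _ | _ | t
      · exact Step_LK_zero _ _ _ _ _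
      · rw [zero_add, Step_LK_one]
        refine Sm_ext fun x => ?_
        show (ddS (cj I.al) (B 0) : V2 → ℂ) x + 2 * (uS I h : V2 → ℂ) x = 0
        rw [hBdd _ 0 (Nat.zero_le j), hb0, uS_apply]
        ring
      · rw [Step_LK_two]
        refine Sm_ext fun x => ?_
        show (ddS (cj I.al) (B (t + 1)) : V2 → ℂ) x + ((lS I h : V2 → ℂ) x *
          (ddS I.al (B t) : V2 → ℂ) x - 2 * (t : ℂ) * (uS I h : V2 → ℂ) x *
            (B t : V2 → ℂ) x) = 0
        rw [hBdd _ (t + 1) (by omega), hBdd _ t (by omega), hBle t (by omega), hbs t (by omega),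
          uS_apply, lS_apply]
        ring) (by
      rw [Step_LK_two, hBgt, map_zero, zero_add, neg_neg])
  refine ⟨e, e.2.1, e.2.2, fun x => ?_⟩
  have h1 := congrArg (fun g : Sm => (g : V2 → ℂ) x) he
  have h2 : dd (cj I.al) (e : V2 → ℂ) x = -((I.ell h x : ℂ) * (ddS I.al (B j) : V2 → ℂ) x -
      2 * (j : ℂ) * ddr I.al (I.ell h) x * (B j : V2 → ℂ) x) := h1
  rw [h2, hBdd _ j le_rfl, hBle j le_rfl]
  ring

end Pool.W4b1b5d.E
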