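import Pool.Agent.W_4b1b5d_h78.Lag
import Pool.Agent.W_4b1b5d_h78.Step

set_option autoImplicit false

namespace Pool.W4b1b5d.E

open Pool.W4b1b5d.H3

/-- the predicate which defines `b (j+1)` -/
def SeqB_PS (I : ID) (j : ℕ) (bj e : ℝ → V2 → ℂ) : Prop :=
  HP (j + 2) e ∧ ∀ h x, dd (cj I.al) (e h) x =
    - (I.ell h x : ℂ) * dd I.al (bj h) x + 2 * (j : ℂ) * ddr I.al (I.ell h) x * bj h x

/-- the predicate which defines `b 0` -/
def SeqB_P0 (I : ID) (e : ℝ → V2 → ℂ) : Prop :=
  HP 1 e ∧ ∀ h x, dd (cj I.al) (e h) x = -2 * ddr I.al (I.ell h) x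

/-- the sequence -/
noncomputable def SeqB_b (I : ID) : ℕ → ℝ → V2 → ℂ
  | 0 => Classical.epsilon (SeqB_P0 I)
  | j + 1 => Classical.epsilon (SeqB_PS I j (SeqB_b I j))

theorem SeqB_inf {pa : Polynomial ℂ} (hpa : pa ≠ 0) :
    {h : ℝ | pa.eval (h : ℂ) ≠ 0}.Infinite := by
  have h1 : {h : ℝ | pa.eval (h : ℂ) = 0}.Finite := by
    have h2 : {h : ℝ | pa.eval (h : ℂ) = 0} ⊆ (fun h : ℝ => (h : ℂ)) ⁻¹' {z | z ∈ pa.roots} := by
      intro h hh
      exact (Polynomial.mem_roots hpa).2 hh
    refine Set.Finite.subset (Set.Finite.preimage (fun a _ b _ hab => Complex.ofReal_injective hab)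
      ?_) h2
    have h3 : {z | z ∈ pa.roots} = (pa.roots.toFinset : Set ℂ) := by
      ext z
      simp
    rw [h3]
    exact Finset.finite_toSet _
  have h4 := h1.infinite_compl
  exact h4

/-- TASK SeqB.  The universal series.

Proof.  Get `M`, `pa` from `top_exists`; `T = {h | pa.eval h ≠ 0}` is cofinite, so infinite.
Define `b` by recursion with `Classical.epsilon` (or choice):
`b 0 = epsilon (fun e => HP 1 e ∧ ∀ h x, dd (cj al) (e h) x = -2 ddr al (ell h) x)` and
`b (j+1) = epsilon (fun e => HP (j+2) e ∧ ∀ h x, dd (cj al) (e h) x = - l dd (b j h) + 2 j dd l b j h)`.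
Show by strong induction on `j` that the predicate defining `b j` has a solution, so that `b j` has
the property: for `b 0` use `lag` with `step0`; for `b (j+1)` use `lag` with `m = j + 2`
(the right side is in `HP (j+2)` by `HP.mul`, `HP.dd`, `HP.ell`, `HP.ddr_ell`) and `step1` for the
functions `b i h`, `i ≤ j`, `h ∈ T`. -/
theorem exists_b (I : ID) (N : ℕ) (hN : I.n = 2 * N)
    (hF : ∃ (h : ℝ) (s : ℤ) (x : V2), 1 ≤ s ∧ I.beta h s x ≠ 0) :
    ∃ b : ℕ → ℝ → V2 → ℂ, (∀ j, HP (j + 1) (b j)) ∧
      (∀ h x, dd (cj I.al) (b 0 h) x = -2 * ddr I.al (I.ell h) x) ∧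
      (∀ (j : ℕ) (h : ℝ) (x : V2), dd (cj I.al) (b (j + 1) h) x =
        - (I.ell h x : ℂ) * dd I.al (b j h) x
          + 2 * (j : ℂ) * ddr I.al (I.ell h) x * b j h x) := by
  obtain ⟨M, pa, hM1, hMN, hpa, htop, hbig⟩ := top_exists I N hN hF
  have hT := SeqB_inf hpa
  have h0 : SeqB_P0 I (SeqB_b I 0) := by
    have hex : ∃ e, SeqB_P0 I e := by
      refine lag I.al 1 (fun h x => -2 * ddr I.al (I.ell h) x)
        (HP.smul (-2) (HP.ddr_ell I I.al)) _ hT ?_
      intro h hh
      exact step0 I M hM1 h (pa.eval (h : ℂ)) hh (fun x => htop h x)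
    exact Classical.epsilon_spec hex
  have key : ∀ j : ℕ, (∀ i, i ≤ j → HP (i + 1) (SeqB_b I i)) ∧
      (∀ i, i < j → SeqB_PS I i (SeqB_b I i) (SeqB_b I (i + 1))) := by
    intro j
    induction j with
    | zero =>
      refine ⟨?_, ?_⟩
      · intro i hi
        have : i = 0 := by omega
        subst this
        exact h0.1
      · intro i hi
        omega
    | succ j ih =>
      obtain ⟨ih1, ih2⟩ := ih
      have hbj := ih1 j le_rfl
      have hstep : SeqB_PS I j (SeqB_b I j) (SeqB_b I (j + 1)) := by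
        have hg : HP (j + 2) (fun h x => - (I.ell h x : ℂ) * dd I.al (SeqB_b I j h) x
            + 2 * (j : ℂ) * ddr I.al (I.ell h) x * SeqB_b I j h x) := by
          have e1 := HP.smul (-1) (HP.mul (HP.ell I) (HP.dd I.al hbj))
          have e2 := HP.smul (2 * (j : ℂ)) (HP.mul (HP.ddr_ell I I.al) hbj)
          have e3 := HP.add e1 e2
          have e4 : (fun (h : ℝ) (x : V2) => - (I.ell h x : ℂ) * dd I.al (SeqB_b I j h) x
              + 2 * (j : ℂ) * ddr I.al (I.ell h) x * SeqB_b I j h x)
              = (fun h x => (-1) * ((I.ell h x : ℂ) * dd I.al (SeqB_b I j h) x)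
                + 2 * (j : ℂ) * (ddr I.al (I.ell h) x * SeqB_b I j h x)) := by
            funext h x
            ring
          rw [e4]
          exact HP.mono (by omega) e3
        have hex : ∃ e, SeqB_PS I j (SeqB_b I j) e := by
          refine lag I.al (j + 2) _ hg _ hT ?_
          intro h hh
          exact step1 I M hM1 h (pa.eval (h : ℂ)) hh (fun x => htop h x)
            (fun x => hbig ((M : ℤ) + 1) h x (by omega)) j (fun i => SeqB_b I i h)
            (fun i hi => (ih1 i hi).smooth h) (fun i hi => (ih1 i hi).per h)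
            (fun x => h0.2 h x) (fun i hi x => (ih2 i hi).2 h x)
        exact Classical.epsilon_spec hex
      refine ⟨?_, ?_⟩
      · intro i hi
        rcases Nat.lt_or_ge j i with hji | hji
        · have : i = j + 1 := by omega
          subst this
          exact hstep.1
        · exact ih1 i hji
      · intro i hi
        rcases Nat.lt_or_ge i j with hij | hij
        · exact ih2 i hij
        · have : i = j := by omega
          subst this
          exact hstep
  refine ⟨SeqB_b I, fun j => (key j).1 j le_rfl, h0.2, fun j h x => ?_⟩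
  exact ((key (j + 1)).2 j (by omega)).2 h x

end Pool.W4b1b5d.E
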