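import Pool.Agent.W_4b1b5d_h78.Defs
import Pool.Agent.W_4b1b5d_h3.BetaA
import Pool.Agent.W_4b1b5d_h3.Liou

set_option autoImplicit false

namespace Pool.W4b1b5d.E

open Pool.W4b1b5d.H3

/-- The ring of smooth periodic complex functions on the plane. -/
def Sm : Subalgebra ℂ (V2 → ℂ) where
  carrier := {f | ContDiff ℝ (⊤ : ℕ∞) f ∧ Per f}
  mul_mem' := by
    rintro f g ⟨h1, h2⟩ ⟨h3, h4⟩
    refine ⟨h1.mul h3, fun x k => ?_⟩
    show f _ * g _ = f x * g x
    rw [h2 x k, h4 x k]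
  add_mem' := by
    rintro f g ⟨h1, h2⟩ ⟨h3, h4⟩
    refine ⟨h1.add h3, fun x k => ?_⟩
    show f _ + g _ = f x + g x
    rw [h2 x k, h4 x k]
  algebraMap_mem' := by
    intro c
    exact ⟨contDiff_const, fun x k => rfl⟩

theorem Sm_ext {f g : Sm} (h : ∀ x, (f : V2 → ℂ) x = (g : V2 → ℂ) x) : f = g :=
  Subtype.ext (funext h)

theorem Sm_diff (f : Sm) : Differentiable ℝ (f : V2 → ℂ) := f.2.1.differentiable (by simp)

theorem dd_mem (a : Fin 2 → ℂ) {f : V2 → ℂ} (hf : ContDiff ℝ (⊤ : ℕ∞) f) (hp : Per f) :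
    (fun x => dd a f x) ∈ Sm := by
  refine ⟨?_, ?_⟩
  · have h1 : ∀ i : Fin 2, ContDiff ℝ (⊤ : ℕ∞) (fun x => fderiv ℝ f x (Pi.single i 1)) := fun i =>
      (hf.fderiv_right (m := (⊤ : ℕ∞)) (by simp)).clm_apply contDiff_const
    unfold dd
    exact ContDiff.sum fun i _ => contDiff_const.mul (h1 i)
  · intro x k
    have h1 : fderiv ℝ (fun y => f (y + fun i => (k i : ℝ))) x =
        fderiv ℝ f (x + fun i => (k i : ℝ)) := fderiv_comp_add_right _
    have h2 : (fun y => f (y + fun i => (k i : ℝ))) = f := funext fun y => hp y k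
    rw [h2] at h1
    show (∑ i, a i * fderiv ℝ f (x + fun i => (k i : ℝ)) (Pi.single i 1)) =
      ∑ i, a i * fderiv ℝ f x (Pi.single i 1)
    rw [← h1]

/-- The derivation `dd a` on the ring of smooth periodic functions. -/
noncomputable def ddS (a : Fin 2 → ℂ) : Derivation ℂ Sm Sm :=
  Derivation.mk'
    { toFun := fun f => ⟨fun x => dd a f x, dd_mem a f.2.1 f.2.2⟩
      map_add' := fun f g => Sm_ext fun x => by
        show dd a (fun y => (f : V2 → ℂ) y + (g : V2 → ℂ) y) x = dd a f x + dd a g x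
        exact dd_add a (Sm_diff f x) (Sm_diff g x)
      map_smul' := fun c f => Sm_ext fun x => by
        show dd a (fun y => c * (f : V2 → ℂ) y) x = c * dd a f x
        rw [dd_mul a (differentiableAt_const c) (Sm_diff f x), BetaA_const, zero_mul, zero_add] }
    (fun f g => Sm_ext fun x => by
      show dd a (fun y => (f : V2 → ℂ) y * (g : V2 → ℂ) y) x =
        (f : V2 → ℂ) x * dd a g x + (g : V2 → ℂ) x * dd a f x
      rw [dd_mul a (Sm_diff f x) (Sm_diff g x)]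
      ring)

theorem ddS_apply (a : Fin 2 → ℂ) (f : Sm) (x : V2) : (ddS a f : V2 → ℂ) x = dd a f x := rfl

theorem ker_ddS (al : Fin 2 → ℂ) (hal : ((starRingEnd ℂ) (al 0) * al 1).im ≠ 0) (f : Sm)
    (h : ddS (cj al) f = 0) : ∃ c : ℂ, f = algebraMap ℂ Sm c := by
  obtain ⟨c, hc⟩ := liou al hal f f.2.1 f.2.2 (fun x => by
    have h1 := congrArg (fun g : Sm => (g : V2 → ℂ) x) h
    exact h1)
  exact ⟨c, Sm_ext fun x => hc x⟩

theorem Sm_inj : Function.Injective (algebraMap ℂ Sm) := by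
  intro a b hab
  have h1 := congrArg (fun g : Sm => (g : V2 → ℂ) 0) hab
  exact h1

/-- `ell h` as an element of `Sm`. -/
noncomputable def lS (I : ID) (h : ℝ) : Sm :=
  ⟨fun x => (I.ell h x : ℂ), Complex.ofRealCLM.contDiff.comp (I.ell_smooth h),
    fun x k => by
      show ((I.ell h (x + fun i => (k i : ℝ)) : ℝ) : ℂ) = (I.ell h x : ℂ)
      rw [I.ell_per h x k]⟩

/-- `dd (ell h)` as an element of `Sm`. -/
noncomputable def uS (I : ID) (h : ℝ) : Sm := ddS I.al (lS I h)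

theorem lS_apply (I : ID) (h : ℝ) (x : V2) : (lS I h : V2 → ℂ) x = (I.ell h x : ℂ) := rfl

theorem uS_apply (I : ID) (h : ℝ) (x : V2) : (uS I h : V2 → ℂ) x = ddr I.al (I.ell h) x := rfl

theorem Bt_smooth (I : ID) (h : ℝ) (k : ℤ) : ContDiff ℝ (⊤ : ℕ∞) (Bt I h k) :=
  I.beta_smooth h (2 * k)

theorem Bt_per (I : ID) (h : ℝ) (k : ℤ) : Per (Bt I h k) := I.beta_per h (2 * k)

/-- `Bt` as an element of `Sm`. -/
noncomputable def BS (I : ID) (h : ℝ) (k : ℤ) : Sm := ⟨Bt I h k, Bt_smooth I h k, Bt_per I h k⟩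

theorem BS_apply (I : ID) (h : ℝ) (k : ℤ) (x : V2) : (BS I h k : V2 → ℂ) x = Bt I h k x := rfl

end Pool.W4b1b5d.E
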